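import Pool.Agent.U204.SARec

set_option autoImplicit false
set_option linter.unusedSectionVars false
set_option linter.unusedVariables false
open Filter Topology MeasureTheory

namespace Pool.Agent.U204.SA

/-- Walks from `x` to `y` of length `k`. -/
def walkF (G : L → Finset L) : (k : ℕ) → L → L → Finset (Fin (k + 1) → L)
  | 0, x, y => if x = y then {fun _ => x} else ∅
  | k + 1, x, y => (G x).biUnion fun u =>
      (walkF G k u y).image (fun f => (Fin.cons x f : Fin (k + 1 + 1) → L))

theorem mem_walkF (G : L → Finset L) (k : ℕ) (x y : L) (f : Fin (k + 1) → L) :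
    f ∈ walkF G k x y ↔ f 0 = x ∧ f (Fin.last k) = y ∧
      ∀ i : Fin k, f i.succ ∈ G (f i.castSucc) := by
  induction k generalizing x with
  | zero =>
    unfold walkF
    constructor
    · intro h
      split_ifs at h with hxy
      · rw [Finset.mem_singleton] at h
        subst h
        exact ⟨rfl, hxy, fun i => i.elim0⟩
      · simp at h
    · rintro ⟨h1, h2, _⟩
      have h3 : x = y := by rw [← h1, ← h2]; rfl
      rw [if_pos h3, Finset.mem_singleton]
      ext1 i
      have hi : i = 0 := Fin.ext (by have := i.2; simp at this ⊢)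
      rw [hi, h1]
  | succ k ih =>
    simp only [walkF, Finset.mem_biUnion, Finset.mem_image]
    constructor
    · rintro ⟨u, hu, g, hg, rfl⟩
      rw [ih] at hg
      obtain ⟨h1, h2, h3⟩ := hg
      refine ⟨rfl, ?_, ?_⟩
      · rw [← Fin.succ_last, Fin.cons_succ]; exact h2
      · intro i
        refine Fin.cases ?_ (fun j => ?_) i
        · rw [Fin.cons_succ, h1]; exact hu
        · rw [Fin.cons_succ, ← Fin.succ_castSucc, Fin.cons_succ]
          exact h3 j
    · rintro ⟨h1, h2, h3⟩
      refine ⟨f 1, ?_, Fin.tail f, ?_, ?_⟩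
      · have := h3 0
        rw [Fin.castSucc_zero, h1] at this
        exact this
      · rw [ih]
        refine ⟨rfl, ?_, ?_⟩
        · rw [Fin.tail, Fin.succ_last]; exact h2
        · intro i
          have := h3 i.succ
          rw [← Fin.succ_castSucc] at this
          exact this
      · rw [← h1]; exact Fin.cons_self_tail f

theorem card_walkF (G : L → Finset L) (k : ℕ) (x y : L) :
    ((walkF G k x y).card : ℝ) = (adjL G ^ k) (Pi.single y 1) x := by
  induction k generalizing x with
  | zero =>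
    unfold walkF
    by_cases hxy : x = y
    · subst hxy; simp
    · simp [hxy]
  | succ k ih =>
    rw [pow_succ', Module.End.mul_apply, adjL_apply]
    unfold walkF
    rw [Finset.card_biUnion]
    · push_cast
      apply Finset.sum_congr rfl
      intro u _
      rw [← ih u, Finset.card_image_of_injective]
      intro f g h
      exact Fin.cons_right_injective (α := fun _ => L) x h
    · intro u hu v hv huv
      rw [Function.onFun, Finset.disjoint_left]
      intro f hf hf2
      rw [Finset.mem_image] at hf hf2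
      obtain ⟨g, hg, rfl⟩ := hf
      obtain ⟨g', hg', h⟩ := hf2
      have h1 := (mem_walkF _ _ _ _ _).1 hg
      have h2 := (mem_walkF _ _ _ _ _).1 hg'
      have h3 := Fin.cons_right_injective (α := fun _ => L) x h
      apply huv
      rw [← h1.1, ← h2.1, h3]

/-- Being a vertex of the tree. -/
def inT (τ : L → ℕ) (w : L) : Prop := ∀ j < w.length, w.getD j 0 < τ (w.take j)

theorem inT_snoc (τ : L → ℕ) (w : L) (a : ℕ) : inT τ (w ++ [a]) ↔ inT τ w ∧ a < τ w := by
  unfold inT
  constructor
  · intro h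
    constructor
    · intro j hj
      have := h j (by simp; omega)
      rwa [List.take_append_of_le_length hj.le, List.getD_append _ _ _ _ hj] at this
    · have := h w.length (by simp)
      simpa using this
  · rintro ⟨h1, h2⟩ j hj
    rw [List.length_append, List.length_singleton] at hj
    rcases Nat.lt_or_ge j w.length with h3 | h3
    · rw [List.take_append_of_le_length h3.le, List.getD_append _ _ _ _ h3]
      exact h1 j h3
    · have : j = w.length := by omega
      subst this
      simpa using h2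

theorem walk_set (τ : L → ℕ) (k : ℕ) :
    {f : Fin (k + 1) → List ℕ |
            f 0 = [] ∧ f (Fin.last k) = [] ∧
            (∀ i, ∀ j < (f i).length, (f i).getD j 0 < τ ((f i).take j)) ∧
            ∀ i : Fin k, (∃ a : ℕ, f i.succ = f i.castSucc ++ [a]) ∨
                         (∃ a : ℕ, f i.castSucc = f i.succ ++ [a])}
      = (walkF (treeG τ) k [] [] : Set (Fin (k + 1) → L)) := by
  ext f
  rw [Finset.mem_coe, mem_walkF]
  constructor
  · rintro ⟨h1, h2, h3, h4⟩
    refine ⟨h1, h2, ?_⟩
    intro i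
    rw [mem_treeG]
    rcases h4 i with ⟨a, ha⟩ | ⟨a, ha⟩
    · left
      refine ⟨a, ?_, ha⟩
      have : inT τ (f i.succ) := h3 i.succ
      rw [ha, inT_snoc] at this
      exact this.2
    · right
      refine ⟨a, ?_, ha⟩
      have : inT τ (f i.castSucc) := h3 i.castSucc
      rw [ha, inT_snoc] at this
      exact this.2
  · rintro ⟨h1, h2, h3⟩
    have h5 : ∀ i, inT τ (f i) := by
      intro i
      induction i using Fin.induction with
      | zero => rw [h1]; intro j hj; simp at hj
      | succ i ih =>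
        have := h3 i
        rw [mem_treeG] at this
        rcases this with ⟨a, ha, h6⟩ | ⟨a, ha, h6⟩
        · rw [h6, inT_snoc]; exact ⟨ih, ha⟩
        · rw [h6, inT_snoc] at ih; exact ih.1
    refine ⟨h1, h2, h5, ?_⟩
    intro i
    have := h3 i
    rw [mem_treeG] at this
    rcases this with ⟨a, ha, h6⟩ | ⟨a, ha, h6⟩
    · left; exact ⟨a, h6⟩
    · right; exact ⟨a, h6⟩

theorem walk_count (τ : L → ℕ) (k : ℕ) :
    ((Set.ncard {f : Fin (k + 1) → List ℕ |
            f 0 = [] ∧ f (Fin.last k) = [] ∧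
            (∀ i, ∀ j < (f i).length, (f i).getD j 0 < τ ((f i).take j)) ∧
            ∀ i : Fin k, (∃ a : ℕ, f i.succ = f i.castSucc ++ [a]) ∨
                         (∃ a : ℕ, f i.castSucc = f i.succ ++ [a])} : ℕ) : ℝ)
      = (adjL (treeG τ) ^ k) (Pi.single [] 1) [] := by
  rw [walk_set, Set.ncard_coe_finset, card_walkF]

theorem abs_adj_pow_le {G : L → Finset L} {Δ : ℕ} (hG : GoodG G Δ) (k : ℕ) (x y : L) :
    |(adjL G ^ k) (Pi.single y 1) x| ≤ (Δ : ℝ) ^ k := by
  induction k generalizing x with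
  | zero =>
    rw [pow_zero, pow_zero, Module.End.one_apply, Pi.single_apply]
    split_ifs <;> simp
  | succ k ih =>
    rw [pow_succ', Module.End.mul_apply, adjL_apply]
    calc |∑ u ∈ G x, (adjL G ^ k) (Pi.single y 1) u|
        ≤ ∑ u ∈ G x, |(adjL G ^ k) (Pi.single y 1) u| := Finset.abs_sum_le_sum_abs _ _
      _ ≤ ∑ u ∈ G x, (Δ : ℝ) ^ k := Finset.sum_le_sum fun u _ => ih u
      _ = (G x).card * (Δ : ℝ) ^ k := by simp
      _ ≤ Δ * (Δ : ℝ) ^ k := by
          gcongr
          exact hG.card x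
      _ = _ := by ring

/-! ### The spectral measure -/

section

variable {p q : Measure ℕ} {m : ENNReal} {D : ℕ} {ν : Measure ℝ} {R0 : ℝ}

theorem integrable_adj (h : Law p q m D) (k : ℕ) :
    Integrable (fun τ : L → ℕ => (adjL (treeG τ) ^ k) (Pi.single [] 1) []) (TM p q) := by
  have := h.pp
  have := h.qp
  refine Integrable.of_bound (MG_tree.pow _ k []).aestronglyMeasurable (((D + 1 : ℕ) : ℝ) ^ k) ?_
  filter_upwards [h.aeT] with τ hτ
  exact abs_adj_pow_le (treeG_good hτ.1) k [] []

theorem integrable_pow [IsProbabilityMeasure ν] (hR0 : ν (Set.Icc (-R0) R0)ᶜ = 0) (k : ℕ) :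
    Integrable (fun x : ℝ => x ^ k) ν := by
  refine Integrable.of_bound (measurable_id.pow_const k).aestronglyMeasurable (|R0| ^ k) ?_
  have h1 : ∀ᵐ x ∂ν, x ∈ Set.Icc (-R0) R0 := by
    rw [ae_iff]; exact hR0
  filter_upwards [h1] with x hx
  rw [Real.norm_eq_abs, abs_pow]
  have : |x| ≤ R0 := abs_le.2 hx
  exact pow_le_pow_left₀ (abs_nonneg x) (this.trans (le_abs_self _)) k

theorem integral_poly [IsProbabilityMeasure ν] (h : Law p q m D)
    (hR0 : ν (Set.Icc (-R0) R0)ᶜ = 0)
    (hmom : ∀ k : ℕ, ∫ x, x ^ k ∂ν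
      = ∫ τ : L → ℕ, (adjL (treeG τ) ^ k) (Pi.single [] 1) [] ∂(TM p q))
    (P : Polynomial ℝ) :
    ∫ x, P.eval x ∂ν = ∫ τ, polE (treeG τ) P [] [] ∂(TM p q) := by
  have e1 : ∀ x : ℝ, P.eval x = ∑ k ∈ Finset.range (P.natDegree + 1), P.coeff k * x ^ k :=
    fun x => Polynomial.eval_eq_sum_range x
  have e2 : ∀ τ : L → ℕ, polE (treeG τ) P [] [] = ∑ k ∈ Finset.range (P.natDegree + 1),
      P.coeff k * (adjL (treeG τ) ^ k) (Pi.single [] 1) [] := by
    intro τ
    rw [SA.polE, Polynomial.aeval_eq_sum_range, LinearMap.sum_apply, Finset.sum_apply]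
    rfl
  simp_rw [e1, e2]
  rw [integral_finset_sum _ (fun k _ => (integrable_pow hR0 k).const_mul _),
    integral_finset_sum _ (fun k _ => (integrable_adj h k).const_mul _)]
  apply Finset.sum_congr rfl
  intro k _
  rw [integral_const_mul, integral_const_mul, hmom k]

theorem eval_qpoly (lam R : ℝ) (n : ℕ) (x : ℝ) :
    (qpoly lam R n).eval x = (n : ℝ)⁻¹ * ∑ k ∈ Finset.range n, (1 - (R⁻¹ * (x - lam)) ^ 2) ^ k := by
  simp [qpoly, bpoly, Polynomial.eval_finset_sum]

theorem atom_zero [IsProbabilityMeasure ν] (h : Law p q m D)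
    (hR0 : ν (Set.Icc (-R0) R0)ᶜ = 0)
    (hmom : ∀ k : ℕ, ∫ x, x ^ k ∂ν
      = ∫ τ : L → ℕ, (adjL (treeG τ) ^ k) (Pi.single [] 1) [] ∂(TM p q))
    {lam R : ℝ} (hRp : 0 < R) (hR : ((D + 1 : ℕ) : ℝ) + |lam| ≤ R) (hR' : R0 + |lam| ≤ R)
    (hroot : ∀ᵐ τ ∂(TM p q), Kf lam R (treeG τ) [] [] = 0) : ν {lam} = 0 := by
  have := h.pp
  have := h.qp
  have h1 : ∀ᵐ x ∂ν, x ∈ Set.Icc (-R0) R0 := by
    rw [ae_iff]; exact hR0
  have hpos : ∀ᵐ x ∂ν, 0 ≤ 1 - (R⁻¹ * (x - lam)) ^ 2 := by
    filter_upwards [h1] with x hx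
    have h2 : |x - lam| ≤ R := by
      calc |x - lam| ≤ |x| + |lam| := abs_sub _ _
        _ ≤ R0 + |lam| := by gcongr; exact abs_le.2 hx
        _ ≤ R := hR'
    have h3 : |R⁻¹ * (x - lam)| ≤ 1 := by
      rw [abs_mul, abs_of_pos (inv_pos.2 hRp), inv_mul_le_iff₀ hRp, mul_one]
      exact h2
    have h4 := abs_le.1 h3
    nlinarith
  -- lower bound
  have hlow : ∀ n : ℕ, 0 < n → (ν {lam}).toReal ≤ ∫ x, (qpoly lam R n).eval x ∂ν := by
    intro n hn
    have h2 : (ν {lam}).toReal = ∫ x, Set.indicator {lam} (fun _ => (1 : ℝ)) x ∂ν := by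
      rw [integral_indicator (measurableSet_singleton _)]
      simp [measureReal_def]
    rw [h2]
    apply integral_mono_ae
    · exact (integrable_const (1 : ℝ)).indicator (measurableSet_singleton _)
    · have e1 : (fun x : ℝ => (qpoly lam R n).eval x) = fun x =>
        ∑ k ∈ Finset.range ((qpoly lam R n).natDegree + 1), (qpoly lam R n).coeff k * x ^ k := by
        ext x; exact Polynomial.eval_eq_sum_range x
      rw [e1]
      exact integrable_finset_sum _ (fun k _ => (integrable_pow hR0 k).const_mul _)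
    · filter_upwards [hpos] with x hx
      rw [eval_qpoly]
      by_cases hxl : x = lam
      · subst hxl
        have hn' : (n : ℝ) ≠ 0 := by exact_mod_cast hn.ne'
        simp [hn']
      · rw [Set.indicator_of_notMem (by simpa using hxl)]
        apply mul_nonneg (by positivity)
        exact Finset.sum_nonneg fun k _ => pow_nonneg hx k
  -- limit
  have hlim : Tendsto (fun n => ∫ x, (qpoly lam R n).eval x ∂ν) atTop (𝓝 0) := by
    have h2 : Tendsto (fun n => ∫ τ, avg lam R (treeG τ) n [] [] ∂(TM p q)) atTop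
        (𝓝 (∫ τ : L → ℕ, (0 : ℝ) ∂(TM p q))) := by
      apply tendsto_integral_of_dominated_convergence (fun _ => (1 : ℝ))
      · intro n
        exact (MG_tree.avg n [] []).aestronglyMeasurable
      · exact integrable_const _
      · intro n
        filter_upwards [h.aeT] with τ hτ
        exact abs_avg_le (treeG_good hτ.1) hRp hR n [] []
      · filter_upwards [h.aeT, hroot] with τ hτ h0
        have := tendsto_avg (treeG_good hτ.1) hRp hR [] []
        rwa [h0] at this
    rw [integral_zero] at h2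
    refine h2.congr ?_
    intro n
    rw [integral_poly h hR0 hmom]
    rfl
  have hle : (ν {lam}).toReal ≤ 0 := by
    apply ge_of_tendsto hlim
    filter_upwards [eventually_gt_atTop 0] with n hn using hlow n hn
  have h0 : (ν {lam}).toReal = 0 := le_antisymm hle ENNReal.toReal_nonneg
  rcases (ENNReal.toReal_eq_zero_iff _).1 h0 with h2 | h2
  · exact h2
  · exact absurd h2 (measure_ne_top _ _)

/-- Finitely many atoms. -/
theorem finite_atoms [IsProbabilityMeasure ν] (h : Law p q m D)
    (hR0 : ν (Set.Icc (-R0) R0)ᶜ = 0)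
    (hmom : ∀ k : ℕ, ∫ x, x ^ k ∂ν
      = ∫ τ : L → ℕ, (adjL (treeG τ) ^ k) (Pi.single [] 1) [] ∂(TM p q)) :
    {x : ℝ | ν {x} ≠ 0}.Finite := by
  have := h.pp
  have := h.qp
  have key : ∀ lam : ℝ, (∀ R : ℝ, 0 < R → ((D + 1 : ℕ) : ℝ) + |lam| ≤ R →
      Gm q {τ | Pos lam R τ} = 0) → ν {lam} = 0 := by
    intro lam hl
    set R := ((D + 1 : ℕ) : ℝ) + |lam| + |R0| with hRdef
    have hRp : 0 < R := by positivity
    have hR : ((D + 1 : ℕ) : ℝ) + |lam| ≤ R := by
      rw [hRdef]; linarith [abs_nonneg R0]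
    have hR' : R0 + |lam| ≤ R := by
      have : (0 : ℝ) ≤ ((D + 1 : ℕ) : ℝ) := Nat.cast_nonneg _
      rw [hRdef]; linarith [le_abs_self R0]
    exact atom_zero h hR0 hmom hRp hR hR' (root_null h hRp hR (hl R hRp hR))
  by_cases hq1 : q {1} = 1
  · have : {x : ℝ | ν {x} ≠ 0} = ∅ := by
      ext x
      simp only [Set.mem_setOf_eq, Set.mem_empty_iff_false, iff_false, not_not]
      exact key x fun R hRp hR => rho_zero_ray h hRp hR hq1
    rw [this]
    exact Set.finite_empty
  · have hlt : q {1} < 1 := lt_of_le_of_ne prob_le_one hq1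
    have hp1 : (q {1}).toReal < 1 := by
      have := (ENNReal.toReal_lt_toReal (measure_ne_top _ _) ENNReal.one_ne_top).2 hlt
      simpa using this
    obtain ⟨n0, hn0, ht1, ht2⟩ := exists_threshold (p1 := (q {1}).toReal)
      ENNReal.toReal_nonneg hp1 (D : ℝ) (Nat.cast_nonneg _)
    apply (Fset_finite n0).subset
    intro x hx
    by_contra hF
    apply hx
    exact key x fun R hRp hR => rho_zero h hRp hR rfl hp1 hn0 hF ht1 ht2

end

end Pool.Agent.U204.SA
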