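import Mathlib

/-!
# Ordered and unordered representations as sums of `j` elements of a set: combinatorics
-/

set_option autoImplicit false

open Finset

namespace Pool.Agent.U204.RF

open Classical in
/-- The lists of length `j` with entries in `A` and sum `n`. -/
noncomputable def L (A : Set ℕ) : ℕ → ℕ → Finset (List ℕ)
  | 0, n => if n = 0 then {[]} else ∅
  | j + 1, n => (antidiagonal n).biUnion fun p =>
      if p.1 ∈ A then (L A j p.2).image (List.cons p.1) else ∅

theorem mem_L {A : Set ℕ} {j n : ℕ} {l : List ℕ} :
    l ∈ L A j n ↔ l.length = j ∧ (∀ a ∈ l, a ∈ A) ∧ l.sum = n := by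
  induction j generalizing n l with
  | zero =>
    unfold L
    constructor
    · intro h
      split_ifs at h with h0
      · simp only [mem_singleton] at h
        subst h; simp [h0]
      · simp at h
    · rintro ⟨h1, -, h3⟩
      have : l = [] := List.length_eq_zero_iff.1 h1
      subst this
      simp at h3
      simp [← h3]
  | succ j ih =>
    unfold L
    simp only [mem_biUnion, HasAntidiagonal.mem_antidiagonal]
    constructor
    · rintro ⟨p, hp, h⟩
      split_ifs at h with hA
      · simp only [mem_image] at h
        obtain ⟨l', hl', rfl⟩ := h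
        obtain ⟨h1, h2, h3⟩ := ih.1 hl'
        refine ⟨by simp [h1], ?_, by simp [h3, hp]⟩
        intro a ha
        rcases List.mem_cons.1 ha with rfl | ha
        · exact hA
        · exact h2 a ha
      · simp at h
    · rintro ⟨h1, h2, h3⟩
      cases l with
      | nil => simp at h1
      | cons a l' =>
        refine ⟨(a, l'.sum), by simpa using h3, ?_⟩
        have ha : a ∈ A := h2 a (by simp)
        simp only [ha, if_true, mem_image]
        exact ⟨l', ih.2 ⟨by simpa using h1, fun b hb => h2 b (by simp [hb]), rfl⟩, rfl⟩

/-- number of ordered representations -/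
noncomputable def r (A : Set ℕ) (j n : ℕ) : ℕ := (L A j n).card

/-- the multisets of size `j` with entries in `A` and sum `n` -/
noncomputable def Mu (A : Set ℕ) (j n : ℕ) : Finset (Multiset ℕ) := by
  classical exact (L A j n).image (fun l : List ℕ => (l : Multiset ℕ))

/-- number of unordered representations -/
noncomputable def R (A : Set ℕ) (j n : ℕ) : ℕ := (Mu A j n).card

theorem mem_Mu {A : Set ℕ} {j n : ℕ} {s : Multiset ℕ} :
    s ∈ Mu A j n ↔ Multiset.card s = j ∧ (∀ a ∈ s, a ∈ A) ∧ s.sum = n := by
  classical
  unfold Mu
  simp only [mem_image, mem_L]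
  constructor
  · rintro ⟨l, ⟨h1, h2, h3⟩, rfl⟩
    exact ⟨by simpa using h1, by simpa using h2, by simpa using h3⟩
  · rintro ⟨h1, h2, h3⟩
    refine ⟨s.toList, ⟨by simpa using h1, by simpa using h2, ?_⟩, by simp⟩
    rw [Multiset.sum_toList]; exact h3

theorem R_eq_ncard (A : Set ℕ) (j n : ℕ) :
    {s : Multiset ℕ | Multiset.card s = j ∧ (∀ a ∈ s, a ∈ A) ∧ s.sum = n}.ncard = R A j n := by
  rw [R, ← Set.ncard_coe_finset]
  congr 1
  ext s
  simp only [Set.mem_ofPred_eq, Finset.mem_coe]
  exact mem_Mu.symm

/-- number of the elements of `S` with the property `P` -/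
noncomputable def cnt {α : Type*} (S : Finset α) (P : α → Prop) : ℕ := by
  classical exact (S.filter P).card

theorem cnt_eq {α : Type*} (S : Finset α) (P : α → Prop) [DecidablePred P] :
    cnt S P = (S.filter P).card := by
  unfold cnt; congr

/-- number of ordered representations with a repetition -/
noncomputable def s (A : Set ℕ) (j n : ℕ) : ℕ := cnt (L A j n) fun l => ¬ l.Nodup

theorem s_le_r (A : Set ℕ) (j n : ℕ) : s A j n ≤ r A j n := by
  classical
  unfold s r
  rw [cnt_eq]
  exact card_filter_le _ _

theorem R_le_r (A : Set ℕ) (j n : ℕ) : R A j n ≤ r A j n := by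
  classical
  unfold R Mu r
  exact card_image_le

/-- the lists with a given underlying multiset -/
theorem fiber_card_le {A : Set ℕ} {j n : ℕ} (t : Multiset ℕ) :
    (by classical exact ((L A j n).filter fun l : List ℕ => (l : Multiset ℕ) = t).card : ℕ) ≤
      j.factorial := by
  classical
  by_cases h : ((L A j n).filter fun l : List ℕ => (l : Multiset ℕ) = t) = ∅
  · simp only [h, card_empty]; exact Nat.zero_le _
  · obtain ⟨l0, hl0⟩ := Finset.nonempty_iff_ne_empty.2 h
    rw [mem_filter, mem_L] at hl0
    have hsub : ((L A j n).filter fun l : List ℕ => (l : Multiset ℕ) = t) ⊆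
        l0.permutations.toFinset := by
      intro l hl
      rw [mem_filter] at hl
      rw [List.mem_toFinset, List.mem_permutations, ← Multiset.coe_eq_coe, hl.2, hl0.2]
    refine (card_le_card hsub).trans ((List.toFinset_card_le _).trans ?_)
    rw [List.length_permutations, hl0.1.1]

theorem r_le (A : Set ℕ) (j n : ℕ) : r A j n ≤ j.factorial * R A j n := by
  classical
  unfold r R Mu
  refine card_le_mul_card_image _ _ fun t _ => ?_
  exact fiber_card_le t

theorem perm_mem_L {A : Set ℕ} {j n : ℕ} {l l' : List ℕ} (h : l' ∈ l.permutations)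
    (hl : l ∈ L A j n) : l' ∈ L A j n := by
  rw [List.mem_permutations] at h
  rw [mem_L] at hl ⊢
  exact ⟨h.length_eq.trans hl.1, fun a ha => hl.2.1 a (h.mem_iff.1 ha), h.sum_eq.trans hl.2.2⟩

theorem R_mul_le (A : Set ℕ) (j n : ℕ) :
    j.factorial * R A j n ≤ r A j n + j.factorial * s A j n := by
  classical
  -- nodup multisets and the others
  have h1 : R A j n = ((Mu A j n).filter fun t => t.Nodup).card +
      ((Mu A j n).filter fun t => ¬ t.Nodup).card :=
    (card_filter_add_card_filter_not _).symm
  have h2 : ((Mu A j n).filter fun t => ¬ t.Nodup).card ≤ s A j n := by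
    have : ((Mu A j n).filter fun t => ¬ t.Nodup) ⊆
        ((L A j n).filter fun l => ¬ l.Nodup).image (fun l : List ℕ => (l : Multiset ℕ)) := by
      intro t ht
      rw [mem_filter] at ht
      unfold Mu at ht
      rw [mem_image] at ht
      obtain ⟨⟨l, hl, rfl⟩, hn⟩ := ht
      rw [mem_image]
      exact ⟨l, mem_filter.2 ⟨hl, by simpa using hn⟩, rfl⟩
    refine (card_le_card this).trans ?_
    unfold s
    rw [cnt_eq]
    exact card_image_le
  have h3 : j.factorial * ((Mu A j n).filter fun t => t.Nodup).card ≤ r A j n := by
    have hcard : ∀ t ∈ (Mu A j n).filter (fun t => t.Nodup),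
        ((L A j n).filter fun l : List ℕ => (l : Multiset ℕ) = t).card = j.factorial := by
      intro t ht
      rw [mem_filter] at ht
      unfold Mu at ht
      rw [mem_image] at ht
      obtain ⟨⟨l0, hl0, rfl⟩, hn⟩ := ht
      have : ((L A j n).filter fun l : List ℕ => (l : Multiset ℕ) = (l0 : Multiset ℕ)) =
          l0.permutations.toFinset := by
        ext l
        rw [mem_filter, List.mem_toFinset]
        constructor
        · rintro ⟨-, h⟩
          rw [List.mem_permutations, ← Multiset.coe_eq_coe, h]
        · intro h
          exact ⟨perm_mem_L h hl0, Multiset.coe_eq_coe.2 (List.mem_permutations.1 h)⟩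
      rw [this, List.toFinset_card_of_nodup, List.length_permutations, (mem_L.1 hl0).1]
      exact List.nodup_permutations _ (by simpa using hn)
    have hmaps : ∀ l ∈ (L A j n).filter (fun l => l.Nodup),
        (l : Multiset ℕ) ∈ (Mu A j n).filter (fun t => t.Nodup) := by
      intro l hl
      rw [mem_filter] at hl ⊢
      exact ⟨mem_image_of_mem _ hl.1, by simpa using hl.2⟩
    calc j.factorial * ((Mu A j n).filter fun t => t.Nodup).card
        = ∑ t ∈ (Mu A j n).filter (fun t => t.Nodup),
            ((L A j n).filter fun l : List ℕ => (l : Multiset ℕ) = t).card := by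
          rw [sum_congr rfl hcard, sum_const, smul_eq_mul, mul_comm]
      _ = (((Mu A j n).filter (fun t => t.Nodup)).biUnion fun t =>
            (L A j n).filter fun l : List ℕ => (l : Multiset ℕ) = t).card := by
          rw [card_biUnion]
          intro t _ t' _ htt'
          rw [Function.onFun, disjoint_left]
          intro l hl hl'
          rw [mem_filter] at hl hl'
          exact htt' (hl.2.symm.trans hl'.2)
      _ ≤ r A j n := by
          unfold r
          refine card_le_card ?_
          intro l hl
          rw [mem_biUnion] at hl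
          obtain ⟨t, -, hl⟩ := hl
          exact (mem_filter.1 hl).1
  rw [h1, mul_add]
  have := Nat.mul_le_mul_left j.factorial h2
  omega

theorem r_sq_ge (A : Set ℕ) (j n : ℕ) :
    j.factorial * r A j n ≤ r A j n ^ 2 + j.factorial * s A j n := by
  classical
  by_cases h : ∃ l ∈ L A j n, l.Nodup
  · obtain ⟨l, hl, hn⟩ := h
    have h1 : j.factorial ≤ r A j n := by
      have hsub : l.permutations.toFinset ⊆ L A j n := by
        intro l' hl'
        rw [List.mem_toFinset] at hl'
        exact perm_mem_L hl' hl
      have := card_le_card hsub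
      rw [List.toFinset_card_of_nodup (List.nodup_permutations _ hn), List.length_permutations,
        (mem_L.1 hl).1] at this
      exact this
    have := Nat.mul_le_mul_right (r A j n) h1
    nlinarith
  · push Not at h
    have h1 : s A j n = r A j n := by
      unfold s r
      rw [cnt_eq, filter_true_of_mem]
      exact h
    rw [h1]; omega

end Pool.Agent.U204.RF
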