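import Pool.Agent.U204.RFCount

/-!
# The core inequality: the variance of the unordered representation function
-/

set_option autoImplicit false

open Finset MeasureTheory

namespace Pool.Agent.U204.RF

theorem integrable_mu {g : ℝ → ℝ} (hg : Continuous g) : Integrable g mu := by
  unfold mu
  exact (hg.integrableOn_Ioc).smul_measure ENNReal.ofReal_ne_top

theorem Good.sq {c : ℕ → ℝ} (hc : Good c) : Good fun n => c n ^ 2 := by
  intro x hx0 hx1
  have h1 := hc (Real.sqrt x) (Real.sqrt_nonneg x) (by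
    rw [Real.sqrt_lt' one_pos]; simpa using hx1)
  have h2 := h1.mul_of_nonneg h1 (fun n => by positivity) (fun n => by positivity)
  have h3 := h2.comp_injective (i := fun n : ℕ => (n, n)) fun a b h => (Prod.mk.inj h).1
  refine h3.congr fun n => ?_
  simp only [Function.comp]
  have e : x ^ n = Real.sqrt x ^ n * Real.sqrt x ^ n := by
    rw [← mul_pow, Real.mul_self_sqrt hx0]
  rw [e, abs_of_nonneg (sq_nonneg (c n)), ← sq_abs]
  ring

/-- `X = |f|²` on the circle of radius `ρ` -/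
noncomputable def XX (A : Set ℕ) (ρ θ : ℝ) : ℝ := ‖ev (chi A) (cz ρ θ)‖ ^ 2

theorem XX_nonneg (A : Set ℕ) (ρ θ : ℝ) : 0 ≤ XX A ρ θ := by unfold XX; positivity

theorem continuous_XX (A : Set ℕ) {ρ : ℝ} (h0 : 0 ≤ ρ) (h1 : ρ < 1) : Continuous (XX A ρ) := by
  unfold XX
  exact (continuous_ev_cz (good_chi A) h0 h1).norm.pow 2

/-- the moments -/
noncomputable def MM (A : Set ℕ) (j : ℕ) (y : ℝ) : ℝ := sv (fun n => (r A j n : ℝ) ^ 2) y

theorem XX_pow (A : Set ℕ) (j : ℕ) {ρ : ℝ} (h0 : 0 ≤ ρ) (h1 : ρ < 1) (θ : ℝ) :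
    XX A ρ θ ^ j = ‖ev (fun n => (r A j n : ℝ)) (cz ρ θ)‖ ^ 2 := by
  rw [ev_r A j (by rw [norm_cz h0]; exact h1), norm_pow]
  unfold XX
  rw [← pow_mul, ← pow_mul, mul_comm]

theorem integral_XX_pow (A : Set ℕ) (j : ℕ) {ρ : ℝ} (h0 : 0 ≤ ρ) (h1 : ρ < 1) :
    ∫ θ, XX A ρ θ ^ j ∂mu = MM A j (ρ ^ 2) := by
  unfold MM sv
  rw [← parseval (good_r A j) h0 h1]
  exact integral_congr_ae (Filter.Eventually.of_forall fun θ => XX_pow A j h0 h1 θ)

theorem MM_nonneg (A : Set ℕ) (j : ℕ) {y : ℝ} (h0 : 0 ≤ y) : 0 ≤ MM A j y :=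
  sv_nonneg (fun _ => sq_nonneg _) h0

theorem good_s (A : Set ℕ) (j : ℕ) : Good fun n => (s A j n : ℝ) :=
  (good_r A j).of_le fun n => by
    rw [abs_of_nonneg (Nat.cast_nonneg _), abs_of_nonneg (Nat.cast_nonneg _)]
    exact_mod_cast s_le_r A j n

theorem good_R (A : Set ℕ) (j : ℕ) : Good fun n => (R A j n : ℝ) :=
  (good_r A j).of_le fun n => by
    rw [abs_of_nonneg (Nat.cast_nonneg _), abs_of_nonneg (Nat.cast_nonneg _)]
    exact_mod_cast R_le_r A j n

theorem coeff_Dbl_mul (A : Set ℕ) (j n : ℕ) :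
    PowerSeries.coeff n (Dbl A * Phi A ^ j) = conv (dbl A) (fun m => (r A j m : ℝ)) n := by
  rw [PowerSeries.coeff_mul]
  unfold conv Dbl
  refine sum_congr rfl fun p _ => ?_
  rw [coeff_Phi_pow, PowerSeries.coeff_mk]

/-- repetitions are rare -/
theorem sv_s_le (A : Set ℕ) (j : ℕ) {y : ℝ} (h0 : 0 ≤ y) (h1 : y < 1) :
    sv (chi A) y * sv (fun n => (s A j n : ℝ)) y ≤ j ^ 2 * sv (chi A) y ^ j := by
  have ha : 0 ≤ sv (chi A) y := sv_nonneg (chi_nonneg A) h0
  match j with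
  | 0 =>
    have : sv (fun n => (s A 0 n : ℝ)) y = 0 := by
      unfold sv; simp [s_zero]
    rw [this]; simp
  | 1 =>
    have : sv (fun n => (s A 1 n : ℝ)) y = 0 := by
      unfold sv; simp [s_one]
    rw [this]; simp [ha]
  | j + 2 =>
    have h2 : sv (fun n => (s A (j + 2) n : ℝ)) y ≤
        sv (fun n => ((j : ℝ) + 2) ^ 2 * conv (dbl A) (fun m => (r A j m : ℝ)) n) y := by
      refine sv_mono (good_s A _) (((good_dbl A).conv (good_r A j)).smul _) (fun n => ?_) h0 h1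
      rw [← coeff_Dbl_mul]
      exact s_le A j n
    rw [sv_smul, sv_conv (good_dbl A) (good_r A j) h0 h1, sv_r A j h0 h1] at h2
    have h3 := sv_dbl_le A h0 h1
    have h4 : sv (dbl A) y * sv (chi A) y ^ j ≤ sv (chi A) y * sv (chi A) y ^ j :=
      mul_le_mul_of_nonneg_right h3 (by positivity)
    calc sv (chi A) y * sv (fun n => (s A (j + 2) n : ℝ)) y
        ≤ sv (chi A) y * (((j : ℝ) + 2) ^ 2 * (sv (chi A) y * sv (chi A) y ^ j)) :=
          mul_le_mul_of_nonneg_left (h2.trans (mul_le_mul_of_nonneg_left h4 (by positivity))) ha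
      _ = _ := by push_cast; ring

theorem MM_ge (A : Set ℕ) (j : ℕ) {y : ℝ} (h0 : 0 ≤ y) (h1 : y < 1) :
    (j.factorial : ℝ) * sv (chi A) y ^ j ≤
      MM A j y + j.factorial * sv (fun n => (s A j n : ℝ)) y := by
  rw [← sv_r A j h0 h1, ← sv_smul, ← sv_smul]
  unfold MM
  rw [← sv_add ((good_r A j).sq) ((good_s A j).smul _) h0 h1]
  refine sv_mono ((good_r A j).smul _) (((good_r A j).sq).add ((good_s A j).smul _)) (fun n => ?_) h0 h1
  exact_mod_cast r_sq_ge A j n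

theorem exists_gamma {ε : ℝ} (hε : 0 < ε) :
    ∃ γ : ℝ, γ < 1 ∧ mu.real {θ : ℝ | γ < Real.cos θ} ≤ ε := by
  set δ : ℝ := min (Real.pi * ε) Real.pi with hδ
  have hpi := Real.pi_pos
  have hδ0 : 0 < δ := lt_min (by positivity) hpi
  have hδ1 : δ ≤ Real.pi := min_le_right _ _
  refine ⟨Real.cos δ, ?_, ?_⟩
  · rw [← Real.cos_zero]
    exact Real.cos_lt_cos_of_nonneg_of_le_pi le_rfl hδ1 hδ0
  · have h1 : mu {θ : ℝ | Real.cos δ < Real.cos θ} ≤ ENNReal.ofReal ε := by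
      unfold mu
      rw [Measure.smul_apply, Measure.restrict_apply' measurableSet_Ioc, smul_eq_mul]
      have hsub : {θ : ℝ | Real.cos δ < Real.cos θ} ∩ Set.Ioc (-Real.pi) Real.pi ⊆ Set.Icc (-δ) δ := by
        rintro θ ⟨h, h2, h3⟩
        have h4 : |θ| ≤ δ := by
          by_contra hcon
          push Not at hcon
          have h5 : Real.cos |θ| ≤ Real.cos δ :=
            Real.cos_le_cos_of_nonneg_of_le_pi hδ0.le (abs_le.2 ⟨h2.le, h3⟩) hcon.le
          rw [Real.cos_abs] at h5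
          exact absurd h (not_lt.2 h5)
        exact abs_le.1 h4
      have h2 : volume ({θ : ℝ | Real.cos δ < Real.cos θ} ∩ Set.Ioc (-Real.pi) Real.pi) ≤
          ENNReal.ofReal (2 * δ) := by
        refine (measure_mono hsub).trans (le_of_eq ?_)
        rw [Real.volume_Icc]; congr 1; ring
      refine (mul_le_mul_right h2 _).trans ?_
      rw [← ENNReal.ofReal_mul (by positivity)]
      refine ENNReal.ofReal_le_ofReal ?_
      have : 1 / (2 * Real.pi) * (2 * δ) = δ / Real.pi := by field_simp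
      rw [this, div_le_iff₀ hpi]
      exact (min_le_left _ _).trans (le_of_eq (mul_comm _ _))
    rw [Measure.real]
    exact ENNReal.toReal_le_of_le_ofReal hε.le h1

theorem ev_one {z : ℂ} (hz : ‖z‖ < 1) : ev (fun _ => 1) z = (1 - z)⁻¹ := by
  unfold ev
  simp only [Complex.ofReal_one, one_mul]
  exact tsum_geometric_of_norm_lt_one hz

theorem norm_one_sub_cz {ρ : ℝ} (θ : ℝ) :
    ‖1 - cz ρ θ‖ ^ 2 = (1 - ρ) ^ 2 + 2 * ρ * (1 - Real.cos θ) := by
  rw [← Complex.normSq_eq_norm_sq, Complex.normSq_apply]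
  unfold cz
  have e : Complex.exp (Complex.I * θ) = (Real.cos θ : ℂ) + (Real.sin θ : ℂ) * Complex.I := by
    rw [mul_comm, Complex.exp_mul_I, Complex.ofReal_cos, Complex.ofReal_sin]
  rw [e]
  have h3 := Real.sin_sq_add_cos_sq θ
  generalize Real.cos θ = c at *
  generalize Real.sin θ = s at *
  have h1 : (1 - (ρ : ℂ) * ((c : ℂ) + (s : ℂ) * Complex.I)).re = 1 - ρ * c := by simp
  have h2 : (1 - (ρ : ℂ) * ((c : ℂ) + (s : ℂ) * Complex.I)).im = - (ρ * s) := by simp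
  rw [h1, h2]
  linear_combination ρ ^ 2 * h3

theorem norm_inv_le {ρ γ θ : ℝ} (hρ : 1 / 2 ≤ ρ) (hγ : γ < 1) (hθ : Real.cos θ ≤ γ) :
    ‖(1 - cz ρ θ)⁻¹‖ ^ 2 ≤ 1 / (1 - γ) := by
  rw [norm_inv, inv_pow, norm_one_sub_cz, ← one_div]
  refine one_div_le_one_div_of_le (by linarith) ?_
  nlinarith [sq_nonneg (1 - ρ)]

/-- weighted AM-GM -/
theorem amgm (k m : ℕ) {X τ : ℝ} (hX : 0 ≤ X) (hτ : 0 < τ) :
    (m + 1) * X ^ (k + m) ≤ τ ^ m * X ^ k + m * τ⁻¹ * X ^ (k + m + 1) := by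
  have key : ∀ z : ℝ, 0 ≤ z → (m + 1) * z ^ m ≤ 1 + m * z ^ (m + 1) := by
    intro z hz
    induction m with
    | zero => simp
    | succ m ih =>
      have h1 : 0 ≤ (z - 1) * (z ^ (m + 1) - 1) := by
        rcases le_total 1 z with h | h
        · exact mul_nonneg (by linarith) (by linarith [one_le_pow₀ h (n := m + 1)])
        · exact mul_nonneg_of_nonpos_of_nonpos (by linarith)
            (by linarith [pow_le_one₀ hz h (n := m + 1)])
      have h2 : 0 ≤ z ^ (m + 1) * (z - 1) ^ 2 := by positivity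
      push_cast at ih ⊢
      have h3 := mul_le_mul_of_nonneg_left ih hz
      have e1 : z ^ (m + 1) = z * z ^ m := by ring
      have e2 : z ^ (m + 1 + 1) = z * z ^ (m + 1) := by ring
      rw [e2]
      nlinarith
  have hz : 0 ≤ X / τ := by positivity
  have h := key (X / τ) hz
  have h2 := mul_le_mul_of_nonneg_left h (show 0 ≤ τ ^ m * X ^ k by positivity)
  have e1 : τ ^ m * X ^ k * ((m + 1) * (X / τ) ^ m) = (m + 1) * X ^ (k + m) := by
    rw [div_pow]; field_simp; ring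
  have e2 : τ ^ m * X ^ k * (1 + m * (X / τ) ^ (m + 1)) =
      τ ^ m * X ^ k + m * τ⁻¹ * X ^ (k + m + 1) := by
    rw [div_pow]; field_simp; ring
  linarith

theorem near_zero (j : ℕ) {X κ a : ℝ} (hX : 0 ≤ X) (hκ : 0 < κ) (ha : 0 < a) :
    X ^ j ≤ κ / a * X ^ (j + 1) + (κ⁻¹ * a) ^ j := by
  rcases le_total (κ⁻¹ * a) X with h | h
  · have h1 : 1 ≤ κ / a * X := by
      have := mul_le_mul_of_nonneg_left h (show 0 ≤ κ / a by positivity)
      have e : κ / a * (κ⁻¹ * a) = 1 := by field_simp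
      linarith
    have h2 := mul_le_mul_of_nonneg_right h1 (show 0 ≤ X ^ j by positivity)
    have e : κ / a * X * X ^ j = κ / a * X ^ (j + 1) := by ring
    have h3 : 0 ≤ (κ⁻¹ * a) ^ j := by positivity
    linarith
  · have h1 : X ^ j ≤ (κ⁻¹ * a) ^ j := pow_le_pow_left₀ hX h j
    have h2 : 0 ≤ κ / a * X ^ (j + 1) := by positivity
    linarith

/-- the deficit of the ordered representation function -/
noncomputable def dd (A : Set ℕ) (h n : ℕ) : ℝ := h.factorial * (R A h n : ℝ) - r A h n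

theorem dd_nonneg (A : Set ℕ) (h n : ℕ) : 0 ≤ dd A h n := by
  unfold dd
  have : (r A h n : ℝ) ≤ h.factorial * R A h n := by exact_mod_cast r_le A h n
  linarith

theorem dd_le (A : Set ℕ) (h n : ℕ) : dd A h n ≤ h.factorial * s A h n := by
  unfold dd
  have : (h.factorial * R A h n : ℝ) ≤ r A h n + h.factorial * s A h n := by
    exact_mod_cast R_mul_le A h n
  linarith

theorem good_dd (A : Set ℕ) (h : ℕ) : Good (dd A h) :=
  ((good_s A h).smul h.factorial).of_le fun n => by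
    rw [abs_of_nonneg (dd_nonneg A h n), abs_of_nonneg (by positivity)]
    exact dd_le A h n

/-- the variance -/
noncomputable def VV (A : Set ℕ) (h : ℕ) (lam y : ℝ) : ℝ := sv (fun n => ((R A h n : ℝ) - lam) ^ 2) y

/-- pointwise lower bound away from the point `1` -/
theorem pointwise (A : Set ℕ) (h : ℕ) (lam : ℝ) {ρ γ η θ : ℝ} (hρ : 1 / 2 ≤ ρ) (hρ1 : ρ < 1)
    (hγ : γ < 1) (hη : 0 < η) (hη1 : η < 1) (hθ : Real.cos θ ≤ γ) :
    (1 - η) * XX A ρ θ ^ h ≤
      (h.factorial : ℝ) ^ 2 * ‖ev (fun n => (R A h n : ℝ) + (-lam)) (cz ρ θ)‖ ^ 2 +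
        (2 / η) * ((h.factorial * lam) ^ 2 / (1 - γ) + ‖ev (dd A h) (cz ρ θ)‖ ^ 2) := by
  have h0 : 0 ≤ ρ := by linarith
  have hz : ‖cz ρ θ‖ < 1 := by rw [norm_cz h0]; exact hρ1
  set z := cz ρ θ with hzdef
  rw [XX_pow A h h0 hρ1]
  have e1 : ev (fun n => (r A h n : ℝ)) z =
      h.factorial * ev (fun n => (R A h n : ℝ) + (-lam)) z + h.factorial * lam * (1 - z)⁻¹
        - ev (dd A h) z := by
    have a1 : ev (fun n => (h.factorial : ℝ) * (R A h n : ℝ)) z =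
        ev (fun n => (r A h n : ℝ) + dd A h n) z := by
      congr 1
      funext n
      unfold dd; ring
    rw [ev_smul, ev_add (good_r A h) (good_dd A h) hz] at a1
    rw [ev_add (good_R A h) (good_const _) hz]
    have a2 : ev (fun _ => -lam) z = -lam * (1 - z)⁻¹ := by
      have := ev_smul (c := fun _ => (1 : ℝ)) (-lam) z
      simp only [mul_one] at this
      rw [this, ev_one hz]
      push_cast; ring
    rw [a2]
    push_cast at a1 ⊢
    linear_combination -a1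
  set F := ev (fun n => (R A h n : ℝ) + (-lam)) z
  set D := ev (dd A h) z
  rw [← hzdef, e1]
  have hi : ‖(1 - z)⁻¹‖ ^ 2 ≤ 1 / (1 - γ) := norm_inv_le hρ hγ hθ
  set I := (1 - z)⁻¹
  have hw : ‖(h.factorial : ℂ) * F + h.factorial * lam * I - D‖ ≤
      h.factorial * ‖F‖ + (|h.factorial * lam| * ‖I‖ + ‖D‖) := by
    have b1 : ‖(h.factorial : ℂ) * F‖ = h.factorial * ‖F‖ := by
      rw [norm_mul, Complex.norm_natCast]
    have b2 : ‖(h.factorial : ℂ) * lam * I‖ = |h.factorial * lam| * ‖I‖ := by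
      rw [norm_mul]
      congr 1
      rw [← Complex.ofReal_natCast, ← Complex.ofReal_mul, Complex.norm_real, Real.norm_eq_abs]
    calc ‖(h.factorial : ℂ) * F + h.factorial * lam * I - D‖
        ≤ ‖(h.factorial : ℂ) * F + h.factorial * lam * I‖ + ‖D‖ := norm_sub_le _ _
      _ ≤ ‖(h.factorial : ℂ) * F‖ + ‖(h.factorial : ℂ) * lam * I‖ + ‖D‖ := by
          linarith [norm_add_le ((h.factorial : ℂ) * F) ((h.factorial : ℂ) * lam * I)]
      _ = _ := by rw [b1, b2]; ring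
  set u := ‖(h.factorial : ℂ) * F + h.factorial * lam * I - D‖
  have hu : 0 ≤ u := norm_nonneg _
  set w := (h.factorial : ℝ) * ‖F‖ with hwdef
  have hw0 : 0 ≤ w := by positivity
  set t := |h.factorial * lam| * ‖I‖ + ‖D‖ with htdef
  have ht0 : 0 ≤ t := by positivity
  have k1 : u ^ 2 ≤ (w + t) ^ 2 := pow_le_pow_left₀ hu hw 2
  have k2 : (1 - η) * (w + t) ^ 2 ≤ w ^ 2 + (1 / η) * t ^ 2 := by
    have : 0 ≤ (η * w - (1 - η) * t) ^ 2 := sq_nonneg _
    have h3 : 0 ≤ 1 / η := by positivity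
    have h4 := mul_nonneg h3 this
    have e : 1 / η * (η * w - (1 - η) * t) ^ 2 =
        η * w ^ 2 - 2 * (1 - η) * w * t + (1 / η) * (1 - η) ^ 2 * t ^ 2 := by
      field_simp
      ring
    rw [e] at h4
    have e5 : 1 / η * (1 - η) ^ 2 * t ^ 2 = (1 / η) * t ^ 2 - (2 - η) * t ^ 2 := by
      field_simp; ring
    nlinarith [sq_nonneg t]
  have k3 : t ^ 2 ≤ 2 * ((h.factorial * lam) ^ 2 * ‖I‖ ^ 2 + ‖D‖ ^ 2) := by
    have := sq_nonneg (|(h.factorial : ℝ) * lam| * ‖I‖ - ‖D‖)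
    have e : (|(h.factorial : ℝ) * lam| * ‖I‖) ^ 2 = (h.factorial * lam) ^ 2 * ‖I‖ ^ 2 := by
      rw [mul_pow, sq_abs]
    rw [htdef]
    nlinarith
  have k4 : (h.factorial * lam) ^ 2 * ‖I‖ ^ 2 ≤ (h.factorial * lam) ^ 2 / (1 - γ) := by
    rw [div_eq_mul_one_div]
    exact mul_le_mul_of_nonneg_left hi (sq_nonneg _)
  have e6 : w ^ 2 = (h.factorial : ℝ) ^ 2 * ‖F‖ ^ 2 := by rw [hwdef, mul_pow]
  calc (1 - η) * u ^ 2 ≤ (1 - η) * (w + t) ^ 2 := mul_le_mul_of_nonneg_left k1 (by linarith)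
    _ ≤ w ^ 2 + (1 / η) * t ^ 2 := k2
    _ ≤ w ^ 2 + (1 / η) * (2 * ((h.factorial * lam) ^ 2 / (1 - γ) + ‖D‖ ^ 2)) := by
        have : 0 ≤ 1 / η := by positivity
        have h7 := mul_le_mul_of_nonneg_left (k3.trans
          (mul_le_mul_of_nonneg_left (add_le_add_left k4 _) (by norm_num : (0:ℝ) ≤ 2))) this
        linarith
    _ = _ := by rw [e6]; ring

theorem integral_norm_sq {c : ℕ → ℝ} (hc : Good c) {ρ : ℝ} (h0 : 0 ≤ ρ) (h1 : ρ < 1) :
    ∫ θ, ‖ev c (cz ρ θ)‖ ^ 2 ∂mu = sv (fun n => c n ^ 2) (ρ ^ 2) := parseval hc h0 h1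

theorem VV_nonneg (A : Set ℕ) (h : ℕ) (lam : ℝ) {y : ℝ} (hy : 0 ≤ y) : 0 ≤ VV A h lam y :=
  sv_nonneg (fun _ => sq_nonneg _) hy

/-- the integrated form of `pointwise` -/
theorem int_lower (A : Set ℕ) (h : ℕ) (lam : ℝ) {ρ γ η : ℝ} (hρ : 1 / 2 ≤ ρ) (hρ1 : ρ < 1)
    (hγ : γ < 1) (hη : 0 < η) (hη1 : η < 1) :
    (1 - η) * ∫ θ in {θ : ℝ | Real.cos θ ≤ γ}, XX A ρ θ ^ h ∂mu ≤
      (h.factorial : ℝ) ^ 2 * VV A h lam (ρ ^ 2) +
        (2 / η) * ((h.factorial * lam) ^ 2 / (1 - γ) + sv (fun n => dd A h n ^ 2) (ρ ^ 2)) := by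
  have h0 : 0 ≤ ρ := by linarith
  set E := {θ : ℝ | Real.cos θ ≤ γ} with hE
  have hEm : MeasurableSet E := (isClosed_le Real.continuous_cos continuous_const).measurableSet
  have gF : Good (fun n => (R A h n : ℝ) + (-lam)) := (good_R A h).add (good_const _)
  have cX : Continuous fun θ => (1 - η) * XX A ρ θ ^ h :=
    continuous_const.mul ((continuous_XX A h0 hρ1).pow h)
  have cG : Continuous fun θ => (h.factorial : ℝ) ^ 2 *
      ‖ev (fun n => (R A h n : ℝ) + (-lam)) (cz ρ θ)‖ ^ 2 +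
        (2 / η) * ((h.factorial * lam) ^ 2 / (1 - γ) + ‖ev (dd A h) (cz ρ θ)‖ ^ 2) := by
    have c1 := (continuous_ev_cz gF h0 hρ1).norm.pow 2
    have c2 := (continuous_ev_cz (good_dd A h) h0 hρ1).norm.pow 2
    exact (continuous_const.mul c1).add (continuous_const.mul (continuous_const.add c2))
  rw [← integral_const_mul]
  calc ∫ θ in E, (1 - η) * XX A ρ θ ^ h ∂mu
      ≤ ∫ θ in E, ((h.factorial : ℝ) ^ 2 *
      ‖ev (fun n => (R A h n : ℝ) + (-lam)) (cz ρ θ)‖ ^ 2 +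
        (2 / η) * ((h.factorial * lam) ^ 2 / (1 - γ) + ‖ev (dd A h) (cz ρ θ)‖ ^ 2)) ∂mu :=
        setIntegral_mono_on (integrable_mu cX).integrableOn (integrable_mu cG).integrableOn hEm
          fun θ hθ => pointwise A h lam hρ hρ1 hγ hη hη1 hθ
    _ ≤ ∫ θ, ((h.factorial : ℝ) ^ 2 *
      ‖ev (fun n => (R A h n : ℝ) + (-lam)) (cz ρ θ)‖ ^ 2 +
        (2 / η) * ((h.factorial * lam) ^ 2 / (1 - γ) + ‖ev (dd A h) (cz ρ θ)‖ ^ 2)) ∂mu := by
        refine setIntegral_le_integral (integrable_mu cG) (Filter.Eventually.of_forall fun θ => ?_)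
        have : 0 < 1 - γ := by linarith
        show (0 : ℝ) ≤ _
        positivity
    _ = _ := by
        have c1 : Continuous fun θ => ‖ev (fun n => (R A h n : ℝ) + (-lam)) (cz ρ θ)‖ ^ 2 :=
          (continuous_ev_cz gF h0 hρ1).norm.pow 2
        have c2 : Continuous fun θ => ‖ev (dd A h) (cz ρ θ)‖ ^ 2 :=
          (continuous_ev_cz (good_dd A h) h0 hρ1).norm.pow 2
        have i2 : Integrable (fun θ => (h.factorial * lam) ^ 2 / (1 - γ) +
            ‖ev (dd A h) (cz ρ θ)‖ ^ 2) mu := (integrable_const _).add (integrable_mu c2)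
        rw [integral_add ((integrable_mu c1).const_mul _) (i2.const_mul _), integral_const_mul,
          integral_const_mul, integral_add (integrable_const _) (integrable_mu c2),
          integral_norm_sq gF h0 hρ1, integral_norm_sq (good_dd A h) h0 hρ1]
        have e : sv (fun n => ((R A h n : ℝ) + (-lam)) ^ 2) (ρ ^ 2) = VV A h lam (ρ ^ 2) := by
          unfold VV
          congr 1
        rw [e]
        simp

/-- the moments away from the point `1` -/
theorem int_moments (A : Set ℕ) (k m : ℕ) {ρ γ κ τ a : ℝ} (hρ0 : 0 ≤ ρ) (hρ1 : ρ < 1)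
    (hκ : 0 < κ) (hτ : 0 < τ) (ha : 0 < a) :
    (m + 1) * (MM A (k + m) (ρ ^ 2) - κ / a * MM A (k + m + 1) (ρ ^ 2) -
      (κ⁻¹ * a) ^ (k + m) * mu.real {θ : ℝ | γ < Real.cos θ}) ≤
      τ ^ m * MM A k (ρ ^ 2) +
        m * τ⁻¹ * ∫ θ in {θ : ℝ | Real.cos θ ≤ γ}, XX A ρ θ ^ (k + m + 1) ∂mu := by
  set E := {θ : ℝ | Real.cos θ ≤ γ} with hE
  have hEm : MeasurableSet E := (isClosed_le Real.continuous_cos continuous_const).measurableSet
  have hEc : {θ : ℝ | γ < Real.cos θ} = Eᶜ := by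
    ext θ; simp [hE]
  rw [hEc]
  have cX := continuous_XX A hρ0 hρ1
  have i1 : ∀ j, Integrable (fun θ => XX A ρ θ ^ j) mu := fun j => integrable_mu (cX.pow j)
  have nn : ∀ j θ, 0 ≤ XX A ρ θ ^ j := fun j θ => pow_nonneg (XX_nonneg A ρ θ) j
  have s1 : ∫ θ in E, XX A ρ θ ^ (k + m) ∂mu + ∫ θ in Eᶜ, XX A ρ θ ^ (k + m) ∂mu =
      MM A (k + m) (ρ ^ 2) := by
    rw [integral_add_compl hEm (i1 _), integral_XX_pow A _ hρ0 hρ1]
  have s2 : ∫ θ in Eᶜ, XX A ρ θ ^ (k + m) ∂mu ≤ κ / a * MM A (k + m + 1) (ρ ^ 2) +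
      (κ⁻¹ * a) ^ (k + m) * mu.real Eᶜ := by
    calc ∫ θ in Eᶜ, XX A ρ θ ^ (k + m) ∂mu
        ≤ ∫ θ in Eᶜ, (κ / a * XX A ρ θ ^ (k + m + 1) + (κ⁻¹ * a) ^ (k + m)) ∂mu := by
          refine setIntegral_mono_on (i1 _).integrableOn
            (((i1 _).const_mul _).add (integrable_const _)).integrableOn hEm.compl fun θ _ => ?_
          exact near_zero (k + m) (XX_nonneg A ρ θ) hκ ha
      _ = κ / a * ∫ θ in Eᶜ, XX A ρ θ ^ (k + m + 1) ∂mu + (κ⁻¹ * a) ^ (k + m) * mu.real Eᶜ := by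
          rw [integral_add ((i1 _).const_mul _).integrableOn (integrable_const _).integrableOn,
            integral_const_mul, setIntegral_const, smul_eq_mul, mul_comm (mu.real Eᶜ)]
      _ ≤ _ := by
          have : ∫ θ in Eᶜ, XX A ρ θ ^ (k + m + 1) ∂mu ≤ MM A (k + m + 1) (ρ ^ 2) := by
            rw [← integral_XX_pow A _ hρ0 hρ1]
            exact setIntegral_le_integral (i1 _) (Filter.Eventually.of_forall (nn _))
          have h2 : 0 ≤ κ / a := by positivity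
          have := mul_le_mul_of_nonneg_left this h2
          linarith
  have s3 : (m + 1) * ∫ θ in E, XX A ρ θ ^ (k + m) ∂mu ≤
      τ ^ m * ∫ θ in E, XX A ρ θ ^ k ∂mu + m * τ⁻¹ * ∫ θ in E, XX A ρ θ ^ (k + m + 1) ∂mu := by
    rw [← integral_const_mul, ← integral_const_mul, ← integral_const_mul,
      ← integral_add ((i1 _).const_mul _).integrableOn ((i1 _).const_mul _).integrableOn]
    refine setIntegral_mono_on ((i1 _).const_mul _).integrableOn
      (((i1 _).const_mul _).add ((i1 _).const_mul _)).integrableOn hEm fun θ _ => ?_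
    exact amgm k m (XX_nonneg A ρ θ) hτ
  have s4 : ∫ θ in E, XX A ρ θ ^ k ∂mu ≤ MM A k (ρ ^ 2) := by
    rw [← integral_XX_pow A _ hρ0 hρ1]
    exact setIntegral_le_integral (i1 _) (Filter.Eventually.of_forall (nn _))
  have s5 := mul_le_mul_of_nonneg_left s4 (show 0 ≤ τ ^ m by positivity)
  have s6 : (m + 1 : ℝ) * (MM A (k + m) (ρ ^ 2) - κ / a * MM A (k + m + 1) (ρ ^ 2) -
      (κ⁻¹ * a) ^ (k + m) * mu.real Eᶜ) ≤ (m + 1) * ∫ θ in E, XX A ρ θ ^ (k + m) ∂mu :=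
    mul_le_mul_of_nonneg_left (by linarith) (by positivity)
  linarith

end Pool.Agent.U204.RF
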