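import Mathlib

/-!
# Power series on circles: products and Parseval's identity
-/

set_option autoImplicit false

open Finset MeasureTheory

namespace Pool.Agent.U204.RF

/-- the normalised Lebesgue measure on `(-π, π]` -/
noncomputable def mu : Measure ℝ :=
  (ENNReal.ofReal (1 / (2 * Real.pi))) • (volume.restrict (Set.Ioc (-Real.pi) Real.pi))

theorem integral_mu {E : Type*} [NormedAddCommGroup E] [NormedSpace ℝ E] (g : ℝ → E) :
    ∫ θ, g θ ∂mu = (1 / (2 * Real.pi)) • ∫ θ in (-Real.pi)..Real.pi, g θ := by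
  unfold mu
  rw [integral_smul_measure, intervalIntegral.integral_of_le (by linarith [Real.pi_pos]),
    ENNReal.toReal_ofReal (by positivity)]

instance : IsProbabilityMeasure mu := ⟨by
  unfold mu
  rw [Measure.smul_apply, Measure.restrict_apply_univ, Real.volume_Ioc, smul_eq_mul,
    ← ENNReal.ofReal_mul (by positivity)]
  have : 1 / (2 * Real.pi) * (Real.pi - -Real.pi) = 1 := by
    field_simp; ring
  rw [this, ENNReal.ofReal_one]⟩

/-- the value of the power series with the coefficients `c` -/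
noncomputable def ev (c : ℕ → ℝ) (z : ℂ) : ℂ := ∑' n, (c n : ℂ) * z ^ n

/-- the point of the circle of radius `ρ` with argument `θ` -/
noncomputable def cz (ρ θ : ℝ) : ℂ := (ρ : ℂ) * Complex.exp (Complex.I * θ)

theorem norm_cz {ρ : ℝ} (hρ : 0 ≤ ρ) (θ : ℝ) : ‖cz ρ θ‖ = ρ := by
  unfold cz
  rw [norm_mul, mul_comm Complex.I, Complex.norm_exp_ofReal_mul_I, mul_one, Complex.norm_real,
    Real.norm_of_nonneg hρ]

theorem continuous_cz (ρ : ℝ) : Continuous (cz ρ) := by
  unfold cz; fun_prop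

/-- the coefficients grow subexponentially -/
def Good (c : ℕ → ℝ) : Prop := ∀ x : ℝ, 0 ≤ x → x < 1 → Summable fun n => |c n| * x ^ n

theorem Good.norm {c : ℕ → ℝ} (hc : Good c) {z : ℂ} (hz : ‖z‖ < 1) :
    Summable fun n => ‖(c n : ℂ) * z ^ n‖ := by
  refine (hc ‖z‖ (norm_nonneg z) hz).congr fun n => ?_
  rw [norm_mul, norm_pow, Complex.norm_real, Real.norm_eq_abs]

/-- convolution -/
def conv (c d : ℕ → ℝ) (n : ℕ) : ℝ := ∑ p ∈ antidiagonal n, c p.1 * d p.2

theorem Good.of_le {c d : ℕ → ℝ} (hd : Good d) (h : ∀ n, |c n| ≤ |d n|) : Good c := by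
  intro x hx0 hx1
  refine Summable.of_nonneg_of_le (fun n => by positivity) (fun n => ?_) (hd x hx0 hx1)
  exact mul_le_mul_of_nonneg_right (h n) (by positivity)

theorem Good.add {c d : ℕ → ℝ} (hc : Good c) (hd : Good d) : Good (fun n => c n + d n) := by
  intro x hx0 hx1
  refine Summable.of_nonneg_of_le (fun n => by positivity) (fun n => ?_)
    ((hc x hx0 hx1).add (hd x hx0 hx1))
  rw [← add_mul]
  exact mul_le_mul_of_nonneg_right (abs_add_le _ _) (by positivity)

theorem Good.smul {c : ℕ → ℝ} (hc : Good c) (a : ℝ) : Good (fun n => a * c n) := by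
  intro x hx0 hx1
  refine ((hc x hx0 hx1).mul_left |a|).congr fun n => ?_
  rw [abs_mul]; ring

theorem good_const (a : ℝ) : Good (fun _ => a) := by
  intro x hx0 hx1
  exact (summable_geometric_of_lt_one hx0 hx1).mul_left |a|

theorem Good.of_bdd {c : ℕ → ℝ} {a : ℝ} (h : ∀ n, |c n| ≤ a) : Good c :=
  (good_const a).of_le fun n => (h n).trans (le_abs_self a)

theorem Good.conv {c d : ℕ → ℝ} (hc : Good c) (hd : Good d) : Good (conv c d) := by
  intro x hx0 hx1
  have h := summable_norm_sum_mul_antidiagonal_of_summable_norm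
    (f := fun n => |c n| * x ^ n) (g := fun n => |d n| * x ^ n)
    ((hc x hx0 hx1).congr fun n => (Real.norm_of_nonneg (by positivity)).symm)
    ((hd x hx0 hx1).congr fun n => (Real.norm_of_nonneg (by positivity)).symm)
  refine Summable.of_nonneg_of_le (fun n => by positivity) (fun n => ?_) h
  rw [Real.norm_of_nonneg (Finset.sum_nonneg fun p _ => by positivity)]
  unfold RF.conv
  calc |∑ p ∈ antidiagonal n, c p.1 * d p.2| * x ^ n
      ≤ (∑ p ∈ antidiagonal n, |c p.1| * |d p.2|) * x ^ n := by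
        refine mul_le_mul_of_nonneg_right ?_ (by positivity)
        refine (abs_sum_le_sum_abs _ _).trans (le_of_eq ?_)
        exact sum_congr rfl fun p _ => abs_mul _ _
    _ = ∑ p ∈ antidiagonal n, |c p.1| * x ^ p.1 * (|d p.2| * x ^ p.2) := by
        rw [sum_mul]
        refine sum_congr rfl fun p hp => ?_
        rw [← HasAntidiagonal.mem_antidiagonal.1 hp, pow_add]; ring

theorem ev_conv {c d : ℕ → ℝ} (hc : Good c) (hd : Good d) {z : ℂ} (hz : ‖z‖ < 1) :
    ev (conv c d) z = ev c z * ev d z := by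
  unfold ev
  rw [tsum_mul_tsum_eq_tsum_sum_antidiagonal_of_summable_norm (hc.norm hz) (hd.norm hz)]
  refine tsum_congr fun n => ?_
  unfold conv
  push_cast
  rw [sum_mul]
  refine sum_congr rfl fun p hp => ?_
  rw [← HasAntidiagonal.mem_antidiagonal.1 hp, pow_add]; ring

theorem ev_add {c d : ℕ → ℝ} (hc : Good c) (hd : Good d) {z : ℂ} (hz : ‖z‖ < 1) :
    ev (fun n => c n + d n) z = ev c z + ev d z := by
  unfold ev
  rw [← (hc.norm hz).of_norm.tsum_add (hd.norm hz).of_norm]
  refine tsum_congr fun n => ?_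
  push_cast; ring

theorem ev_smul {c : ℕ → ℝ} (a : ℝ) (z : ℂ) :
    ev (fun n => a * c n) z = a * ev c z := by
  unfold ev
  rw [← tsum_mul_left]
  refine tsum_congr fun n => ?_
  push_cast; ring

theorem continuous_ev_cz {c : ℕ → ℝ} (hc : Good c) {ρ : ℝ} (h0 : 0 ≤ ρ) (h1 : ρ < 1) :
    Continuous fun θ => ev c (cz ρ θ) := by
  unfold ev
  refine continuous_tsum (u := fun n => |c n| * ρ ^ n) (fun n => ?_) (hc ρ h0 h1) fun n θ => ?_
  · exact continuous_const.mul ((continuous_cz ρ).pow n)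
  · rw [norm_mul, norm_pow, Complex.norm_real, Real.norm_eq_abs, norm_cz h0]

theorem integral_exp_int (k : ℤ) :
    ∫ θ, Complex.exp (Complex.I * k * θ) ∂mu = if k = 0 then 1 else 0 := by
  split_ifs with h
  · subst h
    simp
  · rw [integral_mu, integral_exp_mul_complex (by
      simp [Complex.I_ne_zero, h])]
    have h1 : Complex.exp (Complex.I * k * (Real.pi : ℝ)) =
        Complex.exp (Complex.I * k * ((-Real.pi : ℝ) : ℂ)) := by
      rw [Complex.exp_eq_exp_iff_exists_int]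
      refine ⟨k, ?_⟩
      push_cast; ring
    rw [h1, sub_self, zero_div, smul_zero]

theorem parseval {c : ℕ → ℝ} (hc : Good c) {ρ : ℝ} (h0 : 0 ≤ ρ) (h1 : ρ < 1) :
    ∫ θ, ‖ev c (cz ρ θ)‖ ^ 2 ∂mu = ∑' n, c n ^ 2 * (ρ ^ 2) ^ n := by
  set F : ℕ × ℕ → ℝ → ℂ := fun p θ =>
    ((c p.1 * ρ ^ p.1 * (c p.2 * ρ ^ p.2) : ℝ) : ℂ) *
      Complex.exp (Complex.I * ((p.1 : ℤ) - (p.2 : ℤ) : ℤ) * θ) with hF
  have hsum : Summable fun p : ℕ × ℕ => |c p.1 * ρ ^ p.1 * (c p.2 * ρ ^ p.2)| := by
    have h2 : Summable fun n => ‖c n * ρ ^ n‖ :=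
      (hc ρ h0 h1).congr fun n => by rw [norm_mul, norm_pow, Real.norm_eq_abs, Real.norm_of_nonneg h0]
    exact (summable_mul_of_summable_norm h2 h2).norm
  have hpt : ∀ θ, ((‖ev c (cz ρ θ)‖ ^ 2 : ℝ) : ℂ) = ∑' p, F p θ := by
    intro θ
    have hz : ‖cz ρ θ‖ < 1 := by rw [norm_cz h0]; exact h1
    have e1 : ((‖ev c (cz ρ θ)‖ ^ 2 : ℝ) : ℂ) = ev c (cz ρ θ) * (starRingEnd ℂ) (ev c (cz ρ θ)) := by
      rw [Complex.mul_conj, Complex.normSq_eq_norm_sq]
    have e2 : (starRingEnd ℂ) (ev c (cz ρ θ)) = ∑' n, (c n : ℂ) * ((starRingEnd ℂ) (cz ρ θ)) ^ n := by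
      unfold ev
      rw [Complex.conj_tsum]
      refine tsum_congr fun n => ?_
      rw [map_mul, map_pow, Complex.conj_ofReal]
    rw [e1, e2]
    unfold ev
    rw [tsum_mul_tsum_of_summable_norm (hc.norm hz) (hc.norm (by rwa [Complex.norm_conj]))]
    refine tsum_congr fun p => ?_
    simp only [hF]
    have e3 : (starRingEnd ℂ) (cz ρ θ) = (ρ : ℂ) * Complex.exp (-(Complex.I * θ)) := by
      unfold cz
      rw [map_mul, Complex.conj_ofReal, ← Complex.exp_conj, map_mul, Complex.conj_I,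
        Complex.conj_ofReal]
      ring_nf
    rw [e3]
    unfold cz
    rw [mul_pow, mul_pow, ← Complex.exp_nat_mul, ← Complex.exp_nat_mul]
    push_cast
    have e4 : Complex.exp (Complex.I * ((p.1 : ℂ) - (p.2 : ℂ)) * θ) =
        Complex.exp (p.1 * (Complex.I * θ)) * Complex.exp (p.2 * -(Complex.I * θ)) := by
      rw [← Complex.exp_add]; congr 1; ring
    rw [e4]; ring
  have hnorm : ∀ p θ, ‖F p θ‖ = |c p.1 * ρ ^ p.1 * (c p.2 * ρ ^ p.2)| := by
    intro p θ
    simp only [hF]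
    rw [norm_mul, Complex.norm_real, Real.norm_eq_abs]
    have : Complex.I * (((p.1 : ℤ) - (p.2 : ℤ) : ℤ) : ℂ) * θ =
        ((((p.1 : ℤ) - (p.2 : ℤ) : ℤ) : ℝ) * θ : ℝ) * Complex.I := by push_cast; ring
    rw [this, Complex.norm_exp_ofReal_mul_I, mul_one]
  have hcont : ∀ p, Continuous (F p) := by
    intro p; simp only [hF]; fun_prop
  have hint : ∀ p, Integrable (F p) mu := by
    intro p
    refine Integrable.of_bound (hcont p).aestronglyMeasurable
      (|c p.1 * ρ ^ p.1 * (c p.2 * ρ ^ p.2)|) (Filter.Eventually.of_forall fun θ => ?_)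
    rw [hnorm]
  have hH := hasSum_integral_of_summable_integral_norm hint (by
    refine hsum.congr fun p => ?_
    simp only [hnorm]
    simp)
  have hval : ∀ p : ℕ × ℕ, ∫ θ, F p θ ∂mu =
      if p.1 = p.2 then ((c p.1 ^ 2 * (ρ ^ 2) ^ p.1 : ℝ) : ℂ) else 0 := by
    intro p
    simp only [hF]
    rw [integral_const_mul, integral_exp_int]
    by_cases h : p.1 = p.2
    · rw [if_pos (by rw [h]; ring), if_pos h, mul_one]
      congr 1
      rw [← h]; ring
    · rw [if_neg (by intro h'; exact h (by exact_mod_cast sub_eq_zero.1 h')), if_neg h, mul_zero]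
  have hfin : ((∫ θ, ‖ev c (cz ρ θ)‖ ^ 2 ∂mu : ℝ) : ℂ) = ((∑' n, c n ^ 2 * (ρ ^ 2) ^ n : ℝ) : ℂ) := by
    rw [← integral_complex_ofReal, integral_congr_ae (Filter.Eventually.of_forall hpt),
      ← hH.tsum_eq, tsum_congr hval]
    have hinj : Function.Injective fun n : ℕ => (n, n) := fun a b h => (Prod.mk.inj h).1
    rw [Complex.ofReal_tsum, ← hinj.tsum_eq]
    · refine tsum_congr fun n => ?_
      simp
    · intro p hp
      rw [Function.mem_support] at hp
      have : p.1 = p.2 := by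
        by_contra h
        exact hp (if_neg h)
      exact ⟨p.1, Prod.ext rfl this⟩
  exact_mod_cast hfin

end Pool.Agent.U204.RF
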