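import Pool.Agent.U204.RFComb
import Pool.Agent.U204.RFParseval

/-!
# Generating functions of the ordered representation functions; repetitions
-/

set_option autoImplicit false

open Finset

namespace Pool.Agent.U204.RF

open Classical in
/-- indicator of `A` -/
noncomputable def chi (A : Set ℕ) (n : ℕ) : ℝ := if n ∈ A then 1 else 0

open Classical in
/-- indicator of `{2 a : a ∈ A}` -/
noncomputable def dbl (A : Set ℕ) (n : ℕ) : ℝ := if ∃ a ∈ A, 2 * a = n then 1 else 0

theorem chi_nonneg (A : Set ℕ) (n : ℕ) : 0 ≤ chi A n := by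
  unfold chi; split_ifs <;> norm_num

theorem chi_le_one (A : Set ℕ) (n : ℕ) : chi A n ≤ 1 := by
  unfold chi; split_ifs <;> norm_num

theorem dbl_nonneg (A : Set ℕ) (n : ℕ) : 0 ≤ dbl A n := by
  unfold dbl; split_ifs <;> norm_num

theorem dbl_le_one (A : Set ℕ) (n : ℕ) : dbl A n ≤ 1 := by
  unfold dbl; split_ifs <;> norm_num

theorem good_chi (A : Set ℕ) : Good (chi A) :=
  Good.of_bdd (a := 1) fun n => by
    rw [abs_of_nonneg (chi_nonneg A n)]; exact chi_le_one A n

theorem good_dbl (A : Set ℕ) : Good (dbl A) :=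
  Good.of_bdd (a := 1) fun n => by
    rw [abs_of_nonneg (dbl_nonneg A n)]; exact dbl_le_one A n

theorem card_filter_succ (A : Set ℕ) (j n : ℕ) (P : List ℕ → Prop) :
    (cnt (L A (j + 1) n) P : ℝ) =
      ∑ p ∈ antidiagonal n, chi A p.1 * (cnt (L A j p.2) fun l => P (p.1 :: l) : ℝ) := by
  classical
  simp only [cnt_eq]
  have h1 : (L A (j + 1) n).filter P = (antidiagonal n).biUnion fun p =>
      (if p.1 ∈ A then (L A j p.2).image (List.cons p.1) else ∅).filter P := by
    rw [← filter_biUnion]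
    congr 1
  rw [h1, card_biUnion]
  · push_cast
    refine sum_congr rfl fun p _ => ?_
    unfold chi
    split_ifs with h
    · rw [one_mul, filter_image, card_image_of_injective _ (List.cons_injective)]
    · simp
  · intro p hp q hq hpq
    rw [Function.onFun, disjoint_left]
    intro l hl hl'
    rw [mem_filter] at hl hl'
    apply hpq
    have e1 : ∀ p : ℕ × ℕ, l ∈ (if p.1 ∈ A then (L A j p.2).image (List.cons p.1) else ∅) →
        l.head? = some p.1 := by
      intro p h
      split_ifs at h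
      · rw [mem_image] at h
        obtain ⟨l', -, rfl⟩ := h
        rfl
      · simp at h
    have e2 := (e1 p hl.1).symm.trans (e1 q hl'.1)
    have e3 : p.1 = q.1 := by simpa using e2
    rw [Finset.mem_coe, HasAntidiagonal.mem_antidiagonal] at hp hq
    exact Prod.ext e3 (by omega)

theorem r_succ (A : Set ℕ) (j n : ℕ) :
    (r A (j + 1) n : ℝ) = conv (chi A) (fun m => (r A j m : ℝ)) n := by
  classical
  have h := card_filter_succ A j n (fun _ => True)
  simp only [cnt_eq, filter_true] at h
  unfold r conv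
  exact h

theorem r_zero (A : Set ℕ) (n : ℕ) : (r A 0 n : ℝ) = if n = 0 then 1 else 0 := by
  unfold r L
  split_ifs <;> simp

theorem good_r (A : Set ℕ) (j : ℕ) : Good (fun n => (r A j n : ℝ)) := by
  induction j with
  | zero =>
    refine Good.of_bdd (a := 1) fun n => ?_
    rw [r_zero]; split_ifs <;> norm_num
  | succ j ih =>
    have : (fun n => (r A (j + 1) n : ℝ)) = conv (chi A) (fun m => (r A j m : ℝ)) :=
      funext fun n => r_succ A j n
    rw [this]
    exact (good_chi A).conv ih

theorem ev_r (A : Set ℕ) (j : ℕ) {z : ℂ} (hz : ‖z‖ < 1) :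
    ev (fun n => (r A j n : ℝ)) z = ev (chi A) z ^ j := by
  induction j with
  | zero =>
    unfold ev
    rw [tsum_eq_single 0]
    · simp only [r_zero]; simp
    · intro n hn
      simp only [r_zero, if_neg hn]; simp
  | succ j ih =>
    have : (fun n => (r A (j + 1) n : ℝ)) = conv (chi A) (fun m => (r A j m : ℝ)) :=
      funext fun n => r_succ A j n
    rw [this, ev_conv (good_chi A) (good_r A j) hz, ih, pow_succ']

/-- value of a power series at a real point -/
noncomputable def sv (c : ℕ → ℝ) (y : ℝ) : ℝ := ∑' n, c n * y ^ n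

theorem ev_ofReal (c : ℕ → ℝ) (y : ℝ) : ev c (y : ℂ) = (sv c y : ℂ) := by
  unfold ev sv
  rw [Complex.ofReal_tsum]
  refine tsum_congr fun n => ?_
  push_cast; ring

theorem Good.summable {c : ℕ → ℝ} (hc : Good c) {y : ℝ} (h0 : 0 ≤ y) (h1 : y < 1) :
    Summable fun n => c n * y ^ n := by
  refine Summable.of_norm ((hc y h0 h1).congr fun n => ?_)
  rw [norm_mul, norm_pow, Real.norm_eq_abs, Real.norm_of_nonneg h0]

theorem norm_ofReal_lt {y : ℝ} (h0 : 0 ≤ y) (h1 : y < 1) : ‖(y : ℂ)‖ < 1 := by
  rw [Complex.norm_real, Real.norm_of_nonneg h0]; exact h1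

theorem sv_conv {c d : ℕ → ℝ} (hc : Good c) (hd : Good d) {y : ℝ} (h0 : 0 ≤ y) (h1 : y < 1) :
    sv (conv c d) y = sv c y * sv d y := by
  have h := ev_conv hc hd (norm_ofReal_lt h0 h1)
  rw [ev_ofReal, ev_ofReal, ev_ofReal] at h
  exact_mod_cast h

theorem sv_r (A : Set ℕ) (j : ℕ) {y : ℝ} (h0 : 0 ≤ y) (h1 : y < 1) :
    sv (fun n => (r A j n : ℝ)) y = sv (chi A) y ^ j := by
  have h := ev_r A j (norm_ofReal_lt h0 h1)
  rw [ev_ofReal, ev_ofReal] at h
  exact_mod_cast h

theorem sv_mono {c d : ℕ → ℝ} (hc : Good c) (hd : Good d) (h : ∀ n, c n ≤ d n) {y : ℝ}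
    (h0 : 0 ≤ y) (h1 : y < 1) : sv c y ≤ sv d y := by
  unfold sv
  exact (hc.summable h0 h1).tsum_le_tsum (fun n => mul_le_mul_of_nonneg_right (h n) (by positivity))
    (hd.summable h0 h1)

theorem sv_nonneg {c : ℕ → ℝ} (h : ∀ n, 0 ≤ c n) {y : ℝ} (h0 : 0 ≤ y) : 0 ≤ sv c y := by
  unfold sv
  exact tsum_nonneg fun n => mul_nonneg (h n) (by positivity)

theorem sv_smul (c : ℕ → ℝ) (a y : ℝ) : sv (fun n => a * c n) y = a * sv c y := by
  unfold sv
  rw [← tsum_mul_left]
  exact tsum_congr fun n => by ring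

theorem sv_add {c d : ℕ → ℝ} (hc : Good c) (hd : Good d) {y : ℝ}
    (h0 : 0 ≤ y) (h1 : y < 1) : sv (fun n => c n + d n) y = sv c y + sv d y := by
  unfold sv
  rw [← (hc.summable h0 h1).tsum_add (hd.summable h0 h1)]
  exact tsum_congr fun n => by ring

theorem sv_dbl_le (A : Set ℕ) {y : ℝ} (h0 : 0 ≤ y) (h1 : y < 1) :
    sv (dbl A) y ≤ sv (chi A) y := by
  unfold sv
  have hinj : Function.Injective fun n : ℕ => 2 * n := fun a b h => by
    simpa using h
  have e1 : ∑' n, dbl A n * y ^ n = ∑' n, dbl A (2 * n) * y ^ (2 * n) := by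
    refine (hinj.tsum_eq (f := fun n => dbl A n * y ^ n) ?_).symm
    intro n hn
    rw [Function.mem_support] at hn
    unfold dbl at hn
    split_ifs at hn with h
    · obtain ⟨a, -, rfl⟩ := h
      exact ⟨a, rfl⟩
    · simp at hn
  rw [e1]
  have e2 : ∀ n, dbl A (2 * n) = chi A n := by
    intro n
    unfold dbl chi
    by_cases h : n ∈ A
    · rw [if_pos ⟨n, h, rfl⟩, if_pos h]
    · rw [if_neg, if_neg h]
      rintro ⟨a, ha, hn⟩
      exact h (by rwa [← Nat.eq_of_mul_eq_mul_left (by norm_num) hn])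
  have hs := (good_chi A).summable h0 h1
  refine Summable.tsum_le_tsum (fun n => ?_) ?_ hs
  · rw [e2]
    exact mul_le_mul_of_nonneg_left (pow_le_pow_of_le_one h0 h1.le (by omega)) (chi_nonneg A n)
  · refine Summable.of_nonneg_of_le (fun n => mul_nonneg (dbl_nonneg _ _) (by positivity))
      (fun n => ?_) hs
    rw [e2]
    exact mul_le_mul_of_nonneg_left (pow_le_pow_of_le_one h0 h1.le (by omega)) (chi_nonneg A n)

/-- the power series of `A` -/
noncomputable def Phi (A : Set ℕ) : PowerSeries ℝ := PowerSeries.mk (chi A)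

theorem coeff_Phi_pow (A : Set ℕ) (j n : ℕ) :
    PowerSeries.coeff n (Phi A ^ j) = (r A j n : ℝ) := by
  induction j generalizing n with
  | zero =>
    rw [pow_zero, PowerSeries.coeff_one, r_zero]
  | succ j ih =>
    rw [pow_succ', PowerSeries.coeff_mul, r_succ]
    unfold conv Phi
    refine sum_congr rfl fun p _ => ?_
    rw [PowerSeries.coeff_mk]
    congr 1
    exact ih p.2

/-- number of lists containing `a` -/
noncomputable def wc (A : Set ℕ) (j a m : ℕ) : ℕ := cnt (L A j m) fun l => a ∈ l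

theorem wc_zero (A : Set ℕ) (a m : ℕ) : wc A 0 a m = 0 := by
  classical
  unfold wc
  rw [cnt_eq, card_eq_zero, filter_eq_empty_iff]
  intro l hl
  rw [mem_L] at hl
  have : l = [] := List.length_eq_zero_iff.1 hl.1
  simp [this]

theorem wc_le (A : Set ℕ) (j a m : ℕ) :
    (wc A (j + 1) a m : ℝ) ≤ (j + 1) * PowerSeries.coeff m (PowerSeries.X ^ a * Phi A ^ j) := by
  classical
  induction j generalizing m with
  | zero =>
    have h := card_filter_succ A 0 m (fun l => a ∈ l)
    unfold wc
    rw [h]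
    simp only [cnt_eq]
    have e : ∀ p ∈ antidiagonal m, chi A p.1 *
        (((L A 0 p.2).filter fun l => a ∈ p.1 :: l).card : ℝ) ≤
        (if p = (a, m - a) then (if a ≤ m then (r A 0 (m - a) : ℝ) else 0) else 0) := by
      intro p hp
      rw [HasAntidiagonal.mem_antidiagonal] at hp
      by_cases h1 : p.1 = a
      · have hp2 : p = (a, m - a) := Prod.ext h1 (show p.2 = m - a by omega)
        rw [if_pos hp2, if_pos (by omega)]
        have h2 : (((L A 0 p.2).filter fun l => a ∈ p.1 :: l).card : ℝ) ≤ r A 0 (m - a) := by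
          have : p.2 = m - a := by omega
          rw [this]
          exact_mod_cast card_filter_le _ _
        calc chi A p.1 * (((L A 0 p.2).filter fun l => a ∈ p.1 :: l).card : ℝ)
            ≤ 1 * (((L A 0 p.2).filter fun l => a ∈ p.1 :: l).card : ℝ) :=
              mul_le_mul_of_nonneg_right (chi_le_one A _) (Nat.cast_nonneg _)
          _ ≤ _ := by rw [one_mul]; exact h2
      · have h2 : ((L A 0 p.2).filter fun l => a ∈ p.1 :: l) = ∅ := by
          rw [filter_eq_empty_iff]
          intro l hl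
          rw [mem_L] at hl
          have : l = [] := List.length_eq_zero_iff.1 hl.1
          subst this
          rw [List.mem_singleton]
          exact fun h => h1 h.symm
        rw [h2]
        simp only [card_empty, Nat.cast_zero, mul_zero]
        split_ifs <;> positivity
    refine (sum_le_sum e).trans ?_
    rw [Finset.sum_ite_eq', PowerSeries.coeff_X_pow_mul', coeff_Phi_pow]
    simp only [HasAntidiagonal.mem_antidiagonal]
    push_cast
    split_ifs <;> first | positivity | simp
  | succ j ih =>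
    have h := card_filter_succ A (j + 1) m (fun l => a ∈ l)
    unfold wc
    rw [h]
    simp only [cnt_eq]
    have e : ∀ p ∈ antidiagonal m, chi A p.1 *
        (((L A (j + 1) p.2).filter fun l => a ∈ p.1 :: l).card : ℝ) ≤
        (if p = (a, m - a) then (if a ≤ m then (r A (j + 1) (m - a) : ℝ) else 0) else 0) +
          chi A p.1 * ((j + 1) * PowerSeries.coeff p.2 (PowerSeries.X ^ a * Phi A ^ j)) := by
      intro p hp
      rw [HasAntidiagonal.mem_antidiagonal] at hp
      have hih := ih p.2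
      have h0 : 0 ≤ chi A p.1 := chi_nonneg A _
      have hcard : (((L A (j + 1) p.2).filter fun l => a ∈ p.1 :: l).card : ℝ) ≤
          (if p.1 = a then (r A (j + 1) p.2 : ℝ) else 0) + wc A (j + 1) a p.2 := by
        by_cases h1 : p.1 = a
        · rw [if_pos h1]
          have : (((L A (j + 1) p.2).filter fun l => a ∈ p.1 :: l).card : ℝ) ≤ r A (j + 1) p.2 := by
            exact_mod_cast card_filter_le _ _
          have h2 : (0 : ℝ) ≤ wc A (j + 1) a p.2 := by positivity
          linarith
        · rw [if_neg h1, zero_add]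
          have : ((L A (j + 1) p.2).filter fun l => a ∈ p.1 :: l) =
              (L A (j + 1) p.2).filter fun l => a ∈ l := by
            refine filter_congr fun l _ => ?_
            rw [List.mem_cons]
            exact ⟨fun h => h.resolve_left fun h => h1 h.symm, Or.inr⟩
          rw [this]
          unfold wc
          rw [cnt_eq]
      have h3 : chi A p.1 * (if p.1 = a then (r A (j + 1) p.2 : ℝ) else 0) ≤
          (if p = (a, m - a) then (if a ≤ m then (r A (j + 1) (m - a) : ℝ) else 0) else 0) := by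
        by_cases h1 : p.1 = a
        · have hp2 : p = (a, m - a) := Prod.ext h1 (show p.2 = m - a by omega)
          rw [if_pos h1, if_pos hp2, if_pos (by omega)]
          have : p.2 = m - a := by omega
          rw [this]
          calc chi A p.1 * (r A (j + 1) (m - a) : ℝ) ≤ 1 * (r A (j + 1) (m - a) : ℝ) :=
                mul_le_mul_of_nonneg_right (chi_le_one A _) (by positivity)
            _ = _ := one_mul _
        · rw [if_neg h1, mul_zero]
          split_ifs <;> positivity
      calc chi A p.1 * (((L A (j + 1) p.2).filter fun l => a ∈ p.1 :: l).card : ℝ)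
          ≤ chi A p.1 * ((if p.1 = a then (r A (j + 1) p.2 : ℝ) else 0) + wc A (j + 1) a p.2) :=
            mul_le_mul_of_nonneg_left hcard h0
        _ = chi A p.1 * (if p.1 = a then (r A (j + 1) p.2 : ℝ) else 0) +
            chi A p.1 * wc A (j + 1) a p.2 := by ring
        _ ≤ _ := add_le_add h3 (mul_le_mul_of_nonneg_left hih h0)
    refine (sum_le_sum e).trans ?_
    rw [sum_add_distrib, Finset.sum_ite_eq']
    have e2 : ∑ p ∈ antidiagonal m, chi A p.1 *
        ((j + 1) * PowerSeries.coeff p.2 (PowerSeries.X ^ a * Phi A ^ j)) =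
        (j + 1) * PowerSeries.coeff m (PowerSeries.X ^ a * Phi A ^ (j + 1)) := by
      have : (PowerSeries.X : PowerSeries ℝ) ^ a * Phi A ^ (j + 1) =
          Phi A * (PowerSeries.X ^ a * Phi A ^ j) := by ring
      rw [this, PowerSeries.coeff_mul, mul_sum]
      refine sum_congr rfl fun p _ => ?_
      unfold Phi
      rw [PowerSeries.coeff_mk]
      ring
    rw [e2]
    have e3 : (if (a, m - a) ∈ antidiagonal m then (if a ≤ m then (r A (j + 1) (m - a) : ℝ) else 0)
        else 0) ≤ PowerSeries.coeff m (PowerSeries.X ^ a * Phi A ^ (j + 1)) := by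
      rw [PowerSeries.coeff_X_pow_mul', coeff_Phi_pow]
      split_ifs <;> first | positivity | simp
    push_cast
    linarith

theorem s_zero (A : Set ℕ) (n : ℕ) : s A 0 n = 0 := by
  classical
  unfold s
  rw [cnt_eq, card_eq_zero, filter_eq_empty_iff]
  intro l hl
  rw [mem_L] at hl
  have : l = [] := List.length_eq_zero_iff.1 hl.1
  subst this
  simp

theorem s_succ_le (A : Set ℕ) (j n : ℕ) :
    (s A (j + 1) n : ℝ) ≤ ∑ p ∈ antidiagonal n, chi A p.1 * (wc A j p.1 p.2 + s A j p.2) := by
  classical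
  unfold s
  rw [card_filter_succ A j n (fun l => ¬ l.Nodup)]
  refine sum_le_sum fun p _ => mul_le_mul_of_nonneg_left ?_ (chi_nonneg A _)
  unfold wc
  simp only [cnt_eq]
  have : ((L A j p.2).filter fun l => ¬ (p.1 :: l).Nodup) ⊆
      ((L A j p.2).filter fun l => p.1 ∈ l) ∪ ((L A j p.2).filter fun l => ¬ l.Nodup) := by
    intro l hl
    rw [mem_filter] at hl
    rw [mem_union, mem_filter, mem_filter]
    rw [List.nodup_cons, not_and_or, not_not] at hl
    rcases hl.2 with h | h
    · exact Or.inl ⟨hl.1, h⟩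
    · exact Or.inr ⟨hl.1, h⟩
  exact_mod_cast (card_le_card this).trans (card_union_le _ _)

theorem s_one (A : Set ℕ) (n : ℕ) : s A 1 n = 0 := by
  have h := s_succ_le A 0 n
  simp only [wc_zero, s_zero, Nat.cast_zero, add_zero, mul_zero, sum_const_zero] at h
  exact_mod_cast le_antisymm h (by positivity)

/-- the power series of `{2 a : a ∈ A}` -/
noncomputable def Dbl (A : Set ℕ) : PowerSeries ℝ := PowerSeries.mk (dbl A)

theorem sum_wc_le (A : Set ℕ) (j n : ℕ) :
    ∑ p ∈ antidiagonal n, chi A p.1 * (wc A (j + 1) p.1 p.2 : ℝ) ≤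
      (j + 1) * PowerSeries.coeff n (Dbl A * Phi A ^ j) := by
  classical
  have h1 : ∑ p ∈ antidiagonal n, chi A p.1 * (wc A (j + 1) p.1 p.2 : ℝ) ≤
      ∑ p ∈ antidiagonal n, (if p.1 ∈ A ∧ p.1 ≤ p.2 then ((j + 1) * (r A j (p.2 - p.1) : ℝ)) else 0) := by
    refine sum_le_sum fun p _ => ?_
    have h := wc_le A j p.1 p.2
    rw [PowerSeries.coeff_X_pow_mul'] at h
    unfold chi
    by_cases hA : p.1 ∈ A
    · rw [if_pos hA, one_mul]
      by_cases hp : p.1 ≤ p.2
      · rw [if_pos ⟨hA, hp⟩]
        rw [if_pos hp, coeff_Phi_pow] at h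
        exact h
      · rw [if_neg fun h => hp h.2]
        rw [if_neg hp, mul_zero] at h
        exact h
    · rw [if_neg hA, if_neg fun h => hA h.1, zero_mul]
  refine h1.trans ?_
  rw [← sum_filter, PowerSeries.coeff_mul, mul_sum]
  have hinj : Set.InjOn (fun p : ℕ × ℕ => (2 * p.1, p.2 - p.1))
      ((antidiagonal n).filter fun p => p.1 ∈ A ∧ p.1 ≤ p.2 : Finset (ℕ × ℕ)) := by
    intro p hp q hq hpq
    rw [Finset.mem_coe, mem_filter, HasAntidiagonal.mem_antidiagonal] at hp hq
    have h2 := (Prod.mk.inj hpq).1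
    have h3 : p.1 = q.1 := by omega
    exact Prod.ext h3 (by omega)
  have hsub : ((antidiagonal n).filter fun p : ℕ × ℕ => p.1 ∈ A ∧ p.1 ≤ p.2).image
      (fun p : ℕ × ℕ => (2 * p.1, p.2 - p.1)) ⊆ antidiagonal n := by
    intro q hq
    rw [mem_image] at hq
    obtain ⟨p, hp, rfl⟩ := hq
    rw [mem_filter, HasAntidiagonal.mem_antidiagonal] at hp
    rw [HasAntidiagonal.mem_antidiagonal]
    show 2 * p.1 + (p.2 - p.1) = n
    omega
  have hnn : ∀ q ∈ antidiagonal n, (0 : ℝ) ≤ (j + 1) *
      (PowerSeries.coeff q.1 (Dbl A) * PowerSeries.coeff q.2 (Phi A ^ j)) := by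
    intro q _
    rw [coeff_Phi_pow]
    unfold Dbl
    rw [PowerSeries.coeff_mk]
    have := dbl_nonneg A q.1
    positivity
  calc ∑ p ∈ (antidiagonal n).filter (fun p => p.1 ∈ A ∧ p.1 ≤ p.2),
        ((j : ℝ) + 1) * (r A j (p.2 - p.1) : ℝ)
      = ∑ p ∈ (antidiagonal n).filter (fun p => p.1 ∈ A ∧ p.1 ≤ p.2),
        (fun q : ℕ × ℕ => ((j : ℝ) + 1) * (PowerSeries.coeff q.1 (Dbl A) *
          PowerSeries.coeff q.2 (Phi A ^ j))) (2 * p.1, p.2 - p.1) := by
        refine sum_congr rfl fun p hp => ?_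
        rw [mem_filter] at hp
        show _ = ((j : ℝ) + 1) * (PowerSeries.coeff (2 * p.1) (Dbl A) *
          PowerSeries.coeff (p.2 - p.1) (Phi A ^ j))
        rw [coeff_Phi_pow]
        unfold Dbl
        rw [PowerSeries.coeff_mk]
        have : dbl A (2 * p.1) = 1 := by
          unfold dbl
          rw [if_pos ⟨p.1, hp.2.1, rfl⟩]
        rw [this, one_mul]
    _ = ∑ q ∈ ((antidiagonal n).filter fun p : ℕ × ℕ => p.1 ∈ A ∧ p.1 ≤ p.2).image
        (fun p : ℕ × ℕ => (2 * p.1, p.2 - p.1)), ((j : ℝ) + 1) *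
        (PowerSeries.coeff q.1 (Dbl A) * PowerSeries.coeff q.2 (Phi A ^ j)) := by
        rw [sum_image hinj]
    _ ≤ _ := sum_le_sum_of_subset_of_nonneg hsub fun q hq _ => hnn q hq

theorem s_le (A : Set ℕ) (j n : ℕ) :
    (s A (j + 2) n : ℝ) ≤ (j + 2) ^ 2 * PowerSeries.coeff n (Dbl A * Phi A ^ j) := by
  have hnn : ∀ j n, (0 : ℝ) ≤ PowerSeries.coeff n (Dbl A * Phi A ^ j) := by
    intro j n
    rw [PowerSeries.coeff_mul]
    refine sum_nonneg fun q _ => ?_
    rw [coeff_Phi_pow]
    unfold Dbl
    rw [PowerSeries.coeff_mk]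
    exact mul_nonneg (dbl_nonneg A _) (by positivity)
  induction j generalizing n with
  | zero =>
    have h := s_succ_le A 1 n
    simp only [s_one, Nat.cast_zero, add_zero] at h
    have h2 := sum_wc_le A 0 n
    have h3 := hnn 0 n
    push_cast at h2 ⊢
    rw [zero_add] at h2 ⊢
    have h4 : (s A 2 n : ℝ) ≤ 1 * PowerSeries.coeff n (Dbl A * Phi A ^ 0) := h.trans h2
    linarith
  | succ j ih =>
    have h := s_succ_le A (j + 2) n
    have h2 := sum_wc_le A (j + 1) n
    have h3 := hnn (j + 1) n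
    have h4 : ∑ p ∈ antidiagonal n, chi A p.1 * (s A (j + 2) p.2 : ℝ) ≤
        (j + 2) ^ 2 * PowerSeries.coeff n (Dbl A * Phi A ^ (j + 1)) := by
      have e : Dbl A * Phi A ^ (j + 1) = Phi A * (Dbl A * Phi A ^ j) := by ring
      rw [e, PowerSeries.coeff_mul, mul_sum]
      refine sum_le_sum fun p _ => ?_
      have := mul_le_mul_of_nonneg_left (ih p.2) (chi_nonneg A p.1)
      have e2 : PowerSeries.coeff p.1 (Phi A) = chi A p.1 := by
        unfold Phi; rw [PowerSeries.coeff_mk]
      rw [e2]
      linarith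
    simp only [mul_add, sum_add_distrib] at h
    push_cast at h2 ⊢
    nlinarith

end Pool.Agent.U204.RF
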