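import Pool.Agent.U204.RFFin

/-!
# At least four representations: density
-/

set_option autoImplicit false

open Finset MeasureTheory Filter Topology

namespace Pool.Agent.U204.RF

theorem infinite_of_basis {A : Set ℕ} {h n0 : ℕ} (hb : ∀ n ≥ n0, 1 ≤ R A h n) : A.Infinite := by
  intro hfin
  obtain ⟨M, hM⟩ := hfin.bddAbove
  have h1 := hb (max n0 (h * M + 1)) (le_max_left _ _)
  obtain ⟨s, hs⟩ := Finset.card_pos.1 (show 0 < (Mu A h (max n0 (h * M + 1))).card from h1)
  rw [mem_Mu] at hs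
  have h2 : s.sum ≤ Multiset.card s • M :=
    Multiset.sum_le_card_nsmul s M fun x hx => hM (hs.2.1 x hx)
  rw [hs.1, hs.2.2, smul_eq_mul] at h2
  have := le_max_right n0 (h * M + 1)
  omega

theorem sv_ind_lt_le (N : ℕ) {y : ℝ} (h0 : 0 ≤ y) (h1 : y < 1) :
    sv (ind {n | n < N}) y ≤ N := by
  unfold sv
  rw [tsum_eq_sum (s := range N)]
  · calc ∑ n ∈ range N, ind {n | n < N} n * y ^ n ≤ ∑ n ∈ range N, (1 : ℝ) := by
          refine sum_le_sum fun n _ => ?_
          calc ind {n | n < N} n * y ^ n ≤ 1 * 1 :=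
                mul_le_mul (ind_le_one _ _) (pow_le_one₀ h0 h1.le) (by positivity) (by norm_num)
            _ = 1 := one_mul 1
      _ = N := by simp
  · intro n hn
    rw [mem_range] at hn
    unfold ind
    rw [if_neg (show n ∉ {n | n < N} from hn), zero_mul]

theorem sv_ind_ge (N : ℕ) {y : ℝ} (h0 : 0 ≤ y) (h1 : y < 1) :
    sv (ind {n | N ≤ n}) y = y ^ N * (1 - y)⁻¹ := by
  unfold sv
  have hinj : Function.Injective fun n : ℕ => n + N := fun a b h => by simpa using h
  rw [← hinj.tsum_eq (f := fun n => ind {n | N ≤ n} n * y ^ n)]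
  · rw [← tsum_geometric_of_lt_one h0 h1, ← tsum_mul_left]
    refine tsum_congr fun n => ?_
    unfold ind
    rw [if_pos (show n + N ∈ {n | N ≤ n} from Nat.le_add_left N n), one_mul, pow_add, mul_comm]
  · intro n hn
    rw [Function.mem_support] at hn
    unfold ind at hn
    by_cases h : N ≤ n
    · exact ⟨n - N, by show n - N + N = n; omega⟩
    · rw [if_neg (show n ∉ {n | N ≤ n} from h), zero_mul] at hn
      exact absurd rfl hn

theorem sv_ind_count_le (Z : Set ℕ) [DecidablePred (· ∈ Z)] (N : ℕ) {y : ℝ} (h0 : 0 ≤ y)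
    (h1 : y < 1) :
    sv (ind Z) y ≤ ((range N).filter fun n => n ∈ Z).card + y ^ N * (1 - y)⁻¹ := by
  rw [← sv_ind_ge N h0 h1]
  have h2 : sv (ind Z) y ≤ sv (fun n => ind {n | n < N ∧ n ∈ Z} n + ind {n | N ≤ n} n) y := by
    refine sv_mono (good_ind _) ((good_ind _).add (good_ind _)) (fun n => ?_) h0 h1
    by_cases hn : N ≤ n
    · have e : ind {n | N ≤ n} n = 1 := by
        unfold ind; rw [if_pos (show n ∈ {n | N ≤ n} from hn)]
      rw [e]
      linarith [ind_le_one Z n, ind_nonneg {n | n < N ∧ n ∈ Z} n]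
    · have e : ind {n | n < N ∧ n ∈ Z} n = ind Z n := by
        unfold ind
        by_cases hz : n ∈ Z
        · rw [if_pos (show n ∈ {n | n < N ∧ n ∈ Z} from ⟨by omega, hz⟩), if_pos hz]
        · rw [if_neg (show n ∉ {n | n < N ∧ n ∈ Z} from fun h => hz h.2), if_neg hz]
      rw [e]
      linarith [ind_nonneg {n | N ≤ n} n]
  rw [sv_add (good_ind _) (good_ind _) h0 h1] at h2
  refine h2.trans (add_le_add_left ?_ _)
  unfold sv
  rw [tsum_eq_sum (s := (range N).filter fun n => n ∈ Z)]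
  · calc ∑ n ∈ (range N).filter (fun n => n ∈ Z), ind {n | n < N ∧ n ∈ Z} n * y ^ n
        ≤ ∑ n ∈ (range N).filter (fun n => n ∈ Z), (1 : ℝ) := by
          refine sum_le_sum fun n _ => ?_
          calc ind {n | n < N ∧ n ∈ Z} n * y ^ n ≤ 1 * 1 :=
                mul_le_mul (ind_le_one _ _) (pow_le_one₀ h0 h1.le) (by positivity) (by norm_num)
            _ = 1 := one_mul 1
      _ = _ := by simp
  · intro n hn
    rw [mem_filter, mem_range] at hn
    unfold ind
    rw [if_neg (show n ∉ {n | n < N ∧ n ∈ Z} from hn), zero_mul]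

theorem density (h : ℕ) (hh : 3 ≤ h) (K : ℕ) :
    ∃ δ : ℝ, 0 < δ ∧ ∀ A : Set ℕ, (∃ n0, ∀ n ≥ n0, 1 ≤ R A h n) → (∀ n, R A h n ≤ K) →
      ∃ N0 : ℕ, ∀ N ≥ N0, δ * N ≤ ((range N).filter fun n => 4 ≤ R A h n).card := by
  obtain ⟨ζ, hζ, a₀, hmain⟩ := main_ineq h hh K
  set M : ℝ := 2 / ζ with hM
  have hM0 : 0 < M := by positivity
  refine ⟨ζ / (4 * M), by positivity, ?_⟩
  rintro A ⟨n0, hn0⟩ hK
  have hA := infinite_of_basis hn0
  -- points close to 1
  have hev : ∀ᶠ y in 𝓝[<] (1 : ℝ), (a₀ ≤ sv (chi A) y) ∧ (1 / 4 < y ∧ y < 1) := by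
    filter_upwards [sv_chi_large hA a₀, Ioo_mem_nhdsLT (show (1 / 4 : ℝ) < 1 by norm_num)] with y hy hy2
    exact ⟨hy, hy2.1, hy2.2⟩
  have htend : Tendsto (fun N : ℕ => 1 - M / (N : ℝ)) atTop (𝓝[<] (1 : ℝ)) := by
    rw [tendsto_nhdsWithin_iff]
    constructor
    · have h1 : Tendsto (fun N : ℕ => M / (N : ℝ)) atTop (𝓝 0) :=
        tendsto_const_nhds.div_atTop tendsto_natCast_atTop_atTop
      simpa using (tendsto_const_nhds (x := (1 : ℝ))).sub h1
    · filter_upwards [eventually_gt_atTop 0] with N hN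
      have : (0 : ℝ) < N := by exact_mod_cast hN
      show 1 - M / (N : ℝ) < 1
      have : 0 < M / (N : ℝ) := by positivity
      linarith
  have hev2 := htend.eventually hev
  have hlarge : ∀ᶠ N : ℕ in atTop, M ≤ (N : ℝ) ∧ 4 * M * ((ζ + 1) * n0) / ζ ≤ (N : ℝ) :=
    (tendsto_natCast_atTop_atTop.eventually_ge_atTop M).and
      (tendsto_natCast_atTop_atTop.eventually_ge_atTop _)
  obtain ⟨N0, hN0⟩ := eventually_atTop.1 (hev2.and hlarge)
  refine ⟨N0, fun N hN => ?_⟩
  obtain ⟨⟨ha, hy14, hy1⟩, hNM, hN2⟩ := hN0 N hN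
  have hNpos : (0 : ℝ) < N := by linarith
  set y : ℝ := 1 - M / (N : ℝ) with hy
  have hy0 : 0 ≤ y := by linarith
  have hinv : (1 - y)⁻¹ = N / M := by
    have h1 : 1 - y = M / N := by rw [hy]; ring
    rw [h1, inv_div]
  have h2 : Real.sqrt y ^ 2 = y := Real.sq_sqrt hy0
  have h3 : 1 / 2 ≤ Real.sqrt y := by
    rw [show (1 / 2 : ℝ) = Real.sqrt (1 / 4) by
      rw [show (1 / 4 : ℝ) = (1 / 2) ^ 2 by norm_num, Real.sqrt_sq (by norm_num)]]
    exact Real.sqrt_le_sqrt hy14.le
  have h4 : Real.sqrt y < 1 := by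
    rw [Real.sqrt_lt' one_pos]; simpa using hy1
  have hz := hmain A hK (Real.sqrt y) h3 h4 (by rw [h2]; exact ha)
  rw [h2] at hz
  -- lower bound for the sum of the representation function
  have hS : N / M - n0 ≤ sv (fun n => (R A h n : ℝ)) y := by
    have h5 : sv (fun _ => 1) y ≤ sv (fun n => (R A h n : ℝ) + ind {n | n < n0} n) y := by
      refine sv_mono (good_const 1) ((good_R A h).add (good_ind _)) (fun n => ?_) hy0 hy1
      by_cases hn : n < n0
      · have e : ind {n | n < n0} n = 1 := by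
          unfold ind; rw [if_pos (show n ∈ {n | n < n0} from hn)]
        have : (0 : ℝ) ≤ R A h n := Nat.cast_nonneg _
        rw [e]; linarith
      · have h6 : (1 : ℝ) ≤ R A h n := by exact_mod_cast hn0 n (by omega)
        linarith [ind_nonneg {n | n < n0} n]
    rw [sv_add (good_R A h) (good_ind _) hy0 hy1] at h5
    have h6 : sv (fun _ => 1) y = (1 - y)⁻¹ := by
      unfold sv
      simp only [one_mul]
      exact tsum_geometric_of_lt_one hy0 hy1
    rw [h6, hinv] at h5
    have := sv_ind_lt_le n0 hy0 hy1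
    linarith
  -- upper bound for the exceptional numbers
  have hZ : sv (ind (ZZ A h)) y ≤ n0 + sv (ind {n | 4 ≤ R A h n}) y := by
    have h5 : sv (ind (ZZ A h)) y ≤ sv (fun n => ind {n | n < n0} n + ind {n | 4 ≤ R A h n} n) y := by
      refine sv_mono (good_ind _) ((good_ind _).add (good_ind _)) (fun n => ?_) hy0 hy1
      by_cases hn : n < n0
      · have e : ind {n | n < n0} n = 1 := by
          unfold ind; rw [if_pos (show n ∈ {n | n < n0} from hn)]
        rw [e]
        linarith [ind_le_one (ZZ A h) n, ind_nonneg {n | 4 ≤ R A h n} n]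
      · have h6 : 1 ≤ R A h n := hn0 n (by omega)
        have e : ind (ZZ A h) n = ind {n | 4 ≤ R A h n} n := by
          unfold ind
          by_cases h7 : 4 ≤ R A h n
          · rw [if_pos (show n ∈ ZZ A h from Or.inr h7), if_pos (show n ∈ {n | 4 ≤ R A h n} from h7)]
          · rw [if_neg (show n ∉ {n | 4 ≤ R A h n} from h7), if_neg]
            rintro (h8 | h8)
            · omega
            · exact h7 h8
        rw [e]
        linarith [ind_nonneg {n | n < n0} n]
    rw [sv_add (good_ind _) (good_ind _) hy0 hy1] at h5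
    linarith [sv_ind_lt_le n0 hy0 hy1]
  have hC : sv (ind {n | 4 ≤ R A h n}) y ≤ (((range N).filter fun n => 4 ≤ R A h n).card : ℝ) +
      y ^ N * (1 - y)⁻¹ :=
    @sv_ind_count_le {n | 4 ≤ R A h n} (fun n => Nat.decLe 4 (R A h n)) N y hy0 hy1
  have hyN : y ^ N ≤ ζ / 2 := by
    have h5 : y ^ N ≤ Real.exp (-M) := Real.one_sub_div_pow_le_exp_neg hNM
    have h6 : Real.exp (-M) ≤ ζ / 2 := by
      rw [Real.exp_neg, inv_le_comm₀ (Real.exp_pos _) (by positivity)]
      have : (ζ / 2)⁻¹ = M := by rw [hM]; field_simp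
      rw [this]
      linarith [Real.add_one_le_exp M]
    exact h5.trans h6
  have htail : y ^ N * (1 - y)⁻¹ ≤ ζ / 2 * (N / M) := by
    rw [hinv]
    exact mul_le_mul_of_nonneg_right hyN (by positivity)
  have hz2 : ζ * (N / M - n0) ≤ ζ * sv (fun n => (R A h n : ℝ)) y :=
    mul_le_mul_of_nonneg_left hS hζ.le
  have hN3 : (ζ + 1) * n0 ≤ ζ / 4 * (N / M) := by
    rw [div_le_iff₀ hζ] at hN2
    have e : ζ / 4 * (N / M) = ζ * N / (4 * M) := by ring
    rw [e, le_div_iff₀ (by positivity)]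
    linarith
  have e2 : ζ / (4 * M) * N = ζ / 4 * (N / M) := by ring
  rw [e2]
  linarith

theorem four (h : ℕ) (hh : 3 ≤ h) {A : Set ℕ} (hb : ∃ n0, ∀ n ≥ n0, 1 ≤ R A h n) (n₁ : ℕ) :
    ∃ n ≥ n₁, 4 ≤ R A h n := by
  by_contra hcon
  push Not at hcon
  -- bounded
  set K : ℕ := 3 + ∑ n ∈ range n₁, R A h n with hK
  have hbd : ∀ n, R A h n ≤ K := by
    intro n
    by_cases hn : n < n₁
    · have := single_le_sum (f := fun n => R A h n) (fun _ _ => Nat.zero_le _) (mem_range.2 hn)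
      have h7 : R A h n ≤ ∑ n ∈ range n₁, R A h n := this
      omega
    · have := hcon n (by omega)
      omega
  obtain ⟨δ, hδ, hden⟩ := density h hh K
  obtain ⟨N0, hN0⟩ := hden A hb hbd
  obtain ⟨N1, hN1⟩ := exists_nat_gt ((n₁ : ℝ) / δ)
  have h1 := hN0 (max N0 N1) (le_max_left _ _)
  have h2 : ((range (max N0 N1)).filter fun n => 4 ≤ R A h n).card ≤ n₁ := by
    calc ((range (max N0 N1)).filter fun n => 4 ≤ R A h n).card ≤ (range n₁).card := by
          refine card_le_card fun n hn => ?_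
          rw [mem_filter] at hn
          rw [mem_range]
          by_contra hc
          exact absurd (hcon n (by omega)) (not_lt.2 hn.2)
      _ = n₁ := card_range _
  have h3 : (((range (max N0 N1)).filter fun n => 4 ≤ R A h n).card : ℝ) ≤ n₁ := by exact_mod_cast h2
  have h4 : (N1 : ℝ) ≤ ((max N0 N1 : ℕ) : ℝ) := by exact_mod_cast le_max_right _ _
  rw [div_lt_iff₀ hδ] at hN1
  nlinarith

end Pool.Agent.U204.RF
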