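import Pool.Agent.U204.RFFour

/-!
# At least four representations: the analytic part
-/

set_option autoImplicit false

open Finset MeasureTheory Filter Topology

namespace Pool.Agent.U204.RF

theorem fac_ineq (h k m : ℕ) (hh : 3 ≤ h) (hkm : h = k + m + 1) (hk : k = h / 2) :
    (2 / 3 * (h : ℝ)) ^ m * k.factorial ≤ (k + m).factorial := by
  set P : ℝ := ∏ i ∈ range m, ((k : ℝ) + 1 + i) with hP
  have e1 : ((k + m).factorial : ℝ) = k.factorial * P := by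
    rw [hP]
    have : ∀ m : ℕ, ((k + m).factorial : ℝ) = k.factorial * ∏ i ∈ range m, ((k : ℝ) + 1 + i) := by
      intro m
      induction m with
      | zero => simp
      | succ m ih =>
        rw [prod_range_succ, ← mul_assoc, ← ih, ← add_assoc, Nat.factorial_succ]
        push_cast; ring
    exact this m
  have hP0 : 0 ≤ P := prod_nonneg fun i _ => by positivity
  have e2 : P * P = ∏ i ∈ range m, (((k : ℝ) + 1 + i) * ((k : ℝ) + m - i)) := by
    have : P = ∏ i ∈ range m, ((k : ℝ) + m - i) := by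
      rw [hP, ← prod_range_reflect]
      refine prod_congr rfl fun i hi => ?_
      rw [mem_range] at hi
      have : ((m - 1 - i : ℕ) : ℝ) = (m : ℝ) - 1 - i := by
        rw [Nat.cast_sub (by omega), Nat.cast_sub (by omega)]; simp
      rw [this]; ring
    conv_lhs => rw [hP]
    rw [← hP]
    conv_lhs => rw [this]
    rw [hP] at this
    rw [prod_mul_distrib, this]
  have e3 : (2 / 3 * (h : ℝ)) ^ m * (2 / 3 * (h : ℝ)) ^ m ≤ P * P := by
    rw [e2, ← mul_pow]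
    have : (2 / 3 * (h : ℝ) * (2 / 3 * (h : ℝ))) ^ m =
        ∏ i ∈ range m, (2 / 3 * (h : ℝ) * (2 / 3 * (h : ℝ))) := by
      rw [prod_const, card_range]
    rw [this]
    refine prod_le_prod (fun i _ => by positivity) fun i hi => ?_
    rw [mem_range] at hi
    have hi1 : (i : ℝ) + 1 ≤ m := by exact_mod_cast hi
    have hi0 : (0 : ℝ) ≤ i := Nat.cast_nonneg i
    have hhk : (h : ℝ) = k + m + 1 := by exact_mod_cast hkm
    have h2k : (h : ℝ) ≤ 2 * k + 1 := by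
      have : h ≤ 2 * k + 1 := by omega
      exact_mod_cast this
    have hh' : (3 : ℝ) ≤ h := by exact_mod_cast hh
    have g1 : ((k : ℝ) + 1) * (k + m) ≤ ((k : ℝ) + 1 + i) * ((k : ℝ) + m - i) := by nlinarith
    have g2 : 2 / 3 * (h : ℝ) * (2 / 3 * (h : ℝ)) ≤ ((k : ℝ) + 1) * (k + m) := by
      have e : (k : ℝ) + m = h - 1 := by linarith
      rw [e]
      nlinarith
    linarith
  have e4 : (2 / 3 * (h : ℝ)) ^ m ≤ P := by
    by_contra hcon
    push Not at hcon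
    have h1 : 0 ≤ (2 / 3 * (h : ℝ)) ^ m := by positivity
    have : P * P < (2 / 3 * (h : ℝ)) ^ m * (2 / 3 * (h : ℝ)) ^ m :=
      mul_lt_mul'' hcon hcon hP0 hP0
    linarith
  rw [e1, mul_comm]
  exact mul_le_mul_of_nonneg_left e4 (by positivity)

/-- moments of order `k` when most `n` have one representation of order `k` -/
theorem MM_le_of_R_le (A : Set ℕ) (k : ℕ) {K : ℕ} (hK : ∀ n, R A k n ≤ K) {y : ℝ} (h0 : 0 ≤ y)
    (h1 : y < 1) :
    MM A k y ≤ k.factorial * sv (chi A) y ^ k + (k.factorial * K) ^ 2 * sv (ind (DD A k)) y := by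
  unfold MM
  rw [← sv_r A k h0 h1, ← sv_smul, ← sv_smul,
    ← sv_add ((good_r A k).smul _) ((good_ind _).smul _) h0 h1]
  refine sv_mono (good_r A k).sq (((good_r A k).smul _).add ((good_ind _).smul _)) (fun n => ?_) h0 h1
  have hr : (r A k n : ℝ) ≤ k.factorial * R A k n := by exact_mod_cast r_le A k n
  have hr0 : (0 : ℝ) ≤ r A k n := Nat.cast_nonneg _
  have hf : (0 : ℝ) < k.factorial := by positivity
  unfold ind
  by_cases hD : n ∈ DD A k
  · rw [if_pos hD, mul_one]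
    have hRK : (R A k n : ℝ) ≤ K := by exact_mod_cast hK n
    have : (r A k n : ℝ) ≤ k.factorial * K := hr.trans (mul_le_mul_of_nonneg_left hRK hf.le)
    have h2 := pow_le_pow_left₀ hr0 this 2
    have h3 : (0 : ℝ) ≤ k.factorial * r A k n := by positivity
    linarith
  · rw [if_neg hD, mul_zero, add_zero]
    have hR1 : R A k n ≤ 1 := by
      have : ¬ 2 ≤ R A k n := hD
      omega
    have hR1' : (R A k n : ℝ) ≤ 1 := by exact_mod_cast hR1
    have : (r A k n : ℝ) ≤ k.factorial := by nlinarith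
    nlinarith

theorem dsq_le (A : Set ℕ) (k e : ℕ) {K : ℕ} (hK : ∀ n, R A (k + k + e) n ≤ K) {y : ℝ} (h0 : 0 ≤ y)
    (h1 : y < 1) :
    sv (ind (DD A k)) y ^ 2 * sv (chi A) y ^ e ≤
      (k + k + e).factorial * K * sv (ind {n | 4 ≤ R A (k + k + e) n}) y +
        sv (fun n => (s A (k + k + e) n : ℝ)) y := by
  have g1 := (good_ind (DD A k)).conv (good_r A e)
  have e1 : sv (ind (DD A k)) y ^ 2 * sv (chi A) y ^ e =
      sv (conv (ind (DD A k)) (conv (ind (DD A k)) (fun n => (r A e n : ℝ)))) y := by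
    rw [sv_conv (good_ind _) g1 h0 h1, sv_conv (good_ind _) (good_r A e) h0 h1, sv_r A e h0 h1]
    ring
  rw [e1, ← sv_smul, ← sv_add ((good_ind _).smul _) (good_s A _) h0 h1]
  refine sv_mono ((good_ind _).conv g1) (((good_ind _).smul _).add (good_s A _)) (fun m => ?_) h0 h1
  refine (conv_DD_le A k e m).trans ?_
  have h2 : (if 4 ≤ R A (k + k + e) m then (r A (k + k + e) m : ℝ) else 0) ≤
      (k + k + e).factorial * K * ind {n | 4 ≤ R A (k + k + e) n} m := by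
    unfold ind
    by_cases hR : 4 ≤ R A (k + k + e) m
    · rw [if_pos hR, if_pos (show m ∈ {n | 4 ≤ R A (k + k + e) n} from hR), mul_one]
      have hr : (r A (k + k + e) m : ℝ) ≤ (k + k + e).factorial * R A (k + k + e) m := by
        exact_mod_cast r_le A _ m
      have hRK : (R A (k + k + e) m : ℝ) ≤ K := by exact_mod_cast hK m
      exact hr.trans (mul_le_mul_of_nonneg_left hRK (by positivity))
    · rw [if_neg hR]
      positivity
  linarith

/-- exceptional numbers -/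
def ZZ (A : Set ℕ) (h : ℕ) : Set ℕ := {n | R A h n = 0 ∨ 4 ≤ R A h n}

theorem V_le (A : Set ℕ) (h : ℕ) {K : ℕ} (hK : ∀ n, R A h n ≤ K) {y : ℝ} (h0 : 0 ≤ y)
    (h1 : y < 1) :
    VV A h (7 / 4) y ≤ 9 / 16 * sv (fun n => (R A h n : ℝ)) y + ((K : ℝ) + 2) ^ 2 * sv (ind (ZZ A h)) y := by
  unfold VV
  have g1 : Good fun n => ((R A h n : ℝ) - 7 / 4) ^ 2 := by
    have := ((good_R A h).add (good_const (-(7 / 4)))).sq
    refine this.of_le fun n => ?_
    rw [← sub_eq_add_neg]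
  rw [← sv_smul, ← sv_smul, ← sv_add ((good_R A h).smul _) ((good_ind _).smul _) h0 h1]
  refine sv_mono g1 (((good_R A h).smul _).add ((good_ind _).smul _)) (fun n => ?_) h0 h1
  have hRK : (R A h n : ℝ) ≤ K := by exact_mod_cast hK n
  have hR0 : (0 : ℝ) ≤ R A h n := Nat.cast_nonneg _
  unfold ind
  by_cases hZ : n ∈ ZZ A h
  · rw [if_pos hZ]
    nlinarith
  · rw [if_neg hZ, mul_zero, add_zero]
    have hZ' : ¬ (R A h n = 0 ∨ 4 ≤ R A h n) := hZ
    have : R A h n = 1 ∨ R A h n = 2 ∨ R A h n = 3 := by omega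
    rcases this with h | h | h <;> rw [h] <;> norm_num

set_option maxHeartbeats 2000000 in
theorem main_ineq (h : ℕ) (hh : 3 ≤ h) (K : ℕ) :
    ∃ ζ : ℝ, 0 < ζ ∧ ∃ a₀ : ℝ, ∀ (A : Set ℕ), (∀ n, R A h n ≤ K) → ∀ ρ : ℝ, 1 / 2 ≤ ρ → ρ < 1 →
      a₀ ≤ sv (chi A) (ρ ^ 2) →
      ζ * sv (fun n => (R A h n : ℝ)) (ρ ^ 2) ≤ sv (ind (ZZ A h)) (ρ ^ 2) := by
  obtain ⟨k, hk⟩ : ∃ k, k = h / 2 := ⟨_, rfl⟩
  obtain ⟨m, hkm⟩ : ∃ m, h = k + m + 1 := ⟨h - 1 - k, by omega⟩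
  obtain ⟨e, hke⟩ : ∃ e, h = k + k + e := ⟨h - k - k, by omega⟩
  have hm : 1 ≤ m := by omega
  have hm0 : (0 : ℝ) < m := by exact_mod_cast hm
  obtain ⟨j, hj⟩ : ∃ j, h = j + 2 := ⟨h - 2, by omega⟩
  have hh0 : (0 : ℝ) < h := by positivity
  set ω : ℝ := 2 / 3 * h with hω
  have hω0 : 0 < ω := by positivity
  have hfac := fac_ineq h k m hh hkm hk
  rw [← hω] at hfac
  set hf : ℝ := (h.factorial : ℝ) with hhf
  have hf0 : 0 < hf := by positivity
  -- constants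
  set K0 : ℝ := (K : ℝ) ^ 2 with hK0
  set K1 : ℝ := h.factorial ^ 2 * K0 with hK1
  set K2 : ℝ := h.factorial ^ 2 * ((h : ℝ) ^ 4 * (2 * (h.factorial ^ 2 * K0 + 1))) with hK2
  obtain ⟨a₁, ha₁, hcore⟩ := core k m hm hω0 (7 / 4) (max K1 K2) (hf / 96) (by positivity)
  set CD : ℝ := (k.factorial * (K : ℝ)) ^ 2 with hCD
  set C1 : ℝ := ω / m * (ω ^ m * CD) with hC1
  have hC10 : 0 ≤ C1 := by positivity
  set C3 : ℝ := 24 * C1 ^ 2 / hf with hC3
  have hC30 : 0 ≤ C3 := by positivity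
  set C4 : ℝ := 9 / 16 * hf * (hf * (h : ℝ) ^ 2) + C3 * (h : ℝ) ^ 2 with hC4
  have hC40 : 0 ≤ C4 := by positivity
  set C5 : ℝ := hf ^ 2 * ((K : ℝ) + 2) ^ 2 + C3 * (hf * K) + 1 with hC5
  have hC50 : 0 < C5 := by positivity
  refine ⟨hf / (16 * C5), by positivity, max a₁ (96 * C4 / hf), ?_⟩
  intro A hK ρ hρ hρ1 ha
  have ha2 : a₁ ≤ sv (chi A) (ρ ^ 2) := (le_max_left _ _).trans ha
  have ha3 : 96 * C4 / hf ≤ sv (chi A) (ρ ^ 2) := (le_max_right _ _).trans ha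
  have hρ0 : 0 ≤ ρ := by linarith
  have hy0 : 0 ≤ ρ ^ 2 := sq_nonneg _
  have hy1 : ρ ^ 2 < 1 := by nlinarith
  have ha1' : 1 ≤ sv (chi A) (ρ ^ 2) := ha₁.trans ha2
  have ha0 : 0 < sv (chi A) (ρ ^ 2) := by linarith
  -- `A` is nonempty
  have hne : ∃ a0, a0 ∈ A := by
    by_contra hcon
    push Not at hcon
    have : sv (chi A) (ρ ^ 2) = 0 := by
      unfold sv chi
      simp [hcon]
    linarith
  obtain ⟨a0, ha0A⟩ := hne
  have hKk : ∀ n, R A k n ≤ K := fun n => by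
    have h1 := R_mono ha0A k (k + e) n
    have h2 : k + (k + e) = h := by omega
    rw [h2] at h1
    exact h1.trans (hK _)
  have hS0 : 0 ≤ sv (fun n => (R A h n : ℝ)) (ρ ^ 2) := sv_nonneg (fun n => Nat.cast_nonneg _) hy0
  have hSa := S_le_pow A h hy0 hy1
  have hsq : sv (fun n => (R A h n : ℝ) ^ 2) (ρ ^ 2) ≤ K0 * sv (chi A) (ρ ^ 2) ^ h := by
    have h1 : sv (fun n => (R A h n : ℝ) ^ 2) (ρ ^ 2) ≤ sv (fun n => K * (R A h n : ℝ)) (ρ ^ 2) := by
      refine sv_mono (good_R A h).sq ((good_R A h).smul _) (fun n => ?_) hy0 hy1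
      have : (R A h n : ℝ) ≤ K := by exact_mod_cast hK n
      have hR0 : (0 : ℝ) ≤ R A h n := Nat.cast_nonneg _
      nlinarith
    rw [sv_smul] at h1
    have h2 : (K : ℝ) ≤ K0 := by
      rw [hK0]
      exact_mod_cast Nat.le_self_pow (by norm_num) K
    have h3 : (0 : ℝ) ≤ K := Nat.cast_nonneg _
    calc _ ≤ (K : ℝ) * sv (fun n => (R A h n : ℝ)) (ρ ^ 2) := h1
      _ ≤ K0 * sv (chi A) (ρ ^ 2) ^ h := mul_le_mul h2 hSa hS0 (by positivity)
  have hyps : MM A h (ρ ^ 2) ≤ K1 * sv (chi A) (ρ ^ 2) ^ h ∧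
      sv (chi A) (ρ ^ 2) * sv (fun n => dd A h n ^ 2) (ρ ^ 2) ≤ K2 * sv (chi A) (ρ ^ 2) ^ h := by
    have := hyps_of_sq A j (K := K0) hρ0 hρ1 ha1' (by rw [← hj]; exact hsq)
    rw [← hj] at this
    have ej : (j : ℝ) + 2 = h := by rw [hj]; push_cast; ring
    rw [ej] at this
    exact this
  obtain ⟨hM, hD⟩ := hyps
  have hap : 0 < sv (chi A) (ρ ^ 2) ^ h := by positivity
  have hcore' := hcore A ρ hρ hρ1 ha2
  rw [← hkm] at hcore'
  have hfin := hcore' (hM.trans (mul_le_mul_of_nonneg_right (le_max_left _ _) hap.le))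
    (hD.trans (mul_le_mul_of_nonneg_right (le_max_right _ _) hap.le))
  have hMk := MM_le_of_R_le A k hKk hy0 hy1
  have hds := dsq_le A k e (K := K) (by rw [← hke]; exact hK) hy0 hy1
  rw [← hke] at hds
  have hVle := V_le A h hK hy0 hy1
  have hSle := S_le A h hy0 hy1 ha0
  have hsle := sv_s_le A h hy0 hy1
  have hz4 : sv (ind {n | 4 ≤ R A h n}) (ρ ^ 2) ≤ sv (ind (ZZ A h)) (ρ ^ 2) := by
    refine sv_mono (good_ind _) (good_ind _) (fun n => ?_) hy0 hy1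
    unfold ind
    by_cases h4 : 4 ≤ R A h n
    · rw [if_pos (show n ∈ {n | 4 ≤ R A h n} from h4), if_pos (show n ∈ ZZ A h from Or.inr h4)]
    · rw [if_neg (show n ∉ {n | 4 ≤ R A h n} from h4)]
      split_ifs <;> norm_num
  have hz0 : 0 ≤ sv (ind (ZZ A h)) (ρ ^ 2) := sv_nonneg (ind_nonneg _) hy0
  have hd0 : 0 ≤ sv (ind (DD A k)) (ρ ^ 2) := sv_nonneg (ind_nonneg _) hy0
  set a := sv (chi A) (ρ ^ 2)
  set S := sv (fun n => (R A h n : ℝ)) (ρ ^ 2)
  set V := VV A h (7 / 4) (ρ ^ 2)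
  set z := sv (ind (ZZ A h)) (ρ ^ 2)
  set z4 := sv (ind {n | 4 ≤ R A h n}) (ρ ^ 2)
  set d := sv (ind (DD A k)) (ρ ^ 2)
  set sh := sv (fun n => (s A h n : ℝ)) (ρ ^ 2)
  set Mk := MM A k (ρ ^ 2)
  have hak : 0 < a ^ k := by positivity
  set δ : ℝ := d / a ^ k with hδ
  have hδ0 : 0 ≤ δ := by positivity
  set ζ : ℝ := z / a ^ h with hζ
  have hζ0 : 0 ≤ ζ := by positivity
  -- upper bound for `Mk / a^k`
  have p1 : Mk / a ^ k ≤ k.factorial + CD * δ := by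
    rw [div_le_iff₀ hak]
    have e1 : (k.factorial + CD * δ) * a ^ k = k.factorial * a ^ k + CD * d := by
      rw [hδ]; field_simp
    rw [e1]; exact hMk
  -- bound for `δ²`
  have p2 : δ ^ 2 ≤ hf * K * ζ + (h : ℝ) ^ 2 / a := by
    have e1 : a ^ h = (a ^ k) ^ 2 * a ^ e := by
      rw [hke]; ring
    have hae : 0 < a ^ e := by positivity
    have q1 : sh ≤ (h : ℝ) ^ 2 * a ^ h / a := by
      rw [le_div_iff₀ ha0]; linarith
    have q2 : d ^ 2 * a ^ e ≤ hf * K * z + (h : ℝ) ^ 2 * a ^ h / a := by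
      have : hf * K * z4 ≤ hf * K * z := mul_le_mul_of_nonneg_left hz4 (by positivity)
      linarith
    have e2 : δ ^ 2 = d ^ 2 * a ^ e / a ^ h := by
      rw [hδ, e1]; field_simp
    have e3 : hf * K * ζ + (h : ℝ) ^ 2 / a = (hf * K * z + (h : ℝ) ^ 2 * a ^ h / a) / a ^ h := by
      rw [hζ]; field_simp
    rw [e2, e3]
    exact div_le_div_of_nonneg_right q2 hap.le
  -- lower bound from `core`
  have p3 : 2 / 3 * hf - C1 * δ - hf / 96 ≤ hf ^ 2 * V / a ^ h := by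
    refine le_trans ?_ hfin
    have q1 : ω ^ m * (Mk / a ^ k) ≤ (k + m).factorial + ω ^ m * (CD * δ) := by
      have := mul_le_mul_of_nonneg_left p1 (show 0 ≤ ω ^ m by positivity)
      linarith [show ω ^ m * (k.factorial + CD * δ) = ω ^ m * k.factorial + ω ^ m * (CD * δ) by ring]
    have q2 : ω / m * ((m + 1) * ((k + m).factorial : ℝ) - ((k + m).factorial + ω ^ m * (CD * δ))) ≤
        ω / m * ((m + 1) * ((k + m).factorial : ℝ) - ω ^ m * (Mk / a ^ k)) :=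
      mul_le_mul_of_nonneg_left (by linarith) (by positivity)
    have q3 : ω / m * ((m + 1) * ((k + m).factorial : ℝ) - ((k + m).factorial + ω ^ m * (CD * δ))) =
        2 / 3 * hf - C1 * δ := by
      have e1 : hf = (h : ℝ) * (k + m).factorial := by
        rw [hhf]
        conv_lhs => rw [hkm]
        rw [Nat.factorial_succ]
        have : ((h : ℕ) : ℝ) = ((k + m + 1 : ℕ) : ℝ) := by exact_mod_cast hkm
        rw [this]
        push_cast; ring
      rw [e1, hC1, hω]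
      field_simp
      ring
    linarith
  -- upper bound for the variance
  have p4 : hf ^ 2 * V / a ^ h ≤ 9 / 16 * hf + 9 / 16 * hf * (hf * (h : ℝ) ^ 2) / a +
      hf ^ 2 * ((K : ℝ) + 2) ^ 2 * ζ := by
    rw [div_le_iff₀ hap]
    have q1 : hf * S ≤ a ^ h * (1 + hf * (h : ℝ) ^ 2 / a) := hSle
    have q2 : hf ^ 2 * V ≤ hf ^ 2 * (9 / 16 * S + ((K : ℝ) + 2) ^ 2 * z) :=
      mul_le_mul_of_nonneg_left hVle (by positivity)
    have q3 : hf * (9 / 16) * (hf * S) ≤ hf * (9 / 16) * (a ^ h * (1 + hf * (h : ℝ) ^ 2 / a)) :=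
      mul_le_mul_of_nonneg_left q1 (by positivity)
    have e1 : (9 / 16 * hf + 9 / 16 * hf * (hf * (h : ℝ) ^ 2) / a +
        hf ^ 2 * ((K : ℝ) + 2) ^ 2 * ζ) * a ^ h =
        hf * (9 / 16) * (a ^ h * (1 + hf * (h : ℝ) ^ 2 / a)) + hf ^ 2 * (((K : ℝ) + 2) ^ 2 * z) := by
      rw [hζ]; field_simp
    rw [e1]
    linarith [show hf ^ 2 * (9 / 16 * S + ((K : ℝ) + 2) ^ 2 * z) =
      hf * (9 / 16) * (hf * S) + hf ^ 2 * (((K : ℝ) + 2) ^ 2 * z) by ring]
  -- AM-GM for `C1 δ`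
  have p5 : C1 * δ ≤ hf / 96 + C3 * δ ^ 2 := by
    have q := sq_nonneg (hf / 48 - C1 * δ)
    have e1 : C3 * δ ^ 2 = 24 * (C1 * δ) ^ 2 / hf := by rw [hC3]; ring
    rw [e1]
    have e2 : hf / 96 + 24 * (C1 * δ) ^ 2 / hf - C1 * δ = 24 * (hf / 48 - C1 * δ) ^ 2 / hf := by
      field_simp; ring
    have : 0 ≤ 24 * (hf / 48 - C1 * δ) ^ 2 / hf := by positivity
    linarith
  have p6 : C3 * δ ^ 2 ≤ C3 * (hf * K * ζ + (h : ℝ) ^ 2 / a) := mul_le_mul_of_nonneg_left p2 hC30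
  have p7 : C4 / a ≤ hf / 96 := by
    rw [div_le_iff₀ ha0]
    rw [div_le_iff₀ hf0] at ha3
    linarith
  have p8 : C4 / a = 9 / 16 * hf * (hf * (h : ℝ) ^ 2) / a + C3 * ((h : ℝ) ^ 2 / a) := by
    rw [hC4]; ring
  have p9 : C5 * ζ = hf ^ 2 * ((K : ℝ) + 2) ^ 2 * ζ + C3 * (hf * K * ζ) + ζ := by
    rw [hC5]; ring
  have p10 : hf / 16 ≤ C5 * ζ := by
    have e1 : C3 * (hf * K * ζ + (h : ℝ) ^ 2 / a) = C3 * (hf * K * ζ) + C3 * ((h : ℝ) ^ 2 / a) := by
      ring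
    linarith
  have p11 : hf / (16 * C5) ≤ ζ := by
    rw [div_le_iff₀ (by positivity)]
    linarith
  calc hf / (16 * C5) * S ≤ ζ * a ^ h := mul_le_mul p11 hSa hS0 hζ0
    _ = z := by rw [hζ]; field_simp

end Pool.Agent.U204.RF
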