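import Pool.Agent.U204.RFLaw

/-!
# At least four representations
-/

set_option autoImplicit false

open Finset MeasureTheory Filter Topology

namespace Pool.Agent.U204.RF

open Classical in
/-- indicator of a set of natural numbers -/
noncomputable def ind (D : Set ℕ) (n : ℕ) : ℝ := if n ∈ D then 1 else 0

theorem ind_nonneg (D : Set ℕ) (n : ℕ) : 0 ≤ ind D n := by unfold ind; split_ifs <;> norm_num

theorem ind_le_one (D : Set ℕ) (n : ℕ) : ind D n ≤ 1 := by unfold ind; split_ifs <;> norm_num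

theorem good_ind (D : Set ℕ) : Good (ind D) :=
  Good.of_bdd (a := 1) fun n => by
    rw [abs_of_nonneg (ind_nonneg D n)]; exact ind_le_one D n

theorem append_mem_L {A : Set ℕ} {i j n m : ℕ} {l l' : List ℕ} (h : l ∈ L A i n)
    (h' : l' ∈ L A j m) : l ++ l' ∈ L A (i + j) (n + m) := by
  rw [mem_L] at *
  refine ⟨by simp [h.1, h'.1], fun a ha => ?_, by simp [h.2.2, h'.2.2]⟩
  rcases List.mem_append.1 ha with ha | ha
  · exact h.2.1 a ha
  · exact h'.2.1 a ha

theorem ms_eq_of {S S' T T' : Multiset ℕ} (h : S + T = S' + T') (hn : (S + T').Nodup)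
    (hc : Multiset.card S = Multiset.card S') : S = S' := by
  rw [Multiset.nodup_add] at hn
  have hsub : S ⊆ S' := by
    intro a ha
    have : a ∈ S' + T' := by rw [← h]; exact Multiset.mem_add.2 (Or.inl ha)
    rcases Multiset.mem_add.1 this with h1 | h1
    · exact h1
    · exact absurd h1 (Multiset.disjoint_left.1 hn.2.2 ha)
  exact Multiset.eq_of_le_of_card_le ((Multiset.le_iff_subset hn.1).2 hsub) hc.ge

theorem exists_dup {A : Set ℕ} {k e n1 n2 b : ℕ} (h1 : 2 ≤ R A k n1) (h2 : 2 ≤ R A k n2)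
    {lb : List ℕ} (hb : lb ∈ L A e b) (hR : R A (k + k + e) (n1 + n2 + b) ≤ 3) :
    ∃ l1 ∈ L A k n1, ∃ l2 ∈ L A k n2, ¬ (l1 ++ l2 ++ lb).Nodup := by
  classical
  by_contra hcon
  push Not at hcon
  obtain ⟨S1, hS1, S2, hS2, hS⟩ := Finset.one_lt_card.1 (show 1 < (Mu A k n1).card from h1)
  obtain ⟨T1, hT1, T2, hT2, hT⟩ := Finset.one_lt_card.1 (show 1 < (Mu A k n2).card from h2)
  have key : ∀ S ∈ Mu A k n1, ∀ T ∈ Mu A k n2, (S + T + (lb : Multiset ℕ)).Nodup ∧
      S + T + (lb : Multiset ℕ) ∈ Mu A (k + k + e) (n1 + n2 + b) := by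
    intro S hS T hT
    unfold Mu at hS hT
    rw [mem_image] at hS hT
    obtain ⟨l1, hl1, rfl⟩ := hS
    obtain ⟨l2, hl2, rfl⟩ := hT
    refine ⟨?_, ?_⟩
    · have := hcon l1 hl1 l2 hl2
      rw [Multiset.coe_add, Multiset.coe_add, Multiset.coe_nodup]
      exact this
    · unfold Mu
      rw [mem_image]
      exact ⟨l1 ++ l2 ++ lb, append_mem_L (append_mem_L hl1 hl2) hb, by
        rw [Multiset.coe_add, Multiset.coe_add]⟩
  have nd : ∀ S ∈ Mu A k n1, ∀ T ∈ Mu A k n2, (S + T).Nodup := fun S hS T hT =>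
    (Multiset.nodup_add.1 (key S hS T hT).1).1
  have cS : Multiset.card S1 = Multiset.card S2 := (mem_Mu.1 hS1).1.trans (mem_Mu.1 hS2).1.symm
  have n12 : S1 + T1 + (lb : Multiset ℕ) ≠ S1 + T2 + lb := fun h =>
    hT (add_left_cancel (add_right_cancel h))
  have n13 : S1 + T1 + (lb : Multiset ℕ) ≠ S2 + T1 + lb := fun h =>
    hS (add_right_cancel (add_right_cancel h))
  have n14 : S1 + T1 + (lb : Multiset ℕ) ≠ S2 + T2 + lb := fun h =>
    hS (ms_eq_of (add_right_cancel h) (nd S1 hS1 T2 hT2) cS)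
  have n23 : S1 + T2 + (lb : Multiset ℕ) ≠ S2 + T1 + lb := fun h =>
    hS (ms_eq_of (add_right_cancel h) (nd S1 hS1 T1 hT1) cS)
  have n24 : S1 + T2 + (lb : Multiset ℕ) ≠ S2 + T2 + lb := fun h =>
    hS (add_right_cancel (add_right_cancel h))
  have n34 : S2 + T1 + (lb : Multiset ℕ) ≠ S2 + T2 + lb := fun h =>
    hT (add_left_cancel (add_right_cancel h))
  have hsub : ({S1 + T1 + (lb : Multiset ℕ), S1 + T2 + lb, S2 + T1 + lb, S2 + T2 + lb} :
      Finset (Multiset ℕ)) ⊆ Mu A (k + k + e) (n1 + n2 + b) := by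
    intro U hU
    simp only [mem_insert, mem_singleton] at hU
    rcases hU with rfl | rfl | rfl | rfl
    · exact (key S1 hS1 T1 hT1).2
    · exact (key S1 hS1 T2 hT2).2
    · exact (key S2 hS2 T1 hT1).2
    · exact (key S2 hS2 T2 hT2).2
  have hcard := card_le_card hsub
  rw [card_insert_of_notMem (by simp [n12, n13, n14]), card_insert_of_notMem (by simp [n23, n24]),
    card_insert_of_notMem (by simp [n34]), card_singleton] at hcard
  unfold R at hR
  omega

/-- the `n` with two representations of order `k` -/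
def DD (A : Set ℕ) (k : ℕ) : Set ℕ := {n | 2 ≤ R A k n}

theorem conv_DD_le (A : Set ℕ) (k e m : ℕ) :
    conv (ind (DD A k)) (conv (ind (DD A k)) (fun n => (r A e n : ℝ))) m ≤
      (if 4 ≤ R A (k + k + e) m then (r A (k + k + e) m : ℝ) else 0) + s A (k + k + e) m := by
  classical
  set D := DD A k with hD
  set T : Finset (Σ _ : ℕ × ℕ, Σ _ : ℕ × ℕ, List ℕ) :=
    ((antidiagonal m).filter fun p => p.1 ∈ D).sigma fun p =>
      ((antidiagonal p.2).filter fun q => q.1 ∈ D).sigma fun q => L A e q.2 with hT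
  have hcard : conv (ind D) (conv (ind D) (fun n => (r A e n : ℝ))) m = (T.card : ℝ) := by
    rw [hT, card_sigma]
    push_cast
    unfold conv
    rw [sum_filter]
    refine sum_congr rfl fun p _ => ?_
    unfold ind
    split_ifs with h
    · rw [one_mul, card_sigma]
      push_cast
      rw [sum_filter]
      refine sum_congr rfl fun q _ => ?_
      unfold r
      split_ifs <;> simp
    · rw [zero_mul]
  rw [hcard]
  have hex : ∀ x ∈ T, ∃ l : List ℕ, l ∈ L A (k + k + e) m ∧ (l.take k).sum = x.1.1 ∧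
      ((l.drop k).take k).sum = x.2.1.1 ∧ l.drop (k + k) = x.2.2 ∧
      (R A (k + k + e) m ≤ 3 → ¬ l.Nodup) := by
    rintro ⟨p, q, lb⟩ hx
    rw [hT, mem_sigma, mem_sigma, mem_filter, mem_filter, HasAntidiagonal.mem_antidiagonal,
      HasAntidiagonal.mem_antidiagonal] at hx
    obtain ⟨⟨hp, hpD⟩, ⟨hq, hqD⟩, hlb⟩ := hx
    simp only at hp hpD hq hqD hlb
    have hsum : p.1 + q.1 + q.2 = m := by omega
    have form : ∀ l1 ∈ L A k p.1, ∀ l2 ∈ L A k q.1, (l1 ++ l2 ++ lb) ∈ L A (k + k + e) m ∧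
        ((l1 ++ l2 ++ lb).take k).sum = p.1 ∧ (((l1 ++ l2 ++ lb).drop k).take k).sum = q.1 ∧
        (l1 ++ l2 ++ lb).drop (k + k) = lb := by
      intro l1 hl1 l2 hl2
      have h := append_mem_L (append_mem_L hl1 hl2) hlb
      rw [hsum] at h
      rw [mem_L] at hl1 hl2
      refine ⟨h, ?_, ?_, ?_⟩
      · rw [List.append_assoc, ← hl1.1, List.take_left', hl1.2.2]
        rfl
      · rw [List.append_assoc]
        have e1 : (l1 ++ (l2 ++ lb)).drop k = l2 ++ lb := by
          rw [← hl1.1]; exact List.drop_left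
        rw [e1]
        have e2 : (l2 ++ lb).take k = l2 := by
          rw [← hl2.1]; exact List.take_left
        rw [e2, hl2.2.2]
      · have : k + k = (l1 ++ l2).length := by rw [List.length_append, hl1.1, hl2.1]
        rw [this]; exact List.drop_left
    by_cases hR : R A (k + k + e) m ≤ 3
    · rw [← hsum] at hR
      obtain ⟨l1, hl1, l2, hl2, hn⟩ := exists_dup hpD hqD hlb hR
      obtain ⟨f1, f2, f3, f4⟩ := form l1 hl1 l2 hl2
      exact ⟨_, f1, f2, f3, f4, fun _ => hn⟩
    · have g1 : (L A k p.1).Nonempty := by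
        rw [← card_pos]
        have := (show 2 ≤ R A k p.1 from hpD).trans (R_le_r A k p.1)
        unfold r at this
        omega
      have g2 : (L A k q.1).Nonempty := by
        rw [← card_pos]
        have := (show 2 ≤ R A k q.1 from hqD).trans (R_le_r A k q.1)
        unfold r at this
        omega
      obtain ⟨l1, hl1⟩ := g1
      obtain ⟨l2, hl2⟩ := g2
      obtain ⟨f1, f2, f3, f4⟩ := form l1 hl1 l2 hl2
      exact ⟨_, f1, f2, f3, f4, fun h => absurd h hR⟩
  choose! F hF using hex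
  have hinj : Set.InjOn F (T : Set (Σ _ : ℕ × ℕ, Σ _ : ℕ × ℕ, List ℕ)) := by
    rintro ⟨p, q, lb⟩ hx ⟨p', q', lb'⟩ hx' hxx
    have a1 := hF _ hx
    have a2 := hF _ hx'
    rw [hxx] at a1
    have b1 : p.1 = p'.1 := a1.2.1.symm.trans a2.2.1
    have b2 : q.1 = q'.1 := a1.2.2.1.symm.trans a2.2.2.1
    have b3 : lb = lb' := a1.2.2.2.1.symm.trans a2.2.2.2.1
    rw [Finset.mem_coe, hT, mem_sigma, mem_sigma, mem_filter, mem_filter,
      HasAntidiagonal.mem_antidiagonal, HasAntidiagonal.mem_antidiagonal] at hx hx'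
    simp only at hx hx'
    have b4 : p = p' := Prod.ext b1 (by omega)
    subst b4
    have b5 : q = q' := Prod.ext b2 (by omega)
    subst b5
    rw [b3]
  by_cases hR : R A (k + k + e) m ≤ 3
  · rw [if_neg (by omega), zero_add]
    have : T.card ≤ s A (k + k + e) m := by
      unfold s
      rw [cnt_eq]
      refine card_le_card_of_injOn F (fun x hx => ?_) hinj
      have := hF x hx
      exact mem_coe.2 (mem_filter.2 ⟨this.1, this.2.2.2.2 hR⟩)
    exact_mod_cast this
  · rw [if_pos (by omega)]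
    have : T.card ≤ r A (k + k + e) m := by
      unfold r
      refine card_le_card_of_injOn F (fun x hx => ?_) hinj
      exact mem_coe.2 (hF x hx).1
    have h2 : (T.card : ℝ) ≤ r A (k + k + e) m := by exact_mod_cast this
    have h3 : (0 : ℝ) ≤ s A (k + k + e) m := Nat.cast_nonneg _
    linarith

theorem R_mono {A : Set ℕ} {a : ℕ} (ha : a ∈ A) (j i n : ℕ) :
    R A j n ≤ R A (j + i) (n + i * a) := by
  classical
  unfold R
  refine card_le_card_of_injOn (fun S => S + Multiset.replicate i a) (fun S hS => ?_)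
    (fun S _ S' _ h => add_right_cancel h)
  rw [mem_coe, mem_Mu] at hS ⊢
  refine ⟨by simp [hS.1], fun b hb => ?_, by simp [hS.2.2]⟩
  rcases Multiset.mem_add.1 hb with h | h
  · exact hS.2.1 b h
  · rw [Multiset.eq_of_mem_replicate h]; exact ha

end Pool.Agent.U204.RF
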