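import Pool.Agent.U204.RFVar

/-!
# The variance law: final form
-/

set_option autoImplicit false

open Finset MeasureTheory Filter Topology

namespace Pool.Agent.U204.RF

theorem MM_small (A : Set ℕ) (k : ℕ) (hk : k ≤ 1) {y : ℝ} (ha : 0 < sv (chi A) y) :
    MM A k y / sv (chi A) y ^ k = 1 := by
  match k, hk with
  | 0, _ =>
    unfold MM sv
    rw [tsum_eq_single 0]
    · simp only [r_zero]; simp
    · intro n hn
      simp only [r_zero, if_neg hn]; simp
  | 1, _ =>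
    have e : ∀ n, (r A 1 n : ℝ) = chi A n := by
      intro n
      have := coeff_Phi_pow A 1 n
      rw [pow_one] at this
      rw [← this]
      unfold Phi
      rw [PowerSeries.coeff_mk]
    have e2 : MM A 1 y = sv (chi A) y := by
      unfold MM
      congr 1
      funext n
      rw [e]
      unfold chi
      split_ifs <;> norm_num
    rw [e2, pow_one, div_self ha.ne']

theorem S_le (A : Set ℕ) (h : ℕ) {y : ℝ} (h0 : 0 ≤ y) (h1 : y < 1) (ha : 0 < sv (chi A) y) :
    (h.factorial : ℝ) * sv (fun n => (R A h n : ℝ)) y ≤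
      sv (chi A) y ^ h * (1 + h.factorial * (h : ℝ) ^ 2 / sv (chi A) y) := by
  have e1 : (h.factorial : ℝ) * sv (fun n => (R A h n : ℝ)) y ≤
      sv (fun n => (r A h n : ℝ)) y + h.factorial * sv (fun n => (s A h n : ℝ)) y := by
    rw [← sv_smul, ← sv_smul, ← sv_add (good_r A h) ((good_s A h).smul _) h0 h1]
    refine sv_mono ((good_R A h).smul _) ((good_r A h).add ((good_s A h).smul _)) (fun n => ?_) h0 h1
    exact_mod_cast R_mul_le A h n
  rw [sv_r A h h0 h1] at e1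
  have e2 := sv_s_le A h h0 h1
  set a := sv (chi A) y
  have e3 : sv (fun n => (s A h n : ℝ)) y ≤ (h : ℝ) ^ 2 * a ^ h / a := by
    rw [le_div_iff₀ ha]; linarith
  have e4 := mul_le_mul_of_nonneg_left e3 (show (0 : ℝ) ≤ h.factorial by positivity)
  have e5 : a ^ h * (1 + h.factorial * (h : ℝ) ^ 2 / a) =
      a ^ h + h.factorial * ((h : ℝ) ^ 2 * a ^ h / a) := by ring
  rw [e5]
  linarith

theorem S_le_pow (A : Set ℕ) (h : ℕ) {y : ℝ} (h0 : 0 ≤ y) (h1 : y < 1) :
    sv (fun n => (R A h n : ℝ)) y ≤ sv (chi A) y ^ h := by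
  rw [← sv_r A h h0 h1]
  exact sv_mono (good_R A h) (good_r A h) (fun n => by exact_mod_cast R_le_r A h n) h0 h1

theorem sq_le_of_V (A : Set ℕ) (h : ℕ) (lam : ℝ) {y : ℝ} (h0 : 0 ≤ y) (h1 : y < 1) :
    sv (fun n => (R A h n : ℝ) ^ 2) y ≤
      VV A h lam y + 2 * |lam| * sv (fun n => (R A h n : ℝ)) y := by
  unfold VV
  have g1 : Good fun n => ((R A h n : ℝ) - lam) ^ 2 := by
    have := ((good_R A h).add (good_const (-lam))).sq
    refine this.of_le fun n => ?_
    rw [← sub_eq_add_neg]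
  rw [← sv_smul, ← sv_add g1 ((good_R A h).smul _) h0 h1]
  refine sv_mono (good_R A h).sq (g1.add ((good_R A h).smul _)) (fun n => ?_) h0 h1
  have : (0 : ℝ) ≤ R A h n := Nat.cast_nonneg _
  have h2 := le_abs_self lam
  nlinarith [sq_nonneg lam, mul_le_mul_of_nonneg_right h2 this]

/-- the constant of the variance law -/
noncomputable def cst (h : ℕ) : ℝ :=
  if h = 2 then 1 / 2 else ((h - 1).factorial : ℝ) ^ (1 / ((h : ℝ) - 2)) / h

theorem exists_params (h : ℕ) (hh : 2 ≤ h) : ∃ (k m : ℕ) (ω : ℝ), k ≤ 1 ∧ 1 ≤ m ∧ h = k + m + 1 ∧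
    0 < ω ∧ ω ^ m = (k + m).factorial ∧ cst h = ω / h := by
  rcases Nat.lt_or_ge 2 h with h3 | h2
  · have hm0 : ((h - 2 : ℕ) : ℝ) ≠ 0 := by
      have : h - 2 ≠ 0 := by omega
      exact_mod_cast this
    have hpos : (0 : ℝ) < (h - 1).factorial := by positivity
    refine ⟨1, h - 2, ((h - 1).factorial : ℝ) ^ (1 / ((h : ℝ) - 2)), le_rfl, by omega, by omega,
      by positivity, ?_, ?_⟩
    · rw [← Real.rpow_natCast, ← Real.rpow_mul hpos.le]
      have e : (1 / ((h : ℝ) - 2)) * ((h - 2 : ℕ) : ℝ) = 1 := by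
        rw [Nat.cast_sub (by omega)] at hm0 ⊢
        push_cast at hm0 ⊢
        field_simp
      rw [e, Real.rpow_one]
      congr 2
      omega
    · unfold cst
      rw [if_neg (by omega)]
  · have : h = 2 := by omega
    subst this
    exact ⟨0, 1, 1, by norm_num, le_rfl, rfl, one_pos, by norm_num, by unfold cst; norm_num⟩

theorem law (h : ℕ) (hh : 2 ≤ h) (lam : ℝ) {c : ℝ} (hc : c < cst h) :
    ∃ a₀ : ℝ, ∀ (A : Set ℕ) (ρ : ℝ), 1 / 2 ≤ ρ → ρ < 1 → a₀ ≤ sv (chi A) (ρ ^ 2) →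
      c * sv (fun n => (R A h n : ℝ)) (ρ ^ 2) ≤ VV A h lam (ρ ^ 2) := by
  obtain ⟨k, m, ω, hk, hm, hkm, hω, hωm, hcst⟩ := exists_params h hh
  have hm0 : (0 : ℝ) < m := by exact_mod_cast hm
  obtain ⟨j, rfl⟩ : ∃ j, h = j + 2 := ⟨h - 2, by omega⟩
  set C0 : ℝ := |c| + 2 * |lam| with hC0
  set K1 : ℝ := (j + 2).factorial ^ 2 * C0 with hK1
  set K2 : ℝ := (j + 2).factorial ^ 2 * ((j + 2) ^ 4 * (2 * ((j + 2).factorial ^ 2 * C0 + 1)))
    with hK2
  set hf : ℝ := ((j + 2).factorial : ℝ) with hhf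
  have hf0 : 0 < hf := by positivity
  set δ : ℝ := cst (j + 2) - c with hδ
  have hδ0 : 0 < δ := by linarith
  obtain ⟨a₁, ha₁, hcore⟩ := core k m hm hω lam (max K1 K2) (hf * (δ / 2)) (by positivity)
  set q : ℝ := hf * ((j + 2 : ℕ) : ℝ) ^ 2 with hq
  have hq0 : 0 ≤ q := by positivity
  refine ⟨max a₁ (2 * |c| * q / δ), fun A ρ hρ hρ1 ha => ?_⟩
  have ha2 : a₁ ≤ sv (chi A) (ρ ^ 2) := (le_max_left _ _).trans ha
  have ha3 : 2 * |c| * q / δ ≤ sv (chi A) (ρ ^ 2) := (le_max_right _ _).trans ha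
  have hρ0 : 0 ≤ ρ := by linarith
  have hy0 : 0 ≤ ρ ^ 2 := sq_nonneg _
  have hy1 : ρ ^ 2 < 1 := by nlinarith
  by_contra hcon
  push Not at hcon
  have ha1' : 1 ≤ sv (chi A) (ρ ^ 2) := ha₁.trans ha2
  have ha0 : 0 < sv (chi A) (ρ ^ 2) := by linarith
  have hS0 : 0 ≤ sv (fun n => (R A (j + 2) n : ℝ)) (ρ ^ 2) := sv_nonneg (fun n => Nat.cast_nonneg _) hy0
  have hSa := S_le_pow A (j + 2) hy0 hy1
  have hsq : sv (fun n => (R A (j + 2) n : ℝ) ^ 2) (ρ ^ 2) ≤ C0 * sv (chi A) (ρ ^ 2) ^ (j + 2) := by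
    have h1 := sq_le_of_V A (j + 2) lam hy0 hy1
    have h2 : c * sv (fun n => (R A (j + 2) n : ℝ)) (ρ ^ 2) ≤
        |c| * sv (fun n => (R A (j + 2) n : ℝ)) (ρ ^ 2) :=
      mul_le_mul_of_nonneg_right (le_abs_self c) hS0
    have h3 : C0 * sv (fun n => (R A (j + 2) n : ℝ)) (ρ ^ 2) ≤ C0 * sv (chi A) (ρ ^ 2) ^ (j + 2) :=
      mul_le_mul_of_nonneg_left hSa (by positivity)
    have e : C0 * sv (fun n => (R A (j + 2) n : ℝ)) (ρ ^ 2) =
      |c| * sv (fun n => (R A (j + 2) n : ℝ)) (ρ ^ 2) +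
        2 * |lam| * sv (fun n => (R A (j + 2) n : ℝ)) (ρ ^ 2) := by rw [hC0]; ring
    linarith
  obtain ⟨hM, hD⟩ := hyps_of_sq A j hρ0 hρ1 ha1' hsq
  have hap : 0 < sv (chi A) (ρ ^ 2) ^ (j + 2) := by positivity
  have hcore' := hcore A ρ hρ hρ1 ha2
  rw [← hkm] at hcore'
  have hfin := hcore' (hM.trans (mul_le_mul_of_nonneg_right (le_max_left _ _) hap.le))
    (hD.trans (mul_le_mul_of_nonneg_right (le_max_right _ _) hap.le))
  rw [MM_small A k hk ha0, mul_one, hωm, ← hhf] at hfin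
  have hlead : ω / m * ((m + 1) * ((k + m).factorial : ℝ) - (k + m).factorial) =
      hf * cst (j + 2) := by
    rw [hcst, hhf]
    have e1 : ((j + 2).factorial : ℝ) = ((j + 2 : ℕ) : ℝ) * (k + m).factorial := by
      have : (j + 2).factorial = (j + 2) * (j + 1).factorial := Nat.factorial_succ _
      rw [this]
      have : j + 1 = k + m := by omega
      rw [this]
      push_cast; ring
    rw [e1]
    have : ((j + 2 : ℕ) : ℝ) ≠ 0 := by positivity
    field_simp
    ring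
  rw [hlead] at hfin
  set a := sv (chi A) (ρ ^ 2)
  set S := sv (fun n => (R A (j + 2) n : ℝ)) (ρ ^ 2)
  set V := VV A (j + 2) lam (ρ ^ 2)
  have hSle := S_le A (j + 2) hy0 hy1 ha0
  rw [← hhf] at hSle
  -- `hf² V / a^h ≥ hf (cst - δ/2)`
  rw [le_div_iff₀ hap] at hfin
  have h5 : hf * (c + δ / 2) * a ^ (j + 2) ≤ hf * (hf * V) := by
    have e : hf * cst (j + 2) - hf * (δ / 2) = hf * (c + δ / 2) := by rw [hδ]; ring
    rw [e] at hfin
    linarith [show hf ^ 2 * V = hf * (hf * V) by ring]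
  have h6 : (c + δ / 2) * a ^ (j + 2) ≤ hf * V := by
    have : hf * ((c + δ / 2) * a ^ (j + 2)) ≤ hf * (hf * V) := by linarith
    exact le_of_mul_le_mul_left this hf0
  -- `hf c S ≤ (c + δ/2) a^h`
  have h7 : hf * (c * S) ≤ (c + δ / 2) * a ^ (j + 2) := by
    have h8 : c * (hf * S) ≤ (c + δ / 2) * a ^ (j + 2) := by
      rcases le_total c 0 with hc0 | hc0
      · -- `hf S ≥ a^h`
        have h9 : a ^ (j + 2) ≤ hf * S := by
          rw [← sv_r A (j + 2) hy0 hy1, hhf, ← sv_smul]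
          exact sv_mono (good_r A _) ((good_R A _).smul _)
            (fun n => by exact_mod_cast r_le A (j + 2) n) hy0 hy1
        have h10 := mul_le_mul_of_nonpos_left h9 hc0
        nlinarith
      · have h9 := mul_le_mul_of_nonneg_left hSle hc0
        have h10 : c * (q / a) ≤ δ / 2 := by
          rw [abs_of_nonneg hc0, div_le_iff₀ hδ0] at ha3
          rw [← mul_div_assoc, div_le_iff₀ ha0]
          linarith
        have h11 : c * (a ^ (j + 2) * (1 + q / a)) ≤ (c + δ / 2) * a ^ (j + 2) := by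
          have : c * (a ^ (j + 2) * (1 + q / a)) = (c + c * (q / a)) * a ^ (j + 2) := by ring
          rw [this]
          exact mul_le_mul_of_nonneg_right (by linarith) hap.le
        exact h9.trans h11
    linarith [show hf * (c * S) = c * (hf * S) by ring]
  have h12 : hf * (c * S) ≤ hf * V := h7.trans h6
  exact absurd (le_of_mul_le_mul_left h12 hf0) (not_le.2 hcon)

theorem sv_chi_large {A : Set ℕ} (hA : A.Infinite) (a₀ : ℝ) :
    ∀ᶠ y in 𝓝[<] (1 : ℝ), a₀ ≤ sv (chi A) y := by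
  obtain ⟨N, hN⟩ := exists_nat_gt a₀
  obtain ⟨F, hF, hFN⟩ := hA.exists_subset_card_eq N
  have hcont : Tendsto (fun y : ℝ => ∑ n ∈ F, y ^ n) (𝓝[<] (1 : ℝ)) (𝓝 (∑ n ∈ F, (1 : ℝ) ^ n)) := by
    refine tendsto_nhdsWithin_of_tendsto_nhds ?_
    exact (continuous_finsetSum F fun n _ => continuous_pow n).tendsto 1
  have h1 : a₀ < ∑ n ∈ F, (1 : ℝ) ^ n := by simpa [hFN] using hN
  have hev : ∀ᶠ y in 𝓝[<] (1 : ℝ), 0 ≤ y ∧ y < 1 := by
    filter_upwards [Ioo_mem_nhdsLT (show (0 : ℝ) < 1 by norm_num)] with y hy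
    exact ⟨hy.1.le, hy.2⟩
  filter_upwards [hcont.eventually (lt_mem_nhds h1), hev] with y hy hy2
  refine hy.le.trans ?_
  have hs := (good_chi A).summable hy2.1 hy2.2
  have := hs.sum_le_tsum F (fun n _ => mul_nonneg (chi_nonneg A n) (pow_nonneg hy2.1 n))
  refine le_trans (le_of_eq ?_) this
  refine sum_congr rfl fun n hn => ?_
  unfold chi
  rw [if_pos (hF hn), one_mul]

/-- the variance law, for `y → 1` -/
theorem law_eventually (h : ℕ) (hh : 2 ≤ h) {A : Set ℕ} (hA : A.Infinite) (lam : ℝ) {c : ℝ}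
    (hc : c < cst h) :
    ∀ᶠ y in 𝓝[<] (1 : ℝ), c * sv (fun n => (R A h n : ℝ)) y ≤
      sv (fun n => ((R A h n : ℝ) - lam) ^ 2) y := by
  obtain ⟨a₀, ha₀⟩ := law h hh lam hc
  filter_upwards [sv_chi_large hA a₀, Ioo_mem_nhdsLT (show (1 / 4 : ℝ) < 1 by norm_num)] with y hy hy2
  have h1 : 0 ≤ y := by linarith [hy2.1]
  have h2 : Real.sqrt y ^ 2 = y := Real.sq_sqrt h1
  have h3 : 1 / 2 ≤ Real.sqrt y := by
    rw [show (1 / 2 : ℝ) = Real.sqrt (1 / 4) by
      rw [show (1 / 4 : ℝ) = (1 / 2) ^ 2 by norm_num, Real.sqrt_sq (by norm_num)]]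
    exact Real.sqrt_le_sqrt hy2.1.le
  have h4 : Real.sqrt y < 1 := by
    rw [Real.sqrt_lt' one_pos]; simpa using hy2.2
  have := ha₀ A (Real.sqrt y) h3 h4 (by rw [h2]; exact hy)
  rw [h2] at this
  exact this

theorem sv_R_large {A : Set ℕ} (hA : A.Infinite) (h : ℕ) (hh : 1 ≤ h) (M : ℝ) :
    ∀ᶠ y in 𝓝[<] (1 : ℝ), M ≤ sv (fun n => (R A h n : ℝ)) y := by
  filter_upwards [sv_chi_large hA (max 1 (h.factorial * M)),
    Ioo_mem_nhdsLT (show (0 : ℝ) < 1 by norm_num)] with y hy hy2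
  have h1 : 1 ≤ sv (chi A) y := (le_max_left _ _).trans hy
  have h2 : h.factorial * M ≤ sv (chi A) y := (le_max_right _ _).trans hy
  have h9 : sv (chi A) y ^ h ≤ h.factorial * sv (fun n => (R A h n : ℝ)) y := by
    rw [← sv_r A h hy2.1.le hy2.2, ← sv_smul]
    exact sv_mono (good_r A _) ((good_R A _).smul _)
      (fun n => by exact_mod_cast r_le A h n) hy2.1.le hy2.2
  have h3 : sv (chi A) y ≤ sv (chi A) y ^ h := by
    calc sv (chi A) y = sv (chi A) y ^ 1 := (pow_one _).symm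
      _ ≤ _ := pow_le_pow_right₀ h1 hh
  have hf : (0 : ℝ) < h.factorial := by positivity
  have : h.factorial * M ≤ h.factorial * sv (fun n => (R A h n : ℝ)) y := by linarith
  exact le_of_mul_le_mul_left this hf

/-- consequence: the values of a representation function cannot lie in a short interval -/
theorem sqrt_gap (h : ℕ) (hh : 2 ≤ h) {A : Set ℕ} (hA : A.Infinite) {k K N : ℕ}
    (hb : ∀ n ≥ N, k ≤ R A h n ∧ R A h n ≤ K) :
    Real.sqrt (cst h) ≤ Real.sqrt K - Real.sqrt k := by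
  have hkK : k ≤ K := (hb N le_rfl).1.trans (hb N le_rfl).2
  have hk0 : (0 : ℝ) ≤ k := Nat.cast_nonneg _
  have hK0 : (0 : ℝ) ≤ K := Nat.cast_nonneg _
  have hd0 : 0 ≤ Real.sqrt K - Real.sqrt k := by
    have : Real.sqrt k ≤ Real.sqrt K := Real.sqrt_le_sqrt (by exact_mod_cast hkK)
    linarith
  rw [Real.sqrt_le_left hd0]
  set g : ℝ := (Real.sqrt K - Real.sqrt k) ^ 2 with hg
  set lam : ℝ := Real.sqrt k * Real.sqrt K with hlam
  by_contra hcon
  push Not at hcon
  -- choose `c` between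
  obtain ⟨c, hgc, hc⟩ := exists_between hcon
  obtain ⟨c', hcc', hc'⟩ := exists_between hc
  have hlaw := law_eventually h hh hA lam hc'
  -- exceptional terms
  set B : ℝ := ∑ n ∈ range N, ((R A h n : ℝ) - lam) ^ 2 with hB
  have hbig := sv_R_large hA h (by omega) ((B + 1) / (c' - c))
  have hboth := (hlaw.and hbig).and (Ioo_mem_nhdsLT (show (0 : ℝ) < 1 by norm_num))
  obtain ⟨y, ⟨h1, h2⟩, h3⟩ := hboth.exists
  have gR := good_R A h
  have g1 : Good fun n => ((R A h n : ℝ) - lam) ^ 2 := by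
    have := (gR.add (good_const (-lam))).sq
    refine this.of_le fun n => ?_
    rw [← sub_eq_add_neg]
  have h4 : sv (fun n => ((R A h n : ℝ) - lam) ^ 2) y ≤
      c * sv (fun n => (R A h n : ℝ)) y + B := by
    have hgood2 : Good fun n => if n < N then ((R A h n : ℝ) - lam) ^ 2 else 0 :=
      g1.of_le fun n => by
        split_ifs
        · exact le_rfl
        · rw [abs_zero]; exact abs_nonneg _
    have h5 : sv (fun n => ((R A h n : ℝ) - lam) ^ 2) y ≤
        sv (fun n => c * (R A h n : ℝ) + if n < N then ((R A h n : ℝ) - lam) ^ 2 else 0) y := by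
      refine sv_mono g1 ((gR.smul c).add hgood2) (fun n => ?_) h3.1.le h3.2
      have hg0 : 0 ≤ g := sq_nonneg _
      have hR0 : (0 : ℝ) ≤ R A h n := Nat.cast_nonneg _
      split_ifs with hn
      · have : 0 ≤ c * (R A h n : ℝ) := mul_nonneg (by linarith) hR0
        linarith
      · obtain ⟨b1, b2⟩ := hb n (by omega)
        have b1' : (k : ℝ) ≤ R A h n := by exact_mod_cast b1
        have b2' : (R A h n : ℝ) ≤ K := by exact_mod_cast b2
        have hgR : g * (R A h n : ℝ) ≤ c * R A h n := mul_le_mul_of_nonneg_right hgc.le hR0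
        have s1 : Real.sqrt k ^ 2 = k := Real.sq_sqrt hk0
        have s2 : Real.sqrt K ^ 2 = K := Real.sq_sqrt hK0
        have key : ((R A h n : ℝ) - lam) ^ 2 ≤ g * R A h n := by
          have hprod : 0 ≤ ((R A h n : ℝ) - k) * (K - R A h n) :=
            mul_nonneg (by linarith) (by linarith)
          have e1 : lam ^ 2 = k * K := by rw [hlam, mul_pow, s1, s2]
          have e2 : g = K + k - 2 * lam := by rw [hg, hlam]; linear_combination s1 + s2
          rw [e2]
          nlinarith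
        linarith
    rw [sv_add (gR.smul c) hgood2 h3.1.le h3.2, sv_smul] at h5
    have h6 : sv (fun n => if n < N then ((R A h n : ℝ) - lam) ^ 2 else 0) y ≤ B := by
      unfold sv
      rw [tsum_eq_sum (s := range N)]
      · rw [hB]
        refine sum_le_sum fun n hn => ?_
        beta_reduce
        rw [if_pos (mem_range.1 hn)]
        calc ((R A h n : ℝ) - lam) ^ 2 * y ^ n ≤ ((R A h n : ℝ) - lam) ^ 2 * 1 :=
              mul_le_mul_of_nonneg_left (pow_le_one₀ h3.1.le h3.2.le) (sq_nonneg _)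
          _ = _ := mul_one _
      · intro n hn
        beta_reduce
        rw [if_neg (by rwa [mem_range] at hn), zero_mul]
    linarith
  have h7 : (c' - c) * sv (fun n => (R A h n : ℝ)) y ≤ B := by linarith
  rw [div_le_iff₀ (by linarith)] at h2
  linarith

end Pool.Agent.U204.RF
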