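import Pool.Agent.U204.RFCore

/-!
# The core theorem on the variance
-/

set_option autoImplicit false

open Finset MeasureTheory

namespace Pool.Agent.U204.RF

/-- algebra for `core` -/
theorem alg1 (k m : ℕ) (hm : 1 ≤ m) {a ω κ μ0 Mk M1 Mh J : ℝ} (ha : 0 < a) (hω : 0 < ω)
    (h : (m + 1) * (M1 - κ / a * Mh - (κ⁻¹ * a) ^ (k + m) * μ0) ≤
      (ω * a) ^ m * Mk + m * (ω * a)⁻¹ * J) :
    ω / m * ((m + 1) * (M1 / a ^ (k + m) - κ * (Mh / a ^ (k + m + 1)) - κ⁻¹ ^ (k + m) * μ0) -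
      ω ^ m * (Mk / a ^ k)) ≤ J / a ^ (k + m + 1) := by
  have hm0 : (0 : ℝ) < m := by exact_mod_cast hm
  have h1 : 0 ≤ ω / (m * a ^ (k + m)) := by positivity
  have h2 := mul_le_mul_of_nonneg_left h h1
  have e1 : ω / (m * a ^ (k + m)) * ((m + 1) * (M1 - κ / a * Mh - (κ⁻¹ * a) ^ (k + m) * μ0)) =
      ω / m * ((m + 1) * (M1 / a ^ (k + m) - κ * (Mh / a ^ (k + m + 1)) - κ⁻¹ ^ (k + m) * μ0)) := by
    rw [mul_pow]
    have e : a ^ (k + m + 1) = a ^ (k + m) * a := pow_succ _ _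
    rw [e]
    field_simp
  have e2 : ω / (m * a ^ (k + m)) * ((ω * a) ^ m * Mk + m * (ω * a)⁻¹ * J) =
      ω / m * (ω ^ m * (Mk / a ^ k)) + J / a ^ (k + m + 1) := by
    rw [mul_pow]
    have e : a ^ (k + m + 1) = a ^ k * a ^ m * a := by rw [pow_succ, pow_add]
    rw [e, pow_add]
    field_simp
  rw [e1, e2] at h2
  linarith

theorem core (k m : ℕ) (hm : 1 ≤ m) {ω : ℝ} (hω : 0 < ω) (lam K ε : ℝ) (hε : 0 < ε) :
    ∃ a₀ : ℝ, 1 ≤ a₀ ∧ ∀ (A : Set ℕ) (ρ : ℝ), 1 / 2 ≤ ρ → ρ < 1 → a₀ ≤ sv (chi A) (ρ ^ 2) →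
      MM A (k + m + 1) (ρ ^ 2) ≤ K * sv (chi A) (ρ ^ 2) ^ (k + m + 1) →
      sv (chi A) (ρ ^ 2) * sv (fun n => dd A (k + m + 1) n ^ 2) (ρ ^ 2) ≤
        K * sv (chi A) (ρ ^ 2) ^ (k + m + 1) →
      ω / m * ((m + 1) * (k + m).factorial - ω ^ m * (MM A k (ρ ^ 2) / sv (chi A) (ρ ^ 2) ^ k)) - ε ≤
        ((k + m + 1).factorial : ℝ) ^ 2 * VV A (k + m + 1) lam (ρ ^ 2) /
          sv (chi A) (ρ ^ 2) ^ (k + m + 1) := by
  have hm0 : (0 : ℝ) < m := by exact_mod_cast hm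
  -- we may assume `1 ≤ K`
  wlog hK : 1 ≤ K generalizing K with H
  · obtain ⟨a₀, h1, h2⟩ := H 1 le_rfl
    refine ⟨a₀, h1, fun A ρ hρ hρ1 ha hM hD => h2 A ρ hρ hρ1 ha ?_ ?_⟩
    · have : 0 < sv (chi A) (ρ ^ 2) ^ (k + m + 1) := by
        have : 0 < sv (chi A) (ρ ^ 2) := by linarith
        positivity
      have hK' : K * sv (chi A) (ρ ^ 2) ^ (k + m + 1) ≤ 1 * sv (chi A) (ρ ^ 2) ^ (k + m + 1) :=
        mul_le_mul_of_nonneg_right (by linarith [not_le.1 hK]) this.le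
      exact hM.trans hK'
    · have : 0 < sv (chi A) (ρ ^ 2) ^ (k + m + 1) := by
        have : 0 < sv (chi A) (ρ ^ 2) := by linarith
        positivity
      have hK' : K * sv (chi A) (ρ ^ 2) ^ (k + m + 1) ≤ 1 * sv (chi A) (ρ ^ 2) ^ (k + m + 1) :=
        mul_le_mul_of_nonneg_right (by linarith [not_le.1 hK]) this.le
      exact hD.trans hK'
  set C : ℝ := ω / m * (m + 1) with hC
  have hC0 : 0 < C := by positivity
  set κ : ℝ := ε / (6 * C * K) with hκdef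
  have hκ : 0 < κ := by positivity
  have hκ1 : C * κ * K = ε / 6 := by rw [hκdef]; field_simp
  set P : ℝ := C * κ⁻¹ ^ (k + m) with hP
  have hP0 : 0 < P := by positivity
  obtain ⟨γ, hγ, hμ⟩ := exists_gamma (ε := ε / (6 * P)) (by positivity)
  set μ0 := mu.real {θ : ℝ | γ < Real.cos θ} with hμ0
  have hμ1 : P * μ0 ≤ ε / 6 := by
    have := mul_le_mul_of_nonneg_left hμ hP0.le
    have e : P * (ε / (6 * P)) = ε / 6 := by field_simp
    linarith
  set η : ℝ := min (1 / 2) (ε / (6 * K)) with hηdef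
  have hη : 0 < η := lt_min (by norm_num) (by positivity)
  have hη1 : η < 1 := (min_le_left _ _).trans_lt (by norm_num)
  have hηK : η * K ≤ ε / 6 := by
    have := mul_le_mul_of_nonneg_right (min_le_right (1 / 2) (ε / (6 * K))) (by linarith : 0 ≤ K)
    have e : ε / (6 * K) * K = ε / 6 := by field_simp
    rw [← hηdef] at this
    linarith
  set B : ℝ := ((k + m + 1).factorial * lam) ^ 2 / (1 - γ) with hB
  have hB0 : 0 ≤ B := div_nonneg (sq_nonneg _) (by linarith)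
  set Q1 : ℝ := C * ((k + m).factorial * ((k + m : ℕ) : ℝ) ^ 2) with hQ1
  have hQ10 : 0 ≤ Q1 := by positivity
  set Q2 : ℝ := (2 / η) * (B + K) with hQ2
  have hQ20 : 0 ≤ Q2 := by positivity
  refine ⟨max 1 (max (6 * Q1 / ε) (6 * Q2 / ε)), le_max_left _ _, ?_⟩
  intro A ρ hρ hρ1 ha hM hD
  set a := sv (chi A) (ρ ^ 2) with hadef
  have ha1 : 1 ≤ a := (le_max_left _ _).trans ha
  have ha2 : 6 * Q1 / ε ≤ a := ((le_max_left _ _).trans (le_max_right _ _)).trans ha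
  have ha3 : 6 * Q2 / ε ≤ a := ((le_max_right _ _).trans (le_max_right _ _)).trans ha
  have ha0 : 0 < a := by linarith
  have hρ0 : 0 ≤ ρ := by linarith
  have hy0 : 0 ≤ ρ ^ 2 := sq_nonneg _
  have hy1 : ρ ^ 2 < 1 := by nlinarith
  have hq1 : Q1 / a ≤ ε / 6 := by
    rw [div_le_iff₀ ha0]
    rw [div_le_iff₀ hε] at ha2
    linarith
  have hq2 : Q2 / a ≤ ε / 6 := by
    rw [div_le_iff₀ ha0]
    rw [div_le_iff₀ hε] at ha3
    linarith
  -- the two integrated inequalities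
  have hlow := int_lower A (k + m + 1) lam hρ hρ1 hγ hη hη1
  have hmom := int_moments A k m (γ := γ) (κ := κ) (τ := ω * a) (a := a) hρ0 hρ1 hκ (by positivity) ha0
  rw [← hB] at hlow
  rw [← hμ0] at hmom
  set J := ∫ θ in {θ : ℝ | Real.cos θ ≤ γ}, XX A ρ θ ^ (k + m + 1) ∂mu with hJ
  have hJ0 : 0 ≤ J := setIntegral_nonneg (isClosed_le Real.continuous_cos continuous_const).measurableSet
    fun θ _ => pow_nonneg (XX_nonneg A ρ θ) _
  have hJ1 : J ≤ MM A (k + m + 1) (ρ ^ 2) := by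
    rw [← integral_XX_pow A _ hρ0 hρ1]
    exact setIntegral_le_integral (integrable_mu ((continuous_XX A hρ0 hρ1).pow _))
      (Filter.Eventually.of_forall fun θ => pow_nonneg (XX_nonneg A ρ θ) _)
  have halg := alg1 k m hm ha0 hω hmom
  have hah : 0 < a ^ (k + m + 1) := by positivity
  have hI1 : J / a ^ (k + m + 1) ≤ K := by
    rw [div_le_iff₀ hah]; exact hJ1.trans hM
  have hMh : MM A (k + m + 1) (ρ ^ 2) / a ^ (k + m + 1) ≤ K := by
    rw [div_le_iff₀ hah]; exact hM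
  -- lower bound for the moment of order `k + m`
  have hge := MM_ge A (k + m) hy0 hy1
  have hs := sv_s_le A (k + m) hy0 hy1
  rw [← hadef] at hge hs
  have hM1 : ((k + m).factorial : ℝ) - (k + m).factorial * ((k + m : ℕ) : ℝ) ^ 2 / a ≤
      MM A (k + m) (ρ ^ 2) / a ^ (k + m) := by
    have hap : 0 < a ^ (k + m) := by positivity
    rw [le_div_iff₀ hap]
    have hs2 : sv (fun n => (s A (k + m) n : ℝ)) (ρ ^ 2) ≤ ((k + m : ℕ) : ℝ) ^ 2 * a ^ (k + m) / a := by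
      rw [le_div_iff₀ ha0]; linarith
    have hs3 := mul_le_mul_of_nonneg_left hs2 (show (0 : ℝ) ≤ (k + m).factorial by positivity)
    have e : (((k + m).factorial : ℝ) - (k + m).factorial * ((k + m : ℕ) : ℝ) ^ 2 / a) * a ^ (k + m) =
        (k + m).factorial * a ^ (k + m) -
          (k + m).factorial * (((k + m : ℕ) : ℝ) ^ 2 * a ^ (k + m) / a) := by ring
    rw [e]
    linarith
  -- the variance
  have hV : (1 - η) * (J / a ^ (k + m + 1)) ≤
      ((k + m + 1).factorial : ℝ) ^ 2 * VV A (k + m + 1) lam (ρ ^ 2) / a ^ (k + m + 1) + Q2 / a := by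
    have h1 := div_le_div_of_nonneg_right hlow hah.le
    have h2 : (2 / η * (B + sv (fun n => dd A (k + m + 1) n ^ 2) (ρ ^ 2))) / a ^ (k + m + 1) ≤ Q2 / a := by
      rw [hQ2, div_le_div_iff₀ hah ha0]
      have hB1 : B * a ≤ B * a ^ (k + m + 1) := by
        refine mul_le_mul_of_nonneg_left ?_ hB0
        calc a = a ^ 1 := (pow_one a).symm
          _ ≤ a ^ (k + m + 1) := pow_le_pow_right₀ ha1 (by omega)
      generalize sv (fun n => dd A (k + m + 1) n ^ 2) (ρ ^ 2) = Δ at hD ⊢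
      generalize a ^ (k + m + 1) = ah at hD hB1 ⊢
      have h3 : (B + Δ) * a ≤ (B + K) * ah := by
        calc (B + Δ) * a = B * a + a * Δ := by ring
          _ ≤ B * ah + K * ah := add_le_add hB1 hD
          _ = _ := by ring
      calc 2 / η * (B + Δ) * a = 2 / η * ((B + Δ) * a) := by ring
        _ ≤ 2 / η * ((B + K) * ah) := mul_le_mul_of_nonneg_left h3 (by positivity)
        _ = _ := by ring
    have e : (1 - η) * J / a ^ (k + m + 1) = (1 - η) * (J / a ^ (k + m + 1)) := by ring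
    rw [e, add_div] at h1
    linarith
  -- put everything together
  have f1 : C * (((k + m).factorial : ℝ) - (k + m).factorial * ((k + m : ℕ) : ℝ) ^ 2 / a) -
      ε / 6 - ε / 6 - ω / m * (ω ^ m * (MM A k (ρ ^ 2) / a ^ k)) ≤ J / a ^ (k + m + 1) := by
    refine le_trans ?_ halg
    have g1 : C * (κ * (MM A (k + m + 1) (ρ ^ 2) / a ^ (k + m + 1))) ≤ ε / 6 := by
      rw [← hκ1]
      calc C * (κ * (MM A (k + m + 1) (ρ ^ 2) / a ^ (k + m + 1))) ≤ C * (κ * K) :=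
            mul_le_mul_of_nonneg_left (mul_le_mul_of_nonneg_left hMh hκ.le) hC0.le
        _ = C * κ * K := by ring
    have g2 : C * (κ⁻¹ ^ (k + m) * μ0) ≤ ε / 6 := by
      rw [← mul_assoc, ← hP]; exact hμ1
    have g3 := mul_le_mul_of_nonneg_left hM1 hC0.le
    have e : ω / m * ((m + 1) * (MM A (k + m) (ρ ^ 2) / a ^ (k + m) -
        κ * (MM A (k + m + 1) (ρ ^ 2) / a ^ (k + m + 1)) - κ⁻¹ ^ (k + m) * μ0) -
        ω ^ m * (MM A k (ρ ^ 2) / a ^ k)) =
        C * (MM A (k + m) (ρ ^ 2) / a ^ (k + m)) -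
          C * (κ * (MM A (k + m + 1) (ρ ^ 2) / a ^ (k + m + 1))) - C * (κ⁻¹ ^ (k + m) * μ0) -
          ω / m * (ω ^ m * (MM A k (ρ ^ 2) / a ^ k)) := by
      rw [hC]; ring
    rw [e]
    linarith
  have f2 : C * ((k + m).factorial * ((k + m : ℕ) : ℝ) ^ 2 / a) ≤ ε / 6 := by
    have : C * ((k + m).factorial * ((k + m : ℕ) : ℝ) ^ 2 / a) = Q1 / a := by rw [hQ1]; ring
    rw [this]; exact hq1
  have f3 : η * (J / a ^ (k + m + 1)) ≤ ε / 6 :=
    (mul_le_mul_of_nonneg_left hI1 hη.le).trans hηK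
  have e9 : ω / m * ((m + 1) * ((k + m).factorial : ℝ) - ω ^ m * (MM A k (ρ ^ 2) / a ^ k)) =
      C * ((k + m).factorial : ℝ) - ω / m * (ω ^ m * (MM A k (ρ ^ 2) / a ^ k)) := by
    rw [hC]; ring
  rw [e9]
  have e10 : C * (((k + m).factorial : ℝ) - (k + m).factorial * ((k + m : ℕ) : ℝ) ^ 2 / a) =
      C * ((k + m).factorial : ℝ) - C * ((k + m).factorial * ((k + m : ℕ) : ℝ) ^ 2 / a) := by ring
  rw [e10] at f1
  linarith

end Pool.Agent.U204.RF
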