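import Pool.Agent.U204.RFDens

/-!
# Linear recurrences: small values of trigonometric polynomials
-/

set_option autoImplicit false

open Finset MeasureTheory Filter Topology

namespace Pool.Agent.U204.RF

/-- the polynomial with the coefficients `b` -/
noncomputable def Qv {d : ℕ} (b : Fin (d + 1) → ℝ) (w : ℂ) : ℂ := ∑ i, (b i : ℂ) * w ^ (i : ℕ)

theorem continuous_Qv {d : ℕ} (b : Fin (d + 1) → ℝ) : Continuous (Qv b) := by
  unfold Qv; fun_prop

/-- the point of the unit circle -/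
noncomputable def ce (θ : ℝ) : ℂ := Complex.exp (Complex.I * θ)

theorem norm_ce (θ : ℝ) : ‖ce θ‖ = 1 := by
  unfold ce
  rw [mul_comm, Complex.norm_exp_ofReal_mul_I]

theorem continuous_ce : Continuous ce := by
  unfold ce; fun_prop

theorem ce_inj {x y : ℝ} (hx : x ∈ Set.Ioc (-Real.pi) Real.pi) (hy : y ∈ Set.Ioc (-Real.pi) Real.pi)
    (h : ce x = ce y) : x = y := by
  unfold ce at h
  rw [mul_comm, mul_comm Complex.I] at h
  have h1 : Complex.arg (Complex.exp (x * Complex.I)) = x := by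
    rw [Complex.arg_exp_mul_I, toIocMod_eq_self]
    simpa [two_mul, sub_eq_add_neg] using hx
  have h2 : Complex.arg (Complex.exp (y * Complex.I)) = y := by
    rw [Complex.arg_exp_mul_I, toIocMod_eq_self]
    simpa [two_mul, sub_eq_add_neg] using hy
  rw [← h1, ← h2, h]

theorem Qv_zero_finite {d : ℕ} {b : Fin (d + 1) → ℝ} (hb : b ≠ 0) : {w : ℂ | Qv b w = 0}.Finite := by
  classical
  set P : Polynomial ℂ := ∑ i : Fin (d + 1), Polynomial.C (b i : ℂ) * Polynomial.X ^ (i : ℕ) with hP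
  have hP0 : P ≠ 0 := by
    obtain ⟨i, hi⟩ := Function.ne_iff.1 hb
    intro h0
    have h1 : P.coeff (i : ℕ) = 0 := by rw [h0]; simp
    rw [hP, Polynomial.finsetSum_coeff] at h1
    simp only [Polynomial.coeff_C_mul, Polynomial.coeff_X_pow] at h1
    rw [Finset.sum_eq_single i] at h1
    · simp at h1; exact hi h1
    · intro j _ hj
      rw [if_neg, mul_zero]
      intro h2; exact hj (Fin.ext h2.symm)
    · simp
  have hev : ∀ w, P.eval w = Qv b w := by
    intro w
    rw [hP, Polynomial.eval_finsetSum]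
    unfold Qv
    refine Finset.sum_congr rfl fun i _ => ?_
    simp
  refine (P.roots.toFinset.finite_toSet).subset fun w hw => ?_
  simp only [Set.mem_ofPred_eq] at hw
  simp [hP0, hev, hw]

theorem ball_one {d : ℕ} {b : Fin (d + 1) → ℝ} (hb : b ≠ 0) {ε : ℝ} (hε : 0 < ε) :
    ∃ η : ℝ, 0 < η ∧ mu.real {θ : ℝ | ‖Qv b (ce θ)‖ < η} ≤ ε := by
  set S : ℕ → Set ℝ := fun n => {θ : ℝ | ‖Qv b (ce θ)‖ < 1 / ((n : ℝ) + 1)} with hS
  have hmeas : ∀ n, MeasurableSet (S n) := fun n =>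
    (isOpen_lt ((continuous_Qv b).comp continuous_ce).norm continuous_const).measurableSet
  have hanti : Antitone S := by
    intro m n hmn θ hθ
    simp only [hS, Set.mem_ofPred_eq] at hθ ⊢
    refine lt_of_lt_of_le hθ ?_
    apply one_div_le_one_div_of_le (by positivity)
    have : (m : ℝ) ≤ n := by exact_mod_cast hmn
    linarith
  have ht : Tendsto (fun n => mu (S n)) atTop (𝓝 (mu (⋂ n, S n))) :=
    tendsto_measure_iInter_atTop (fun n => (hmeas n).nullMeasurableSet) hanti ⟨0, measure_ne_top _ _⟩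
  have h0 : mu (⋂ n, S n) = 0 := by
    unfold mu
    rw [Measure.smul_apply, smul_eq_mul, Measure.restrict_apply (MeasurableSet.iInter hmeas)]
    have hfin : ((⋂ n, S n) ∩ Set.Ioc (-Real.pi) Real.pi).Finite := by
      have h1 : ce '' ((⋂ n, S n) ∩ Set.Ioc (-Real.pi) Real.pi) ⊆ {w : ℂ | Qv b w = 0} := by
        rintro w ⟨θ, ⟨hθ, -⟩, rfl⟩
        simp only [Set.mem_ofPred_eq]
        rw [← norm_le_zero_iff]
        refine le_of_forall_pos_lt_add fun e he => ?_
        obtain ⟨n, hn⟩ := exists_nat_one_div_lt he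
        have := Set.mem_iInter.1 hθ n
        simp only [hS, Set.mem_ofPred_eq] at this
        linarith
      refine Set.Finite.of_finite_image ((Qv_zero_finite hb).subset h1) ?_
      intro x hx y hy hxy
      exact ce_inj hx.2 hy.2 hxy
    rw [hfin.measure_zero volume, mul_zero]
  rw [h0] at ht
  have h2 := (ENNReal.tendsto_toReal ENNReal.zero_ne_top).comp ht
  simp only [ENNReal.toReal_zero] at h2
  obtain ⟨n, hn⟩ := (h2.eventually (gt_mem_nhds hε)).exists
  exact ⟨1 / ((n : ℝ) + 1), by positivity, hn.le⟩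

theorem Qv_sub_le {d : ℕ} (b b' : Fin (d + 1) → ℝ) {w : ℂ} (hw : ‖w‖ ≤ 1) {e : ℝ}
    (h : ∀ i, |b i - b' i| ≤ e) : ‖Qv b w - Qv b' w‖ ≤ (d + 1) * e := by
  unfold Qv
  rw [← Finset.sum_sub_distrib]
  calc ‖∑ i, ((b i : ℂ) * w ^ (i : ℕ) - (b' i : ℂ) * w ^ (i : ℕ))‖
      ≤ ∑ i : Fin (d + 1), e := by
        refine (norm_sum_le _ _).trans (Finset.sum_le_sum fun i _ => ?_)
        rw [← sub_mul, norm_mul, norm_pow, ← Complex.ofReal_sub, Complex.norm_real, Real.norm_eq_abs]
        calc |b i - b' i| * ‖w‖ ^ (i : ℕ) ≤ |b i - b' i| * 1 :=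
              mul_le_mul_of_nonneg_left (pow_le_one₀ (norm_nonneg w) hw) (abs_nonneg _)
          _ ≤ e := by rw [mul_one]; exact h i
    _ = (d + 1) * e := by simp

/-- small values are rare, uniformly in the coefficients -/
theorem ball_unif (d : ℕ) {ε : ℝ} (hε : 0 < ε) :
    ∃ η : ℝ, 0 < η ∧ ∀ b : Fin (d + 1) → ℝ, ‖b‖ = 1 →
      mu.real {θ : ℝ | ‖Qv b (ce θ)‖ < η} ≤ ε := by
  have hK : IsCompact (Metric.sphere (0 : Fin (d + 1) → ℝ) 1) := isCompact_sphere _ _
  have hloc : ∀ b ∈ Metric.sphere (0 : Fin (d + 1) → ℝ) 1, ∃ η : ℝ, 0 < η ∧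
      mu.real {θ : ℝ | ‖Qv b (ce θ)‖ < η} ≤ ε := by
    intro b hb
    refine ball_one ?_ hε
    rintro rfl
    simp at hb
  choose! η hη1 hη2 using hloc
  obtain ⟨t, ht1, ht2⟩ := hK.elim_nhds_subcover (fun b => Metric.ball b (η b / (2 * (d + 1))))
    (fun b hb => Metric.ball_mem_nhds b (by have := hη1 b hb; positivity))
  -- minimum
  have hmin : ∃ η0 : ℝ, 0 < η0 ∧ ∀ b ∈ t, η0 ≤ η b / 2 := by
    clear ht2
    induction t using Finset.induction_on with
    | empty => exact ⟨1, one_pos, by simp⟩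
    | insert b s hbs ih =>
      obtain ⟨e, he, h⟩ := ih fun x hx => ht1 x (Finset.mem_insert_of_mem hx)
      have hb := hη1 b (ht1 b (Finset.mem_insert_self b s))
      refine ⟨min e (η b / 2), lt_min he (by linarith), fun x hx => ?_⟩
      rcases Finset.mem_insert.1 hx with rfl | hx
      · exact min_le_right _ _
      · exact (min_le_left _ _).trans (h x hx)
  obtain ⟨η0, h0, h1⟩ := hmin
  refine ⟨η0, h0, fun b hb => ?_⟩
  have hbK : b ∈ Metric.sphere (0 : Fin (d + 1) → ℝ) 1 := by simpa using hb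
  obtain ⟨x, hxt, hx⟩ := Set.mem_iUnion₂.1 (ht2 hbK)
  rw [Metric.mem_ball] at hx
  refine le_trans (measureReal_mono ?_) (hη2 x (ht1 x hxt))
  intro θ hθ
  simp only [Set.mem_ofPred_eq] at hθ ⊢
  have h2 : ‖Qv x (ce θ) - Qv b (ce θ)‖ ≤ (d + 1) * (η x / (2 * (d + 1))) := by
    refine Qv_sub_le x b (norm_ce θ).le fun i => ?_
    have h3 := (dist_pi_lt_iff (by have := hη1 x (ht1 x hxt); positivity)).1 hx i
    rw [Real.dist_eq, abs_sub_comm] at h3
    exact h3.le
  have h4 : ((d : ℝ) + 1) * (η x / (2 * (d + 1))) = η x / 2 := by field_simp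
  rw [h4] at h2
  have h5 : ‖Qv x (ce θ)‖ ≤ ‖Qv x (ce θ) - Qv b (ce θ)‖ + ‖Qv b (ce θ)‖ := by
    calc ‖Qv x (ce θ)‖ = ‖(Qv x (ce θ) - Qv b (ce θ)) + Qv b (ce θ)‖ := by ring_nf
      _ ≤ _ := norm_add_le _ _
  have h6 := h1 x hxt
  linarith

theorem ce_periodic : Function.Periodic ce (2 * Real.pi) := by
  intro θ
  unfold ce
  have : Complex.I * ((θ + 2 * Real.pi : ℝ) : ℂ) = Complex.I * θ + 2 * Real.pi * Complex.I := by
    push_cast; ring
  rw [this, Complex.exp_periodic]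

/-- the measure of a set of angles is not changed by `θ ↦ τ θ` -/
theorem mu_dil (B : Set ℂ) (hB : MeasurableSet B) {τ : ℕ} (hτ : 1 ≤ τ) :
    mu.real {θ : ℝ | ce (τ * θ) ∈ B} = mu.real {θ : ℝ | ce θ ∈ B} := by
  set g : ℝ → ℝ := Set.indicator {θ : ℝ | ce θ ∈ B} (fun _ => 1) with hg
  have hm1 : MeasurableSet {θ : ℝ | ce θ ∈ B} := continuous_ce.measurable hB
  have hm2 : MeasurableSet {θ : ℝ | ce (τ * θ) ∈ B} :=
    (continuous_ce.comp (continuous_const.mul continuous_id)).measurable hB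
  have hper : Function.Periodic g (2 * Real.pi) := by
    intro θ
    have hp : ce (θ + 2 * Real.pi) = ce θ := ce_periodic θ
    by_cases hb : ce θ ∈ B
    · rw [hg, Set.indicator_of_mem (show θ ∈ {θ : ℝ | ce θ ∈ B} from hb),
        Set.indicator_of_mem (show θ + 2 * Real.pi ∈ {θ : ℝ | ce θ ∈ B} from by
          show ce (θ + 2 * Real.pi) ∈ B; rw [hp]; exact hb)]
    · rw [hg, Set.indicator_of_notMem (show θ ∉ {θ : ℝ | ce θ ∈ B} from hb),
        Set.indicator_of_notMem (show θ + 2 * Real.pi ∉ {θ : ℝ | ce θ ∈ B} from by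
          show ¬ ce (θ + 2 * Real.pi) ∈ B; rw [hp]; exact hb)]
  have e1 : mu.real {θ : ℝ | ce θ ∈ B} = ∫ θ, g θ ∂mu := by
    rw [hg, integral_indicator_const _ hm1, smul_eq_mul, mul_one]
  have e2 : mu.real {θ : ℝ | ce (τ * θ) ∈ B} = ∫ θ, g (τ * θ) ∂mu := by
    have : (fun θ : ℝ => g (τ * θ)) = Set.indicator {θ : ℝ | ce (τ * θ) ∈ B} (fun _ => (1 : ℝ)) := by
      funext θ
      simp only [hg, Set.indicator, Set.mem_ofPred_eq]
    rw [this, integral_indicator_const _ hm2, smul_eq_mul, mul_one]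
  rw [e1, e2, integral_mu, integral_mu]
  congr 1
  have hτ0 : (τ : ℝ) ≠ 0 := by
    have : (0 : ℝ) < τ := by exact_mod_cast hτ
    exact this.ne'
  rw [intervalIntegral.integral_comp_mul_left g hτ0]
  have hint : ∀ a b : ℝ, IntervalIntegrable g volume a b := by
    intro a b
    refine (intervalIntegrable_const (c := (1 : ℝ))).mono_fun ?_ ?_
    · exact (measurable_const.indicator hm1).aestronglyMeasurable
    · refine Eventually.of_forall fun θ => ?_
      simp only [hg, Set.indicator]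
      split_ifs <;> simp
  have h1 := hper.intervalIntegral_add_zsmul_eq (τ : ℤ) (τ * -Real.pi) (fun a b => hint a b)
  have h2 := hper.intervalIntegral_add_eq (τ * -Real.pi) (-Real.pi)
  rw [h2] at h1
  have e3 : τ * -Real.pi + (τ : ℤ) • (2 * Real.pi) = τ * Real.pi := by
    simp only [natCast_zsmul, nsmul_eq_mul]; ring
  have e4 : -Real.pi + 2 * Real.pi = Real.pi := by ring
  rw [e3, e4] at h1
  rw [h1]
  simp only [natCast_zsmul, nsmul_eq_mul, smul_eq_mul]
  field_simp

end Pool.Agent.U204.RF
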