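import Pool.Agent.U204.RFRec

/-!
# Linear recurrences: the main inequality
-/

set_option autoImplicit false

open Finset MeasureTheory Filter Topology

namespace Pool.Agent.U204.RF

/-- the coefficients of `Q(z ^ τ)` -/
noncomputable def qc {d : ℕ} (b : Fin (d + 1) → ℝ) (τ m : ℕ) : ℝ :=
  ∑ i : Fin (d + 1), if m = i * τ then b i else 0

theorem good_qc {d : ℕ} (b : Fin (d + 1) → ℝ) (τ : ℕ) : Good (qc b τ) := by
  refine Good.of_bdd (a := ∑ i, |b i|) fun n => ?_
  unfold qc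
  refine (abs_sum_le_sum_abs _ _).trans (sum_le_sum fun i _ => ?_)
  split_ifs
  · exact le_rfl
  · rw [abs_zero]; exact abs_nonneg _

theorem ev_qc {d : ℕ} (b : Fin (d + 1) → ℝ) (τ : ℕ) (z : ℂ) : ev (qc b τ) z = Qv b (z ^ τ) := by
  classical
  unfold ev Qv qc
  set S : Finset ℕ := Finset.univ.image (fun i : Fin (d + 1) => (i : ℕ) * τ) with hS
  rw [tsum_eq_sum (s := S)]
  · push_cast
    simp only [Finset.sum_mul]
    rw [Finset.sum_comm]
    refine sum_congr rfl fun i _ => ?_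
    rw [Finset.sum_eq_single ((i : ℕ) * τ)]
    · rw [if_pos rfl, ← pow_mul, mul_comm τ]
    · intro m _ hm
      rw [if_neg hm]; simp
    · intro h
      exact absurd (Finset.mem_image.2 ⟨i, Finset.mem_univ i, rfl⟩) h
  · intro n hn
    have : (∑ i : Fin (d + 1), if n = (i : ℕ) * τ then b i else 0) = 0 := by
      refine sum_eq_zero fun i _ => ?_
      rw [if_neg]
      rintro rfl
      exact hn (Finset.mem_image.2 ⟨i, Finset.mem_univ i, rfl⟩)
    rw [this]; simp

/-- the convolution with `qc` -/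
theorem conv_qc {d : ℕ} (b : Fin (d + 1) → ℝ) (τ : ℕ) (c : ℕ → ℝ) (n : ℕ) :
    conv (qc b τ) c n = ∑ i : Fin (d + 1), if (i : ℕ) * τ ≤ n then b i * c (n - i * τ) else 0 := by
  unfold conv qc
  simp only [Finset.sum_mul]
  rw [Finset.sum_comm]
  refine sum_congr rfl fun i _ => ?_
  split_ifs with h
  · rw [Finset.sum_eq_single ((i : ℕ) * τ, n - i * τ)]
    · simp
    · rintro ⟨x, y⟩ hxy hne
      rw [HasAntidiagonal.mem_antidiagonal] at hxy
      simp only at hxy ⊢
      rw [if_neg, zero_mul]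
      rintro rfl
      exact hne (by rw [← hxy]; simp)
    · intro h1
      exact absurd (HasAntidiagonal.mem_antidiagonal.2 (by simp; omega)) h1
  · refine sum_eq_zero fun p hp => ?_
    rw [HasAntidiagonal.mem_antidiagonal] at hp
    rw [if_neg, zero_mul]
    intro h1; omega

theorem T_ineq {X T : ℝ} (hX : 0 ≤ X) (hT : 0 < T) (j : ℕ) : X ≤ X ^ (j + 1) / T ^ j + T := by
  rcases le_total X T with h | h
  · have : 0 ≤ X ^ (j + 1) / T ^ j := by positivity
    linarith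
  · have h1 : 1 ≤ (X / T) ^ j := one_le_pow₀ ((one_le_div hT).2 h)
    have h2 : X ^ (j + 1) / T ^ j = X * (X / T) ^ j := by rw [div_pow, pow_succ]; ring
    rw [h2]
    nlinarith

/-- most of the moment of order `h` lies outside of every small set -/
theorem int_off (A : Set ℕ) (j : ℕ) {L ρ : ℝ} (h0 : 0 ≤ ρ) (h1 : ρ < 1)
    (ha : 0 < sv (chi A) (ρ ^ 2)) (hL : 1 ≤ L)
    (hM : MM A (j + 2) (ρ ^ 2) ≤ L / 4 * sv (chi A) (ρ ^ 2) ^ (j + 2))
    {V : Set ℝ} (hV : MeasurableSet V) (hVm : mu.real V ≤ 1 / (4 * L)) :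
    (sv (chi A) (ρ ^ 2) / 4) ^ (j + 2) ≤ ∫ θ in Vᶜ, XX A ρ θ ^ (j + 2) ∂mu := by
  set a := sv (chi A) (ρ ^ 2) with hadef
  have cX := continuous_XX A h0 h1
  have iX : ∀ j, Integrable (fun θ => XX A ρ θ ^ j) mu := fun j => integrable_mu (cX.pow j)
  have iX1 : Integrable (fun θ => XX A ρ θ) mu := integrable_mu cX
  have nn : ∀ j θ, 0 ≤ XX A ρ θ ^ j := fun j θ => pow_nonneg (XX_nonneg A ρ θ) j
  have hL0 : 0 < L := by linarith
  have hT : 0 < a * L := by positivity
  have e1 : ∫ θ, XX A ρ θ ∂mu = a := by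
    have h2 := integral_XX_pow A 1 h0 h1
    simp only [pow_one] at h2
    have h3 := MM_small A 1 le_rfl ha
    rw [pow_one, div_eq_iff (by rw [← hadef]; exact ha.ne'), one_mul] at h3
    rw [h2, h3]
  have e2 : ∫ θ in V, XX A ρ θ ∂mu + ∫ θ in Vᶜ, XX A ρ θ ∂mu = a := by
    rw [integral_add_compl hV iX1, e1]
  have e3 : ∫ θ in V, XX A ρ θ ∂mu ≤ a / 2 := by
    calc ∫ θ in V, XX A ρ θ ∂mu
        ≤ ∫ θ in V, (XX A ρ θ ^ (j + 2) / (a * L) ^ (j + 1) + a * L) ∂mu := by
          refine setIntegral_mono_on iX1.integrableOn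
            (((iX _).div_const _).add (integrable_const _)).integrableOn hV fun θ _ => ?_
          exact T_ineq (XX_nonneg A ρ θ) hT (j + 1)
      _ = (∫ θ in V, XX A ρ θ ^ (j + 2) ∂mu) / (a * L) ^ (j + 1) + a * L * mu.real V := by
          rw [integral_add ((iX _).div_const _).integrableOn (integrable_const _).integrableOn,
            integral_div, setIntegral_const, smul_eq_mul, mul_comm (mu.real V)]
      _ ≤ (L / 4 * a ^ (j + 2)) / (a * L) ^ (j + 1) + a * L * (1 / (4 * L)) := by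
          have h4 : ∫ θ in V, XX A ρ θ ^ (j + 2) ∂mu ≤ L / 4 * a ^ (j + 2) := by
            refine le_trans ?_ hM
            rw [← integral_XX_pow A _ h0 h1]
            exact setIntegral_le_integral (iX _) (Filter.Eventually.of_forall (nn _))
          have h5 : 0 < (a * L) ^ (j + 1) := by positivity
          have h6 := mul_le_mul_of_nonneg_left hVm hT.le
          have h7 := div_le_div_of_nonneg_right h4 h5.le
          linarith
      _ ≤ a / 4 + a / 4 := by
          have h4 : L / 4 * a ^ (j + 2) / (a * L) ^ (j + 1) = a / 4 * (1 / L ^ j) := by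
            rw [mul_pow, pow_succ a (j + 1), pow_succ L j]
            field_simp
          have h5 : 1 / L ^ j ≤ 1 := by
            rw [div_le_one (by positivity)]; exact one_le_pow₀ hL
          have h6 : a * L * (1 / (4 * L)) = a / 4 := by field_simp
          rw [h4, h6]
          have : a / 4 * (1 / L ^ j) ≤ a / 4 * 1 := mul_le_mul_of_nonneg_left h5 (by positivity)
          linarith
      _ = a / 2 := by ring
  have e4 : a / 2 ≤ ∫ θ in Vᶜ, XX A ρ θ ∂mu := by linarith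
  have e5 : ∫ θ in Vᶜ, XX A ρ θ ∂mu ≤
      (∫ θ in Vᶜ, XX A ρ θ ^ (j + 2) ∂mu) / (a / 4) ^ (j + 1) + a / 4 := by
    calc ∫ θ in Vᶜ, XX A ρ θ ∂mu
        ≤ ∫ θ in Vᶜ, (XX A ρ θ ^ (j + 2) / (a / 4) ^ (j + 1) + a / 4) ∂mu := by
          refine setIntegral_mono_on iX1.integrableOn
            (((iX _).div_const _).add (integrable_const _)).integrableOn hV.compl fun θ _ => ?_
          exact T_ineq (XX_nonneg A ρ θ) (by positivity) (j + 1)
      _ = (∫ θ in Vᶜ, XX A ρ θ ^ (j + 2) ∂mu) / (a / 4) ^ (j + 1) + a / 4 * mu.real Vᶜ := by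
          rw [integral_add ((iX _).div_const _).integrableOn (integrable_const _).integrableOn,
            integral_div, setIntegral_const, smul_eq_mul, mul_comm (mu.real Vᶜ)]
      _ ≤ _ := by
          have : mu.real Vᶜ ≤ 1 := measureReal_le_one
          have : a / 4 * mu.real Vᶜ ≤ a / 4 * 1 := mul_le_mul_of_nonneg_left this (by positivity)
          linarith
  have e6 : a / 4 ≤ (∫ θ in Vᶜ, XX A ρ θ ^ (j + 2) ∂mu) / (a / 4) ^ (j + 1) := by linarith
  rw [le_div_iff₀ (by positivity)] at e6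
  calc (a / 4) ^ (j + 2) = a / 4 * (a / 4) ^ (j + 1) := by ring
    _ ≤ _ := e6

/-- the main inequality -/
theorem rec_ineq (A : Set ℕ) (j : ℕ) {L ρ η : ℝ} (h0 : 0 ≤ ρ) (h1 : ρ < 1)
    (ha : 0 < sv (chi A) (ρ ^ 2)) (hL : 1 ≤ L) (hη : 0 < η)
    (hM : MM A (j + 2) (ρ ^ 2) ≤ L / 4 * sv (chi A) (ρ ^ 2) ^ (j + 2))
    {d τ : ℕ} (b : Fin (d + 1) → ℝ)
    (hV : mu.real {θ : ℝ | ‖Qv b (cz ρ θ ^ τ)‖ < η} ≤ 1 / (4 * L)) :
    (sv (chi A) (ρ ^ 2) / 4) ^ (j + 2) ≤
      2 * ((j + 2).factorial / η) ^ 2 *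
        sv (fun n => conv (qc b τ) (fun m => (R A (j + 2) m : ℝ)) n ^ 2) (ρ ^ 2) +
      2 * sv (fun n => dd A (j + 2) n ^ 2) (ρ ^ 2) := by
  set h := j + 2 with hh
  set V : Set ℝ := {θ : ℝ | ‖Qv b (cz ρ θ ^ τ)‖ < η} with hVdef
  have cQ : Continuous fun θ => ‖Qv b (cz ρ θ ^ τ)‖ :=
    ((continuous_Qv b).comp ((continuous_cz ρ).pow τ)).norm
  have hVm : MeasurableSet V := (isOpen_lt cQ continuous_const).measurableSet
  have gF := good_R A h
  have gq := (good_qc b τ).conv gF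
  have gD := good_dd A h
  have hz : ∀ θ, ‖cz ρ θ‖ < 1 := fun θ => by rw [norm_cz h0]; exact h1
  refine (int_off A j h0 h1 ha hL hM hVm hV).trans ?_
  have hpt : ∀ θ ∈ Vᶜ, XX A ρ θ ^ h ≤ 2 * (h.factorial / η) ^ 2 *
      ‖ev (conv (qc b τ) (fun m => (R A h m : ℝ))) (cz ρ θ)‖ ^ 2 + 2 * ‖ev (dd A h) (cz ρ θ)‖ ^ 2 := by
    intro θ hθ
    have hθ' : η ≤ ‖Qv b (cz ρ θ ^ τ)‖ := by
      by_contra hc
      exact hθ (not_le.1 hc)
    rw [XX_pow A h h0 h1, ev_conv (good_qc b τ) gF (hz θ), ev_qc, norm_mul]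
    have a1 : ev (fun n => (r A h n : ℝ)) (cz ρ θ) =
        h.factorial * ev (fun n => (R A h n : ℝ)) (cz ρ θ) - ev (dd A h) (cz ρ θ) := by
      have a2 : ev (fun n => (h.factorial : ℝ) * (R A h n : ℝ)) (cz ρ θ) =
          ev (fun n => (r A h n : ℝ) + dd A h n) (cz ρ θ) := by
        congr 1
        funext n
        unfold dd; ring
      rw [ev_smul, ev_add (good_r A h) gD (hz θ)] at a2
      push_cast at a2 ⊢
      linear_combination -a2
    rw [a1]
    set F := ev (fun n => (R A h n : ℝ)) (cz ρ θ)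
    set D := ev (dd A h) (cz ρ θ)
    set q := ‖Qv b (cz ρ θ ^ τ)‖
    have b1 : ‖(h.factorial : ℂ) * F - D‖ ≤ h.factorial * ‖F‖ + ‖D‖ := by
      refine (norm_sub_le _ _).trans (le_of_eq ?_)
      rw [norm_mul, Complex.norm_natCast]
    have b2 : ‖(h.factorial : ℂ) * F - D‖ ^ 2 ≤ 2 * (h.factorial * ‖F‖) ^ 2 + 2 * ‖D‖ ^ 2 := by
      have := pow_le_pow_left₀ (norm_nonneg _) b1 2
      nlinarith [sq_nonneg ((h.factorial : ℝ) * ‖F‖ - ‖D‖)]
    have b3 : (h.factorial * ‖F‖) ^ 2 ≤ (h.factorial / η) ^ 2 * (q * ‖F‖) ^ 2 := by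
      rw [← mul_pow]
      refine pow_le_pow_left₀ (by positivity) ?_ 2
      have : (h.factorial : ℝ) / η * (q * ‖F‖) = h.factorial * ‖F‖ * (q / η) := by ring
      rw [this]
      have h3 : 1 ≤ q / η := (one_le_div hη).2 hθ'
      have h4 : 0 ≤ (h.factorial : ℝ) * ‖F‖ := by positivity
      nlinarith
    have b4 : 2 * ((h.factorial : ℝ) / η) ^ 2 * (q * ‖F‖) ^ 2 =
      2 * (((h.factorial : ℝ) / η) ^ 2 * (q * ‖F‖) ^ 2) := by ring
    rw [b4]
    linarith
  have c1 : Continuous fun θ => ‖ev (conv (qc b τ) (fun m => (R A h m : ℝ))) (cz ρ θ)‖ ^ 2 :=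
    (continuous_ev_cz gq h0 h1).norm.pow 2
  have c2 : Continuous fun θ => ‖ev (dd A h) (cz ρ θ)‖ ^ 2 := (continuous_ev_cz gD h0 h1).norm.pow 2
  have cX : Continuous fun θ => XX A ρ θ ^ h := (continuous_XX A h0 h1).pow h
  calc ∫ θ in Vᶜ, XX A ρ θ ^ h ∂mu
      ≤ ∫ θ in Vᶜ, (2 * (h.factorial / η) ^ 2 *
      ‖ev (conv (qc b τ) (fun m => (R A h m : ℝ))) (cz ρ θ)‖ ^ 2 + 2 * ‖ev (dd A h) (cz ρ θ)‖ ^ 2) ∂mu :=
        setIntegral_mono_on (integrable_mu cX).integrableOn
          (integrable_mu ((continuous_const.mul c1).add (continuous_const.mul c2))).integrableOn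
          hVm.compl hpt
    _ ≤ ∫ θ, (2 * (h.factorial / η) ^ 2 *
      ‖ev (conv (qc b τ) (fun m => (R A h m : ℝ))) (cz ρ θ)‖ ^ 2 + 2 * ‖ev (dd A h) (cz ρ θ)‖ ^ 2) ∂mu := by
        refine setIntegral_le_integral
          (integrable_mu ((continuous_const.mul c1).add (continuous_const.mul c2)))
          (Filter.Eventually.of_forall fun θ => ?_)
        show (0 : ℝ) ≤ _
        positivity
    _ = _ := by
        rw [integral_add ((integrable_mu c1).const_mul _) ((integrable_mu c2).const_mul _),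
          integral_const_mul, integral_const_mul, integral_norm_sq gq h0 h1,
          integral_norm_sq gD h0 h1]

/-- from Abel means to Cesàro means -/
theorem cesaro {E : Set ℕ} {c : ℝ} (hc : 0 < c)
    (hE : ∀ᶠ y in 𝓝[<] (1 : ℝ), c * (1 - y)⁻¹ ≤ sv (ind E) y) :
    ∀ᶠ N : ℕ in atTop, c ^ 2 / 4 * N ≤ ({n | n < N ∧ n ∈ E}.ncard : ℝ) := by
  classical
  set M : ℝ := 2 / c with hM
  have hM0 : 0 < M := by positivity
  have hev : ∀ᶠ y in 𝓝[<] (1 : ℝ), (c * (1 - y)⁻¹ ≤ sv (ind E) y) ∧ (0 < y ∧ y < 1) := by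
    filter_upwards [hE, Ioo_mem_nhdsLT (show (0 : ℝ) < 1 by norm_num)] with y hy hy2
    exact ⟨hy, hy2.1, hy2.2⟩
  have htend : Tendsto (fun N : ℕ => 1 - M / (N : ℝ)) atTop (𝓝[<] (1 : ℝ)) := by
    rw [tendsto_nhdsWithin_iff]
    constructor
    · have h1 : Tendsto (fun N : ℕ => M / (N : ℝ)) atTop (𝓝 0) :=
        tendsto_const_nhds.div_atTop tendsto_natCast_atTop_atTop
      simpa using (tendsto_const_nhds (x := (1 : ℝ))).sub h1
    · filter_upwards [eventually_gt_atTop 0] with N hN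
      have : (0 : ℝ) < N := by exact_mod_cast hN
      show 1 - M / (N : ℝ) < 1
      have : 0 < M / (N : ℝ) := by positivity
      linarith
  have hlarge : ∀ᶠ N : ℕ in atTop, M ≤ (N : ℝ) := tendsto_natCast_atTop_atTop.eventually_ge_atTop M
  filter_upwards [htend.eventually hev, hlarge] with N hN hNM
  obtain ⟨hy, hy0, hy1⟩ := hN
  have hNpos : (0 : ℝ) < N := by linarith
  set y : ℝ := 1 - M / (N : ℝ) with hydef
  have hinv : (1 - y)⁻¹ = N / M := by
    have h1 : 1 - y = M / N := by rw [hydef]; ring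
    rw [h1, inv_div]
  have h1 := sv_ind_count_le E N hy0.le hy1
  have hyN : y ^ N ≤ c / 2 := by
    have h5 : y ^ N ≤ Real.exp (-M) := Real.one_sub_div_pow_le_exp_neg hNM
    have h6 : Real.exp (-M) ≤ c / 2 := by
      rw [Real.exp_neg, inv_le_comm₀ (Real.exp_pos _) (by positivity)]
      have : (c / 2)⁻¹ = M := by rw [hM]; field_simp
      rw [this]
      linarith [Real.add_one_le_exp M]
    exact h5.trans h6
  have hcard : (((range N).filter fun n => n ∈ E).card : ℝ) = ({n | n < N ∧ n ∈ E}.ncard : ℝ) := by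
    rw [← Set.ncard_coe_finset]
    congr 2
    ext n; simp
  rw [hcard, hinv] at h1
  rw [hinv] at hy
  have h2 : y ^ N * (N / M) ≤ c / 2 * (N / M) := mul_le_mul_of_nonneg_right hyN (by positivity)
  have e : c ^ 2 / 4 * N = c / 2 * (N / M) := by rw [hM]; field_simp; ring
  rw [e]
  linarith

end Pool.Agent.U204.RF
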