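import Pool.Agent.U204.RFRecB

/-!
# Linear recurrences: final theorem
-/

set_option autoImplicit false

open Finset MeasureTheory Filter Topology

namespace Pool.Agent.U204.RF

theorem cz_pow (ρ θ : ℝ) (τ : ℕ) : cz ρ θ ^ τ = ((ρ ^ τ : ℝ) : ℂ) * ce (τ * θ) := by
  unfold cz ce
  rw [mul_pow, ← Complex.exp_nat_mul]
  push_cast
  congr 2
  ring

theorem Qv_scale {d : ℕ} (b : Fin (d + 1) → ℝ) (s : ℝ) (w : ℂ) :
    Qv b ((s : ℂ) * w) = Qv (fun i => b i * s ^ (i : ℕ)) w := by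
  unfold Qv
  refine sum_congr rfl fun i _ => ?_
  push_cast
  ring

theorem near_circle {d : ℕ} {b : Fin (d + 1) → ℝ} (hb : ‖b‖ = 1) {η : ℝ} {ρ : ℝ} (h0 : 0 ≤ ρ)
    (h1 : ρ ≤ 1) {τ : ℕ} (hρ : (d + 1) * (1 - ρ ^ (τ * d)) ≤ η) (θ : ℝ) :
    ‖Qv b (ce (τ * θ)) - Qv b (cz ρ θ ^ τ)‖ ≤ η := by
  rw [cz_pow, Qv_scale]
  refine (Qv_sub_le _ _ (norm_ce _).le (e := 1 - ρ ^ (τ * d)) fun i => ?_).trans hρ
  have h2 : |b i| ≤ 1 := by
    have := norm_le_pi_norm b i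
    rwa [hb, Real.norm_eq_abs] at this
  have h3 : (ρ ^ τ) ^ (i : ℕ) ≤ 1 := pow_le_one₀ (by positivity) (pow_le_one₀ h0 h1)
  have h4 : ρ ^ (τ * d) ≤ (ρ ^ τ) ^ (i : ℕ) := by
    rw [pow_mul]
    exact pow_le_pow_of_le_one (by positivity) (pow_le_one₀ h0 h1) (by have := i.2; omega)
  have e : b i - b i * (ρ ^ τ) ^ (i : ℕ) = b i * (1 - (ρ ^ τ) ^ (i : ℕ)) := by ring
  rw [e, abs_mul, abs_of_nonneg (by linarith : 0 ≤ 1 - (ρ ^ τ) ^ (i : ℕ))]
  nlinarith [abs_nonneg (b i)]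

/-- the small set of angles -/
theorem bad_angles {d : ℕ} {b : Fin (d + 1) → ℝ} (hb : ‖b‖ = 1) {η ε : ℝ}
    (hη : mu.real {θ : ℝ | ‖Qv b (ce θ)‖ < 2 * η} ≤ ε) {ρ : ℝ} (h0 : 0 ≤ ρ)
    (h1 : ρ ≤ 1) {τ : ℕ} (hτ : 1 ≤ τ) (hρ : (d + 1) * (1 - ρ ^ (τ * d)) ≤ η) :
    mu.real {θ : ℝ | ‖Qv b (cz ρ θ ^ τ)‖ < η} ≤ ε := by
  have hB : MeasurableSet {w : ℂ | ‖Qv b w‖ < 2 * η} :=
    (isOpen_lt (continuous_Qv b).norm continuous_const).measurableSet
  have h2 := mu_dil {w : ℂ | ‖Qv b w‖ < 2 * η} hB hτ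
  refine le_trans (measureReal_mono ?_) (h2.le.trans hη)
  intro θ hθ
  simp only [Set.mem_ofPred_eq] at hθ ⊢
  have h3 := near_circle hb h0 h1 hρ θ
  have h5 : ‖Qv b (ce (τ * θ))‖ ≤ ‖Qv b (ce (τ * θ)) - Qv b (cz ρ θ ^ τ)‖ + ‖Qv b (cz ρ θ ^ τ)‖ := by
    calc ‖Qv b (ce (τ * θ))‖ = ‖(Qv b (ce (τ * θ)) - Qv b (cz ρ θ ^ τ)) + Qv b (cz ρ θ ^ τ)‖ := by
          ring_nf
      _ ≤ _ := norm_add_le _ _
  linarith

theorem conv_qc_abs {d : ℕ} {b : Fin (d + 1) → ℝ} (hb : ‖b‖ = 1) (τ : ℕ) {c : ℕ → ℝ} {K : ℝ}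
    (hK : 0 ≤ K) (hc : ∀ n, |c n| ≤ K) (n : ℕ) : |conv (qc b τ) c n| ≤ (d + 1) * K := by
  rw [conv_qc]
  calc |∑ i : Fin (d + 1), if (i : ℕ) * τ ≤ n then b i * c (n - i * τ) else 0|
      ≤ ∑ i : Fin (d + 1), K := by
        refine (abs_sum_le_sum_abs _ _).trans (sum_le_sum fun i _ => ?_)
        split_ifs
        · rw [abs_mul]
          have h2 : |b i| ≤ 1 := by
            have := norm_le_pi_norm b i
            rwa [hb, Real.norm_eq_abs] at this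
          calc |b i| * |c (n - i * τ)| ≤ 1 * K := mul_le_mul h2 (hc _) (abs_nonneg _) (by norm_num)
            _ = K := one_mul K
        · rw [abs_zero]; exact hK
    _ = (d + 1) * K := by simp

/-- lower bound for the weight of the exceptional set, for `y` near `1` -/
theorem rec_abel (h : ℕ) (hh : 2 ≤ h) (K d : ℕ) : ∃ c : ℝ, 0 < c ∧ ∀ A : Set ℕ,
    (∃ n0, ∀ n ≥ n0, 1 ≤ R A h n) → (∀ n, R A h n ≤ K) → ∀ b : Fin (d + 1) → ℝ, ‖b‖ = 1 →
    ∀ τ : ℕ, 1 ≤ τ → ∀ᶠ y in 𝓝[<] (1 : ℝ),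
      c * (1 - y)⁻¹ ≤ sv (ind {n | conv (qc b τ) (fun m => (R A h m : ℝ)) n ≠ 0}) y := by
  obtain ⟨j, rfl⟩ : ∃ j, h = j + 2 := ⟨h - 2, by omega⟩
  set hf : ℝ := ((j + 2).factorial : ℝ) with hhf
  have hf0 : 0 < hf := by positivity
  set K1 : ℝ := hf ^ 2 * K with hK1
  set K2 : ℝ := hf ^ 2 * ((j + 2) ^ 4 * (2 * (hf ^ 2 * K + 1))) with hK2
  have hK20 : 0 ≤ K2 := by positivity
  set L : ℝ := max 1 (4 * K1) with hL
  have hL1 : 1 ≤ L := le_max_left _ _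
  have hLK : K1 ≤ L / 4 := by have := le_max_right 1 (4 * K1); linarith
  obtain ⟨η1, hη1, hball⟩ := ball_unif d (ε := 1 / (4 * L)) (by positivity)
  set η : ℝ := η1 / 2 with hη
  have hη0 : 0 < η := by positivity
  set Bd : ℝ := (d + 1) * (K + 1) with hBd
  have hBd0 : 0 < Bd := by positivity
  set c1 : ℝ := (η / hf) ^ 2 / (4 * 4 ^ (j + 2) * Bd ^ 2) with hc1
  have hc10 : 0 < c1 := by positivity
  refine ⟨c1 / 2, by positivity, ?_⟩
  rintro A ⟨n0, hn0⟩ hK b hb τ hτ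
  have hA := infinite_of_basis hn0
  -- the points close to 1
  have hρd : Tendsto (fun y : ℝ => (d + 1) * (1 - Real.sqrt y ^ (τ * d))) (𝓝[<] (1 : ℝ)) (𝓝 0) := by
    have h1 : Continuous fun y : ℝ => (d + 1) * (1 - Real.sqrt y ^ (τ * d)) := by fun_prop
    have h2 := h1.tendsto 1
    simp only [Real.sqrt_one, one_pow, sub_self, mul_zero] at h2
    exact tendsto_nhdsWithin_of_tendsto_nhds h2
  have hinv : Tendsto (fun y : ℝ => (2 * (n0 : ℝ) + 1) * (1 - y)) (𝓝[<] (1 : ℝ)) (𝓝 0) := by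
    have h1 : Continuous fun y : ℝ => (2 * (n0 : ℝ) + 1) * (1 - y) := by fun_prop
    have h2 := h1.tendsto 1
    simp only [sub_self, mul_zero] at h2
    exact tendsto_nhdsWithin_of_tendsto_nhds h2
  filter_upwards [sv_chi_large hA (max 1 (4 ^ (j + 3) * K2)), hρd.eventually (gt_mem_nhds hη0),
    Ioo_mem_nhdsLT (show (1 / 4 : ℝ) < 1 by norm_num), hinv.eventually (gt_mem_nhds one_pos)]
    with y hy1 hy2 hy3 hy4
  have hy0 : 0 ≤ y := by linarith [hy3.1]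
  have hylt : y < 1 := hy3.2
  set ρ : ℝ := Real.sqrt y with hρ
  have hρ2 : ρ ^ 2 = y := Real.sq_sqrt hy0
  have hρ0 : 0 ≤ ρ := Real.sqrt_nonneg y
  have hρ1 : ρ < 1 := by
    rw [hρ, Real.sqrt_lt' one_pos]; simpa using hylt
  have ha1 : 1 ≤ sv (chi A) y := (le_max_left _ _).trans hy1
  have ha2 : 4 ^ (j + 3) * K2 ≤ sv (chi A) y := (le_max_right _ _).trans hy1
  have ha0 : 0 < sv (chi A) y := by linarith
  have hR0 : 0 ≤ sv (fun n => (R A (j + 2) n : ℝ)) y := sv_nonneg (fun n => Nat.cast_nonneg _) hy0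
  have hSa := S_le_pow A (j + 2) hy0 hylt
  have hsq : sv (fun n => (R A (j + 2) n : ℝ) ^ 2) (ρ ^ 2) ≤ K * sv (chi A) (ρ ^ 2) ^ (j + 2) := by
    rw [hρ2]
    have h1 : sv (fun n => (R A (j + 2) n : ℝ) ^ 2) y ≤ sv (fun n => (K : ℝ) * (R A (j + 2) n : ℝ)) y := by
      refine sv_mono (good_R A _).sq ((good_R A _).smul _) (fun n => ?_) hy0 hylt
      have : (R A (j + 2) n : ℝ) ≤ K := by exact_mod_cast hK n
      have h3 : (0 : ℝ) ≤ R A (j + 2) n := Nat.cast_nonneg _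
      nlinarith
    rw [sv_smul] at h1
    exact h1.trans (mul_le_mul_of_nonneg_left hSa (Nat.cast_nonneg _))
  obtain ⟨hM, hD⟩ := hyps_of_sq A j hρ0 hρ1 (by rw [hρ2]; exact ha1) hsq
  have hM' : MM A (j + 2) (ρ ^ 2) ≤ L / 4 * sv (chi A) (ρ ^ 2) ^ (j + 2) := by
    refine hM.trans (mul_le_mul_of_nonneg_right hLK ?_)
    rw [hρ2]; positivity
  have hV : mu.real {θ : ℝ | ‖Qv b (cz ρ θ ^ τ)‖ < η} ≤ 1 / (4 * L) := by
    refine bad_angles hb ?_ hρ0 hρ1.le hτ hy2.le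
    have e : 2 * η = η1 := by rw [hη]; ring
    rw [e]
    exact hball b hb
  have hmain := rec_ineq A j hρ0 hρ1 (by rw [hρ2]; exact ha0) hL1 hη0 hM' b hV
  rw [← hhf] at hmain hD
  rw [hρ2] at hmain hD
  rw [← hK2] at hD
  set a := sv (chi A) y with hadef
  set U := sv (fun n => conv (qc b τ) (fun m => (R A (j + 2) m : ℝ)) n ^ 2) y with hU
  set Δ := sv (fun n => dd A (j + 2) n ^ 2) y with hΔ
  set E : Set ℕ := {n | conv (qc b τ) (fun m => (R A (j + 2) m : ℝ)) n ≠ 0} with hE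
  -- the error term
  have h1 : 2 * Δ ≤ 1 / 2 * (a / 4) ^ (j + 2) := by
    have h2 : a * (2 * Δ) ≤ a * (1 / 2 * (a / 4) ^ (j + 2)) := by
      have e : a * (1 / 2 * (a / 4) ^ (j + 2)) = 2 * (a / 4 ^ (j + 3)) * a ^ (j + 2) := by
        rw [div_pow]; field_simp; ring
      rw [e]
      have h3 : K2 ≤ a / 4 ^ (j + 3) := by
        rw [le_div_iff₀ (by positivity)]; linarith
      have h4 : K2 * a ^ (j + 2) ≤ a / 4 ^ (j + 3) * a ^ (j + 2) :=
        mul_le_mul_of_nonneg_right h3 (by positivity)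
      linarith
    exact le_of_mul_le_mul_left h2 ha0
  have h2 : (a / 4) ^ (j + 2) ≤ 4 * (hf / η) ^ 2 * U := by linarith
  -- the weight of the exceptional set
  have h3 : U ≤ Bd ^ 2 * sv (ind E) y := by
    rw [hU, ← sv_smul]
    refine sv_mono ((good_qc b τ).conv (good_R A _)).sq ((good_ind _).smul _) (fun n => ?_) hy0 hylt
    have h4 : |conv (qc b τ) (fun m => (R A (j + 2) m : ℝ)) n| ≤ (d + 1) * K := by
      refine conv_qc_abs hb τ (Nat.cast_nonneg K) (fun n => ?_) n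
      rw [abs_of_nonneg (Nat.cast_nonneg _)]
      exact_mod_cast hK n
    have h5 : |conv (qc b τ) (fun m => (R A (j + 2) m : ℝ)) n| ≤ Bd := by
      refine h4.trans ?_
      rw [hBd]
      exact mul_le_mul_of_nonneg_left (by linarith) (by positivity)
    by_cases hn : n ∈ E
    · have e : ind E n = 1 := by unfold ind; rw [if_pos hn]
      rw [e, mul_one, ← sq_abs]
      exact pow_le_pow_left₀ (abs_nonneg _) h5 2
    · have e : ind E n = 0 := by unfold ind; rw [if_neg hn]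
      have e2 : conv (qc b τ) (fun m => (R A (j + 2) m : ℝ)) n = 0 := by
        by_contra hc; exact hn hc
      rw [e, e2]; simp
  -- lower bound for `a ^ h`
  have h4 : (1 - y)⁻¹ - n0 ≤ a ^ (j + 2) := by
    have h5 : sv (fun _ => 1) y ≤ sv (fun n => (R A (j + 2) n : ℝ) + ind {n | n < n0} n) y := by
      refine sv_mono (good_const 1) ((good_R A _).add (good_ind _)) (fun n => ?_) hy0 hylt
      by_cases hn : n < n0
      · have e : ind {n | n < n0} n = 1 := by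
          unfold ind; rw [if_pos (show n ∈ {n | n < n0} from hn)]
        have : (0 : ℝ) ≤ R A (j + 2) n := Nat.cast_nonneg _
        rw [e]; linarith
      · have h6 : (1 : ℝ) ≤ R A (j + 2) n := by exact_mod_cast hn0 n (by omega)
        linarith [ind_nonneg {n | n < n0} n]
    rw [sv_add (good_R A _) (good_ind _) hy0 hylt] at h5
    have h6 : sv (fun _ => 1) y = (1 - y)⁻¹ := by
      unfold sv
      simp only [one_mul]
      exact tsum_geometric_of_lt_one hy0 hylt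
    rw [h6] at h5
    have := sv_ind_lt_le n0 hy0 hylt
    linarith
  have h5 : 2 * (n0 : ℝ) ≤ (1 - y)⁻¹ := by
    have h6 : 0 < 1 - y := by linarith
    have h7 : 2 * (n0 : ℝ) + 1 ≤ 1 / (1 - y) := by
      rw [le_div_iff₀ h6]; exact hy4.le
    rw [one_div] at h7
    linarith
  have h6 : 1 / 2 * (1 - y)⁻¹ ≤ a ^ (j + 2) := by linarith
  have h7 : a ^ (j + 2) ≤ 4 ^ (j + 2) * (4 * (hf / η) ^ 2 * (Bd ^ 2 * sv (ind E) y)) := by
    have e : a ^ (j + 2) = 4 ^ (j + 2) * (a / 4) ^ (j + 2) := by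
      rw [div_pow]; field_simp
    rw [e]
    refine mul_le_mul_of_nonneg_left (h2.trans ?_) (by positivity)
    exact mul_le_mul_of_nonneg_left h3 (by positivity)
  have e8 : c1 * (4 ^ (j + 2) * (4 * (hf / η) ^ 2 * (Bd ^ 2 * sv (ind E) y))) = sv (ind E) y := by
    rw [hc1]
    field_simp
  have h9 := mul_le_mul_of_nonneg_left (h6.trans h7) hc10.le
  rw [e8] at h9
  linarith

end Pool.Agent.U204.RF
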