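import Pool.Agent.U204.RFRecC

/-!
# Linear recurrences: density of the exceptional set
-/

set_option autoImplicit false

open Finset MeasureTheory Filter Topology

namespace Pool.Agent.U204.RF

theorem conv_shift {d : ℕ} (b : Fin (d + 1) → ℝ) (τ : ℕ) (c : ℕ → ℝ) (n : ℕ) :
    conv (qc b τ) c (n + d * τ) = ∑ i : Fin (d + 1), b (Fin.rev i) * c (n + i * τ) := by
  rw [conv_qc, ← Equiv.sum_comp Fin.revPerm]
  refine sum_congr rfl fun i _ => ?_
  have hi : ((Fin.revPerm i : Fin (d + 1)) : ℕ) = d - i := by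
    simp [Fin.revPerm_apply, Fin.val_rev]
  have h1 : (i : ℕ) ≤ d := by have := i.2; omega
  have h2 : (d - (i : ℕ)) * τ ≤ d * τ := Nat.mul_le_mul_right _ (Nat.sub_le _ _)
  have h3 : (d - (i : ℕ)) * τ + i * τ = d * τ := by rw [← add_mul, Nat.sub_add_cancel h1]
  rw [hi, if_pos (by omega)]
  have h4 : n + d * τ - (d - (i : ℕ)) * τ = n + i * τ := by omega
  rw [h4]
  rfl

theorem rec_density (h : ℕ) (hh : 2 ≤ h) (K d : ℕ) : ∃ δ : ℝ, 0 < δ ∧ ∀ A : Set ℕ,
    (∃ n0, ∀ n ≥ n0, 1 ≤ R A h n) → (∀ n, R A h n ≤ K) → ∀ c : Fin (d + 1) → ℝ, c ≠ 0 →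
    ∀ τ : ℕ, 1 ≤ τ → ∀ᶠ N : ℕ in atTop,
      δ * N ≤ ({n | n < N ∧ ∑ i : Fin (d + 1), c i * (R A h (n + i * τ) : ℝ) ≠ 0}.ncard : ℝ) := by
  obtain ⟨c0, hc0, hmain⟩ := rec_abel h hh K d
  refine ⟨c0 ^ 2 / 8, by positivity, fun A hb hK c hc τ hτ => ?_⟩
  have hcn : 0 < ‖c‖ := norm_pos_iff.2 hc
  set b : Fin (d + 1) → ℝ := fun i => ‖c‖⁻¹ * c (Fin.rev i) with hbdef
  have hbn : ‖b‖ = 1 := by
    have e1 : b = ‖c‖⁻¹ • (fun i => c (Fin.rev i)) := by
      funext i; simp [hbdef]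
    have e2 : ‖fun i => c (Fin.rev i)‖ = ‖c‖ := by
      apply le_antisymm
      · rw [pi_norm_le_iff_of_nonneg (norm_nonneg _)]
        exact fun i => norm_le_pi_norm c _
      · rw [pi_norm_le_iff_of_nonneg (norm_nonneg _)]
        intro i
        have := norm_le_pi_norm (fun i => c (Fin.rev i)) (Fin.rev i)
        simpa using this
    rw [e1, norm_smul, e2, norm_inv, norm_norm, inv_mul_cancel₀ hcn.ne']
  have h1 := cesaro hc0 (hmain A hb hK b hbn τ hτ)
  have h2 : ∀ᶠ N : ℕ in atTop, (d * τ : ℕ) / (c0 ^ 2 / 8) ≤ (N : ℝ) :=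
    tendsto_natCast_atTop_atTop.eventually_ge_atTop _
  filter_upwards [h1, h2] with N hN hN2
  set u : ℕ → ℝ := conv (qc b τ) (fun m => (R A h m : ℝ)) with hu
  set w : ℕ → ℝ := fun n => ∑ i : Fin (d + 1), c i * (R A h (n + i * τ) : ℝ) with hw
  have huw : ∀ n, u (n + d * τ) = ‖c‖⁻¹ * w n := by
    intro n
    rw [hu, conv_shift, hw]
    simp only [hbdef, Fin.rev_rev]
    rw [mul_sum]
    exact sum_congr rfl fun i _ => by ring
  set S : Set ℕ := {n | n < N ∧ w n ≠ 0} with hS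
  have hSfin : S.Finite := (Set.finite_lt_nat N).subset fun n hn => hn.1
  have hsub : {n | n < N ∧ n ∈ {n | u n ≠ 0}} ⊆ {n | n < d * τ} ∪ (fun n => n + d * τ) '' S := by
    rintro n ⟨hnN, hn⟩
    by_cases hlt : n < d * τ
    · exact Or.inl hlt
    · right
      refine ⟨n - d * τ, ⟨by omega, ?_⟩, by show n - d * τ + d * τ = n; omega⟩
      intro h0
      apply hn
      have := huw (n - d * τ)
      rw [h0, mul_zero] at this
      have e : n - d * τ + d * τ = n := by omega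
      rwa [e] at this
  have hcard : ({n | n < N ∧ n ∈ {n | u n ≠ 0}}.ncard : ℝ) ≤ (d * τ : ℕ) + S.ncard := by
    have h3 : {n | n < N ∧ n ∈ {n | u n ≠ 0}}.ncard ≤ ({n | n < d * τ} ∪ (fun n => n + d * τ) '' S).ncard :=
      Set.ncard_le_ncard hsub ((Set.finite_lt_nat _).union (hSfin.image _))
    have h4 := Set.ncard_union_le {n | n < d * τ} ((fun n => n + d * τ) '' S)
    have h5 : {n | n < d * τ}.ncard = d * τ := by
      have : {n | n < d * τ} = ((range (d * τ) : Finset ℕ) : Set ℕ) := by ext n; simp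
      rw [this, Set.ncard_coe_finset, card_range]
    have h6 : ((fun n => n + d * τ) '' S).ncard ≤ S.ncard := Set.ncard_image_le hSfin
    have : {n | n < N ∧ n ∈ {n | u n ≠ 0}}.ncard ≤ d * τ + S.ncard := by omega
    exact_mod_cast this
  rw [div_le_iff₀ (by positivity)] at hN2
  have hN' : c0 ^ 2 / 4 * N ≤ ({n | n < N ∧ n ∈ {n | u n ≠ 0}}.ncard : ℝ) := hN
  linarith

end Pool.Agent.U204.RF
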