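import Pool.Agent.U204.RFRecD

/-!
# Linear relations between shifts of the ordered representation function, growth hypothesis
-/

set_option autoImplicit false

open Finset MeasureTheory Filter Topology

namespace Pool.Agent.U204.RF

/-- the main inequality, ordered form -/
theorem rec_ineq_ord (A : Set ℕ) (j : ℕ) {L ρ η : ℝ} (h0 : 0 ≤ ρ) (h1 : ρ < 1)
    (ha : 0 < sv (chi A) (ρ ^ 2)) (hL : 1 ≤ L) (hη : 0 < η)
    (hM : MM A (j + 2) (ρ ^ 2) ≤ L / 4 * sv (chi A) (ρ ^ 2) ^ (j + 2))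
    {d τ : ℕ} (b : Fin (d + 1) → ℝ)
    (hV : mu.real {θ : ℝ | ‖Qv b (cz ρ θ ^ τ)‖ < η} ≤ 1 / (4 * L)) :
    (sv (chi A) (ρ ^ 2) / 4) ^ (j + 2) ≤ (1 / η) ^ 2 *
        sv (fun n => conv (qc b τ) (fun m => (r A (j + 2) m : ℝ)) n ^ 2) (ρ ^ 2) := by
  set h := j + 2 with hh
  set V : Set ℝ := {θ : ℝ | ‖Qv b (cz ρ θ ^ τ)‖ < η} with hVdef
  have cQ : Continuous fun θ => ‖Qv b (cz ρ θ ^ τ)‖ :=
    ((continuous_Qv b).comp ((continuous_cz ρ).pow τ)).norm
  have hVm : MeasurableSet V := (isOpen_lt cQ continuous_const).measurableSet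
  have gF := good_r A h
  have gq := (good_qc b τ).conv gF
  have hz : ∀ θ, ‖cz ρ θ‖ < 1 := fun θ => by rw [norm_cz h0]; exact h1
  refine (int_off A j h0 h1 ha hL hM hVm hV).trans ?_
  have hpt : ∀ θ ∈ Vᶜ, XX A ρ θ ^ h ≤ (1 / η) ^ 2 *
      ‖ev (conv (qc b τ) (fun m => (r A h m : ℝ))) (cz ρ θ)‖ ^ 2 := by
    intro θ hθ
    have hθ' : η ≤ ‖Qv b (cz ρ θ ^ τ)‖ := by
      by_contra hc
      exact hθ (not_le.1 hc)
    rw [XX_pow A h h0 h1, ev_conv (good_qc b τ) gF (hz θ), ev_qc, norm_mul, ← mul_pow]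
    set F := ev (fun n => (r A h n : ℝ)) (cz ρ θ)
    set q := ‖Qv b (cz ρ θ ^ τ)‖
    refine pow_le_pow_left₀ (norm_nonneg _) ?_ 2
    have : (1 : ℝ) / η * (q * ‖F‖) = ‖F‖ * (q / η) := by ring
    rw [this]
    have h3 : 1 ≤ q / η := (one_le_div hη).2 hθ'
    have h4 : 0 ≤ ‖F‖ := norm_nonneg _
    nlinarith
  have c1 : Continuous fun θ => ‖ev (conv (qc b τ) (fun m => (r A h m : ℝ))) (cz ρ θ)‖ ^ 2 :=
    (continuous_ev_cz gq h0 h1).norm.pow 2
  have cX : Continuous fun θ => XX A ρ θ ^ h := (continuous_XX A h0 h1).pow h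
  calc ∫ θ in Vᶜ, XX A ρ θ ^ h ∂mu
      ≤ ∫ θ in Vᶜ, ((1 / η) ^ 2 *
      ‖ev (conv (qc b τ) (fun m => (r A h m : ℝ))) (cz ρ θ)‖ ^ 2) ∂mu :=
        setIntegral_mono_on (integrable_mu cX).integrableOn
          (integrable_mu (continuous_const.mul c1)).integrableOn
          hVm.compl hpt
    _ ≤ ∫ θ, ((1 / η) ^ 2 *
      ‖ev (conv (qc b τ) (fun m => (r A h m : ℝ))) (cz ρ θ)‖ ^ 2) ∂mu := by
        refine setIntegral_le_integral
          (integrable_mu (continuous_const.mul c1))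
          (Filter.Eventually.of_forall fun θ => ?_)
        show (0 : ℝ) ≤ _
        positivity
    _ = _ := by
        rw [integral_const_mul, integral_norm_sq gq h0 h1]

/-- growth: if `a_(n+1) ≤ C (n + 1) ^ h` then `f(y) ^ h ≥ c / (1 - y)` -/
theorem growth (h : ℕ) (hh : 1 ≤ h) {C : ℝ} (hC : 1 ≤ C) {A : Set ℕ} (hA : A.Infinite)
    (hg : ∀ n : ℕ, (Nat.nth (· ∈ A) n : ℝ) ≤ C * ((n : ℝ) + 1) ^ h) :
    ∀ᶠ y in 𝓝[<] (1 : ℝ), 1 / (4 ^ h * (2 * C)) * (1 - y)⁻¹ ≤ sv (chi A) y ^ h := by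
  classical
  have h1 : ∀ᶠ y in 𝓝[<] (1 : ℝ), 1 - 1 / (2 * C) < y ∧ y < 1 :=
    Ioo_mem_nhdsLT (by have : 0 < 1 / (2 * C) := by positivity
                       linarith)
  filter_upwards [h1] with y hy
  obtain ⟨hy1, hylt⟩ := hy
  have hC0 : 0 < C := by linarith
  have hd0 : 0 < 1 - y := by linarith
  have hd1 : 2 * C * (1 - y) < 1 := by
    have : 1 - y < 1 / (2 * C) := by linarith
    rw [lt_div_iff₀ (by positivity)] at this
    linarith
  have hy0 : 0 ≤ y := by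
    have : 2 * (1 - y) ≤ 2 * C * (1 - y) := by nlinarith
    linarith
  -- the number of terms
  have hex : ∃ N : ℕ, 1 < 2 * C * (N : ℝ) ^ h * (1 - y) := by
    obtain ⟨N, hN⟩ := exists_nat_gt (1 / (2 * C * (1 - y)))
    refine ⟨N, ?_⟩
    rw [div_lt_iff₀ (by positivity)] at hN
    have hN0 : N ≠ 0 := by
      rintro rfl
      simp at hN
      linarith
    have hN1 : (1 : ℝ) ≤ N := by exact_mod_cast Nat.one_le_iff_ne_zero.2 hN0
    have : (N : ℝ) ≤ (N : ℝ) ^ h := by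
      calc (N : ℝ) = (N : ℝ) ^ 1 := (pow_one _).symm
        _ ≤ (N : ℝ) ^ h := pow_le_pow_right₀ hN1 hh
    have h3 : (N : ℝ) * (2 * C * (1 - y)) ≤ (N : ℝ) ^ h * (2 * C * (1 - y)) :=
      mul_le_mul_of_nonneg_right this (by positivity)
    linarith
  set N' := Nat.find hex with hN'
  have hspec := Nat.find_spec hex
  rw [← hN'] at hspec
  have hN'2 : 2 ≤ N' := by
    by_contra hc
    have h2 : (N' : ℝ) ≤ 1 := by
      have : N' ≤ 1 := by omega
      exact_mod_cast this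
    have h3 : (N' : ℝ) ^ h ≤ 1 := pow_le_one₀ (Nat.cast_nonneg _) h2
    have h4 : 2 * C * (N' : ℝ) ^ h * (1 - y) ≤ 2 * C * 1 * (1 - y) := by gcongr
    linarith
  obtain ⟨N, hNN⟩ : ∃ N, N' = N + 1 := ⟨N' - 1, by omega⟩
  have hN1 : 1 ≤ N := by omega
  have hmin : 2 * C * (N : ℝ) ^ h * (1 - y) ≤ 1 := by
    have := Nat.find_min hex (m := N) (by omega)
    exact not_lt.1 this
  rw [hNN] at hspec
  -- each of the first `N` elements contributes at least `1/2`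
  have hterm : ∀ k < N, (1 : ℝ) / 2 ≤ y ^ (Nat.nth (· ∈ A) k) := by
    intro k hk
    have h2 := hg k
    have h3 : ((k : ℝ) + 1) ^ h ≤ (N : ℝ) ^ h := by
      refine pow_le_pow_left₀ (by positivity) ?_ h
      exact_mod_cast hk
    have h4 : (Nat.nth (· ∈ A) k : ℝ) * (1 - y) ≤ 1 / 2 := by
      have h5 : (Nat.nth (· ∈ A) k : ℝ) * (1 - y) ≤ C * (N : ℝ) ^ h * (1 - y) :=
        mul_le_mul_of_nonneg_right (h2.trans (mul_le_mul_of_nonneg_left h3 hC0.le)) hd0.le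
      linarith
    have h5 := one_add_mul_le_pow (a := y - 1) (by linarith) (Nat.nth (· ∈ A) k)
    have e : 1 + (y - 1) = y := by ring
    rw [e] at h5
    linarith
  have hsum : (N : ℝ) / 2 ≤ sv (chi A) y := by
    have hinj : Function.Injective (Nat.nth (· ∈ A)) := Nat.nth_injective hA
    have hs := (good_chi A).summable hy0 hylt
    have h2 := hs.sum_le_tsum ((range N).image (Nat.nth (· ∈ A)))
      (fun n _ => mul_nonneg (chi_nonneg A n) (pow_nonneg hy0 n))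
    rw [sum_image (fun a _ b _ hab => hinj hab)] at h2
    refine le_trans ?_ h2
    calc (N : ℝ) / 2 = ∑ k ∈ range N, (1 : ℝ) / 2 := by simp; ring
      _ ≤ _ := by
        refine sum_le_sum fun k hk => ?_
        have h3 : Nat.nth (· ∈ A) k ∈ A := Nat.nth_mem_of_infinite hA k
        unfold chi
        rw [if_pos h3, one_mul]
        exact hterm k (mem_range.1 hk)
  have h6 : (((N + 1 : ℕ) : ℝ) / 4) ^ h ≤ sv (chi A) y ^ h := by
    refine pow_le_pow_left₀ (by positivity) ?_ h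
    refine le_trans ?_ hsum
    push_cast
    have : (1 : ℝ) ≤ N := by exact_mod_cast hN1
    linarith
  refine le_trans ?_ h6
  rw [div_pow]
  have h7 : 1 ≤ 2 * C * ((N + 1 : ℕ) : ℝ) ^ h * (1 - y) := hspec.le
  rw [div_mul_eq_mul_div, one_mul, div_le_div_iff₀ (by positivity) (by positivity),
    inv_mul_le_iff₀ hd0]
  have h8 : (0 : ℝ) < 4 ^ h := by positivity
  nlinarith

/-- lower bound for the weight of the exceptional set, for `y` near `1`, ordered form -/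
theorem rec_abel_ord (h : ℕ) (hh : 2 ≤ h) (K d : ℕ) {C : ℝ} (hC : 1 ≤ C) : ∃ c : ℝ, 0 < c ∧ ∀ A : Set ℕ,
    A.Infinite → (∀ n : ℕ, (Nat.nth (· ∈ A) n : ℝ) ≤ C * ((n : ℝ) + 1) ^ h) →
    (∀ n, r A h n ≤ K) → ∀ b : Fin (d + 1) → ℝ, ‖b‖ = 1 →
    ∀ τ : ℕ, 1 ≤ τ → ∀ᶠ y in 𝓝[<] (1 : ℝ),
      c * (1 - y)⁻¹ ≤ sv (ind {n | conv (qc b τ) (fun m => (r A h m : ℝ)) n ≠ 0}) y := by
  obtain ⟨j, rfl⟩ : ∃ j, h = j + 2 := ⟨h - 2, by omega⟩
  set L : ℝ := max 1 (4 * K) with hL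
  have hL1 : 1 ≤ L := le_max_left _ _
  have hLK : (K : ℝ) ≤ L / 4 := by have := le_max_right (1 : ℝ) (4 * K); linarith
  obtain ⟨η1, hη1, hball⟩ := ball_unif d (ε := 1 / (4 * L)) (by positivity)
  set η : ℝ := η1 / 2 with hη
  have hη0 : 0 < η := by positivity
  set Bd : ℝ := (d + 1) * (K + 1) with hBd
  have hBd0 : 0 < Bd := by positivity
  have hC0 : 0 < C := by linarith
  set c1 : ℝ := η ^ 2 / (4 ^ (j + 2) * Bd ^ 2) with hc1
  have hc10 : 0 < c1 := by positivity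
  refine ⟨c1 * (1 / (4 ^ (j + 2) * (2 * C))), by positivity, ?_⟩
  intro A hA hg hK b hb τ hτ
  have hρd : Tendsto (fun y : ℝ => (d + 1) * (1 - Real.sqrt y ^ (τ * d))) (𝓝[<] (1 : ℝ)) (𝓝 0) := by
    have h1 : Continuous fun y : ℝ => (d + 1) * (1 - Real.sqrt y ^ (τ * d)) := by fun_prop
    have h2 := h1.tendsto 1
    simp only [Real.sqrt_one, one_pow, sub_self, mul_zero] at h2
    exact tendsto_nhdsWithin_of_tendsto_nhds h2
  filter_upwards [sv_chi_large hA 1, hρd.eventually (gt_mem_nhds hη0),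
    Ioo_mem_nhdsLT (show (1 / 4 : ℝ) < 1 by norm_num), growth (j + 2) (by omega) hC hA hg]
    with y ha1 hy2 hy3 hy4
  have hy0 : 0 ≤ y := by linarith [hy3.1]
  have hylt : y < 1 := hy3.2
  set ρ : ℝ := Real.sqrt y with hρ
  have hρ2 : ρ ^ 2 = y := Real.sq_sqrt hy0
  have hρ0 : 0 ≤ ρ := Real.sqrt_nonneg y
  have hρ1 : ρ < 1 := by
    rw [hρ, Real.sqrt_lt' one_pos]; simpa using hylt
  have ha0 : 0 < sv (chi A) y := by linarith
  have hM' : MM A (j + 2) (ρ ^ 2) ≤ L / 4 * sv (chi A) (ρ ^ 2) ^ (j + 2) := by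
    rw [hρ2]
    have h1 : MM A (j + 2) y ≤ sv (fun n => (K : ℝ) * (r A (j + 2) n : ℝ)) y := by
      unfold MM
      refine sv_mono (good_r A _).sq ((good_r A _).smul _) (fun n => ?_) hy0 hylt
      have : (r A (j + 2) n : ℝ) ≤ K := by exact_mod_cast hK n
      have h3 : (0 : ℝ) ≤ r A (j + 2) n := Nat.cast_nonneg _
      nlinarith
    rw [sv_smul, sv_r A _ hy0 hylt] at h1
    exact h1.trans (mul_le_mul_of_nonneg_right hLK (by positivity))
  have hV : mu.real {θ : ℝ | ‖Qv b (cz ρ θ ^ τ)‖ < η} ≤ 1 / (4 * L) := by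
    refine bad_angles hb ?_ hρ0 hρ1.le hτ hy2.le
    have e : 2 * η = η1 := by rw [hη]; ring
    rw [e]
    exact hball b hb
  have hmain := rec_ineq_ord A j hρ0 hρ1 (by rw [hρ2]; exact ha0) hL1 hη0 hM' b hV
  rw [hρ2] at hmain
  set a := sv (chi A) y with hadef
  set U := sv (fun n => conv (qc b τ) (fun m => (r A (j + 2) m : ℝ)) n ^ 2) y with hU
  set E : Set ℕ := {n | conv (qc b τ) (fun m => (r A (j + 2) m : ℝ)) n ≠ 0} with hE
  have h3 : U ≤ Bd ^ 2 * sv (ind E) y := by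
    rw [hU, ← sv_smul]
    refine sv_mono ((good_qc b τ).conv (good_r A _)).sq ((good_ind _).smul _) (fun n => ?_) hy0 hylt
    have h4 : |conv (qc b τ) (fun m => (r A (j + 2) m : ℝ)) n| ≤ (d + 1) * K := by
      refine conv_qc_abs hb τ (Nat.cast_nonneg K) (fun n => ?_) n
      rw [abs_of_nonneg (Nat.cast_nonneg _)]
      exact_mod_cast hK n
    have h5 : |conv (qc b τ) (fun m => (r A (j + 2) m : ℝ)) n| ≤ Bd := by
      refine h4.trans ?_
      rw [hBd]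
      exact mul_le_mul_of_nonneg_left (by linarith) (by positivity)
    by_cases hn : n ∈ E
    · have e : ind E n = 1 := by unfold ind; rw [if_pos hn]
      rw [e, mul_one, ← sq_abs]
      exact pow_le_pow_left₀ (abs_nonneg _) h5 2
    · have e : ind E n = 0 := by unfold ind; rw [if_neg hn]
      have e2 : conv (qc b τ) (fun m => (r A (j + 2) m : ℝ)) n = 0 := by
        by_contra hc; exact hn hc
      rw [e, e2]; simp
  have h7 : a ^ (j + 2) ≤ 4 ^ (j + 2) * ((1 / η) ^ 2 * (Bd ^ 2 * sv (ind E) y)) := by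
    have e : a ^ (j + 2) = 4 ^ (j + 2) * (a / 4) ^ (j + 2) := by
      rw [div_pow]; field_simp
    rw [e]
    refine mul_le_mul_of_nonneg_left (hmain.trans ?_) (by positivity)
    exact mul_le_mul_of_nonneg_left h3 (by positivity)
  have e8 : c1 * (4 ^ (j + 2) * ((1 / η) ^ 2 * (Bd ^ 2 * sv (ind E) y))) = sv (ind E) y := by
    rw [hc1]
    field_simp
  have h9 := mul_le_mul_of_nonneg_left (hy4.trans h7) hc10.le
  rw [e8, ← mul_assoc] at h9
  exact h9

theorem rec_density_ord (h : ℕ) (hh : 2 ≤ h) (K d : ℕ) (C : ℝ) : ∃ δ : ℝ, 0 < δ ∧ ∀ A : Set ℕ,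
    A.Infinite → (∀ n : ℕ, (Nat.nth (· ∈ A) n : ℝ) ≤ C * ((n : ℝ) + 1) ^ h) →
    (∀ n, r A h n ≤ K) → ∀ c : Fin (d + 1) → ℝ, c ≠ 0 →
    ∀ τ : ℕ, 1 ≤ τ → ∀ᶠ N : ℕ in atTop,
      δ * N ≤ ({n | n < N ∧ ∑ i : Fin (d + 1), c i * (r A h (n + i * τ) : ℝ) ≠ 0}.ncard : ℝ) := by
  obtain ⟨c0, hc0, hmain⟩ := rec_abel_ord h hh K d (le_max_right C 1)
  refine ⟨c0 ^ 2 / 8, by positivity, fun A hA hg hK c hc τ hτ => ?_⟩
  have hg' : ∀ n : ℕ, (Nat.nth (· ∈ A) n : ℝ) ≤ max C 1 * ((n : ℝ) + 1) ^ h := fun n =>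
    (hg n).trans (mul_le_mul_of_nonneg_right (le_max_left _ _) (by positivity))
  have hcn : 0 < ‖c‖ := norm_pos_iff.2 hc
  set b : Fin (d + 1) → ℝ := fun i => ‖c‖⁻¹ * c (Fin.rev i) with hbdef
  have hbn : ‖b‖ = 1 := by
    have e1 : b = ‖c‖⁻¹ • (fun i => c (Fin.rev i)) := by
      funext i; simp [hbdef]
    have e2 : ‖fun i => c (Fin.rev i)‖ = ‖c‖ := by
      apply le_antisymm
      · rw [pi_norm_le_iff_of_nonneg (norm_nonneg _)]
        exact fun i => norm_le_pi_norm c _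
      · rw [pi_norm_le_iff_of_nonneg (norm_nonneg _)]
        intro i
        have := norm_le_pi_norm (fun i => c (Fin.rev i)) (Fin.rev i)
        simpa using this
    rw [e1, norm_smul, e2, norm_inv, norm_norm, inv_mul_cancel₀ hcn.ne']
  have h1 := cesaro hc0 (hmain A hA hg' hK b hbn τ hτ)
  have h2 : ∀ᶠ N : ℕ in atTop, (d * τ : ℕ) / (c0 ^ 2 / 8) ≤ (N : ℝ) :=
    tendsto_natCast_atTop_atTop.eventually_ge_atTop _
  filter_upwards [h1, h2] with N hN hN2
  set u : ℕ → ℝ := conv (qc b τ) (fun m => (r A h m : ℝ)) with hu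
  set w : ℕ → ℝ := fun n => ∑ i : Fin (d + 1), c i * (r A h (n + i * τ) : ℝ) with hw
  have huw : ∀ n, u (n + d * τ) = ‖c‖⁻¹ * w n := by
    intro n
    rw [hu, conv_shift, hw]
    simp only [hbdef, Fin.rev_rev]
    rw [mul_sum]
    exact sum_congr rfl fun i _ => by ring
  set S : Set ℕ := {n | n < N ∧ w n ≠ 0} with hS
  have hSfin : S.Finite := (Set.finite_lt_nat N).subset fun n hn => hn.1
  have hsub : {n | n < N ∧ n ∈ {n | u n ≠ 0}} ⊆ {n | n < d * τ} ∪ (fun n => n + d * τ) '' S := by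
    rintro n ⟨hnN, hn⟩
    by_cases hlt : n < d * τ
    · exact Or.inl hlt
    · right
      refine ⟨n - d * τ, ⟨by omega, ?_⟩, by show n - d * τ + d * τ = n; omega⟩
      intro h0
      apply hn
      have := huw (n - d * τ)
      rw [h0, mul_zero] at this
      have e : n - d * τ + d * τ = n := by omega
      rwa [e] at this
  have hcard : ({n | n < N ∧ n ∈ {n | u n ≠ 0}}.ncard : ℝ) ≤ (d * τ : ℕ) + S.ncard := by
    have h3 : {n | n < N ∧ n ∈ {n | u n ≠ 0}}.ncard ≤ ({n | n < d * τ} ∪ (fun n => n + d * τ) '' S).ncard :=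
      Set.ncard_le_ncard hsub ((Set.finite_lt_nat _).union (hSfin.image _))
    have h4 := Set.ncard_union_le {n | n < d * τ} ((fun n => n + d * τ) '' S)
    have h5 : {n | n < d * τ}.ncard = d * τ := by
      have : {n | n < d * τ} = ((range (d * τ) : Finset ℕ) : Set ℕ) := by ext n; simp
      rw [this, Set.ncard_coe_finset, card_range]
    have h6 : ((fun n => n + d * τ) '' S).ncard ≤ S.ncard := Set.ncard_image_le hSfin
    have : {n | n < N ∧ n ∈ {n | u n ≠ 0}}.ncard ≤ d * τ + S.ncard := by omega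
    exact_mod_cast this
  rw [div_le_iff₀ (by positivity)] at hN2
  have hN' : c0 ^ 2 / 4 * N ≤ ({n | n < N ∧ n ∈ {n | u n ≠ 0}}.ncard : ℝ) := hN
  linarith

end Pool.Agent.U204.RF
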