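import Pool.Agent.U204.RFMain

/-!
# The variance law
-/

set_option autoImplicit false

open Finset MeasureTheory Filter Topology

namespace Pool.Agent.U204.RF

/-- dilation of a coefficient sequence -/
noncomputable def dil (c : ℕ → ℝ) (n : ℕ) : ℝ := if 2 ∣ n then c (n / 2) else 0

theorem dbl_eq (A : Set ℕ) : dbl A = dil (chi A) := by
  classical
  funext n
  unfold dbl dil chi
  by_cases h : 2 ∣ n
  · obtain ⟨a, rfl⟩ := h
    rw [if_pos (Dvd.intro a rfl), Nat.mul_div_cancel_left a (by norm_num)]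
    by_cases ha : a ∈ A
    · rw [if_pos ⟨a, ha, rfl⟩, if_pos ha]
    · rw [if_neg, if_neg ha]
      rintro ⟨b, hb, hab⟩
      exact ha (by rwa [← Nat.eq_of_mul_eq_mul_left (by norm_num) hab])
  · rw [if_neg h, if_neg]
    rintro ⟨b, -, hb⟩
    exact h ⟨b, hb.symm⟩

theorem tsum_dil {E : Type*} [NormedAddCommGroup E] (c : ℕ → ℝ) (F : ℕ → ℝ → E)
    (hF : ∀ n, F n 0 = 0) : ∑' n, F n (dil c n) = ∑' n, F (2 * n) (c n) := by
  have hinj : Function.Injective fun n : ℕ => 2 * n := fun a b h => by simpa using h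
  rw [← hinj.tsum_eq (f := fun n => F n (dil c n))]
  · refine tsum_congr fun n => ?_
    unfold dil
    rw [if_pos (Dvd.intro n rfl), Nat.mul_div_cancel_left n (by norm_num)]
  · intro n hn
    rw [Function.mem_support] at hn
    unfold dil at hn
    split_ifs at hn with h
    · obtain ⟨a, rfl⟩ := h
      exact ⟨a, rfl⟩
    · exact absurd (hF n) hn

theorem ev_dil (c : ℕ → ℝ) (z : ℂ) : ev (dil c) z = ev c (z ^ 2) := by
  unfold ev
  rw [tsum_dil c (fun n x => (x : ℂ) * z ^ n) (fun n => by simp)]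
  exact tsum_congr fun n => by rw [pow_mul]

theorem Good.dil {c : ℕ → ℝ} (hc : Good c) : Good (dil c) := by
  intro x hx0 hx1
  have h2 : Summable fun n => |c n| * (x ^ 2) ^ n := hc (x ^ 2) (sq_nonneg x) (by nlinarith)
  have hinj : Function.Injective fun n : ℕ => 2 * n := fun a b h => by simpa using h
  refine (hinj.summable_iff ?_).1 (h2.congr fun n => ?_)
  · intro n hn
    have : ¬ 2 ∣ n := by
      rintro ⟨a, rfl⟩
      exact hn ⟨a, rfl⟩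
    show |RF.dil c n| * x ^ n = 0
    unfold RF.dil
    rw [if_neg this]; simp
  · show _ = |RF.dil c (2 * n)| * x ^ (2 * n)
    unfold RF.dil
    rw [if_pos (Dvd.intro n rfl), Nat.mul_div_cancel_left n (by norm_num), pow_mul]

theorem ev_dbl_pow (A : Set ℕ) (j : ℕ) {z : ℂ} (hz : ‖z‖ < 1) :
    ev (dbl A) z ^ j = ev (dil fun n => (r A j n : ℝ)) z := by
  have hz2 : ‖z ^ 2‖ < 1 := by
    rw [norm_pow]; nlinarith [norm_nonneg z]
  rw [ev_dil, ev_r A j hz2, dbl_eq, ev_dil]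

theorem int_dbl_pow_le (A : Set ℕ) (j : ℕ) {ρ : ℝ} (h0 : 0 ≤ ρ) (h1 : ρ < 1) :
    ∫ θ, (‖ev (dbl A) (cz ρ θ)‖ ^ 2) ^ j ∂mu ≤ MM A j (ρ ^ 2) := by
  have e : ∀ θ, (‖ev (dbl A) (cz ρ θ)‖ ^ 2) ^ j =
      ‖ev (dil fun n => (r A j n : ℝ)) (cz ρ θ)‖ ^ 2 := by
    intro θ
    rw [← ev_dbl_pow A j (by rw [norm_cz h0]; exact h1), norm_pow, ← pow_mul, ← pow_mul, mul_comm]
  rw [integral_congr_ae (Eventually.of_forall e), parseval (good_r A j).dil h0 h1]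
  rw [tsum_dil (fun n => (r A j n : ℝ)) (fun n x => x ^ 2 * (ρ ^ 2) ^ n) (fun n => by simp)]
  unfold MM sv
  have hy0 : 0 ≤ ρ ^ 2 := sq_nonneg _
  have hy1 : ρ ^ 2 < 1 := by nlinarith
  have hs := ((good_r A j).sq).summable hy0 hy1
  have hle : ∀ n, (r A j n : ℝ) ^ 2 * (ρ ^ 2) ^ (2 * n) ≤ (r A j n : ℝ) ^ 2 * (ρ ^ 2) ^ n :=
    fun n => mul_le_mul_of_nonneg_left (pow_le_pow_of_le_one hy0 hy1.le (by omega)) (sq_nonneg _)
  exact (Summable.of_nonneg_of_le (fun n => by positivity) hle hs).tsum_le_tsum hle hs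

theorem MM_prev_le (A : Set ℕ) (j : ℕ) {ρ : ℝ} (h0 : 0 ≤ ρ) (h1 : ρ < 1)
    (ha : 0 < sv (chi A) (ρ ^ 2)) :
    MM A j (ρ ^ 2) ≤ MM A (j + 1) (ρ ^ 2) / sv (chi A) (ρ ^ 2) + sv (chi A) (ρ ^ 2) ^ j := by
  have cX := continuous_XX A h0 h1
  have iX : ∀ j, Integrable (fun θ => XX A ρ θ ^ j) mu := fun j => integrable_mu (cX.pow j)
  rw [← integral_XX_pow A j h0 h1, ← integral_XX_pow A (j + 1) h0 h1]
  set a := sv (chi A) (ρ ^ 2)
  calc ∫ θ, XX A ρ θ ^ j ∂mu ≤ ∫ θ, (1 / a * XX A ρ θ ^ (j + 1) + ((1 : ℝ)⁻¹ * a) ^ j) ∂mu := by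
        refine integral_mono (iX _) (((iX _).const_mul _).add (integrable_const _)) fun θ => ?_
        exact near_zero j (XX_nonneg A ρ θ) one_pos ha
    _ = _ := by
        rw [integral_add ((iX _).const_mul _) (integrable_const _), integral_const_mul]
        simp
        ring

theorem sv_s_sq_le (A : Set ℕ) (j : ℕ) {ρ : ℝ} (h0 : 0 ≤ ρ) (h1 : ρ < 1) :
    sv (fun n => (s A (j + 2) n : ℝ) ^ 2) (ρ ^ 2) ≤ (j + 2) ^ 4 * (2 * MM A (j + 1) (ρ ^ 2)) := by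
  have hy0 : 0 ≤ ρ ^ 2 := sq_nonneg _
  have hy1 : ρ ^ 2 < 1 := by nlinarith
  have gc := (good_dbl A).conv (good_r A j)
  have e1 : sv (fun n => (s A (j + 2) n : ℝ) ^ 2) (ρ ^ 2) ≤
      ((j : ℝ) + 2) ^ 4 * sv (fun n => conv (dbl A) (fun m => (r A j m : ℝ)) n ^ 2) (ρ ^ 2) := by
    rw [← sv_smul]
    refine sv_mono (good_s A _).sq ((gc.sq).smul _) (fun n => ?_) hy0 hy1
    have h := s_le A j n
    rw [coeff_Dbl_mul] at h
    have := pow_le_pow_left₀ (Nat.cast_nonneg _) h 2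
    calc _ ≤ _ := this
      _ = _ := by ring
  refine e1.trans (mul_le_mul_of_nonneg_left ?_ (by positivity))
  have e2 : sv (fun n => conv (dbl A) (fun m => (r A j m : ℝ)) n ^ 2) (ρ ^ 2) =
      ∫ θ, ‖ev (dbl A) (cz ρ θ)‖ ^ 2 * XX A ρ θ ^ j ∂mu := by
    rw [← integral_norm_sq gc h0 h1]
    refine integral_congr_ae (Eventually.of_forall fun θ => ?_)
    show ‖ev (conv (dbl A) fun m => (r A j m : ℝ)) (cz ρ θ)‖ ^ 2 =
      ‖ev (dbl A) (cz ρ θ)‖ ^ 2 * XX A ρ θ ^ j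
    rw [XX_pow A j h0 h1, ev_conv (good_dbl A) (good_r A j) (by rw [norm_cz h0]; exact h1),
      norm_mul, mul_pow]
  rw [e2]
  have cX := continuous_XX A h0 h1
  have cU : Continuous fun θ => ‖ev (dbl A) (cz ρ θ)‖ ^ 2 :=
    (continuous_ev_cz (good_dbl A) h0 h1).norm.pow 2
  calc ∫ θ, ‖ev (dbl A) (cz ρ θ)‖ ^ 2 * XX A ρ θ ^ j ∂mu
      ≤ ∫ θ, ((‖ev (dbl A) (cz ρ θ)‖ ^ 2) ^ (j + 1) + XX A ρ θ ^ (j + 1)) ∂mu := by
        refine integral_mono (integrable_mu (cU.mul (cX.pow _)))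
          ((integrable_mu (cU.pow _)).add (integrable_mu (cX.pow _))) fun θ => ?_
        show ‖ev (dbl A) (cz ρ θ)‖ ^ 2 * XX A ρ θ ^ j ≤
          (‖ev (dbl A) (cz ρ θ)‖ ^ 2) ^ (j + 1) + XX A ρ θ ^ (j + 1)
        have hU : 0 ≤ ‖ev (dbl A) (cz ρ θ)‖ ^ 2 := by positivity
        have hX := XX_nonneg A ρ θ
        set U := ‖ev (dbl A) (cz ρ θ)‖ ^ 2
        set X := XX A ρ θ
        rcases le_total U X with h | h
        · have h1 : U * X ^ j ≤ X * X ^ j := mul_le_mul_of_nonneg_right h (by positivity)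
          have h2 : X * X ^ j = X ^ (j + 1) := by ring
          have h3 : 0 ≤ U ^ (j + 1) := by positivity
          linarith
        · have h1 : U * X ^ j ≤ U * U ^ j := mul_le_mul_of_nonneg_left (pow_le_pow_left₀ hX h j) hU
          have h2 : U * U ^ j = U ^ (j + 1) := by ring
          have h3 : 0 ≤ X ^ (j + 1) := by positivity
          linarith
    _ = ∫ θ, (‖ev (dbl A) (cz ρ θ)‖ ^ 2) ^ (j + 1) ∂mu + MM A (j + 1) (ρ ^ 2) := by
        have i1 : Integrable (fun θ => (‖ev (dbl A) (cz ρ θ)‖ ^ 2) ^ (j + 1)) mu :=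
          integrable_mu (cU.pow _)
        have i2 : Integrable (fun θ => XX A ρ θ ^ (j + 1)) mu := integrable_mu (cX.pow _)
        rw [integral_add i1 i2, integral_XX_pow A _ h0 h1]
    _ ≤ 2 * MM A (j + 1) (ρ ^ 2) := by
        linarith [int_dbl_pow_le A (j + 1) h0 h1]

/-- `∑ R² y^n ≤ K a^h` implies the hypotheses of `core` -/
theorem hyps_of_sq (A : Set ℕ) (j : ℕ) {K ρ : ℝ} (h0 : 0 ≤ ρ) (h1 : ρ < 1)
    (ha : 1 ≤ sv (chi A) (ρ ^ 2))
    (hR : sv (fun n => (R A (j + 2) n : ℝ) ^ 2) (ρ ^ 2) ≤ K * sv (chi A) (ρ ^ 2) ^ (j + 2)) :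
    MM A (j + 2) (ρ ^ 2) ≤ ((j + 2).factorial ^ 2 * K) * sv (chi A) (ρ ^ 2) ^ (j + 2) ∧
    sv (chi A) (ρ ^ 2) * sv (fun n => dd A (j + 2) n ^ 2) (ρ ^ 2) ≤
      ((j + 2).factorial ^ 2 * ((j + 2) ^ 4 * (2 * ((j + 2).factorial ^ 2 * K + 1)))) *
        sv (chi A) (ρ ^ 2) ^ (j + 2) := by
  have hy0 : 0 ≤ ρ ^ 2 := sq_nonneg _
  have hy1 : ρ ^ 2 < 1 := by nlinarith
  have hM : MM A (j + 2) (ρ ^ 2) ≤ ((j + 2).factorial ^ 2 * K) * sv (chi A) (ρ ^ 2) ^ (j + 2) := by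
    have e1 : MM A (j + 2) (ρ ^ 2) ≤ ((j + 2).factorial : ℝ) ^ 2 *
        sv (fun n => (R A (j + 2) n : ℝ) ^ 2) (ρ ^ 2) := by
      rw [← sv_smul]
      refine sv_mono (good_r A _).sq ((good_R A _).sq.smul _) (fun n => ?_) hy0 hy1
      have : (r A (j + 2) n : ℝ) ≤ (j + 2).factorial * R A (j + 2) n := by
        exact_mod_cast r_le A (j + 2) n
      have := pow_le_pow_left₀ (Nat.cast_nonneg _) this 2
      rw [mul_pow] at this
      exact this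
    have e2 := mul_le_mul_of_nonneg_left hR (show (0 : ℝ) ≤ ((j + 2).factorial : ℝ) ^ 2 by positivity)
    rw [← mul_assoc] at e2
    exact e1.trans e2
  refine ⟨hM, ?_⟩
  have ha0 : 0 < sv (chi A) (ρ ^ 2) := by linarith
  have e1 : sv (fun n => dd A (j + 2) n ^ 2) (ρ ^ 2) ≤ ((j + 2).factorial : ℝ) ^ 2 *
      sv (fun n => (s A (j + 2) n : ℝ) ^ 2) (ρ ^ 2) := by
    rw [← sv_smul]
    refine sv_mono (good_dd A _).sq ((good_s A _).sq.smul _) (fun n => ?_) hy0 hy1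
    have := pow_le_pow_left₀ (dd_nonneg A (j + 2) n) (dd_le A (j + 2) n) 2
    rw [mul_pow] at this
    exact this
  have e2 := sv_s_sq_le A j h0 h1
  have e3 := MM_prev_le A (j + 1) h0 h1 ha0
  set a := sv (chi A) (ρ ^ 2)
  have e4 : a * MM A (j + 1) (ρ ^ 2) ≤ ((j + 2).factorial ^ 2 * K + 1) * a ^ (j + 2) := by
    have := mul_le_mul_of_nonneg_left e3 ha0.le
    have e : a * (MM A (j + 1 + 1) (ρ ^ 2) / a + a ^ (j + 1)) = MM A (j + 2) (ρ ^ 2) + a ^ (j + 2) := by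
      field_simp
      ring_nf
    rw [e] at this
    linarith
  calc a * sv (fun n => dd A (j + 2) n ^ 2) (ρ ^ 2)
      ≤ a * (((j + 2).factorial : ℝ) ^ 2 * ((j + 2) ^ 4 * (2 * MM A (j + 1) (ρ ^ 2)))) :=
        mul_le_mul_of_nonneg_left (e1.trans (mul_le_mul_of_nonneg_left e2 (by positivity))) ha0.le
    _ = ((j + 2).factorial : ℝ) ^ 2 * ((j + 2) ^ 4 * (2 * (a * MM A (j + 1) (ρ ^ 2)))) := by ring
    _ ≤ ((j + 2).factorial : ℝ) ^ 2 * ((j + 2) ^ 4 * (2 *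
          (((j + 2).factorial ^ 2 * K + 1) * a ^ (j + 2)))) := by gcongr
    _ = _ := by ring

end Pool.Agent.U204.RF
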