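import Pool.Agent.U204.SASpec

set_option autoImplicit false
set_option linter.unusedSectionVars false
set_option linter.unusedVariables false
open Filter Topology

namespace Pool.Agent.U204.SA

variable {V : Type*} [DecidableEq V]

theorem summable_mul_of_sq {f g : V → ℝ} (hf : Summable fun w => f w ^ 2)
    (hg : Summable fun w => g w ^ 2) : Summable fun w => f w * g w := by
  refine Summable.of_norm_bounded (hf.add hg) ?_
  intro w
  rw [Real.norm_eq_abs, abs_le]
  constructor <;> nlinarith [sq_nonneg (f w + g w), sq_nonneg (f w - g w)]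

theorem summable_sq_lin {f g : V → ℝ} (hf : Summable fun w => f w ^ 2)
    (hg : Summable fun w => g w ^ 2) (a b : ℝ) : Summable fun w => (a * f w + b * g w) ^ 2 := by
  have h := ((hf.mul_left (a ^ 2)).add (hg.mul_left (b ^ 2))).add
    ((summable_mul_of_sq hf hg).mul_left (2 * a * b))
  refine h.congr ?_
  intro w; ring

theorem IsEig.lin {G : V → Finset V} {lam : ℝ} {f g : V → ℝ} (hf : IsEig G lam f)
    (hg : IsEig G lam g) (a b : ℝ) : IsEig G lam (fun w => a * f w + b * g w) := by
  refine ⟨summable_sq_lin hf.1 hg.1 a b, ?_⟩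
  intro w
  have h1 := hf.2 w
  have h2 := hg.2 w
  rw [adjL_apply] at *
  rw [Finset.sum_add_distrib, ← Finset.mul_sum, ← Finset.mul_sum, h1, h2]
  ring

open Classical in
/-- Cutting a function to a set. -/
noncomputable def cut (U : Set V) (f : V → ℝ) : V → ℝ := fun w => if w ∈ U then f w else 0

theorem cut_sq_summable {f : V → ℝ} (hf : Summable fun w => f w ^ 2) (U : Set V) :
    Summable fun w => cut U f w ^ 2 := by
  refine Summable.of_nonneg_of_le (fun w => sq_nonneg _) ?_ hf
  intro w
  unfold cut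
  split_ifs
  · exact le_rfl
  · simpa using sq_nonneg (f w)

theorem cut_sq_le {f : V → ℝ} (hf : Summable fun w => f w ^ 2) (U : Set V) :
    ∑' w, cut U f w ^ 2 ≤ ∑' w, f w ^ 2 := by
  apply (cut_sq_summable hf U).tsum_le_tsum _ hf
  intro w
  unfold cut
  split_ifs
  · exact le_rfl
  · simpa using sq_nonneg (f w)

theorem cut_sq_add {f : V → ℝ} (hf : Summable fun w => f w ^ 2) (U : Set V) :
    ∑' w, cut U f w ^ 2 + ∑' w, cut Uᶜ f w ^ 2 = ∑' w, f w ^ 2 := by
  rw [← (cut_sq_summable hf U).tsum_add (cut_sq_summable hf Uᶜ)]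
  congr 1
  ext w
  unfold cut
  by_cases h : w ∈ U
  · simp [h]
  · simp [h]

theorem IsEig.cut {G : V → Finset V} {lam : ℝ} {f : V → ℝ} (hf : IsEig G lam f) {U : Set V}
    (hU : ∀ w, ∀ u ∈ G w, (u ∈ U ↔ w ∈ U)) : IsEig G lam (cut U f) := by
  refine ⟨cut_sq_summable hf.1 U, ?_⟩
  intro w
  have h1 := hf.2 w
  rw [adjL_apply] at *
  by_cases hw : w ∈ U
  · have : ∑ u ∈ G w, SA.cut U f u = ∑ u ∈ G w, f u := by
      apply Finset.sum_congr rfl
      intro u hu
      simp [SA.cut, (hU w u hu).2 hw]
    rw [this, h1]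
    simp [SA.cut, hw]
  · have : ∑ u ∈ G w, SA.cut U f u = 0 := by
      apply Finset.sum_eq_zero
      intro u hu
      have : ¬ u ∈ U := fun h => hw ((hU w u hu).1 h)
      simp [SA.cut, this]
    rw [this]
    simp [SA.cut, hw]

section Kern

variable {G : V → Finset V} {Δ : ℕ} {lam R : ℝ}

/-- Standing assumption. -/
structure Ok (G : V → Finset V) (Δ : ℕ) (lam R : ℝ) : Prop where
  good : GoodG G Δ
  Rpos : 0 < R
  hR : Δ + |lam| ≤ R

theorem Ok.isEig (h : Ok G Δ lam R) (x : V) : IsEig G lam (Kf lam R G x) :=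
  Kf_isEig h.good h.Rpos h.hR x

theorem Ok.repro (h : Ok G Δ lam R) (x : V) {f : V → ℝ} (hf : IsEig G lam f) :
    ∑' y, Kf lam R G x y * f y = f x := Kf_repro h.good h.Rpos h.hR x hf

theorem Ok.self (h : Ok G Δ lam R) (x : V) : Kf lam R G x x = ∑' y, Kf lam R G x y ^ 2 := by
  rw [← h.repro x (h.isEig x)]
  congr 1; ext y; ring

theorem Ok.symm (h : Ok G Δ lam R) (x y : V) : Kf lam R G x y = Kf lam R G y x := by
  rw [← h.repro y (h.isEig x), ← h.repro x (h.isEig y)]
  congr 1; ext w; ring

theorem Ok.nonneg (h : Ok G Δ lam R) (x : V) : 0 ≤ Kf lam R G x x := by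
  rw [h.self]; exact tsum_nonneg fun y => sq_nonneg _

theorem Ok.le_one (h : Ok G Δ lam R) (x : V) : Kf lam R G x x ≤ 1 := by
  apply le_of_tendsto' (tendsto_avg h.good h.Rpos h.hR x x)
  intro n
  exact (abs_le.1 (abs_avg_le h.good h.Rpos h.hR n x x)).2

theorem Ok.CS (h : Ok G Δ lam R) (x : V) {f : V → ℝ} (hf : IsEig G lam f) :
    f x ^ 2 ≤ Kf lam R G x x * ∑' y, f y ^ 2 := by
  set K := Kf lam R G x with hK
  set k := K x with hk
  set F := ∑' y, f y ^ 2 with hF
  have h0 : ∀ t : ℝ, 0 ≤ F - 2 * t * f x + t ^ 2 * k := by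
    intro t
    have h1 : ∑' y, (1 * f y + (-t) * K y) ^ 2 = F - 2 * t * f x + t ^ 2 * k := by
      have e : ∀ y, (1 * f y + (-t) * K y) ^ 2 = f y ^ 2 + (-(2 * t)) * (K y * f y)
          + t ^ 2 * K y ^ 2 := by
        intro y; ring
      have s1 : Summable fun y => (-(2 * t)) * (K y * f y) :=
        (summable_mul_of_sq (h.isEig x).1 hf.1).mul_left _
      have s2 : Summable fun y => t ^ 2 * K y ^ 2 := (h.isEig x).1.mul_left _
      simp_rw [e]
      rw [(hf.1.add s1).tsum_add s2, hf.1.tsum_add s1, tsum_mul_left, tsum_mul_left,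
        h.repro x hf, ← h.self x]
      ring
    rw [← h1]
    exact tsum_nonneg fun y => sq_nonneg _
  have hk0 : 0 ≤ k := h.nonneg x
  rcases eq_or_lt_of_le hk0 with h2 | h2
  · have h3 : f x = 0 := by
      by_contra hne
      have h4 := h0 ((F + 1) / (2 * f x))
      rw [← h2] at h4
      have : 2 * ((F + 1) / (2 * f x)) * f x = F + 1 := by field_simp
      rw [this] at h4
      linarith
    rw [h3, ← h2]; simp
  · have h4 := h0 (f x / k)
    have e : F - 2 * (f x / k) * f x + (f x / k) ^ 2 * k = F - f x ^ 2 / k := by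
      field_simp; ring
    rw [e] at h4
    have h5 : f x ^ 2 / k ≤ F := by linarith
    rw [div_le_iff₀ h2] at h5
    linarith

theorem Ok.zero (h : Ok G Δ lam R) {x : V} (hx : Kf lam R G x x = 0) {f : V → ℝ}
    (hf : IsEig G lam f) : f x = 0 := by
  have := h.CS x hf
  rw [hx, zero_mul] at this
  have h2 : f x ^ 2 = 0 := le_antisymm this (sq_nonneg _)
  simpa using h2

theorem Ok.pos (h : Ok G Δ lam R) {x : V} {f : V → ℝ} (hf : IsEig G lam f) (hx : f x ≠ 0) :
    0 < Kf lam R G x x := by
  rcases eq_or_lt_of_le (h.nonneg x) with h1 | h1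
  · exact absurd (h.zero h1.symm hf) hx
  · exact h1

end Kern

/-! ### Deleting a vertex -/

/-- Delete all edges at `z`. -/
def delG (G : V → Finset V) (z : V) : V → Finset V := fun w => if w = z then ∅ else (G w).erase z

theorem GoodG.del {G : V → Finset V} {Δ : ℕ} (h : GoodG G Δ) (z : V) : GoodG (delG G z) Δ := by
  constructor
  · intro u w hu
    unfold delG at *
    split_ifs at hu with h1
    · simp at hu
    · rw [Finset.mem_erase] at hu
      rw [if_neg hu.1, Finset.mem_erase]
      exact ⟨h1, h.symm _ _ hu.2⟩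
  · intro w
    unfold delG
    split_ifs with h1
    · simp
    · exact (Finset.card_le_card (Finset.erase_subset _ _)).trans (h.card w)

theorem Ok.del {G : V → Finset V} {Δ : ℕ} {lam R : ℝ} (h : Ok G Δ lam R) (z : V) :
    Ok (delG G z) Δ lam R := ⟨h.good.del z, h.Rpos, h.hR⟩

theorem adj_del {G : V → Finset V} {z w : V} (hw : w ≠ z) {f : V → ℝ} (hz : f z = 0) :
    adjL (delG G z) f w = adjL G f w := by
  rw [adjL_apply, adjL_apply, delG, if_neg hw]
  exact Finset.sum_erase _ hz

theorem IsEig.del {G : V → Finset V} {lam : ℝ} {f : V → ℝ} (hf : IsEig G lam f) {z : V}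
    (hz : f z = 0) : IsEig (delG G z) lam f := by
  refine ⟨hf.1, ?_⟩
  intro w
  by_cases hw : w = z
  · subst hw
    rw [adjL_apply, delG, if_pos rfl, hz]; simp
  · rw [adj_del hw hz, hf.2]

theorem IsEig.of_del {G : V → Finset V} {lam : ℝ} {f : V → ℝ} {z : V}
    (hf : IsEig (delG G z) lam f) (hz : f z = 0) (hs : ∑ u ∈ G z, f u = 0) : IsEig G lam f := by
  refine ⟨hf.1, ?_⟩
  intro w
  by_cases hw : w = z
  · subst hw
    rw [adjL_apply, hs, hz, mul_zero]
  · rw [← adj_del hw hz, hf.2]

/-! ### Invariance -/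

theorem aeval_intertwine {E F : Type*} [AddCommGroup E] [Module ℝ E] [AddCommGroup F] [Module ℝ F]
    (A : E →ₗ[ℝ] E) (B : F →ₗ[ℝ] F) (T : E →ₗ[ℝ] F) (h : ∀ v, T (A v) = B (T v))
    (p : Polynomial ℝ) (v : E) :
    T (Polynomial.aeval A p v) = Polynomial.aeval B p (T v) := by
  induction p using Polynomial.induction_on' generalizing v with
  | add p q hp hq =>
    simp only [map_add, LinearMap.add_apply, hp, hq]
  | monomial n a =>
    simp only [Polynomial.aeval_monomial]
    have h1 : ∀ (n : ℕ) (f : E), T ((A ^ n) f) = (B ^ n) (T f) := by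
      intro n
      induction n with
      | zero => intro f; rfl
      | succ n ih =>
        intro f
        rw [pow_succ, pow_succ, Module.End.mul_apply, Module.End.mul_apply, ih, h]
    rw [Algebra.algebraMap_eq_smul_one, Algebra.algebraMap_eq_smul_one]
    simp only [smul_mul_assoc, one_mul, LinearMap.smul_apply, map_smul, h1]

/-- `ι` carries `G` onto a union of components of `G'`. -/
def Emb {W : Type*} [DecidableEq W] (G : V → Finset V) (G' : W → Finset W) (e : V ↪ W) : Prop :=
  ∀ w, G' (e w) = (G w).map e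

theorem polE_emb {W : Type*} [DecidableEq W] {G : V → Finset V} {G' : W → Finset W} {e : V ↪ W}
    (h : Emb G G' e) (p : Polynomial ℝ) (x y : V) : polE G' p (e x) (e y) = polE G p x y := by
  have h1 := aeval_intertwine (adjL G') (adjL G) (LinearMap.funLeft ℝ ℝ e) (by
    intro v
    ext w
    simp only [LinearMap.funLeft_apply, adjL_apply, h w, Finset.sum_map]) p (Pi.single (e x) 1)
  have h3 : LinearMap.funLeft ℝ ℝ e (Pi.single (e x) 1) = (Pi.single x 1 : V → ℝ) := by
    ext w
    rw [LinearMap.funLeft_apply]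
    by_cases hw : w = x
    · subst hw; simp
    · rw [Pi.single_eq_of_ne hw, Pi.single_eq_of_ne]
      exact fun h => hw (e.injective h)
  rw [h3] at h1
  have h2 := congrFun h1 y
  rw [LinearMap.funLeft_apply] at h2
  exact h2

theorem Kf_emb {W : Type*} [DecidableEq W] {G : V → Finset V} {G' : W → Finset W} {e : V ↪ W}
    (h : Emb G G' e) (lam R : ℝ) (x y : V) : Kf lam R G' (e x) (e y) = Kf lam R G x y := by
  unfold Kf avg
  simp_rw [polE_emb h]

theorem Emb.del {W : Type*} [DecidableEq W] {G : V → Finset V} {G' : W → Finset W} {e : V ↪ W}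
    (h : Emb G G' e) (z : V) : Emb (delG G z) (delG G' (e z)) e := by
  intro w
  unfold delG
  by_cases hw : w = z
  · subst hw; simp
  · have : ¬ e w = e z := fun h => hw (e.injective h)
    rw [if_neg hw, if_neg this, h w, Finset.map_erase]

/-! ### Reachability inside the support -/

/-- `y` can be reached from `x` by a path of length at most `n` inside the support. -/
def reach (lam R : ℝ) (G : V → Finset V) : ℕ → V → V → Prop
  | 0, x, y => x = y ∧ 0 < Kf lam R G x x
  | n + 1, x, y => reach lam R G n x y ∨ (0 < Kf lam R G x x ∧ ∃ u ∈ G x, reach lam R G n u y)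

theorem reach_emb {W : Type*} [DecidableEq W] {G : V → Finset V} {G' : W → Finset W} {e : V ↪ W}
    (h : Emb G G' e) (lam R : ℝ) (n : ℕ) (x y : V) :
    reach lam R G' n (e x) (e y) ↔ reach lam R G n x y := by
  induction n generalizing x with
  | zero => simp [reach, Kf_emb h]
  | succ n ih =>
    simp only [reach, ih, Kf_emb h, h x, Finset.mem_map, exists_exists_and_eq_and]

theorem reach_pos {lam R : ℝ} {G : V → Finset V} {n : ℕ} {x y : V} (h : reach lam R G n x y) :
    0 < Kf lam R G x x := by
  induction n generalizing x with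
  | zero => exact h.2
  | succ n ih =>
    rcases h with h | h
    · exact ih h
    · exact h.1

theorem reach_pos' {lam R : ℝ} {G : V → Finset V} {n : ℕ} {x y : V} (h : reach lam R G n x y) :
    0 < Kf lam R G y y := by
  induction n generalizing x with
  | zero => obtain ⟨h1, h2⟩ := h; subst h1; exact h2
  | succ n ih =>
    rcases h with h | h
    · exact ih h
    · obtain ⟨u, hu, h3⟩ := h.2
      exact ih h3

theorem reach_mono {lam R : ℝ} {G : V → Finset V} {n m : ℕ} (hnm : n ≤ m) {x y : V}
    (h : reach lam R G n x y) : reach lam R G m x y := by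
  induction m, hnm using Nat.le_induction with
  | base => exact h
  | succ m _ ih => exact Or.inl ih

end Pool.Agent.U204.SA
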