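import Pool.Agent.U204.SATree3

set_option autoImplicit false
set_option linter.unusedSectionVars false
set_option linter.unusedVariables false
open Filter Topology

namespace Pool.Agent.U204.SA

variable {lam R : ℝ}

open Classical in
/-- Indicator of a proposition. -/
noncomputable def ind (p : Prop) : ENNReal := if p then 1 else 0

theorem ind_of {p : Prop} (h : p) : ind p = 1 := by simp [ind, h]
theorem ind_not {p : Prop} (h : ¬ p) : ind p = 0 := by simp [ind, h]
theorem ind_le_one (p : Prop) : ind p ≤ 1 := by unfold ind; split_ifs <;> simp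

/-- A transport kernel built from nearest neighbour weights `c` and spreading over blocks. -/
noncomputable def kern (lam R : ℝ) (c : (L → Finset L) → L → L → ENNReal) (n : ℕ)
    (G : L → Finset L) (z y : L) : ENNReal :=
  ∑' x, c G z x * ind (reach lam R G n x y)

noncomputable def c1 (lam R : ℝ) (G : L → Finset L) (z x : L) : ENNReal :=
  if z = x then ENNReal.ofReal (Kf lam R G x x) else 0

open Classical in
noncomputable def c2 (lam R : ℝ) (G : L → Finset L) (z x : L) : ENNReal :=
  if x ∈ G z ∧ Kf lam R G z z = 0 then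
    ENNReal.ofReal (1 - Kf lam R G x x / Kf lam R (delG G z) x x) else 0

theorem kern1_eq (n : ℕ) (G : L → Finset L) (z y : L) :
    kern lam R (c1 lam R) n G z y
      = ENNReal.ofReal (Kf lam R G z z) * ind (reach lam R G n z y) := by
  unfold kern c1
  rw [tsum_eq_single z]
  · simp
  · intro b hb
    simp [hb.symm]

theorem count_ge {S : Set L} (hS : S.Finite) {P : L → Prop} (h : ∀ w ∈ S, P w) :
    (S.ncard : ENNReal) ≤ ∑' y, ind (P y) := by
  classical
  have h1 : ∑ y ∈ hS.toFinset, ind (P y) ≤ ∑' y, ind (P y) := ENNReal.sum_le_tsum _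
  refine le_trans (le_of_eq ?_) h1
  rw [Finset.sum_congr rfl (fun y hy => ind_of (h y (hS.mem_toFinset.1 hy)))]
  rw [Set.ncard_eq_toFinset_card S hS]
  simp

theorem count_block {D : ℕ} {τ : L → ℕ} (hRp : 0 < R) (hR : ((D + 1 : ℕ) : ℝ) + |lam| ≤ R)
    (hD : ∀ w, τ w ≤ D) {f : L → ℝ} (hf : IsEig (treeG τ) lam f) (p : L) (n : ℕ) :
    (({w | inC (subs p τ) (subs p f) w ∧ w.length ≤ n}.ncard : ℕ) : ENNReal)
      ≤ ∑' y, ind (reach lam R (treeG τ) n p y) := by
  have hfin := inC_finite n (subs p τ) (subs p f)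
  have hinj : Function.Injective (fun w : L => p ++ w) := fun a b h => List.append_cancel_left h
  rw [← Set.ncard_image_of_injective _ hinj]
  apply count_ge (hfin.image _)
  rintro _ ⟨w, ⟨h1, h2⟩, rfl⟩
  exact reach_mono h2 (reach_of_inC hRp hR hD hf h1)

/-- Blocks of a positive planted branch are large when `lam ∉ Fset n0`. -/
theorem count_branch {D : ℕ} {τ : L → ℕ} (hRp : 0 < R) (hR : ((D + 1 : ℕ) : ℝ) + |lam| ≤ R)
    (hD : ∀ w, τ w ≤ D) {n0 : ℕ} (hF : lam ∉ Fset n0) {i : ℕ}
    (h0 : Kf lam R (treeG τ) [i] [] = 0) (hp : 0 < Kf lam R (treeG τ) [i] [i]) :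
    (n0 : ENNReal) ≤ ∑' y, ind (reach lam R (treeG τ) n0 [i] y) := by
  have hok := ok_tree hRp hR hD
  have hfe := hok.isEig [i]
  set f := Kf lam R (treeG τ) [i] with hf
  refine le_trans ?_ (count_block hRp hR hD hfe [i] n0)
  have e1 : subs [i] τ = sub i τ := rfl
  have e2 : subs [i] f = sub i f := rfl
  rw [e1, e2]
  have hse : IsEig (treeG (sub i τ)) lam (sub i f) := sub_eig hfe.1 (fun w => hfe.2 _) h0
  rcases inC_dich n0 (sub i τ) (sub i f) with h | h
  · exact_mod_cast (by omega : n0 ≤ _)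
  · have hset : {w | inC (sub i τ) (sub i f) w ∧ w.length ≤ n0}
        = {w | inC (sub i τ) (sub i f) w} := by
      ext w
      exact ⟨fun hw => hw.1, fun hw => ⟨hw, (h w hw).le⟩⟩
    have hfin := inC_finite n0 (sub i τ) (sub i f)
    rw [hset] at hfin ⊢
    have hp' : sub i f [] ≠ 0 := ne_of_gt hp
    by_contra hcon
    push Not at hcon
    exact hF (Fset_mem hp' (fun w _ => hse.2 w) hfin (by exact_mod_cast hcon))

theorem count_branch_inf {D : ℕ} {τ : L → ℕ} (hRp : 0 < R) (hR : ((D + 1 : ℕ) : ℝ) + |lam| ≤ R)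
    (hD : ∀ w, τ w ≤ D) {i : ℕ} (hi : Inf lam R (sub i τ))
    (h0 : Kf lam R (treeG τ) [i] [] = 0) (hp : 0 < Kf lam R (treeG τ) [i] [i]) (n : ℕ) :
    (n : ENNReal) ≤ ∑' y, ind (reach lam R (treeG τ) n [i] y) := by
  have hok := ok_tree hRp hR hD
  have hoki : Ok (treeG (sub i τ)) (D + 1) lam R := ok_tree hRp hR (fun w => hD _)
  have hfe := hok.isEig [i]
  set f := Kf lam R (treeG τ) [i] with hf
  refine le_trans ?_ (count_block hRp hR hD hfe [i] n)
  have e1 : subs [i] τ = sub i τ := rfl
  have e2 : subs [i] f = sub i f := rfl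
  rw [e1, e2]
  have hse : IsEig (treeG (sub i τ)) lam (sub i f) := sub_eig hfe.1 (fun w => hfe.2 _) h0
  rcases inC_dich n (sub i τ) (sub i f) with h | h
  · exact_mod_cast (by omega : n ≤ _)
  · exfalso
    obtain ⟨w, hw, hwn⟩ := hi n
    have := h w (inC_congr hoki.good (hoki.isEig []) hse (ne_of_gt hp) hw)
    omega

theorem count_root_inf {D : ℕ} {τ : L → ℕ} (hRp : 0 < R) (hR : ((D + 1 : ℕ) : ℝ) + |lam| ≤ R)
    (hD : ∀ w, τ w ≤ D) (hi : Inf lam R τ) (n : ℕ) :
    (n : ENNReal) ≤ ∑' y, ind (reach lam R (treeG τ) n [] y) := by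
  have hok := ok_tree hRp hR hD
  refine le_trans ?_ (count_block hRp hR hD (hok.isEig []) [] n)
  have e1 : subs [] τ = τ := rfl
  have e2 : subs [] (Kf lam R (treeG τ) []) = Kf lam R (treeG τ) [] := rfl
  rw [e1, e2]
  rcases inC_dich n τ (Kf lam R (treeG τ) []) with h | h
  · exact_mod_cast (by omega : n ≤ _)
  · exfalso
    obtain ⟨w, hw, hwn⟩ := hi n
    have := h w hw
    omega

/-! ### Mass received at the root -/

theorem kern1_in {D : ℕ} {τ : L → ℕ} (hRp : 0 < R) (hR : ((D + 1 : ℕ) : ℝ) + |lam| ≤ R)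
    (hD : ∀ w, τ w ≤ D) (n : ℕ) :
    ∑' z, kern lam R (c1 lam R) n (treeG τ) z [] ≤ 1 := by
  have hok := ok_tree hRp hR hD
  set f := Kf lam R (treeG τ) [] with hf
  have hfe : IsEig (treeG τ) lam f := hok.isEig []
  rcases eq_or_lt_of_le (hok.nonneg []) with h0 | h0
  · have : ∀ z, kern lam R (c1 lam R) n (treeG τ) z [] = 0 := by
      intro z
      rw [kern1_eq, ind_not, mul_zero]
      intro h
      exact absurd (reach_pos' h) (by rw [← h0]; exact lt_irrefl _)
    simp [this]
  · have hM : 0 < f [] := h0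
    have h1 : ∀ z, kern lam R (c1 lam R) n (treeG τ) z [] ≤ ENNReal.ofReal (f z ^ 2 / f []) := by
      intro z
      rw [kern1_eq]
      by_cases hz : reach lam R (treeG τ) n z []
      · rw [ind_of hz, mul_one]
        apply ENNReal.ofReal_le_ofReal
        have h2 := inC_of_reach hRp hR hD hz
        have h3 := prop_of_inC hok.good hfe (hok.isEig z) h2
        rw [le_div_iff₀ hM, h3, hok.symm z []]
        apply le_of_eq; ring
      · rw [ind_not hz, mul_zero]; exact zero_le
    calc ∑' z, kern lam R (c1 lam R) n (treeG τ) z []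
        ≤ ∑' z, ENNReal.ofReal (f z ^ 2 / f []) := ENNReal.tsum_le_tsum h1
      _ = ENNReal.ofReal (∑' z, f z ^ 2 / f []) := by
          rw [ENNReal.ofReal_tsum_of_nonneg]
          · intro z; positivity
          · exact hfe.1.div_const _
      _ = 1 := by
          rw [tsum_div_const, ← hok.self [], ← hf, div_self (ne_of_gt hM), ENNReal.ofReal_one]

/-- Boundary vertices of the root block. -/
def Bd (τ : L → ℕ) (f : L → ℝ) (z : L) : Prop :=
  ∃ x a, z = x ++ [a] ∧ inC τ f x ∧ ¬ inC τ f z

theorem Bd_unique {τ : L → ℕ} {f : L → ℝ} {z z' w : L} (h : Bd τ f z) (h' : Bd τ f z')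
    (hz : z <+: w) (hz' : z' <+: w) : z = z' := by
  have key : ∀ {z z' : L}, Bd τ f z → Bd τ f z' → z <+: z' → z = z' := by
    intro z z' h h' hzz
    obtain ⟨x, a, h1, h2, h3⟩ := h
    obtain ⟨x', a', h1', h2', h3'⟩ := h'
    rw [h1', List.prefix_concat_iff] at hzz
    rcases hzz with h4 | h4
    · rw [h4, h1']
    · exact absurd (inC_prefix h4 h2') h3
  rcases List.prefix_or_prefix_of_prefix hz hz' with h1 | h1
  · exact key h h' h1
  · exact (key h' h h1).symm

theorem kern2_in {D : ℕ} {τ : L → ℕ} (hRp : 0 < R) (hR : ((D + 1 : ℕ) : ℝ) + |lam| ≤ R)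
    (hD : ∀ w, τ w ≤ D) (n : ℕ) :
    ∑' z, kern lam R (c2 lam R) n (treeG τ) z [] ≤ 1 := by
  have hok := ok_tree hRp hR hD
  set f := Kf lam R (treeG τ) [] with hf
  have hfe : IsEig (treeG τ) lam f := hok.isEig []
  rcases eq_or_lt_of_le (hok.nonneg []) with h0 | h0
  · have : ∀ z, kern lam R (c2 lam R) n (treeG τ) z [] = 0 := by
      intro z
      unfold kern
      rw [ENNReal.tsum_eq_zero]
      intro x
      rw [ind_not, mul_zero]
      intro h
      exact absurd (reach_pos' h) (by rw [← h0]; exact lt_irrefl _)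
    simp [this]
  · have hM : 0 < f [] := h0
    have h1 : ∀ z, kern lam R (c2 lam R) n (treeG τ) z []
        ≤ ∑' w, ind (Bd τ f z ∧ z <+: w) * ENNReal.ofReal (f w ^ 2 / f []) := by
      intro z
      -- a nonzero term determines everything
      have h2 : ∀ x, c2 lam R (treeG τ) z x * ind (reach lam R (treeG τ) n x []) ≠ 0 →
          (x = z.dropLast ∧ Bd τ f z ∧
            c2 lam R (treeG τ) z x ≤ ∑' w, ind (z <+: w) * ENNReal.ofReal (f w ^ 2 / f [])) := by
        intro x hx
        have hr : reach lam R (treeG τ) n x [] := by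
          by_contra hcon
          rw [ind_not hcon, mul_zero] at hx
          exact hx rfl
        have hc : x ∈ treeG τ z ∧ Kf lam R (treeG τ) z z = 0 := by
          by_contra hcon
          rw [c2, if_neg hcon, zero_mul] at hx
          exact hx rfl
        have hxC := inC_of_reach hRp hR hD hr
        have hzn : ¬ inC τ f z := by
          intro h
          exact inC_ne h (hok.zero hc.2 hfe)
        have hxz := treeG_symm hc.1
        rw [mem_treeG] at hxz
        rcases hxz with ⟨a, ha, hza⟩ | ⟨a, ha, hxa⟩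
        · refine ⟨by rw [hza]; simp, ⟨x, a, hza, hxC, hzn⟩, ?_⟩
          rw [c2, if_pos hc]
          subst hza
          have h3 := bdry_share hok ha hxC hc.2
          have h4 : 1 - Kf lam R (treeG τ) x x / Kf lam R (delG (treeG τ) (x ++ [a])) x x
              ≤ ∑' w, cut (Dset (x ++ [a])) f w ^ 2 / f [] := by
            rw [tsum_div_const, le_div_iff₀ hM]
            exact h3
          refine (ENNReal.ofReal_le_ofReal h4).trans (le_of_eq ?_)
          rw [ENNReal.ofReal_tsum_of_nonneg]
          · congr 1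
            ext w
            by_cases hw : (x ++ [a]) <+: w
            · rw [ind_of hw, one_mul]
              have : w ∈ Dset (x ++ [a]) := hw
              simp [cut, this]
            · rw [ind_not hw, zero_mul]
              have : w ∉ Dset (x ++ [a]) := hw
              simp [cut, this]
          · intro w; positivity
          · exact (cut_sq_summable hfe.1 _).div_const _
        · exfalso
          apply hzn
          rw [hxa] at hxC
          exact ((inC_snoc _ _ _ _).1 hxC).1
      by_cases hex : ∃ x, c2 lam R (treeG τ) z x * ind (reach lam R (treeG τ) n x []) ≠ 0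
      · obtain ⟨x, hx⟩ := hex
        obtain ⟨h3, h4, h5⟩ := h2 x hx
        have h6 : kern lam R (c2 lam R) n (treeG τ) z []
            = c2 lam R (treeG τ) z x * ind (reach lam R (treeG τ) n x []) := by
          unfold kern
          apply tsum_eq_single
          intro b hb
          by_contra hcon
          exact hb ((h2 b hcon).1.trans h3.symm)
        rw [h6]
        calc _ ≤ c2 lam R (treeG τ) z x * 1 := by gcongr; exact ind_le_one _
          _ = c2 lam R (treeG τ) z x := mul_one _
          _ ≤ _ := h5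
          _ = _ := by
              congr 1
              ext w
              have : (Bd τ f z ∧ z <+: w) = (z <+: w) := by
                apply propext
                exact ⟨fun h => h.2, fun h => ⟨h4, h⟩⟩
              rw [this]
      · push Not at hex
        unfold kern
        rw [ENNReal.tsum_eq_zero.2 hex]
        exact zero_le
    calc ∑' z, kern lam R (c2 lam R) n (treeG τ) z []
        ≤ ∑' z, ∑' w, ind (Bd τ f z ∧ z <+: w) * ENNReal.ofReal (f w ^ 2 / f []) :=
          ENNReal.tsum_le_tsum h1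
      _ = ∑' w, ∑' z, ind (Bd τ f z ∧ z <+: w) * ENNReal.ofReal (f w ^ 2 / f []) :=
          ENNReal.tsum_comm
      _ ≤ ∑' w, ENNReal.ofReal (f w ^ 2 / f []) := by
          apply ENNReal.tsum_le_tsum
          intro w
          rw [ENNReal.tsum_mul_right]
          have : ∑' z, ind (Bd τ f z ∧ z <+: w) ≤ 1 := by
            by_cases hex : ∃ z, Bd τ f z ∧ z <+: w
            · obtain ⟨z, hz⟩ := hex
              rw [tsum_eq_single z]
              · exact ind_le_one _
              · intro b hb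
                apply ind_not
                intro h
                exact hb (Bd_unique h.1 hz.1 h.2 hz.2)
            · push Not at hex
              have : ∀ z, ind (Bd τ f z ∧ z <+: w) = 0 := by
                intro z
                apply ind_not
                intro h
                exact hex z h.1 h.2
              simp [this]
          calc _ ≤ 1 * ENNReal.ofReal (f w ^ 2 / f []) := by gcongr
            _ = _ := one_mul _
      _ = ENNReal.ofReal (∑' z, f z ^ 2 / f []) := by
          rw [ENNReal.ofReal_tsum_of_nonneg]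
          · intro z; positivity
          · exact hfe.1.div_const _
      _ = 1 := by
          rw [tsum_div_const, ← hok.self [], ← hf, div_self (ne_of_gt hM), ENNReal.ofReal_one]

/-! ### Mass sent from the root -/

/-- The share of branch `i`. -/
noncomputable def shr (lam R : ℝ) (τ : L → ℕ) (i : ℕ) : ℝ :=
  Kf lam R (treeG (sub i τ)) [] [] / ∑ j ∈ Finset.range (τ []), Kf lam R (treeG (sub j τ)) [] []

theorem kern2_out {D : ℕ} {τ : L → ℕ} (hRp : 0 < R) (hR : ((D + 1 : ℕ) : ℝ) + |lam| ≤ R)
    (hD : ∀ w, τ w ≤ D) {i j : ℕ} (hi : i < τ []) (hj : j < τ []) (hij : i ≠ j)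
    (hpi : Pos lam R (sub i τ)) (hpj : Pos lam R (sub j τ)) (n : ℕ) :
    (∀ k < τ [], Pos lam R (sub k τ) → 0 < Kf lam R (treeG τ) [k] [k]) ∧
    (∀ k, Kf lam R (treeG τ) [k] [] = 0) ∧
    ∑ k ∈ Finset.range (τ []), ENNReal.ofReal (shr lam R τ k) *
        ∑' y, ind (reach lam R (treeG τ) n [k] y)
      ≤ ∑' y, kern lam R (c2 lam R) n (treeG τ) [] y := by
  have hok := ok_tree hRp hR hD
  have hoks : ∀ k, Ok (treeG (sub k τ)) (D + 1) lam R := fun k => ok_tree hRp hR (fun w => hD _)
  have h1 : ∀ k < τ [], Pos lam R (sub k τ) → 0 < Kf lam R (treeG τ) [k] [k] := by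
    intro k hk hpk
    by_cases hki : k = i
    · subst hki
      exact child_pos hok hk hj hij (hoks k) hpk (hoks j) hpj
    · exact child_pos hok hk hi hki (hoks k) hpk (hoks i) hpi
  have h2 : ∀ k, Kf lam R (treeG τ) [k] [] = 0 := fun k =>
    root_zero hok.good hi (hoks i) hpi (hok.isEig [k])
  have h2' : Kf lam R (treeG τ) [] [] = 0 := root_zero hok.good hi (hoks i) hpi (hok.isEig [])
  refine ⟨h1, h2, ?_⟩
  have h3 : ∑' y, kern lam R (c2 lam R) n (treeG τ) [] y
      = ∑' x, c2 lam R (treeG τ) [] x * ∑' y, ind (reach lam R (treeG τ) n x y) := by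
    unfold kern
    rw [ENNReal.tsum_comm]
    congr 1
    ext x
    rw [ENNReal.tsum_mul_left]
  rw [h3]
  have h4 : ∑ k ∈ Finset.range (τ []), c2 lam R (treeG τ) [] [k] *
        ∑' y, ind (reach lam R (treeG τ) n [k] y)
      ≤ ∑' x, c2 lam R (treeG τ) [] x * ∑' y, ind (reach lam R (treeG τ) n x y) := by
    have h5 := ENNReal.sum_le_tsum (f := fun x => c2 lam R (treeG τ) [] x *
      ∑' y, ind (reach lam R (treeG τ) n x y)) ((Finset.range (τ [])).image (fun k => [k]))
    rw [Finset.sum_image] at h5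
    · exact h5
    · intro a _ b _ hab
      simpa using hab
  refine le_trans (Finset.sum_le_sum ?_) h4
  intro k hk
  have hk' := Finset.mem_range.1 hk
  gcongr
  by_cases hpk : Pos lam R (sub k τ)
  · rw [c2, if_pos]
    · apply ENNReal.ofReal_le_ofReal
      exact share_le hok hoks hk' hpk (h1 k hk' hpk)
    · refine ⟨?_, h2'⟩
      rw [mem_treeG]; left; exact ⟨k, hk', rfl⟩
  · have h6 : Kf lam R (treeG (sub k τ)) [] [] = 0 :=
      le_antisymm (not_lt.1 hpk) ((hoks k).nonneg [])
    rw [shr, h6, zero_div, ENNReal.ofReal_zero]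
    exact zero_le

theorem kern2_out_big {D : ℕ} {τ : L → ℕ} (hRp : 0 < R) (hR : ((D + 1 : ℕ) : ℝ) + |lam| ≤ R)
    (hD : ∀ w, τ w ≤ D) {n0 : ℕ} (hF : lam ∉ Fset n0)
    {i j : ℕ} (hi : i < τ []) (hj : j < τ []) (hij : i ≠ j)
    (hpi : Pos lam R (sub i τ)) (hpj : Pos lam R (sub j τ)) :
    (n0 : ENNReal) ≤ ∑' y, kern lam R (c2 lam R) n0 (treeG τ) [] y := by
  obtain ⟨h1, h2, h3⟩ := kern2_out hRp hR hD hi hj hij hpi hpj n0
  have hoks : ∀ k, Ok (treeG (sub k τ)) (D + 1) lam R := fun k => ok_tree hRp hR (fun w => hD _)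
  refine le_trans ?_ h3
  have h4 : ∑ k ∈ Finset.range (τ []), ENNReal.ofReal (shr lam R τ k) * (n0 : ENNReal)
      ≤ ∑ k ∈ Finset.range (τ []), ENNReal.ofReal (shr lam R τ k) *
        ∑' y, ind (reach lam R (treeG τ) n0 [k] y) := by
    apply Finset.sum_le_sum
    intro k hk
    have hk' := Finset.mem_range.1 hk
    by_cases hpk : Pos lam R (sub k τ)
    · gcongr
      exact count_branch hRp hR hD hF (h2 k) (h1 k hk' hpk)
    · have h6 : Kf lam R (treeG (sub k τ)) [] [] = 0 :=
        le_antisymm (not_lt.1 hpk) ((hoks k).nonneg [])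
      rw [shr, h6, zero_div, ENNReal.ofReal_zero, zero_mul]
      exact zero_le
  refine le_trans (le_of_eq ?_) h4
  rw [← Finset.sum_mul, ← ENNReal.ofReal_sum_of_nonneg]
  · have hσ : 0 < ∑ j ∈ Finset.range (τ []), Kf lam R (treeG (sub j τ)) [] [] := by
      apply Finset.sum_pos'
      · intro k _; exact (hoks k).nonneg []
      · exact ⟨i, Finset.mem_range.2 hi, hpi⟩
    have : ∑ k ∈ Finset.range (τ []), shr lam R τ k = 1 := by
      unfold shr
      rw [← Finset.sum_div, div_self (ne_of_gt hσ)]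
    rw [this, ENNReal.ofReal_one, one_mul]
  · intro k _
    apply div_nonneg ((hoks k).nonneg [])
    exact Finset.sum_nonneg fun j _ => (hoks j).nonneg []

theorem kern2_out_inf {D : ℕ} {τ : L → ℕ} (hRp : 0 < R) (hR : ((D + 1 : ℕ) : ℝ) + |lam| ≤ R)
    (hD : ∀ w, τ w ≤ D)
    {i j : ℕ} (hi : i < τ []) (hj : j < τ []) (hij : i ≠ j)
    (hpi : Pos lam R (sub i τ)) (hpj : Pos lam R (sub j τ)) (hinf : Inf lam R (sub i τ)) (n : ℕ) :
    ENNReal.ofReal (shr lam R τ i) * (n : ENNReal)
      ≤ ∑' y, kern lam R (c2 lam R) n (treeG τ) [] y := by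
  obtain ⟨h1, h2, h3⟩ := kern2_out hRp hR hD hi hj hij hpi hpj n
  refine le_trans ?_ h3
  refine le_trans ?_ (Finset.single_le_sum (f := fun k => ENNReal.ofReal (shr lam R τ k) *
        ∑' y, ind (reach lam R (treeG τ) n [k] y)) (fun k _ => zero_le) (Finset.mem_range.2 hi))
  gcongr
  exact count_branch_inf hRp hR hD hinf (h2 i) (h1 i hi hpi) n

theorem shr_pos {D : ℕ} {τ : L → ℕ} (hRp : 0 < R) (hR : ((D + 1 : ℕ) : ℝ) + |lam| ≤ R)
    (hD : ∀ w, τ w ≤ D) {i : ℕ} (hi : i < τ []) (hpi : Pos lam R (sub i τ)) :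
    0 < shr lam R τ i := by
  have hoks : ∀ k, Ok (treeG (sub k τ)) (D + 1) lam R := fun k => ok_tree hRp hR (fun w => hD _)
  apply div_pos hpi
  apply Finset.sum_pos'
  · intro k _; exact (hoks k).nonneg []
  · exact ⟨i, Finset.mem_range.2 hi, hpi⟩

theorem kern1_out_inf {D : ℕ} {τ : L → ℕ} (hRp : 0 < R) (hR : ((D + 1 : ℕ) : ℝ) + |lam| ≤ R)
    (hD : ∀ w, τ w ≤ D) (hinf : Inf lam R τ) (n : ℕ) :
    ENNReal.ofReal (Kf lam R (treeG τ) [] []) * (n : ENNReal)
      ≤ ∑' y, kern lam R (c1 lam R) n (treeG τ) [] y := by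
  simp_rw [kern1_eq]
  rw [ENNReal.tsum_mul_left]
  gcongr
  exact count_root_inf hRp hR hD hinf n

end Pool.Agent.U204.SA
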