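import Pool.Agent.U204.SAMtp

set_option autoImplicit false
set_option linter.unusedSectionVars false
set_option linter.unusedVariables false
open Filter Topology MeasureTheory

namespace Pool.Agent.U204.SA

variable {lam R : ℝ}

/-- Admissible nearest neighbour weights. -/
structure Wt (c : (L → Finset L) → L → L → ENNReal) (D : ℕ) : Prop where
  inv : ∀ (G G' : L → Finset L) (e : L ≃ L), Emb G G' e.toEmbedding →
    ∀ z x, c G' (e z) (e x) = c G z x
  meas : MW c
  loc : ∀ (G : L → Finset L) (z x : L), c G z x ≠ 0 → x = z ∨ x ∈ G z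
  bd : ∀ τ : L → ℕ, (∀ w, τ w ≤ D) → ∀ z x, c (treeG τ) z x ≤ 1

theorem Wt_c1 {D : ℕ} (hRp : 0 < R) (hR : ((D + 1 : ℕ) : ℝ) + |lam| ≤ R) :
    Wt (c1 lam R) D := by
  refine ⟨?_, MW_c1, ?_, ?_⟩
  · intro G G' e h z x
    unfold c1
    have := Kf_emb h lam R x x
    simp only [Equiv.coe_toEmbedding] at this
    simp only [this, e.injective.eq_iff]
  · intro G z x h
    left
    by_contra hcon
    exact h (by rw [c1, if_neg (fun h => hcon h.symm)])
  · intro τ hD z x
    unfold c1
    split_ifs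
    · rw [← ENNReal.ofReal_one]
      exact ENNReal.ofReal_le_ofReal ((ok_tree hRp hR hD).le_one x)
    · exact zero_le

theorem Wt_c2 {D : ℕ} (hRp : 0 < R) (hR : ((D + 1 : ℕ) : ℝ) + |lam| ≤ R) :
    Wt (c2 lam R) D := by
  refine ⟨?_, MW_c2, ?_, ?_⟩
  · intro G G' e h z x
    unfold c2
    have h1 := Kf_emb h lam R x x
    have h2 := Kf_emb h lam R z z
    have h3 := Kf_emb (h.del z) lam R x x
    have h4 : e x ∈ G' (e z) ↔ x ∈ G z := by
      have := h z
      simp only [Equiv.coe_toEmbedding] at this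
      rw [this]
      exact Finset.mem_map' e.toEmbedding
    simp only [Equiv.coe_toEmbedding] at h1 h2 h3
    simp only [h1, h2, h3, h4]
  · intro G z x h
    right
    by_contra hcon
    exact h (by rw [c2, if_neg (fun h => hcon h.1)])
  · intro τ hD z x
    unfold c2
    split_ifs
    · rw [← ENNReal.ofReal_one]
      apply ENNReal.ofReal_le_ofReal
      have hok := ok_tree hRp hR hD
      have := div_nonneg (hok.nonneg x) ((hok.del z).nonneg x)
      linarith
    · exact zero_le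

theorem kern_inv {c : (L → Finset L) → L → L → ENNReal} {D : ℕ} (hc : Wt c D) (n : ℕ) :
    InvK (kern lam R c n) := by
  intro G G' e h x y
  unfold kern
  rw [← Equiv.tsum_eq e]
  congr 1
  ext v
  rw [hc.inv G G' e h]
  have := reach_emb h lam R n v y
  simp only [Equiv.coe_toEmbedding] at this
  rw [propext this]

/-- Graph distance at most `n`. -/
def near (G : L → Finset L) : ℕ → L → L → Prop
  | 0, x, y => x = y
  | n + 1, x, y => near G n x y ∨ ∃ u ∈ G x, near G n u y

theorem near_of_reach {G : L → Finset L} {n : ℕ} {x y : L} (h : reach lam R G n x y) :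
    near G n x y := by
  induction n generalizing x with
  | zero => exact h.1
  | succ n ih =>
    rcases h with h | ⟨_, u, hu, h⟩
    · exact Or.inl (ih h)
    · exact Or.inr ⟨u, hu, ih h⟩

theorem kern_near {c : (L → Finset L) → L → L → ENNReal} {D : ℕ} (hc : Wt c D) {n : ℕ}
    {G : L → Finset L} {x y : L} (h : kern lam R c n G x y ≠ 0) : near G (n + 1) x y := by
  unfold kern at h
  rw [Ne, ENNReal.tsum_eq_zero] at h
  push Not at h
  obtain ⟨v, hv⟩ := h
  have h1 : c G x v ≠ 0 := fun h => hv (by rw [h, zero_mul])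
  have h2 : reach lam R G n v y := by
    by_contra hcon
    exact hv (by rw [ind_not hcon, mul_zero])
  rcases hc.loc G x v h1 with h3 | h3
  · subst h3; exact Or.inl (near_of_reach h2)
  · exact Or.inr ⟨v, h3, near_of_reach h2⟩

theorem edge_br {τ : L → ℕ} {i : ℕ} {u w : L} (h : u ∈ treeG τ w) (hu : br i u) (hw : ¬ br i w) :
    w = [] ∧ u = [i] ∧ i < τ [] := by
  rw [mem_treeG] at h
  rcases h with ⟨a, ha, rfl⟩ | ⟨a, ha, rfl⟩
  · cases w with
    | nil =>
      simp only [br, List.nil_append, List.head?_cons, Option.some.injEq] at hu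
      subst hu
      exact ⟨rfl, rfl, ha⟩
    | cons b v => exact absurd hu hw
  · cases u with
    | nil => simp [br] at hu
    | cons b v => exact absurd hu hw

theorem near_loc {τ : L → ℕ} {i : ℕ} (hi : τ [] ≤ i) {n : ℕ} {x y : L}
    (h : near (treeG τ) n x y) : br i x ↔ br i y := by
  induction n generalizing x with
  | zero => rw [show x = y from h]
  | succ n ih =>
    rcases h with h | ⟨u, hu, h⟩
    · exact ih h
    · rw [← ih h]
      constructor
      · intro h1
        by_contra h2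
        have := (edge_br (treeG_symm hu) h1 h2).2.2
        omega
      · intro h1
        by_contra h2
        have := (edge_br hu h1 h2).2.2
        omega

/-- A finite ball. -/
def Bs (D k : ℕ) : Set L := {w | w.length ≤ k ∧ ∀ a ∈ w, a < D}

theorem Bs_finite (D k : ℕ) : (Bs D k).Finite := by
  have h : Bs D k ⊆ (fun l : List (Fin D) => l.map Fin.val) '' {l | l.length ≤ k} := by
    rintro w ⟨h1, h2⟩
    refine ⟨w.pmap (fun a h => (⟨a, h⟩ : Fin D)) h2, ?_, ?_⟩
    · simpa using h1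
    · change List.map Fin.val (w.pmap (fun a h => (⟨a, h⟩ : Fin D)) h2) = w
      rw [List.map_pmap]
      simp
  exact ((List.finite_length_le (Fin D) k).image _).subset h

theorem Bs_mono {D k l : ℕ} (h : k ≤ l) {w : L} (hw : w ∈ Bs D k) : w ∈ Bs D l :=
  ⟨hw.1.trans h, hw.2⟩

theorem Bs_edge {D k : ℕ} {τ : L → ℕ} (hD : ∀ w, τ w ≤ D) {u w : L} (h : u ∈ treeG τ w)
    (hw : w ∈ Bs D k) : u ∈ Bs D (k + 1) := by
  rw [mem_treeG] at h
  rcases h with ⟨a, ha, rfl⟩ | ⟨a, ha, rfl⟩
  · refine ⟨by simpa using hw.1, ?_⟩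
    intro b hb
    rw [List.mem_append, List.mem_singleton] at hb
    rcases hb with hb | rfl
    · exact hw.2 b hb
    · exact lt_of_lt_of_le ha (hD _)
  · refine ⟨?_, fun b hb => hw.2 b (by simp [hb])⟩
    have := hw.1
    simp at this
    omega

theorem Bs_near {D k n : ℕ} {τ : L → ℕ} (hD : ∀ w, τ w ≤ D) {x y : L}
    (h : near (treeG τ) n x y) (hx : x ∈ Bs D k) : y ∈ Bs D (k + n) := by
  induction n generalizing x k with
  | zero => rw [← show x = y from h]; exact hx
  | succ n ih =>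
    rcases h with h | ⟨u, hu, h⟩
    · exact Bs_mono (by omega) (ih h hx)
    · have := ih h (Bs_edge hD hu hx)
      exact Bs_mono (by omega) this

theorem cross {D n i : ℕ} {τ : L → ℕ} (hD : ∀ w, τ w ≤ D) {x y : L}
    (h : near (treeG τ) n x y) (hx : ¬ br i x) (hy : br i y) :
    x ∈ Bs D (n + 1) ∧ y ∈ Bs D (n + 1) := by
  induction n generalizing x with
  | zero => rw [show x = y from h] at hx; exact absurd hy hx
  | succ n ih =>
    rcases h with h | ⟨u, hu, h⟩
    · have := ih h hx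
      exact ⟨Bs_mono (by omega) this.1, Bs_mono (by omega) this.2⟩
    · by_cases hbu : br i u
      · obtain ⟨h1, h2, h3⟩ := edge_br hu hbu hx
        have hx0 : x ∈ Bs D 0 := by rw [h1]; exact ⟨by simp, by simp⟩
        have hu1 := Bs_edge hD hu hx0
        refine ⟨Bs_mono (by omega) hx0, ?_⟩
        have := Bs_near hD h hu1
        exact Bs_mono (by omega) this
      · have := ih h hbu
        refine ⟨?_, Bs_mono (by omega) this.2⟩
        exact Bs_edge hD (treeG_symm hu) this.1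

theorem tsum_ind_ne_top {S : Set L} (hS : S.Finite) : ∑' x, ind (x ∈ S) ≠ ⊤ := by
  rw [tsum_eq_sum (s := hS.toFinset)]
  · apply ENNReal.sum_ne_top.2
    intro x _
    exact ne_top_of_le_ne_top ENNReal.one_ne_top (ind_le_one _)
  · intro x hx
    apply ind_not
    intro h
    exact hx (hS.mem_toFinset.2 h)

theorem kern_le {c : (L → Finset L) → L → L → ENNReal} {D : ℕ} (hc : Wt c D) (n : ℕ)
    {τ : L → ℕ} (hD : ∀ w, τ w ≤ D) (x y : L) :
    kern lam R c n (treeG τ) x y ≤ (D + 2 : ℕ) := by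
  unfold kern
  rw [tsum_eq_sum (s := insert x (treeG τ x))]
  · calc _ ≤ ∑ v ∈ insert x (treeG τ x), (1 : ENNReal) := by
          apply Finset.sum_le_sum
          intro v _
          calc _ ≤ (1 : ENNReal) * 1 := mul_le_mul' (hc.bd τ hD x v) (ind_le_one _)
            _ = 1 := one_mul _
      _ = ((insert x (treeG τ x)).card : ENNReal) := by simp
      _ ≤ _ := by
          have h1 := Finset.card_insert_le x (treeG τ x)
          have h2 := (treeG_good hD).card x
          exact_mod_cast (by omega : (insert x (treeG τ x)).card ≤ D + 2)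
  · intro v hv
    by_cases h : c (treeG τ) x v = 0
    · rw [h, zero_mul]
    · exfalso
      apply hv
      rw [Finset.mem_insert]
      exact hc.loc _ _ _ h

noncomputable def Cn (D n : ℕ) : ENNReal :=
  (∑' x, ind (x ∈ Bs D (n + 2))) * ((∑' x, ind (x ∈ Bs D (n + 2))) * (D + 2 : ℕ))

theorem Cn_ne_top (D n : ℕ) : Cn D n ≠ ⊤ :=
  ENNReal.mul_ne_top (tsum_ind_ne_top (Bs_finite _ _))
    (ENNReal.mul_ne_top (tsum_ind_ne_top (Bs_finite _ _)) (ENNReal.natCast_ne_top _))

theorem kern_out_le {c : (L → Finset L) → L → L → ENNReal} {D : ℕ} (hc : Wt c D) (n : ℕ)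
    {τ : L → ℕ} (hD : ∀ w, τ w ≤ D) (i : ℕ) :
    outF (kern lam R c n (treeG τ)) i ≤ Cn D n := by
  unfold outF Cn
  rw [← ENNReal.tsum_mul_right]
  apply ENNReal.tsum_le_tsum
  intro x
  rw [← mul_assoc, ← ENNReal.tsum_mul_left, ← ENNReal.tsum_mul_right]
  apply ENNReal.tsum_le_tsum
  intro y
  by_cases h : kern lam R c n (treeG τ) x y = 0
  · rw [h, mul_zero]; exact zero_le
  · by_cases h2 : ¬ br i x ∧ br i y
    · have h3 := cross hD (kern_near hc h) h2.1 h2.2
      rw [ind_of h2, ind_of h3.1, ind_of h3.2, one_mul, one_mul, one_mul]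
      exact kern_le hc n hD x y
    · rw [ind_not h2, zero_mul]; exact zero_le

/-- Law assumptions. -/
structure Law (p q : Measure ℕ) (m : ENNReal) (D : ℕ) : Prop where
  pp : IsProbabilityMeasure p
  qp : IsProbabilityMeasure q
  mt : m ≠ ⊤
  hpq : ∀ k : ℕ, m * q {k} = ((k : ENNReal) + 1) * p {k + 1}
  pD : ∀ᵐ k ∂p, 2 ≤ k ∧ k ≤ D
  qD : ∀ᵐ k ∂q, 1 ≤ k ∧ k + 1 ≤ D

theorem ae_coord {r q : Measure ℕ} [IsProbabilityMeasure r] [IsProbabilityMeasure q]
    {A : Set ℕ} {B : Set ℕ} (hA : ∀ᵐ k ∂r, k ∈ A) (hB : ∀ᵐ k ∂q, k ∈ B) :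
    ∀ᵐ τ ∂(TM r q), τ [] ∈ A ∧ ∀ w, w ≠ [] → τ w ∈ B := by
  rw [eventually_and]
  constructor
  · have h := (measurePreserving_eval_infinitePi
      (μ := fun w : L => if w = [] then r else q) []).quasiMeasurePreserving.ae
        (p := fun k => k ∈ A) (by simpa using hA)
    exact h
  · rw [ae_all_iff]
    intro w
    by_cases hw : w = []
    · exact Filter.Eventually.of_forall fun τ h => absurd hw h
    · have h := (measurePreserving_eval_infinitePi
        (μ := fun w : L => if w = [] then r else q) w).quasiMeasurePreserving.ae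
          (p := fun k => k ∈ B) (by simpa [hw] using hB)
      filter_upwards [h] with τ hτ _ using hτ

theorem Law.aeT {p q : Measure ℕ} {m : ENNReal} {D : ℕ} (h : Law p q m D) :
    ∀ᵐ τ ∂(TM p q), (∀ w, τ w ≤ D) ∧ (∀ w, 1 ≤ τ w) ∧ 2 ≤ τ [] := by
  have := h.pp
  have := h.qp
  have h1 := ae_coord (r := p) (q := q) (A := {k | 2 ≤ k ∧ k ≤ D})
    (B := {k | 1 ≤ k ∧ k + 1 ≤ D}) h.pD h.qD
  filter_upwards [h1] with τ hτ
  refine ⟨?_, ?_, hτ.1.1⟩
  · intro w
    by_cases hw : w = []
    · subst hw; exact hτ.1.2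
    · have := (hτ.2 w hw).2; omega
  · intro w
    by_cases hw : w = []
    · subst hw; have := hτ.1.1; omega
    · exact (hτ.2 w hw).1

theorem Law.aeG {p q : Measure ℕ} {m : ENNReal} {D : ℕ} (h : Law p q m D) :
    ∀ᵐ τ ∂(Gm q), (∀ w, τ w ≤ D) ∧ (∀ w, 1 ≤ τ w) ∧ (∀ w, plus τ w ≤ D) := by
  have := h.qp
  have h1 := ae_coord (r := q) (q := q) (A := {k | 1 ≤ k ∧ k + 1 ≤ D})
    (B := {k | 1 ≤ k ∧ k + 1 ≤ D}) h.qD h.qD
  rw [TM_self] at h1
  filter_upwards [h1] with τ hτ
  have h2 : ∀ w, 1 ≤ τ w ∧ τ w + 1 ≤ D := by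
    intro w
    by_cases hw : w = []
    · subst hw; exact hτ.1
    · exact hτ.2 w hw
  refine ⟨fun w => by have := (h2 w).2; omega, fun w => (h2 w).1, ?_⟩
  intro w
  unfold plus
  by_cases hw : w = []
  · subst hw; rw [Function.update_self]; exact (h2 []).2
  · rw [Function.update_of_ne hw]; have := (h2 w).2; omega

theorem kern_mtp {p q : Measure ℕ} {m : ENNReal} {D : ℕ} (h : Law p q m D)
    {c : (L → Finset L) → L → L → ENNReal} (hc : Wt c D) (n : ℕ) :
    ∫⁻ τ, ∑' y, kern lam R c n (treeG τ) [] y ∂(TM p q)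
      = ∫⁻ τ, ∑' x, kern lam R c n (treeG τ) x [] ∂(TM p q) := by
  have := h.pp
  have := h.qp
  apply mtp h.mt h.hpq (kern_inv hc n) (fun x y => hc.meas.kern MG_tree n x y)
  · intro τ i hi x y hxy
    by_contra hne
    have h1 := near_loc hi (kern_near hc hne)
    tauto
  · exact Cn_ne_top D n
  · filter_upwards [h.aeG] with τ hτ
    exact kern_out_le hc n hτ.2.2 0

theorem kern1_bound {p q : Measure ℕ} {m : ENNReal} {D : ℕ} (h : Law p q m D)
    (hRp : 0 < R) (hR : ((D + 1 : ℕ) : ℝ) + |lam| ≤ R) (n : ℕ) :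
    ∫⁻ τ, ∑' y, kern lam R (c1 lam R) n (treeG τ) [] y ∂(TM p q) ≤ 1 := by
  have := h.pp
  have := h.qp
  rw [kern_mtp h (Wt_c1 hRp hR) n]
  calc _ ≤ ∫⁻ τ, 1 ∂(TM p q) := by
        apply lintegral_mono_ae
        filter_upwards [h.aeT] with τ hτ
        exact kern1_in hRp hR hτ.1 n
    _ = 1 := by simp

theorem kern2_bound {p q : Measure ℕ} {m : ENNReal} {D : ℕ} (h : Law p q m D)
    (hRp : 0 < R) (hR : ((D + 1 : ℕ) : ℝ) + |lam| ≤ R) (n : ℕ) :
    ∫⁻ τ, ∑' y, kern lam R (c2 lam R) n (treeG τ) [] y ∂(TM p q) ≤ 1 := by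
  have := h.pp
  have := h.qp
  rw [kern_mtp h (Wt_c2 hRp hR) n]
  calc _ ≤ ∫⁻ τ, 1 ∂(TM p q) := by
        apply lintegral_mono_ae
        filter_upwards [h.aeT] with τ hτ
        exact kern2_in hRp hR hτ.1 n
    _ = 1 := by simp

end Pool.Agent.U204.SA
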