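import Pool.Agent.U204.SAKern

set_option autoImplicit false
set_option linter.unusedSectionVars false
set_option linter.unusedVariables false
open Filter Topology MeasureTheory

namespace Pool.Agent.U204.SA

variable {lam R : ℝ} {Ω : Type*} [MeasurableSpace Ω]

/-- Measurable random graph. -/
def MG (G : Ω → L → Finset L) : Prop := ∀ w s, MeasurableSet {ω | G ω w = s}

theorem MG.comp {Ω' : Type*} [MeasurableSpace Ω'] {G : Ω → L → Finset L} (h : MG G) {φ : Ω' → Ω}
    (hφ : Measurable φ) : MG (fun ω => G (φ ω)) := fun w s => hφ (h w s)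

theorem MG.mem {G : Ω → L → Finset L} (h : MG G) (x y : L) : MeasurableSet {ω | y ∈ G ω x} := by
  have : {ω | y ∈ G ω x} = ⋃ s : Finset L, ⋃ _ : y ∈ s, {ω | G ω x = s} := by
    ext ω
    simp
  rw [this]
  exact MeasurableSet.iUnion fun s => MeasurableSet.iUnion fun _ => h x s

theorem MG.sum {G : Ω → L → Finset L} (h : MG G) {F : L → Ω → ℝ} (hF : ∀ u, Measurable (F u))
    (y : L) : Measurable (fun ω => ∑ u ∈ G ω y, F u ω) := by
  intro A hA
  have : (fun ω => ∑ u ∈ G ω y, F u ω) ⁻¹' A
      = ⋃ s : Finset L, ({ω | G ω y = s} ∩ (fun ω => ∑ u ∈ s, F u ω) ⁻¹' A) := by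
    ext ω
    simp
  rw [this]
  refine MeasurableSet.iUnion fun s => (h y s).inter ?_
  exact (Finset.measurable_sum s (fun u _ => hF u)) hA

theorem MG.pow {G : Ω → L → Finset L} (h : MG G) (v : L → ℝ) (k : ℕ) (y : L) :
    Measurable (fun ω => (adjL (G ω) ^ k) v y) := by
  induction k generalizing y with
  | zero => simp
  | succ k ih =>
    have : (fun ω => (adjL (G ω) ^ (k + 1)) v y) = fun ω => ∑ u ∈ G ω y, (adjL (G ω) ^ k) v u := by
      ext ω
      rw [pow_succ', Module.End.mul_apply, adjL_apply]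
    rw [this]
    exact h.sum ih y

theorem MG.polE {G : Ω → L → Finset L} (h : MG G) (p : Polynomial ℝ) (x y : L) :
    Measurable (fun ω => polE (G ω) p x y) := by
  have : (fun ω => SA.polE (G ω) p x y) = fun ω => ∑ k ∈ Finset.range (p.natDegree + 1),
      p.coeff k * (adjL (G ω) ^ k) (Pi.single x 1) y := by
    ext ω
    rw [SA.polE, Polynomial.aeval_eq_sum_range, LinearMap.sum_apply, Finset.sum_apply]
    rfl
  rw [this]
  exact Finset.measurable_sum _ (fun k _ => (h.pow _ k y).const_mul _)

theorem MG.avg {G : Ω → L → Finset L} (h : MG G) (n : ℕ) (x y : L) :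
    Measurable (fun ω => avg lam R (G ω) n x y) := h.polE _ x y

theorem MG.Kf {G : Ω → L → Finset L} (h : MG G) (x y : L) :
    Measurable (fun ω => Kf lam R (G ω) x y) :=
  Measurable.limsup (fun n => h.avg n x y)

theorem MG.del {G : Ω → L → Finset L} (h : MG G) (z : L) : MG (fun ω => delG (G ω) z) := by
  intro w s
  by_cases hw : w = z
  · have : {ω | delG (G ω) z w = s} = {ω | ∅ = s} := by
      ext ω
      simp [delG, hw]
    rw [this]
    exact MeasurableSet.const _
  · have : {ω | delG (G ω) z w = s} = ⋃ t : Finset L, ⋃ _ : t.erase z = s, {ω | G ω w = t} := by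
      ext ω
      simp [delG, hw]
    rw [this]
    exact MeasurableSet.iUnion fun t => MeasurableSet.iUnion fun _ => h w t

theorem MG.reach {G : Ω → L → Finset L} (h : MG G) (n : ℕ) (x y : L) :
    MeasurableSet {ω | reach lam R (G ω) n x y} := by
  induction n generalizing x with
  | zero =>
    have : {ω | SA.reach lam R (G ω) 0 x y} = {ω | x = y} ∩ {ω | 0 < SA.Kf lam R (G ω) x x} := by
      ext ω; simp [SA.reach]
    rw [this]
    exact (MeasurableSet.const _).inter (measurableSet_lt measurable_const (h.Kf x x))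
  | succ n ih =>
    have : {ω | SA.reach lam R (G ω) (n + 1) x y} = {ω | SA.reach lam R (G ω) n x y} ∪
        ({ω | 0 < SA.Kf lam R (G ω) x x} ∩
          ⋃ u : L, ({ω | u ∈ G ω x} ∩ {ω | SA.reach lam R (G ω) n u y})) := by
      ext ω; simp [SA.reach]
    rw [this]
    exact (ih x).union ((measurableSet_lt measurable_const (h.Kf x x)).inter
      (MeasurableSet.iUnion fun u => (h.mem x u).inter (ih u)))

theorem meas_ind {P : Ω → Prop} (h : MeasurableSet {ω | P ω}) :
    Measurable (fun ω => ind (P ω)) := by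
  classical
  unfold ind
  exact Measurable.ite h measurable_const measurable_const

/-- Measurable weights. -/
def MW (c : (L → Finset L) → L → L → ENNReal) : Prop :=
  ∀ (Ω : Type) [MeasurableSpace Ω] (G : Ω → L → Finset L), MG G →
    ∀ z x, Measurable (fun ω => c (G ω) z x)

theorem MW.kern {c : (L → Finset L) → L → L → ENNReal} (hc : MW c) {Ω : Type}
    [MeasurableSpace Ω] {G : Ω → L → Finset L} (h : MG G) (n : ℕ) (z y : L) :
    Measurable (fun ω => kern lam R c n (G ω) z y) := by
  unfold SA.kern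
  exact Measurable.ennreal_tsum fun x => (hc Ω G h z x).mul (meas_ind (h.reach n x y))

theorem MW_c1 : MW (c1 lam R) := by
  intro Ω _ G h z x
  unfold c1
  by_cases hz : z = x
  · simp only [hz, if_true]
    exact (h.Kf x x).ennreal_ofReal
  · simp only [hz, if_false]
    exact measurable_const

theorem MW_c2 : MW (c2 lam R) := by
  intro Ω _ G h z x
  unfold c2
  apply Measurable.ite
  · have : {a | x ∈ G a z ∧ Kf lam R (G a) z z = 0}
        = {a | x ∈ G a z} ∩ {a | Kf lam R (G a) z z = 0} := rfl
    rw [this]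
    exact (h.mem z x).inter (measurableSet_eq_fun (h.Kf z z) measurable_const)
  · apply Measurable.ennreal_ofReal
    exact measurable_const.sub ((h.Kf x x).div ((h.del z).Kf x x))
  · exact measurable_const

/-! ### Trees -/

theorem MG_tree : MG (fun τ : L → ℕ => treeG τ) := by
  intro w s
  have : {τ : L → ℕ | treeG τ w = s} = (fun τ : L → ℕ => (τ w, τ w.dropLast)) ⁻¹'
      {p : ℕ × ℕ | (Finset.range p.1).image (fun a => w ++ [a]) ∪
        (if w ≠ [] ∧ w.getLastD 0 < p.2 then {w.dropLast} else ∅) = s} := by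
    ext τ; rfl
  rw [this]
  apply MeasurableSet.preimage
  · exact Set.Countable.measurableSet (Set.to_countable _)
  · exact (measurable_pi_apply w).prodMk (measurable_pi_apply _)

theorem meas_sub (i : ℕ) : Measurable (fun τ : L → ℕ => sub i τ) :=
  measurable_pi_iff.2 fun w => measurable_pi_apply _

theorem meas_subs (p : L) : Measurable (fun τ : L → ℕ => subs p τ) :=
  measurable_pi_iff.2 fun w => measurable_pi_apply _

theorem meas_Pos : MeasurableSet {τ : L → ℕ | Pos lam R τ} :=
  measurableSet_lt measurable_const (MG_tree.Kf [] [])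

theorem meas_rootlt (i : ℕ) : MeasurableSet {τ : L → ℕ | i < τ []} :=
  measurableSet_lt measurable_const (measurable_pi_apply _)

theorem meas_Zp : MeasurableSet {τ : L → ℕ | Zp lam R τ} := by
  have : {τ : L → ℕ | Zp lam R τ} = ⋃ j : ℕ, ({τ : L → ℕ | j < τ []} ∩
      (fun τ => sub j τ) ⁻¹' {τ | Pos lam R τ}) := by
    ext τ; simp [Zp]
  rw [this]
  exact MeasurableSet.iUnion fun j => (meas_rootlt j).inter (meas_sub j meas_Pos)

theorem meas_An (n : ℕ) : MeasurableSet {τ : L → ℕ | An lam R n τ} := by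
  induction n with
  | zero => simp [An]
  | succ n ih =>
    have : {τ : L → ℕ | An lam R (n + 1) τ} = ⋂ j : ℕ, ({τ : L → ℕ | j < τ []}ᶜ ∪
        (fun τ => sub j τ) ⁻¹' ({τ | An lam R n τ} ∪ {τ | Zp lam R τ})) := by
      ext τ
      simp only [An, Set.mem_setOf_eq, Set.mem_iInter, Set.mem_union, Set.mem_compl_iff,
        Set.mem_preimage]
      apply forall_congr'
      intro j
      tauto
    rw [this]
    exact MeasurableSet.iInter fun j => (meas_rootlt j).compl.union
      (meas_sub j (ih.union meas_Zp))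

theorem meas_Yp : MeasurableSet {τ : L → ℕ | Yp lam R τ} := by
  have : {τ : L → ℕ | Yp lam R τ} = (⋃ n : ℕ, {τ : L → ℕ | An lam R n τ}) ∪
      {τ | Zp lam R τ} := by
    ext τ; simp [Yp]
  rw [this]
  exact (MeasurableSet.iUnion fun n => meas_An n).union meas_Zp

theorem meas_Wp (n : ℕ) : MeasurableSet {τ : L → ℕ | Wp lam R n τ} := by
  induction n with
  | zero => exact meas_Yp
  | succ n ih =>
    have : {τ : L → ℕ | Wp lam R (n + 1) τ} =
        ({τ : L → ℕ | τ [] = 1} ∩ (fun τ => sub 0 τ) ⁻¹' {τ | Wp lam R n τ}) ∪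
        ({τ : L → ℕ | 1 < τ []} ∩ ((fun τ => sub 0 τ) ⁻¹' {τ | Yp lam R τ} ∩
          (fun τ => sub 1 τ) ⁻¹' {τ | Yp lam R τ})) := by
      ext τ; rfl
    rw [this]
    refine MeasurableSet.union (MeasurableSet.inter ?_ (meas_sub 0 ih))
      (MeasurableSet.inter (meas_rootlt 1) ((meas_sub 0 meas_Yp).inter (meas_sub 1 meas_Yp)))
    exact measurableSet_eq_fun (measurable_pi_apply _) measurable_const

theorem meas_inC {f : Ω → L → ℝ} (hf : ∀ w, Measurable (fun ω => f ω w)) {τ : Ω → L → ℕ}
    (hτ : ∀ w, Measurable (fun ω => τ ω w)) (w : L) : MeasurableSet {ω | inC (τ ω) (f ω) w} := by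
  induction w generalizing f τ with
  | nil => exact (measurableSet_eq_fun (hf []) measurable_const).compl
  | cons i w ih =>
    have : {ω | inC (τ ω) (f ω) (i :: w)} = {ω | f ω [] = 0}ᶜ ∩ ({ω | i < τ ω []} ∩
        {ω | inC (sub i (τ ω)) (sub i (f ω)) w}) := by
      ext ω; rfl
    rw [this]
    refine MeasurableSet.inter (measurableSet_eq_fun (hf []) measurable_const).compl
      (MeasurableSet.inter (measurableSet_lt measurable_const (hτ [])) ?_)
    exact ih (fun w => hf _) (fun w => hτ _)

theorem meas_Inf : MeasurableSet {τ : L → ℕ | Inf lam R τ} := by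
  have : {τ : L → ℕ | Inf lam R τ} = ⋂ n : ℕ, ⋃ w : L, ⋃ _ : w.length = n,
      {τ : L → ℕ | inC τ (Kf lam R (treeG τ) []) w} := by
    ext τ
    simp only [Inf, Set.mem_setOf_eq, Set.mem_iInter, Set.mem_iUnion, exists_prop]
    apply forall_congr'
    intro n
    apply exists_congr
    intro w
    exact and_comm
  rw [this]
  exact MeasurableSet.iInter fun n => MeasurableSet.iUnion fun w => MeasurableSet.iUnion fun _ =>
    meas_inC (fun w => MG_tree.Kf [] w) (fun w => measurable_pi_apply w) w

end Pool.Agent.U204.SA
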