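import Pool.Agent.U204.SAProb

set_option autoImplicit false
set_option linter.unusedSectionVars false
set_option linter.unusedVariables false
open Filter Topology MeasureTheory

namespace Pool.Agent.U204.SA

/-- Being in the branch `i`. -/
def br (i : ℕ) (w : L) : Prop := w.head? = some i

noncomputable def outF (K : L → L → ENNReal) (i : ℕ) : ENNReal :=
  ∑' x, ∑' y, ind (¬ br i x ∧ br i y) * K x y

noncomputable def inF (K : L → L → ENNReal) (i : ℕ) : ENNReal :=
  ∑' x, ∑' y, ind (br i x ∧ ¬ br i y) * K x y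

theorem sum_ind_in (x y : L) :
    ∑' i, ind (br i x ∧ ¬ br i y) = ind (x ≠ [] ∧ x.head? ≠ y.head?) := by
  cases x with
  | nil =>
    rw [ind_not (by simp)]
    rw [ENNReal.tsum_eq_zero]
    intro i
    exact ind_not (by simp [br])
  | cons j v =>
    rw [tsum_eq_single j]
    · congr 1
      apply propext
      simp [br, eq_comm]
    · intro i hi
      apply ind_not
      intro h
      have := h.1
      simp only [br, List.head?_cons, Option.some.injEq] at this
      exact hi this.symm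

theorem conserve (K : L → L → ENNReal) :
    ∑' y, K [] y + ∑' i, inF K i = ∑' x, K x [] + ∑' i, outF K i := by
  have e1 : ∑' y, K [] y = ∑' x, ∑' y, ind (x = []) * K x y := by
    symm
    rw [tsum_eq_single []]
    · simp [ind]
    · intro x hx
      simp [ind, hx]
  have e3 : ∑' x, K x [] = ∑' x, ∑' y, ind (y = []) * K x y := by
    congr 1
    ext x
    symm
    rw [tsum_eq_single []]
    · simp [ind]
    · intro y hy
      simp [ind, hy]
  have e2 : ∑' i, inF K i = ∑' x, ∑' y, ind (x ≠ [] ∧ x.head? ≠ y.head?) * K x y := by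
    unfold inF
    rw [ENNReal.tsum_comm]
    congr 1
    ext x
    rw [ENNReal.tsum_comm]
    congr 1
    ext y
    rw [ENNReal.tsum_mul_right, sum_ind_in]
  have e4 : ∑' i, outF K i = ∑' x, ∑' y, ind (y ≠ [] ∧ y.head? ≠ x.head?) * K x y := by
    unfold outF
    rw [ENNReal.tsum_comm]
    congr 1
    ext x
    rw [ENNReal.tsum_comm]
    congr 1
    ext y
    rw [ENNReal.tsum_mul_right, ← sum_ind_in]
    congr 2
    ext i
    congr 1
    exact propext and_comm
  rw [e1, e2, e3, e4, ← ENNReal.tsum_add, ← ENNReal.tsum_add]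
  congr 1
  ext x
  rw [← ENNReal.tsum_add, ← ENNReal.tsum_add]
  congr 1
  ext y
  rw [← add_mul, ← add_mul]
  congr 1
  cases x with
  | nil =>
    cases y with
    | nil => simp
    | cons j v => simp [ind]
  | cons i u =>
    cases y with
    | nil => simp [ind]
    | cons j v => simp [ind, eq_comm]

/-! ### The two relabelings -/

theorem emb_of {τ τ' : L → ℕ} (e : L ≃ L)
    (h : ∀ u w, e u ∈ treeG τ' (e w) ↔ u ∈ treeG τ w) : Emb (treeG τ) (treeG τ') e.toEmbedding := by
  intro w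
  ext u
  rw [Finset.mem_map_equiv, ← h (e.symm u) w, Equiv.apply_symm_apply]
  rfl

/-- Swap the branches `0` and `i`. -/
def swp (i : ℕ) : L → L
  | [] => []
  | a :: w => Equiv.swap 0 i a :: w

theorem swp_swp (i : ℕ) (w : L) : swp i (swp i w) = w := by
  cases w with
  | nil => rfl
  | cons a w => simp [swp]

def swpE (i : ℕ) : L ≃ L := ⟨swp i, swp i, swp_swp i, swp_swp i⟩

theorem swp_nil (i : ℕ) (w : L) : swp i w = [] ↔ w = [] := by
  cases w <;> simp [swp]

theorem swp_br (i : ℕ) (w : L) : br 0 (swp i w) ↔ br i w := by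
  cases w with
  | nil => simp [br, swp]
  | cons a w =>
    simp only [br, swp, List.head?_cons, Option.some.injEq]
    rw [← Equiv.eq_symm_apply]
    simp

theorem swp_child {τ : L → ℕ} {i : ℕ} (h0 : 0 < τ []) (hi : i < τ []) {u w : L}
    (h : ∃ a < τ w, u = w ++ [a]) :
    ∃ a < τ w, swp i u = swp i w ++ [a] := by
  obtain ⟨a, ha, rfl⟩ := h
  cases w with
  | nil =>
    refine ⟨Equiv.swap 0 i a, ?_, rfl⟩
    rw [Equiv.swap_apply_def]
    split_ifs
    · exact hi
    · exact h0
    · exact ha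
  | cons b w => exact ⟨a, ha, rfl⟩

theorem swp_emb {τ : L → ℕ} {i : ℕ} (h0 : 0 < τ []) (hi : i < τ []) :
    Emb (treeG τ) (treeG (fun w => τ (swp i w))) (swpE i).toEmbedding := by
  have key : ∀ {τ : L → ℕ}, 0 < τ [] → i < τ [] → ∀ {u w : L}, u ∈ treeG τ w →
      swp i u ∈ treeG (fun w => τ (swp i w)) (swp i w) := by
    intro τ h0 hi u w h
    rw [mem_treeG] at h ⊢
    rcases h with h | h
    · left
      simp only [swp_swp]
      exact swp_child h0 hi h
    · right
      simp only [swp_swp]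
      exact swp_child h0 hi h
  apply emb_of
  intro u w
  constructor
  · intro h
    have h1 := key (τ := fun w => τ (swp i w)) (by exact h0) (by exact hi) h
    change swp i (swp i u) ∈ treeG (fun w => τ (swp i (swp i w))) (swp i (swp i w)) at h1
    simpa only [swp_swp] using h1
  · exact key h0 hi

/-- Re-rooting at the child `0`. -/
def flp : L → L
  | [] => [0]
  | 0 :: [] => []
  | 0 :: j :: w => (j + 1) :: w
  | (j + 1) :: w => 0 :: j :: w

theorem flp_flp (w : L) : flp (flp w) = w := by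
  match w with
  | [] => rfl
  | 0 :: [] => rfl
  | 0 :: j :: w => rfl
  | (j + 1) :: w => rfl

def flpE : L ≃ L := ⟨flp, flp, flp_flp, flp_flp⟩

theorem flp_br (w : L) : br 0 (flp w) ↔ ¬ br 0 w := by
  match w with
  | [] => simp [br, flp]
  | 0 :: [] => simp [br, flp]
  | 0 :: j :: w => simp [br, flp]
  | (j + 1) :: w => simp [br, flp]

theorem flp_child {τ : L → ℕ} {u w : L} (h : ∃ a < plus τ w, u = w ++ [a]) :
    flp u ∈ treeG (plus (fun w => τ (flp w))) (flp w) := by
  obtain ⟨a, ha, rfl⟩ := h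
  rw [mem_treeG]
  match w with
  | [] =>
    match a with
    | 0 =>
      right
      refine ⟨0, ?_, rfl⟩
      simp [plus, flp]
    | j + 1 =>
      left
      refine ⟨j, ?_, rfl⟩
      simp only [plus, Function.update_self] at ha
      simp only [plus, flp]
      rw [Function.update_of_ne (by simp)]
      simp only [flp]
      omega
  | 0 :: [] =>
    left
    refine ⟨a + 1, ?_, rfl⟩
    rw [plus, Function.update_of_ne (by simp)] at ha
    simp only [plus, flp, Function.update_self]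
    omega
  | 0 :: j :: v =>
    left
    refine ⟨a, ?_, rfl⟩
    rw [plus, Function.update_of_ne (by simp)] at ha
    simp only [plus, flp]
    rw [Function.update_of_ne (by simp)]
    exact ha
  | (j + 1) :: v =>
    left
    refine ⟨a, ?_, rfl⟩
    rw [plus, Function.update_of_ne (by simp)] at ha
    simp only [plus, flp]
    rw [Function.update_of_ne (by simp)]
    exact ha

theorem flp_emb (τ : L → ℕ) :
    Emb (treeG (plus τ)) (treeG (plus (fun w => τ (flp w)))) flpE.toEmbedding := by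
  have key : ∀ {τ : L → ℕ} {u w : L}, u ∈ treeG (plus τ) w →
      flp u ∈ treeG (plus (fun w => τ (flp w))) (flp w) := by
    intro τ u w h
    rw [mem_treeG] at h
    rcases h with h | h
    · exact flp_child h
    · exact treeG_symm (flp_child h)
  apply emb_of
  intro u w
  constructor
  · intro h
    have h1 := key h
    change flp (flp u) ∈ treeG (plus (fun w => τ (flp (flp w)))) (flp (flp w)) at h1
    simpa only [flp_flp] using h1
  · exact key

/-! ### Mass transport -/

/-- Invariant kernels. -/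
def InvK (κ : (L → Finset L) → L → L → ENNReal) : Prop :=
  ∀ (G G' : L → Finset L) (e : L ≃ L), Emb G G' e.toEmbedding → ∀ x y, κ G' (e x) (e y) = κ G x y

theorem out_swp {κ : (L → Finset L) → L → L → ENNReal} (hκ : InvK κ) {τ : L → ℕ} {i : ℕ}
    (h0 : 0 < τ []) (hi : i < τ []) :
    outF (κ (treeG (fun w => τ (swp i w)))) 0 = outF (κ (treeG τ)) i := by
  unfold outF
  rw [← Equiv.tsum_eq (swpE i)]
  congr 1
  ext x
  rw [← Equiv.tsum_eq (swpE i)]
  congr 1
  ext y
  rw [hκ _ _ (swpE i) (swp_emb h0 hi)]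
  congr 2
  change (¬ br 0 (swp i x) ∧ br 0 (swp i y)) = _
  rw [swp_br, swp_br]

theorem in_swp {κ : (L → Finset L) → L → L → ENNReal} (hκ : InvK κ) {τ : L → ℕ} {i : ℕ}
    (h0 : 0 < τ []) (hi : i < τ []) :
    inF (κ (treeG (fun w => τ (swp i w)))) 0 = inF (κ (treeG τ)) i := by
  unfold inF
  rw [← Equiv.tsum_eq (swpE i)]
  congr 1
  ext x
  rw [← Equiv.tsum_eq (swpE i)]
  congr 1
  ext y
  rw [hκ _ _ (swpE i) (swp_emb h0 hi)]
  congr 2
  change (br 0 (swp i x) ∧ ¬ br 0 (swp i y)) = _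
  rw [swp_br, swp_br]

theorem out_flp {κ : (L → Finset L) → L → L → ENNReal} (hκ : InvK κ) (τ : L → ℕ) :
    outF (κ (treeG (plus (fun w => τ (flp w))))) 0 = inF (κ (treeG (plus τ))) 0 := by
  unfold outF inF
  rw [← Equiv.tsum_eq flpE]
  congr 1
  ext x
  rw [← Equiv.tsum_eq flpE]
  congr 1
  ext y
  rw [hκ _ _ flpE (flp_emb τ)]
  congr 2
  change (¬ br 0 (flp x) ∧ br 0 (flp y)) = _
  rw [flp_br, flp_br, not_not]

theorem sum_branches {p q : Measure ℕ} [IsProbabilityMeasure p] [IsProbabilityMeasure q]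
    {m : ENNReal} (hpq : ∀ k : ℕ, m * q {k} = ((k : ENNReal) + 1) * p {k + 1})
    {Φ : (L → ℕ) → ℕ → ENNReal} (hm : ∀ i, Measurable (fun τ => Φ τ i))
    (hz : ∀ τ i, τ [] ≤ i → Φ τ i = 0)
    (hs : ∀ (τ : L → ℕ) (i : ℕ), 0 < τ [] → i < τ [] → Φ (fun w => τ (swp i w)) 0 = Φ τ i) :
    ∫⁻ τ, ∑' i, Φ τ i ∂(TM p q) = m * ∫⁻ τ, Φ (plus τ) 0 ∂(Gm q) := by
  rw [lintegral_tsum (fun i => (hm i).aemeasurable), ← size_bias hpq (hm 0)]
  have h1 : ∀ i, ∫⁻ τ, Φ τ i ∂(TM p q) = ∫⁻ τ, ind (i < τ []) * Φ τ 0 ∂(TM p q) := by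
    intro i
    have hmi : Measurable (fun τ : L → ℕ => ind (i < τ []) * Φ τ 0) :=
      (meas_ind (meas_rootlt i)).mul (hm 0)
    have hmm : Measurable (fun (τ : L → ℕ) (w : L) => τ (swp i w)) :=
      measurable_pi_iff.2 fun w => measurable_pi_apply _
    conv_rhs => rw [← map_perm p q (swpE i).injective (swp_nil i)]
    change _ = ∫⁻ τ, ind (i < τ []) * Φ τ 0 ∂((TM p q).map (fun (τ : L → ℕ) (w : L) => τ (swp i w)))
    rw [lintegral_map hmi hmm]
    congr 1
    ext τ
    change Φ τ i = ind (i < τ []) * Φ (fun w => τ (swp i w)) 0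
    by_cases hi : i < τ []
    · rw [ind_of hi, one_mul, hs τ i (by omega) hi]
    · rw [ind_not hi, zero_mul, hz τ i (by omega)]
  simp_rw [h1]
  have hm' : ∀ i : ℕ, AEMeasurable (fun τ : L → ℕ => ind (i < τ []) * Φ τ 0) (TM p q) :=
    fun i => ((meas_ind (meas_rootlt i)).mul (hm 0)).aemeasurable
  rw [← lintegral_tsum hm']
  congr 1
  ext τ
  rw [ENNReal.tsum_mul_right]
  congr 1
  rw [tsum_eq_sum (s := Finset.range (τ []))]
  · rw [Finset.sum_congr rfl (fun i hi => ind_of (Finset.mem_range.1 hi))]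
    simp
  · intro i hi
    exact ind_not (by simpa using hi)

/-- The mass transport principle. -/
theorem mtp {p q : Measure ℕ} [IsProbabilityMeasure p] [IsProbabilityMeasure q]
    {m : ENNReal} (hm : m ≠ ⊤) (hpq : ∀ k : ℕ, m * q {k} = ((k : ENNReal) + 1) * p {k + 1})
    {κ : (L → Finset L) → L → L → ENNReal} (hκ : InvK κ)
    (hmeas : ∀ x y, Measurable (fun τ : L → ℕ => κ (treeG τ) x y))
    (hloc : ∀ (τ : L → ℕ) (i : ℕ), τ [] ≤ i → ∀ x y,
      ((¬ br i x ∧ br i y) ∨ (br i x ∧ ¬ br i y)) → κ (treeG τ) x y = 0)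
    {C : ENNReal} (hC : C ≠ ⊤) (hfin : ∀ᵐ τ ∂(Gm q), outF (κ (treeG (plus τ))) 0 ≤ C) :
    ∫⁻ τ, ∑' y, κ (treeG τ) [] y ∂(TM p q) = ∫⁻ τ, ∑' x, κ (treeG τ) x [] ∂(TM p q) := by
  have hmo : ∀ i, Measurable (fun τ : L → ℕ => outF (κ (treeG τ)) i) := fun i =>
    Measurable.tsum fun x => Measurable.tsum fun y => (hmeas x y).const_mul _
  have hmi : ∀ i, Measurable (fun τ : L → ℕ => inF (κ (treeG τ)) i) := fun i =>
    Measurable.tsum fun x => Measurable.tsum fun y => (hmeas x y).const_mul _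
  have h1 : ∫⁻ τ, (∑' y, κ (treeG τ) [] y + ∑' i, inF (κ (treeG τ)) i) ∂(TM p q)
      = ∫⁻ τ, (∑' x, κ (treeG τ) x [] + ∑' i, outF (κ (treeG τ)) i) ∂(TM p q) := by
    congr 1
    ext τ
    exact conserve _
  rw [lintegral_add_left (Measurable.tsum fun y => hmeas [] y),
    lintegral_add_left (Measurable.tsum fun x => hmeas x [])] at h1
  have h2 : ∫⁻ τ, ∑' i, outF (κ (treeG τ)) i ∂(TM p q)
      = m * ∫⁻ τ, outF (κ (treeG (plus τ))) 0 ∂(Gm q) := by
    apply sum_branches hpq hmo
    · intro τ i hi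
      unfold outF
      rw [ENNReal.tsum_eq_zero]
      intro x
      rw [ENNReal.tsum_eq_zero]
      intro y
      by_cases h : ¬ br i x ∧ br i y
      · rw [hloc τ i hi x y (Or.inl h), mul_zero]
      · rw [ind_not h, zero_mul]
    · intro τ i h0 hi
      exact out_swp hκ h0 hi
  have h3 : ∫⁻ τ, ∑' i, inF (κ (treeG τ)) i ∂(TM p q)
      = m * ∫⁻ τ, inF (κ (treeG (plus τ))) 0 ∂(Gm q) := by
    apply sum_branches hpq hmi
    · intro τ i hi
      unfold inF
      rw [ENNReal.tsum_eq_zero]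
      intro x
      rw [ENNReal.tsum_eq_zero]
      intro y
      by_cases h : br i x ∧ ¬ br i y
      · rw [hloc τ i hi x y (Or.inr h), mul_zero]
      · rw [ind_not h, zero_mul]
    · intro τ i h0 hi
      exact in_swp hκ h0 hi
  have h4 : ∫⁻ τ, outF (κ (treeG (plus τ))) 0 ∂(Gm q)
      = ∫⁻ τ, inF (κ (treeG (plus τ))) 0 ∂(Gm q) := by
    have hmm : Measurable (fun (τ : L → ℕ) (w : L) => τ (flp w)) :=
      measurable_pi_iff.2 fun w => measurable_pi_apply _
    conv_lhs => rw [← map_permG q flpE.injective]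
    change ∫⁻ τ, outF (κ (treeG (plus τ))) 0
      ∂((Gm q).map (fun (τ : L → ℕ) (w : L) => τ (flp w))) = _
    have hmc : Measurable (fun τ : L → ℕ => outF (κ (treeG (plus τ))) 0) := (hmo 0).comp meas_plus
    rw [lintegral_map hmc hmm]
    congr 1
    ext τ
    exact out_flp hκ τ
  have h5 : m * ∫⁻ τ, outF (κ (treeG (plus τ))) 0 ∂(Gm q) ≠ ⊤ := by
    apply ENNReal.mul_ne_top hm
    have : ∫⁻ τ, outF (κ (treeG (plus τ))) 0 ∂(Gm q) ≤ C := by
      calc _ ≤ ∫⁻ τ, C ∂(Gm q) := lintegral_mono_ae hfin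
        _ = C := by simp
    exact ne_top_of_le_ne_top hC this
  rw [h2, h3, ← h4] at h1
  exact (ENNReal.add_left_inj h5).1 h1

end Pool.Agent.U204.SA
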