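import Pool.Agent.U204.SAMeas

set_option autoImplicit false
set_option linter.unusedSectionVars false
set_option linter.unusedVariables false
open Filter Topology MeasureTheory

namespace Pool.Agent.U204.SA

/-- Law of the degree field with root law `r` and offspring law `q`. -/
noncomputable def TM (r q : Measure ℕ) : Measure (L → ℕ) :=
  Measure.infinitePi (fun w : L => if w = [] then r else q)

/-- The planted law. -/
noncomputable def Gm (q : Measure ℕ) : Measure (L → ℕ) :=
  Measure.infinitePi (fun _ : L => q)

variable (r q : Measure ℕ) [IsProbabilityMeasure r] [IsProbabilityMeasure q]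

instance instIte (w : L) : IsProbabilityMeasure (if w = [] then r else q) := by
  split_ifs <;> infer_instance

instance : IsProbabilityMeasure (TM r q) := by
  unfold TM; infer_instance

instance : IsProbabilityMeasure (Gm q) := by
  unfold Gm; infer_instance

theorem TM_self : TM q q = Gm q := by
  unfold TM Gm
  congr 1
  ext w
  split_ifs <;> rfl

theorem map_subs {p : L} (hp : p ≠ []) : (TM r q).map (fun τ => subs p τ) = Gm q := by
  have h := Measure.map_infinitePi_infinitePi_of_inj (P := fun w : L => if w = [] then r else q)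
    (f := fun w : L => p ++ w) (fun a b h => List.append_cancel_left h)
  unfold TM Gm
  have e1 : (fun τ : L → ℕ => subs p τ) = fun (τ : L → ℕ) (i : L) => τ (p ++ i) := rfl
  rw [e1, h]
  congr 1
  ext w
  rw [if_neg]
  simp [hp]

theorem map_sub (i : ℕ) : (TM r q).map (fun τ => sub i τ) = Gm q :=
  map_subs r q (p := [i]) (by simp)

theorem map_perm {e : L → L} (he : Function.Injective e) (h0 : ∀ w, e w = [] ↔ w = []) :
    (TM r q).map (fun τ w => τ (e w)) = TM r q := by
  have h := Measure.map_infinitePi_infinitePi_of_inj (P := fun w : L => if w = [] then r else q)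
    (f := e) he
  unfold TM
  rw [h]
  congr 1
  ext w
  simp only [h0]

theorem map_permG {e : L → L} (he : Function.Injective e) :
    (Gm q).map (fun τ w => τ (e w)) = Gm q := by
  have h := Measure.map_infinitePi_infinitePi_of_inj (P := fun w : L => q) (f := e) he
  unfold Gm
  rw [h]

theorem meas_upd : Measurable (fun p : ℕ × (L → ℕ) => Function.update p.2 [] p.1) := by
  apply measurable_pi_iff.2
  intro w
  by_cases hw : w = []
  · subst hw
    simp only [Function.update_self]
    exact measurable_fst
  · simp only [Function.update_of_ne hw]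
    exact (measurable_pi_apply w).comp measurable_snd

theorem map_upd : (r.prod (Gm q)).map (fun p => Function.update p.2 [] p.1) = TM r q := by
  unfold TM
  apply Measure.eq_infinitePi
  intro s t ht
  rw [Measure.map_apply meas_upd (MeasurableSet.pi s.countable_toSet fun i _ => ht i)]
  have h1 : (fun p : ℕ × (L → ℕ) => Function.update p.2 [] p.1) ⁻¹' (Set.pi (s : Set L) t)
      = (if ([] : L) ∈ s then t [] else Set.univ) ×ˢ (Set.pi ((s.erase [] : Finset L) : Set L) t) := by
    ext ⟨k, τ⟩
    simp only [Set.mem_preimage, Set.mem_pi, Finset.mem_coe, Set.mem_prod, Finset.mem_erase]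
    constructor
    · intro h
      constructor
      · split_ifs with h0
        · simpa using h [] h0
        · trivial
      · rintro i ⟨hi, his⟩
        have := h i his
        rwa [Function.update_of_ne hi] at this
    · rintro ⟨h2, h3⟩ i hi
      by_cases h0 : i = []
      · subst h0
        rw [if_pos hi] at h2
        simpa using h2
      · rw [Function.update_of_ne h0]
        exact h3 i ⟨h0, hi⟩
  rw [h1, Measure.prod_prod, Gm, Measure.infinitePi_pi _ (fun i _ => ht i)]
  by_cases h0 : ([] : L) ∈ s
  · rw [if_pos h0, ← Finset.mul_prod_erase s _ h0, if_pos rfl]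
    congr 1
    apply Finset.prod_congr rfl
    intro i hi
    rw [if_neg (Finset.mem_erase.1 hi).1]
  · rw [if_neg h0, measure_univ, one_mul, Finset.erase_eq_of_notMem h0]
    apply Finset.prod_congr rfl
    intro i hi
    rw [if_neg]
    rintro rfl
    exact h0 hi

theorem lint_TM {F : (L → ℕ) → ENNReal} (hF : Measurable F) :
    ∫⁻ τ, F τ ∂(TM r q) = ∑' k : ℕ, r {k} * ∫⁻ τ, F (Function.update τ [] k) ∂(Gm q) := by
  rw [← map_upd, lintegral_map hF meas_upd,
    lintegral_prod (fun p : ℕ × (L → ℕ) => F (Function.update p.2 [] p.1))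
      (hF.comp meas_upd).aemeasurable, lintegral_countable']
  congr 1
  ext k
  rw [mul_comm]

theorem meas_plus : Measurable (fun τ : L → ℕ => Function.update τ [] (τ [] + 1)) := by
  apply measurable_pi_iff.2
  intro w
  by_cases hw : w = []
  · subst hw
    simp only [Function.update_self]
    exact (measurable_pi_apply _).add_const 1
  · simp only [Function.update_of_ne hw]
    exact measurable_pi_apply w

/-- Add one child to the root. -/
def plus (τ : L → ℕ) : L → ℕ := Function.update τ [] (τ [] + 1)

/-- Size biasing. -/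
theorem size_bias {p q : Measure ℕ} [IsProbabilityMeasure p] [IsProbabilityMeasure q]
    {m : ENNReal} (hpq : ∀ k : ℕ, m * q {k} = ((k : ENNReal) + 1) * p {k + 1})
    {F : (L → ℕ) → ENNReal} (hF : Measurable F) :
    ∫⁻ τ, (τ [] : ENNReal) * F τ ∂(TM p q) = m * ∫⁻ τ, F (plus τ) ∂(Gm q) := by
  have hm1 : Measurable (fun τ : L → ℕ => (τ [] : ENNReal) * F τ) :=
    ((measurable_from_top (f := fun k : ℕ => (k : ENNReal))).comp (measurable_pi_apply [])).mul hF
  have hm2 : Measurable (fun τ : L → ℕ => F (plus τ)) := hF.comp meas_plus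
  have h2 := lint_TM q q hm2
  rw [TM_self] at h2
  rw [lint_TM p q hm1, h2, ← ENNReal.tsum_mul_left]
  rw [tsum_eq_zero_add' ENNReal.summable]
  simp only [Function.update_self]
  have h0 : p {0} * ∫⁻ τ, ((0 : ℕ) : ENNReal) * F (Function.update τ [] 0) ∂(Gm q) = 0 := by simp
  rw [h0, zero_add]
  congr 1
  ext k
  have h1 : ∀ τ : L → ℕ, plus (Function.update τ [] k) = Function.update τ [] (k + 1) := by
    intro τ
    unfold plus
    rw [Function.update_self, Function.update_idem]
  simp_rw [h1]
  rw [lintegral_const_mul]
  · rw [← mul_assoc, ← mul_assoc, hpq k]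
    push_cast
    ring
  · exact hF.comp (meas_upd.comp (measurable_const.prodMk measurable_id))

theorem indep_two {A B : Set (L → ℕ)} (hA : MeasurableSet A) (hB : MeasurableSet B) :
    (TM r q) ({τ | sub 0 τ ∈ A} ∩ {τ | sub 1 τ ∈ B}) = Gm q A * Gm q B := by
  let f : Fin 2 × L → L := fun x => (x.1 : ℕ) :: x.2
  have hf : Function.Injective f := by
    rintro ⟨a, v⟩ ⟨b, w⟩ h
    simp only [f, List.cons.injEq] at h
    exact Prod.ext (Fin.ext h.1) h.2
  have h1 := Measure.map_infinitePi_infinitePi_of_inj
    (P := fun w : L => if w = [] then r else q) (f := f) hf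
  have h2 : (fun i => if f i = [] then r else q) = fun _ : Fin 2 × L => q := by
    ext i
    simp [f]
  rw [h2] at h1
  have h3 := Measure.infinitePi_map_curry (fun (_ : Fin 2) (_ : L) => q)
  have h4 : (TM r q).map (fun τ => MeasurableEquiv.curry (Fin 2) L ℕ (fun i => τ (f i)))
      = Measure.pi (fun _ : Fin 2 => Gm q) := by
    rw [← Measure.infinitePi_eq_pi]
    unfold Gm
    rw [← h3, ← h1, Measure.map_map]
    · rfl
    · exact MeasurableEquiv.measurable _
    · exact measurable_pi_iff.2 fun i => measurable_pi_apply _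
  have hmeas : Measurable (fun τ : L → ℕ => MeasurableEquiv.curry (Fin 2) L ℕ (fun i => τ (f i))) :=
    (MeasurableEquiv.measurable _).comp (measurable_pi_iff.2 fun i => measurable_pi_apply _)
  have h5 : {τ | sub 0 τ ∈ A} ∩ {τ | sub 1 τ ∈ B}
      = (fun τ : L → ℕ => MeasurableEquiv.curry (Fin 2) L ℕ (fun i => τ (f i))) ⁻¹'
        (Set.pi Set.univ (fun k : Fin 2 => if k = 0 then A else B)) := by
    ext τ
    simp only [Set.mem_inter_iff, Set.mem_preimage, Set.mem_pi, Set.mem_univ,
      forall_true_left, Fin.forall_fin_two]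
    rfl
  rw [h5, ← Measure.map_apply hmeas, h4, Measure.pi_pi]
  · simp
  · apply MeasurableSet.univ_pi
    intro k
    split_ifs
    · exact hA
    · exact hB

theorem indep_root {A : Set (L → ℕ)} (hA : MeasurableSet A) (k : ℕ) :
    (TM r q) ({τ | τ [] = k} ∩ {τ | sub 0 τ ∈ A}) = r {k} * Gm q A := by
  rw [← map_upd, Measure.map_apply meas_upd]
  · have : (fun p : ℕ × (L → ℕ) => Function.update p.2 [] p.1) ⁻¹'
        ({τ | τ [] = k} ∩ {τ | sub 0 τ ∈ A}) = {k} ×ˢ {τ | sub 0 τ ∈ A} := by
      ext ⟨j, τ⟩
      have h1 : sub 0 (Function.update τ [] j) = sub 0 τ := by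
        ext w; simp [sub]
      constructor
      · rintro ⟨h2, h3⟩
        refine ⟨?_, ?_⟩
        · simpa using h2
        · change sub 0 (Function.update τ [] j) ∈ A at h3
          rwa [h1] at h3
      · rintro ⟨h2, h3⟩
        refine ⟨?_, ?_⟩
        · simpa using h2
        · change sub 0 (Function.update τ [] j) ∈ A
          rwa [h1]
    rw [this, Measure.prod_prod]
    congr 1
    have h2 := map_sub q q 0
    rw [TM_self] at h2
    conv_rhs => rw [← h2]
    rw [Measure.map_apply (meas_sub 0) hA]
    rfl
  · exact (measurableSet_eq_fun (measurable_pi_apply _) measurable_const).inter (meas_sub 0 hA)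

end Pool.Agent.U204.SA
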