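import Pool.Agent.U204.SAKern2

set_option autoImplicit false
set_option linter.unusedSectionVars false
set_option linter.unusedVariables false
open Filter Topology MeasureTheory

namespace Pool.Agent.U204.SA

variable {lam R : ℝ}

/-- Integrals bounded by one forbid linear growth. -/
theorem blow {μ : Measure (L → ℕ)} {S : ℕ → (L → ℕ) → ENNReal} (hS : ∀ n, Measurable (S n))
    (h1 : ∀ n, ∫⁻ τ, S n τ ∂μ ≤ 1) :
    ∀ᵐ τ ∂μ, ∀ F : ENNReal, F ≠ 0 → ¬ (∀ n : ℕ, F * (n : ENNReal) ≤ S n τ) := by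
  have h2 : ∫⁻ τ, liminf (fun n => S n τ) atTop ∂μ ≤ 1 := by
    refine (lintegral_liminf_le hS).trans ?_
    refine (liminf_le_liminf (v := fun _ => (1 : ENNReal)) (Eventually.of_forall h1)).trans ?_
    simp
  have h3 : ∀ᵐ τ ∂μ, liminf (fun n => S n τ) atTop < ⊤ := by
    apply ae_lt_top (Measurable.liminf hS)
    exact ne_top_of_le_ne_top ENNReal.one_ne_top h2
  filter_upwards [h3] with τ hτ F hF hcon
  have h4 : Tendsto (fun n : ℕ => F * (n : ENNReal)) atTop (𝓝 ⊤) := by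
    have := ENNReal.Tendsto.const_mul (a := F) (f := atTop) (m := fun n : ℕ => (n : ENNReal))
      (b := ⊤) ENNReal.tendsto_nat_nhds_top (Or.inl (by simp))
    rwa [ENNReal.mul_top hF] at this
  have h5 : Tendsto (fun n => S n τ) atTop (𝓝 ⊤) :=
    tendsto_nhds_top_mono' h4 hcon
  rw [h5.liminf_eq] at hτ
  exact lt_irrefl _ hτ

section

variable {p q : Measure ℕ} {m : ENNReal} {D : ℕ}

theorem rho_sq (h : Law p q m D) (hRp : 0 < R) (hR : ((D + 1 : ℕ) : ℝ) + |lam| ≤ R)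
    {n0 : ℕ} (hF : lam ∉ Fset n0) :
    (n0 : ENNReal) * (Gm q {τ | Pos lam R τ} * Gm q {τ | Pos lam R τ}) ≤ 1 := by
  have := h.pp
  have := h.qp
  rw [← indep_two p q meas_Pos meas_Pos]
  set E := {τ : L → ℕ | sub 0 τ ∈ {τ | Pos lam R τ}} ∩ {τ : L → ℕ | sub 1 τ ∈ {τ | Pos lam R τ}}
    with hE
  have hEm : MeasurableSet E := (meas_sub 0 meas_Pos).inter (meas_sub 1 meas_Pos)
  rw [← lintegral_indicator_const hEm]
  refine le_trans (lintegral_mono_ae ?_) (kern2_bound h hRp hR n0)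
  filter_upwards [h.aeT] with τ hτ
  by_cases hτE : τ ∈ E
  · rw [Set.indicator_of_mem hτE]
    have h2 := hτ.2.2
    exact kern2_out_big hRp hR hτ.1 hF (i := 0) (j := 1) (by omega) (by omega) (by omega)
      hτE.1 hτE.2
  · rw [Set.indicator_of_notMem hτE]; exact zero_le

theorem inf_null (h : Law p q m D) (hRp : 0 < R) (hR : ((D + 1 : ℕ) : ℝ) + |lam| ≤ R) :
    Gm q ({τ | Pos lam R τ} ∩ {τ | Inf lam R τ}) = 0 := by
  have := h.pp
  have := h.qp
  have h1 : Gm q ({τ | Pos lam R τ} ∩ {τ | Inf lam R τ}) * Gm q {τ | Pos lam R τ} = 0 := by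
    rw [← indep_two p q (meas_Pos.inter meas_Inf) meas_Pos]
    have h2 := blow (μ := TM p q)
      (S := fun n τ => ∑' y, kern lam R (c2 lam R) n (treeG τ) [] y)
      (fun n => Measurable.tsum fun y => MW_c2.kern MG_tree n [] y)
      (fun n => kern2_bound h hRp hR n)
    apply measure_eq_zero_iff_ae_notMem.2
    filter_upwards [h2, h.aeT] with τ hτ hτ2 hmem
    obtain ⟨⟨hp0, hi0⟩, hp1⟩ := hmem
    have h3 := hτ2.2.2
    refine hτ (ENNReal.ofReal (shr lam R τ 0)) ?_ ?_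
    · have := shr_pos hRp hR hτ2.1 (i := 0) (by omega) hp0
      simpa using this
    · intro n
      exact kern2_out_inf hRp hR hτ2.1 (i := 0) (j := 1) (by omega) (by omega) (by omega)
        hp0 hp1 hi0 n
  rcases mul_eq_zero.1 h1 with h2 | h2
  · exact h2
  · exact measure_mono_null Set.inter_subset_left h2

theorem inf_null_root (h : Law p q m D) (hRp : 0 < R) (hR : ((D + 1 : ℕ) : ℝ) + |lam| ≤ R) :
    ∀ᵐ τ ∂(TM p q), ¬ (Pos lam R τ ∧ Inf lam R τ) := by
  have := h.pp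
  have := h.qp
  have h2 := blow (μ := TM p q)
    (S := fun n τ => ∑' y, kern lam R (c1 lam R) n (treeG τ) [] y)
    (fun n => Measurable.tsum fun y => MW_c1.kern MG_tree n [] y)
    (fun n => kern1_bound h hRp hR n)
  filter_upwards [h2, h.aeT] with τ hτ hτ2 hmem
  refine hτ (ENNReal.ofReal (Kf lam R (treeG τ) [] [])) ?_ ?_
  · exact ne_of_gt (ENNReal.ofReal_pos.2 hmem.1)
  · intro n
    exact kern1_out_inf hRp hR hτ2.1 hmem.2 n

theorem G_sub (h : Law p q m D) {A : Set (L → ℕ)} (hA : MeasurableSet A) (i : ℕ) :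
    Gm q {τ | sub i τ ∈ A} = Gm q A := by
  have := h.qp
  have h2 := map_sub q q i
  rw [TM_self] at h2
  conv_rhs => rw [← h2]
  rw [Measure.map_apply (meas_sub i) hA]
  rfl

theorem zeta_le (h : Law p q m D) :
    Gm q {τ | Zp lam R τ} ≤ D * Gm q {τ | Pos lam R τ} := by
  have := h.qp
  calc Gm q {τ | Zp lam R τ} ≤ Gm q (⋃ j ∈ Finset.range D, {τ | sub j τ ∈ {τ | Pos lam R τ}}) := by
        apply measure_mono_ae
        filter_upwards [h.aeG] with τ hτ hz
        obtain ⟨j, hj, hp⟩ := hz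
        change τ ∈ ⋃ j ∈ Finset.range D, {τ | sub j τ ∈ {τ | Pos lam R τ}}
        rw [Set.mem_iUnion₂]
        exact ⟨j, Finset.mem_range.2 (lt_of_lt_of_le hj (hτ.1 [])), hp⟩
    _ ≤ ∑ j ∈ Finset.range D, Gm q {τ | sub j τ ∈ {τ | Pos lam R τ}} :=
        measure_biUnion_finset_le _ _
    _ = ∑ j ∈ Finset.range D, Gm q {τ | Pos lam R τ} := by
        apply Finset.sum_congr rfl
        intro j _
        exact G_sub h meas_Pos j
    _ = _ := by simp

/-- One step bound. -/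
theorem step_le (h : Law p q m D) {A : Set (L → ℕ)} (hA : MeasurableSet A) {E : Set (L → ℕ)}
    (hE : ∀ τ : L → ℕ, 1 ≤ τ [] → τ ∈ E → (τ [] = 1 ∧ sub 0 τ ∈ A) ∨
      (2 ≤ τ [] ∧ sub 0 τ ∈ A ∧ sub 1 τ ∈ A)) :
    Gm q E ≤ q {1} * Gm q A + Gm q A * Gm q A := by
  have := h.qp
  have h1 := indep_root q q hA 1
  have h2 := indep_two q q hA hA
  rw [TM_self] at h1 h2
  rw [← h1, ← h2]
  refine le_trans (measure_mono_ae ?_) (measure_union_le _ _)
  filter_upwards [h.aeG] with τ hτ hτE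
  rcases hE τ (hτ.2.1 []) hτE with h3 | h3
  · exact Or.inl ⟨h3.1, h3.2⟩
  · exact Or.inr ⟨h3.2.1, h3.2.2⟩

theorem An_step (h : Law p q m D) (n : ℕ) :
    Gm q {τ | An lam R (n + 1) τ} ≤
      q {1} * (Gm q {τ | An lam R n τ} + Gm q {τ | Zp lam R τ})
      + (Gm q {τ | An lam R n τ} + Gm q {τ | Zp lam R τ}) *
        (Gm q {τ | An lam R n τ} + Gm q {τ | Zp lam R τ}) := by
  have := h.qp
  have h1 := step_le h (A := {τ | An lam R n τ} ∪ {τ | Zp lam R τ})
    ((meas_An n).union meas_Zp) (E := {τ | An lam R (n + 1) τ}) (by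
      intro τ h1 hE
      rcases Nat.lt_or_ge (τ []) 2 with h2 | h2
      · left; exact ⟨by omega, hE 0 (by omega)⟩
      · right; exact ⟨h2, hE 0 (by omega), hE 1 (by omega)⟩)
  have h2 : Gm q ({τ | An lam R n τ} ∪ {τ | Zp lam R τ}) ≤
    Gm q {τ | An lam R n τ} + Gm q {τ | Zp lam R τ} := measure_union_le _ _
  refine h1.trans ?_
  gcongr

theorem An_mono {n : ℕ} : ∀ {τ : L → ℕ}, An lam R n τ → An lam R (n + 1) τ := by
  induction n with
  | zero => intro τ h; exact absurd h (by simp [An])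
  | succ n ih =>
    intro τ h i hi
    rcases h i hi with h1 | h1
    · exact Or.inl (ih h1)
    · exact Or.inr h1

theorem Yp_le (h : Law p q m D) {b : ENNReal} (hb : ∀ n, Gm q {τ | An lam R n τ} ≤ b) :
    Gm q {τ | Yp lam R τ} ≤ b + Gm q {τ | Zp lam R τ} := by
  have := h.qp
  have : {τ : L → ℕ | Yp lam R τ} = (⋃ n : ℕ, {τ : L → ℕ | An lam R n τ}) ∪
      {τ | Zp lam R τ} := by
    ext τ; simp [Yp]
  rw [this]
  refine (measure_union_le _ _).trans ?_
  gcongr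
  have hmono : Monotone (fun n : ℕ => {τ : L → ℕ | An lam R n τ}) :=
    monotone_nat_of_le_succ fun n τ hτ => An_mono hτ
  rw [hmono.measure_iUnion]
  exact iSup_le hb

theorem Wp_step (h : Law p q m D) (n : ℕ) :
    Gm q {τ | Wp lam R (n + 1) τ} ≤
      q {1} * Gm q {τ | Wp lam R n τ} + Gm q {τ | Yp lam R τ} * Gm q {τ | Yp lam R τ} := by
  have := h.qp
  have h1 := indep_root q q (meas_Wp (lam := lam) (R := R) n) 1
  have h2 := indep_two q q (meas_Yp (lam := lam) (R := R)) (meas_Yp (lam := lam) (R := R))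
  rw [TM_self] at h1 h2
  rw [← h1, ← h2]
  refine le_trans (measure_mono ?_) (measure_union_le _ _)
  rintro τ (h3 | h3)
  · exact Or.inl ⟨h3.1, h3.2⟩
  · exact Or.inr ⟨h3.2.1, h3.2.2⟩

theorem rho_le_Wp (h : Law p q m D) (hRp : 0 < R) (hR : ((D + 1 : ℕ) : ℝ) + |lam| ≤ R)
    {n0 : ℕ} (hF : lam ∉ Fset n0) :
    Gm q {τ | Pos lam R τ} ≤ Gm q {τ | Wp lam R n0 τ} := by
  have := h.qp
  have h1 := inf_null h hRp hR
  have h2 := measure_eq_zero_iff_ae_notMem.1 h1
  apply measure_mono_ae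
  filter_upwards [h.aeG, h2] with τ hτ hτ2 hp
  exact planted_Wp hRp hR hF hτ.1 hτ.2.1 hp (fun hi => hτ2 ⟨hp, hi⟩)

end

/-! ### Real recursion -/

theorem rec_bound {a : ℕ → ℝ} {p1 z K : ℝ} (hp0 : 0 ≤ p1) (hp1 : p1 < 1) (hz : 0 ≤ z)
    (hK : K = 2 / (1 - p1)) (hsmall : (K + 1) ^ 2 * z ≤ 1) (ha0 : a 0 = 0)
    (hnn : ∀ n, 0 ≤ a n)
    (hstep : ∀ n, a (n + 1) ≤ p1 * (a n + z) + (a n + z) * (a n + z)) (n : ℕ) : a n ≤ K * z := by
  have hK0 : 0 < K := by rw [hK]; apply div_pos (by norm_num); linarith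
  have hKe : K * (1 - p1) = 2 := by
    rw [hK]; field_simp [show (1 - p1) ≠ 0 by linarith]
  induction n with
  | zero => rw [ha0]; positivity
  | succ n ih =>
    refine (hstep n).trans ?_
    have h1 : a n + z ≤ (K + 1) * z := by linarith
    have h2 : 0 ≤ a n + z := add_nonneg (hnn n) hz
    have h3 : (a n + z) * (a n + z) ≤ ((K + 1) * z) * ((K + 1) * z) :=
      mul_le_mul h1 h1 h2 (by positivity)
    have h4 : p1 * (a n + z) ≤ p1 * ((K + 1) * z) := mul_le_mul_of_nonneg_left h1 hp0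
    have h5 : ((K + 1) * z) * ((K + 1) * z) ≤ z := by
      have : ((K + 1) * z) * ((K + 1) * z) = ((K + 1) ^ 2 * z) * z := by ring
      rw [this]
      calc _ ≤ 1 * z := mul_le_mul_of_nonneg_right hsmall hz
        _ = z := one_mul z
    have h6 : p1 * ((K + 1) * z) + z ≤ K * z := by
      have : p1 * (K + 1) + 1 ≤ K := by nlinarith
      nlinarith
    linarith

theorem rec_bound2 {w : ℕ → ℝ} {p1 y : ℝ} (hp0 : 0 ≤ p1) (hp1 : p1 < 1) (hy : 0 ≤ y)
    (hw0 : w 0 ≤ y) (hstep : ∀ n, w (n + 1) ≤ p1 * w n + y * y) (n : ℕ) :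
    w n ≤ p1 ^ n * y + y * y / (1 - p1) := by
  have h1p : 0 < 1 - p1 := by linarith
  induction n with
  | zero =>
    have : 0 ≤ y * y / (1 - p1) := by positivity
    simp; linarith
  | succ n ih =>
    refine (hstep n).trans ?_
    have h1 : p1 * w n ≤ p1 * (p1 ^ n * y + y * y / (1 - p1)) := mul_le_mul_of_nonneg_left ih hp0
    have h2 : p1 * (y * y / (1 - p1)) + y * y = y * y / (1 - p1) := by
      field_simp; ring
    calc p1 * w n + y * y ≤ p1 * (p1 ^ n * y + y * y / (1 - p1)) + y * y := by linarith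
      _ = p1 ^ (n + 1) * y + (p1 * (y * y / (1 - p1)) + y * y) := by ring
      _ = _ := by rw [h2]

/-- The threshold. -/
theorem exists_threshold {p1 : ℝ} (hp0 : 0 ≤ p1) (hp1 : p1 < 1) (D : ℝ) (hD : 0 ≤ D) :
    ∃ n0 : ℕ, 0 < n0 ∧ (2 / (1 - p1) + 1) ^ 2 * (D / √(n0 : ℝ)) ≤ 1 ∧
      p1 ^ n0 * ((2 / (1 - p1) + 1) * D) +
        ((2 / (1 - p1) + 1) * D) ^ 2 / (1 - p1) / √(n0 : ℝ) < 1 := by
  have hs : Tendsto (fun n : ℕ => √(n : ℝ)) atTop atTop :=
    Real.tendsto_sqrt_atTop.comp tendsto_natCast_atTop_atTop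
  have h1 : Tendsto (fun n : ℕ => (2 / (1 - p1) + 1) ^ 2 * (D / √(n : ℝ))) atTop (𝓝 0) := by
    have := (hs.const_div_atTop D).const_mul ((2 / (1 - p1) + 1) ^ 2)
    simpa using this
  have h2 : Tendsto (fun n0 : ℕ => p1 ^ n0 * ((2 / (1 - p1) + 1) * D) +
        ((2 / (1 - p1) + 1) * D) ^ 2 / (1 - p1) / √(n0 : ℝ)) atTop (𝓝 0) := by
    have k1 := (tendsto_pow_atTop_nhds_zero_of_lt_one hp0 hp1).mul_const
      ((2 / (1 - p1) + 1) * D)
    have k2 := hs.const_div_atTop (((2 / (1 - p1) + 1) * D) ^ 2 / (1 - p1))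
    have := k1.add k2
    simpa using this
  have e1 := h1.eventually_le_const (show (0 : ℝ) < 1 by norm_num)
  have e2 := h2.eventually_lt_const (show (0 : ℝ) < 1 by norm_num)
  obtain ⟨n, hn1, hn2, hn3⟩ := (e1.and (e2.and (eventually_gt_atTop 0))).exists
  exact ⟨n, hn3, hn1, hn2⟩

section

variable {p q : Measure ℕ} {m : ENNReal} {D : ℕ}

/-- The planted root is almost surely not in the support, `q {1} < 1`. -/
theorem rho_zero (h : Law p q m D) (hRp : 0 < R) (hR : ((D + 1 : ℕ) : ℝ) + |lam| ≤ R)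
    {p1 : ℝ} (hp1e : p1 = (q {1}).toReal) (hp1 : p1 < 1)
    {n0 : ℕ} (hn0 : 0 < n0) (hF : lam ∉ Fset n0)
    (ht1 : (2 / (1 - p1) + 1) ^ 2 * (D / √(n0 : ℝ)) ≤ 1)
    (ht2 : p1 ^ n0 * ((2 / (1 - p1) + 1) * D) +
        ((2 / (1 - p1) + 1) * D) ^ 2 / (1 - p1) / √(n0 : ℝ) < 1) :
    Gm q {τ | Pos lam R τ} = 0 := by
  have := h.pp
  have := h.qp
  have hp0 : 0 ≤ p1 := by rw [hp1e]; exact ENNReal.toReal_nonneg
  set ρ := (Gm q).real {τ | Pos lam R τ} with hρ
  set z := (Gm q).real {τ | Zp lam R τ} with hz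
  set a : ℕ → ℝ := fun n => (Gm q).real {τ | An lam R n τ} with ha
  set y := (Gm q).real {τ | Yp lam R τ} with hy
  set w : ℕ → ℝ := fun n => (Gm q).real {τ | Wp lam R n τ} with hw
  have hρ0 : 0 ≤ ρ := measureReal_nonneg
  have hz0 : 0 ≤ z := measureReal_nonneg
  have hy0 : 0 ≤ y := measureReal_nonneg
  -- convert
  have f1 : z ≤ D * ρ := by
    have := ENNReal.toReal_mono (by
      apply ENNReal.mul_ne_top (ENNReal.natCast_ne_top _) (measure_ne_top _ _)) (zeta_le (lam := lam) (R := R) h)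
    rw [ENNReal.toReal_mul, ENNReal.toReal_natCast] at this
    exact this
  have f2 : (n0 : ℝ) * (ρ * ρ) ≤ 1 := by
    have := ENNReal.toReal_mono ENNReal.one_ne_top (rho_sq h hRp hR hF)
    rw [ENNReal.toReal_mul, ENNReal.toReal_mul, ENNReal.toReal_natCast, ENNReal.toReal_one] at this
    exact this
  have f3 : ∀ n, a (n + 1) ≤ p1 * (a n + z) + (a n + z) * (a n + z) := by
    intro n
    have hA := An_step (lam := lam) (R := R) h n
    have n1 : Gm q {τ | An lam R n τ} + Gm q {τ | Zp lam R τ} ≠ ⊤ :=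
      ENNReal.add_ne_top.2 ⟨measure_ne_top _ _, measure_ne_top _ _⟩
    have n2 : q {1} * (Gm q {τ | An lam R n τ} + Gm q {τ | Zp lam R τ}) ≠ ⊤ :=
      ENNReal.mul_ne_top (measure_ne_top _ _) n1
    have n3 := ENNReal.mul_ne_top n1 n1
    have := ENNReal.toReal_mono (ENNReal.add_ne_top.2 ⟨n2, n3⟩) hA
    rw [ENNReal.toReal_add n2 n3, ENNReal.toReal_mul, ENNReal.toReal_mul,
      ENNReal.toReal_add (measure_ne_top _ _) (measure_ne_top _ _), ← hp1e] at this
    exact this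
  have f4 : a 0 = 0 := by simp [ha, An]
  have f6 : ∀ n, w (n + 1) ≤ p1 * w n + y * y := by
    intro n
    have hA := Wp_step (lam := lam) (R := R) h n
    have n2 : q {1} * Gm q {τ | Wp lam R n τ} ≠ ⊤ :=
      ENNReal.mul_ne_top (measure_ne_top _ _) (measure_ne_top _ _)
    have n3 : Gm q {τ | Yp lam R τ} * Gm q {τ | Yp lam R τ} ≠ ⊤ :=
      ENNReal.mul_ne_top (measure_ne_top _ _) (measure_ne_top _ _)
    have := ENNReal.toReal_mono (ENNReal.add_ne_top.2 ⟨n2, n3⟩) hA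
    rw [ENNReal.toReal_add n2 n3, ENNReal.toReal_mul, ENNReal.toReal_mul, ← hp1e] at this
    exact this
  have f7 : ρ ≤ w n0 := ENNReal.toReal_mono (measure_ne_top _ _) (rho_le_Wp h hRp hR hF)
  -- smallness
  have hs0 : 0 < √(n0 : ℝ) := Real.sqrt_pos.2 (by exact_mod_cast hn0)
  have hρs : ρ ≤ 1 / √(n0 : ℝ) := by
    rw [le_div_iff₀ hs0]
    have h1 : (ρ * √(n0 : ℝ)) ^ 2 ≤ 1 ^ 2 := by
      rw [mul_pow, Real.sq_sqrt (Nat.cast_nonneg _)]
      nlinarith
    exact le_of_sq_le_sq h1 (by norm_num)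
  set K := 2 / (1 - p1) with hK
  have h1p : 0 < 1 - p1 := by linarith
  have hK0 : 0 < K := by positivity
  have hzs : (K + 1) ^ 2 * z ≤ 1 := by
    refine le_trans ?_ ht1
    apply mul_le_mul_of_nonneg_left _ (by positivity)
    calc z ≤ D * ρ := f1
      _ ≤ D * (1 / √(n0 : ℝ)) := mul_le_mul_of_nonneg_left hρs (Nat.cast_nonneg _)
      _ = D / √(n0 : ℝ) := by ring
  have f8 : ∀ n, a n ≤ K * z :=
    rec_bound hp0 hp1 hz0 hK hzs f4 (fun n => measureReal_nonneg) f3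
  have f9 : y ≤ K * z + z := by
    have hb : ∀ n, Gm q {τ | An lam R n τ} ≤ ENNReal.ofReal (K * z) := by
      intro n
      rw [← ENNReal.ofReal_toReal (measure_ne_top (Gm q) {τ | An lam R n τ})]
      exact ENNReal.ofReal_le_ofReal (f8 n)
    have hA := Yp_le (lam := lam) (R := R) h hb
    have := ENNReal.toReal_mono
      (ENNReal.add_ne_top.2 ⟨ENNReal.ofReal_ne_top, measure_ne_top _ _⟩) hA
    rw [ENNReal.toReal_add ENNReal.ofReal_ne_top (measure_ne_top _ _),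
      ENNReal.toReal_ofReal (by positivity)] at this
    exact this
  have f10 : w n0 ≤ p1 ^ n0 * y + y * y / (1 - p1) :=
    rec_bound2 hp0 hp1 hy0 (le_refl _) f6 n0
  have hyρ : y ≤ ((K + 1) * D) * ρ := by
    calc y ≤ (K + 1) * z := by linarith
      _ ≤ (K + 1) * (D * ρ) := mul_le_mul_of_nonneg_left f1 (by positivity)
      _ = _ := by ring
  set c := (K + 1) * D with hc
  have hc0 : 0 ≤ c := by positivity
  have hfin : ρ ≤ (p1 ^ n0 * c + c ^ 2 / (1 - p1) / √(n0 : ℝ)) * ρ := by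
    have g1 : p1 ^ n0 * y ≤ p1 ^ n0 * (c * ρ) := mul_le_mul_of_nonneg_left hyρ (by positivity)
    have g2 : y * y ≤ (c * ρ) * (c * ρ) := mul_le_mul hyρ hyρ hy0 (by positivity)
    have g3 : y * y / (1 - p1) ≤ (c * ρ) * (c * ρ) / (1 - p1) :=
      div_le_div_of_nonneg_right g2 h1p.le
    have g4 : (c * ρ) * (c * ρ) / (1 - p1) ≤ c ^ 2 / (1 - p1) / √(n0 : ℝ) * ρ := by
      have e : (c * ρ) * (c * ρ) / (1 - p1) = c ^ 2 / (1 - p1) * ρ * ρ := by ring
      rw [e]
      calc c ^ 2 / (1 - p1) * ρ * ρ ≤ c ^ 2 / (1 - p1) * (1 / √(n0 : ℝ)) * ρ := by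
            gcongr
        _ = _ := by ring
    calc ρ ≤ p1 ^ n0 * y + y * y / (1 - p1) := f7.trans f10
      _ ≤ p1 ^ n0 * (c * ρ) + c ^ 2 / (1 - p1) / √(n0 : ℝ) * ρ := by linarith
      _ = _ := by ring
  have hρz : ρ = 0 := by
    by_contra hne
    have hpos : 0 < ρ := lt_of_le_of_ne hρ0 (Ne.symm hne)
    have : (p1 ^ n0 * c + c ^ 2 / (1 - p1) / √(n0 : ℝ)) * ρ < 1 * ρ :=
      mul_lt_mul_of_pos_right ht2 hpos
    linarith
  rw [hρ, measureReal_def, ENNReal.toReal_eq_zero_iff] at hρz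
  rcases hρz with h1 | h1
  · exact h1
  · exact absurd h1 (measure_ne_top _ _)

/-- The ray. -/
theorem rho_zero_ray (h : Law p q m D) (hRp : 0 < R) (hR : ((D + 1 : ℕ) : ℝ) + |lam| ≤ R)
    (h1 : q {1} = 1) : Gm q {τ | Pos lam R τ} = 0 := by
  have := h.pp
  have := h.qp
  have hq : ∀ᵐ k ∂q, k ∈ ({1} : Set ℕ) := by
    rw [← prob_compl_eq_zero_iff (MeasurableSet.singleton 1)] at h1
    exact measure_eq_zero_iff_ae_notMem.1 h1 |>.mono fun k hk => by simpa using hk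
  have h2 := ae_coord (r := q) (q := q) hq hq
  rw [TM_self] at h2
  apply measure_eq_zero_iff_ae_notMem.2
  filter_upwards [h2, h.aeG] with τ hτ hτ2 hp
  have h3 : ∀ w, τ w = 1 := by
    intro w
    by_cases hw : w = []
    · subst hw; exact hτ.1
    · exact hτ.2 w hw
  have h4 : sub 0 τ = τ := by
    ext w; simp [sub, h3]
  have hok := ok_tree hRp hR hτ2.1
  have h5 : Kf lam R (treeG τ) [] [] = 0 :=
    root_zero hok.good (i := 0) (by rw [h3]; norm_num) (by rw [h4]; exact hok)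
      (by rw [h4]; exact hp) (hok.isEig [])
  exact absurd h5 (ne_of_gt hp)

theorem no_An {τ : L → ℕ} (h1 : ∀ w, 1 ≤ τ w) (h2 : ∀ w, w ≠ [] → ¬ Pos lam R (subs w τ)) (n : ℕ) :
    ∀ w, ¬ An lam R n (subs w τ) := by
  induction n with
  | zero => intro w h; exact h
  | succ n ih =>
    intro w h
    have h3 : 0 < subs w τ [] := by simp only [subs, List.append_nil]; exact h1 w
    rcases h 0 h3 with h4 | h4
    · rw [sub_subs] at h4
      exact ih _ h4
    · obtain ⟨j, hj, hp⟩ := h4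
      rw [sub_subs, sub_subs] at hp
      exact h2 _ (by simp) hp

/-- The root is almost surely not in the support. -/
theorem root_null (h : Law p q m D) (hRp : 0 < R) (hR : ((D + 1 : ℕ) : ℝ) + |lam| ≤ R)
    (h0 : Gm q {τ | Pos lam R τ} = 0) : ∀ᵐ τ ∂(TM p q), Kf lam R (treeG τ) [] [] = 0 := by
  have := h.pp
  have := h.qp
  have h1 : ∀ᵐ τ ∂(TM p q), ∀ w : L, w ≠ [] → ¬ Pos lam R (subs w τ) := by
    rw [ae_all_iff]
    intro w
    by_cases hw : w = []
    · exact Filter.Eventually.of_forall fun τ h => absurd hw h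
    · have h2 : ∀ᵐ τ ∂((TM p q).map (fun τ => subs w τ)), ¬ Pos lam R τ := by
        rw [map_subs p q hw]
        exact measure_eq_zero_iff_ae_notMem.1 h0
      have h3 := ae_of_ae_map (meas_subs w).aemeasurable h2
      filter_upwards [h3] with τ hτ _ using hτ
  filter_upwards [h1, h.aeT, inf_null_root h hRp hR] with τ hτ hτ2 hτ3
  have hok := ok_tree hRp hR hτ2.1
  by_contra hne
  have hpos : Pos lam R τ := lt_of_le_of_ne (hok.nonneg []) (Ne.symm hne)
  have hni : ¬ Inf lam R τ := fun hi => hτ3 ⟨hpos, hi⟩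
  obtain ⟨n, hn⟩ := not_Inf hni
  have hA : An lam R n τ := An_of hRp hR n hτ2.1 (hok.isEig []).1 (fun i w => (hok.isEig []).2 _)
    hne hn
  exact no_An (lam := lam) (R := R) hτ2.2.1 hτ n [] hA

end

end Pool.Agent.U204.SA
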