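import Mathlib

set_option autoImplicit false
set_option linter.unusedSectionVars false
set_option linter.unusedVariables false
open Filter Topology

namespace Pool.Agent.U204.SA

variable {V : Type*} [DecidableEq V]

/-- Adjacency operator on all functions. -/
def adjL (G : V → Finset V) : (V → ℝ) →ₗ[ℝ] (V → ℝ) where
  toFun f w := ∑ u ∈ G w, f u
  map_add' f g := by ext w; simp [Finset.sum_add_distrib]
  map_smul' c f := by ext w; simp [Finset.mul_sum]

omit [DecidableEq V] in
theorem adjL_apply (G : V → Finset V) (f : V → ℝ) (w : V) : adjL G f w = ∑ u ∈ G w, f u := rfl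

/-- A locally finite symmetric graph with degrees at most `Δ`. -/
structure GoodG (G : V → Finset V) (Δ : ℕ) : Prop where
  symm : ∀ u w, u ∈ G w → w ∈ G u
  card : ∀ w, (G w).card ≤ Δ

/-- Square summable eigenfunctions. -/
def IsEig (G : V → Finset V) (lam : ℝ) (f : V → ℝ) : Prop :=
  (Summable fun w => f w ^ 2) ∧ ∀ w, adjL G f w = lam * f w

theorem sum_adj_le {G : V → Finset V} {Δ : ℕ} (hG : GoodG G Δ) {F : V → ℝ} (h0 : ∀ w, 0 ≤ F w)
    (hF : Summable F) (s : Finset V) :
    ∑ w ∈ s, ∑ u ∈ G w, F u ≤ Δ * ∑' u, F u := by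
  have h1 : ∑ w ∈ s, ∑ u ∈ G w, F u
      = ∑ u ∈ s.biUnion G, ∑ w ∈ s.filter (fun w => u ∈ G w), F u := by
    apply Finset.sum_comm'
    intro x y
    simp only [Finset.mem_biUnion, Finset.mem_filter]
    constructor
    · rintro ⟨hx, hy⟩; exact ⟨⟨hx, hy⟩, x, hx, hy⟩
    · rintro ⟨⟨hx, hy⟩, _⟩; exact ⟨hx, hy⟩
  rw [h1]
  have h2 : ∀ u ∈ s.biUnion G, ∑ w ∈ s.filter (fun w => u ∈ G w), F u ≤ Δ * F u := by
    intro u _
    rw [Finset.sum_const, nsmul_eq_mul]
    apply mul_le_mul_of_nonneg_right _ (h0 u)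
    have : (s.filter (fun w => u ∈ G w)) ⊆ G u := by
      intro w hw
      exact hG.symm _ _ (Finset.mem_filter.1 hw).2
    exact_mod_cast (Finset.card_le_card this).trans (hG.card u)
  calc _ ≤ ∑ u ∈ s.biUnion G, Δ * F u := Finset.sum_le_sum h2
    _ = Δ * ∑ u ∈ s.biUnion G, F u := by rw [Finset.mul_sum]
    _ ≤ _ := mul_le_mul_of_nonneg_left (hF.sum_le_tsum _ (fun i _ => h0 i)) (Nat.cast_nonneg _)

theorem summable_adj {G : V → Finset V} {Δ : ℕ} (hG : GoodG G Δ) {F : V → ℝ} (h0 : ∀ w, 0 ≤ F w)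
    (hF : Summable F) : Summable (fun w => ∑ u ∈ G w, F u) :=
  summable_of_sum_le (fun w => Finset.sum_nonneg fun u _ => h0 u) (sum_adj_le hG h0 hF)

theorem summable_pair {G : V → Finset V} {Δ : ℕ} (hG : GoodG G Δ) {F : V → ℝ} (h0 : ∀ w, 0 ≤ F w)
    (hF : Summable F) : Summable (fun p : V × V => if p.2 ∈ G p.1 then F p.2 else 0) := by
  rw [summable_prod_of_nonneg]
  · constructor
    · intro w
      apply summable_of_ne_finset_zero (s := G w)
      intro b hb
      simp [hb]
    · have : (fun x => ∑' (y : V), if y ∈ G x then F y else 0) = fun w => ∑ u ∈ G w, F u := by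
        ext w
        rw [tsum_eq_sum (s := G w)]
        · apply Finset.sum_congr rfl
          intro u hu; simp [hu]
        · intro b hb; simp [hb]
      rw [this]
      exact summable_adj hG h0 hF
  · intro p
    simp only [Pi.zero_apply]
    split_ifs
    · exact h0 _
    · exact le_rfl

theorem summable_pair' {G : V → Finset V} {Δ : ℕ} (hG : GoodG G Δ) {F : V → ℝ} (h0 : ∀ w, 0 ≤ F w)
    (hF : Summable F) : Summable (fun p : V × V => if p.2 ∈ G p.1 then F p.1 else 0) := by
  have h := (summable_pair hG h0 hF).comp_injective (Equiv.prodComm V V).injective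
  refine h.congr ?_
  rintro ⟨a, b⟩
  simp only [Function.comp, Equiv.prodComm_apply, Prod.swap_prod_mk]
  by_cases hab : b ∈ G a
  · simp [hab, hG.symm _ _ hab]
  · have : ¬ a ∈ G b := fun h => hab (hG.symm _ _ h)
    simp [hab, this]

/-- Self-adjointness. -/
theorem adj_symm {G : V → Finset V} {Δ : ℕ} (hG : GoodG G Δ) {f g : V → ℝ}
    (hf : Summable fun w => f w ^ 2) (hg : Summable fun w => g w ^ 2) :
    ∑' w, adjL G f w * g w = ∑' w, f w * adjL G g w := by
  have hs : Summable (fun p : V × V => if p.2 ∈ G p.1 then f p.2 * g p.1 else 0) := by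
    have k1 := summable_pair hG (F := fun w => f w ^ 2) (fun w => sq_nonneg (f w)) hf
    have k2 := summable_pair' hG (F := fun w => g w ^ 2) (fun w => sq_nonneg (g w)) hg
    refine Summable.of_norm_bounded (k1.add k2) ?_
    rintro ⟨a, b⟩
    by_cases hab : b ∈ G a
    · simp only [hab, if_true, Real.norm_eq_abs]
      rw [abs_le]
      constructor <;> nlinarith [sq_nonneg (f b + g a), sq_nonneg (f b - g a)]
    · simp [hab]
  have e1 : ∑' w, adjL G f w * g w = ∑' w, ∑' u, (if u ∈ G w then f u * g w else 0) := by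
    congr 1
    ext w
    rw [adjL_apply, Finset.sum_mul, tsum_eq_sum (s := G w)]
    · apply Finset.sum_congr rfl
      intro u hu; simp [hu]
    · intro b hb; simp [hb]
  have e2 : ∑' w, f w * adjL G g w = ∑' u, ∑' w, (if u ∈ G w then f u * g w else 0) := by
    congr 1
    ext w
    rw [adjL_apply, Finset.mul_sum, tsum_eq_sum (s := G w)]
    · apply Finset.sum_congr rfl
      intro u hu; simp [hG.symm _ _ hu]
    · intro b hb
      have : ¬ w ∈ G b := fun h => hb (hG.symm _ _ h)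
      simp [this]
  rw [e1, e2]
  exact (Summable.tsum_comm (f := fun w u => if u ∈ G w then f u * g w else 0) hs).symm

theorem adj_sq_le {G : V → Finset V} {Δ : ℕ} (hG : GoodG G Δ) (f : V → ℝ) (w : V) :
    adjL G f w ^ 2 ≤ Δ * ∑ u ∈ G w, f u ^ 2 := by
  rw [adjL_apply]
  have := sq_sum_le_card_mul_sum_sq (s := G w) (f := f)
  refine this.trans ?_
  apply mul_le_mul_of_nonneg_right
  · exact_mod_cast hG.card w
  · exact Finset.sum_nonneg fun u _ => sq_nonneg _

theorem adj_sq_summable {G : V → Finset V} {Δ : ℕ} (hG : GoodG G Δ) {f : V → ℝ}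
    (hf : Summable fun w => f w ^ 2) : Summable (fun w => adjL G f w ^ 2) := by
  refine Summable.of_nonneg_of_le (fun w => sq_nonneg _) (adj_sq_le hG f) ?_
  exact (summable_adj hG (fun w => sq_nonneg (f w)) hf).mul_left _

theorem adj_sq_tsum {G : V → Finset V} {Δ : ℕ} (hG : GoodG G Δ) {f : V → ℝ}
    (hf : Summable fun w => f w ^ 2) :
    ∑' w, adjL G f w ^ 2 ≤ (Δ : ℝ) ^ 2 * ∑' w, f w ^ 2 := by
  apply (adj_sq_summable hG hf).tsum_le_of_sum_le
  intro s
  calc _ ≤ ∑ w ∈ s, Δ * ∑ u ∈ G w, f u ^ 2 := Finset.sum_le_sum fun w _ => adj_sq_le hG f w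
    _ = Δ * ∑ w ∈ s, ∑ u ∈ G w, f u ^ 2 := by rw [Finset.mul_sum]
    _ ≤ Δ * (Δ * ∑' u, f u ^ 2) :=
        mul_le_mul_of_nonneg_left (sum_adj_le hG (fun w => sq_nonneg (f w)) hf s)
          (Nat.cast_nonneg _)
    _ = _ := by ring

/-! ### The Hilbert space -/

abbrev H (V : Type*) := lp (fun _ : V => ℝ) 2

omit [DecidableEq V] in
theorem memlp_iff (f : V → ℝ) : Memℓp (E := fun _ : V => ℝ) f 2 ↔ Summable fun w => f w ^ 2 := by
  rw [memℓp_gen_iff (by norm_num)]
  simp

omit [DecidableEq V] in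
theorem H_summable (f : H V) : Summable fun w => (f : V → ℝ) w ^ 2 :=
  (memlp_iff _).1 (lp.memℓp f)

omit [DecidableEq V] in
theorem H_norm_sq (f : H V) : ‖f‖ ^ 2 = ∑' w, (f : V → ℝ) w ^ 2 := by
  have := lp.norm_rpow_eq_tsum (p := 2) (by norm_num) f
  simpa using this

omit [DecidableEq V] in
theorem H_inner (f g : H V) : inner ℝ f g = ∑' w, (f : V → ℝ) w * (g : V → ℝ) w := by
  rw [lp.inner_eq_tsum]
  congr 1
  ext w
  simp [mul_comm]

/-- Adjacency operator on ℓ². -/
noncomputable def AH {G : V → Finset V} {Δ : ℕ} (hG : GoodG G Δ) : H V →L[ℝ] H V :=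
  LinearMap.mkContinuous
    { toFun := fun f => ⟨adjL G (f : V → ℝ), (memlp_iff _).2 (adj_sq_summable hG (H_summable f))⟩
      map_add' := by
        intro f g
        apply lp.ext
        change adjL G (⇑(f + g)) = adjL G ⇑f + adjL G ⇑g
        rw [lp.coeFn_add, map_add]
      map_smul' := by
        intro c f
        apply lp.ext
        change adjL G (⇑(c • f)) = c • adjL G ⇑f
        rw [lp.coeFn_smul, map_smul] }
    Δ (by
      intro f
      apply le_of_sq_le_sq _ (by positivity)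
      rw [mul_pow, H_norm_sq, H_norm_sq]
      exact adj_sq_tsum hG (H_summable f))

theorem AH_coe {G : V → Finset V} {Δ : ℕ} (hG : GoodG G Δ) (f : H V) :
    ((AH hG f : H V) : V → ℝ) = adjL G (f : V → ℝ) := rfl

theorem AH_norm {G : V → Finset V} {Δ : ℕ} (hG : GoodG G Δ) (f : H V) : ‖AH hG f‖ ≤ Δ * ‖f‖ :=
  (AH hG).le_of_opNorm_le (LinearMap.mkContinuous_norm_le _ (Nat.cast_nonneg _) _) f

theorem AH_symm {G : V → Finset V} {Δ : ℕ} (hG : GoodG G Δ) (f g : H V) :
    inner ℝ (AH hG f) g = inner ℝ f (AH hG g) := by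
  rw [H_inner, H_inner, AH_coe, AH_coe]
  exact adj_symm hG (H_summable f) (H_summable g)

/-- `(A - λ)/R`. -/
noncomputable def HH {G : V → Finset V} {Δ : ℕ} (hG : GoodG G Δ) (lam R : ℝ) : H V →L[ℝ] H V :=
  R⁻¹ • (AH hG - lam • 1)

theorem HH_norm {G : V → Finset V} {Δ : ℕ} (hG : GoodG G Δ) {lam R : ℝ} (hR : 0 < R)
    (h : Δ + |lam| ≤ R) (f : H V) : ‖HH hG lam R f‖ ≤ ‖f‖ := by
  have h1 : HH hG lam R f = R⁻¹ • (AH hG f - lam • f) := by
    simp [HH]
  rw [h1, norm_smul, Real.norm_eq_abs, abs_of_pos (inv_pos.2 hR)]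
  have h2 : ‖AH hG f - lam • f‖ ≤ R * ‖f‖ := by
    calc _ ≤ ‖AH hG f‖ + ‖lam • f‖ := norm_sub_le _ _
      _ ≤ Δ * ‖f‖ + |lam| * ‖f‖ := by
          rw [norm_smul, Real.norm_eq_abs]
          exact add_le_add (AH_norm hG f) le_rfl
      _ = (Δ + |lam|) * ‖f‖ := by ring
      _ ≤ _ := mul_le_mul_of_nonneg_right h (norm_nonneg _)
  calc _ ≤ R⁻¹ * (R * ‖f‖) := mul_le_mul_of_nonneg_left h2 (inv_nonneg.2 hR.le)
    _ = ‖f‖ := by field_simp

theorem HH_symm {G : V → Finset V} {Δ : ℕ} (hG : GoodG G Δ) (lam R : ℝ) (f g : H V) :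
    inner ℝ (HH hG lam R f) g = inner ℝ f (HH hG lam R g) := by
  simp only [HH, smul_apply, sub_apply,
    one_apply_eq_self, inner_smul_left, inner_smul_right, inner_sub_left,
    inner_sub_right, AH_symm, RCLike.conj_to_real]

/-- The contraction `1 - ((A-λ)/R)²`. -/
noncomputable def BB {G : V → Finset V} {Δ : ℕ} (hG : GoodG G Δ) (lam R : ℝ) : H V →L[ℝ] H V :=
  1 - HH hG lam R * HH hG lam R

theorem BB_norm {G : V → Finset V} {Δ : ℕ} (hG : GoodG G Δ) {lam R : ℝ} (hR : 0 < R)
    (h : Δ + |lam| ≤ R) : ‖BB hG lam R‖ ≤ 1 := by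
  apply ContinuousLinearMap.opNorm_le_bound _ zero_le_one
  intro f
  rw [one_mul]
  apply le_of_sq_le_sq _ (norm_nonneg _)
  set T := HH hG lam R
  have h1 : BB hG lam R f = f - T (T f) := by simp [BB, T]
  rw [h1, norm_sub_sq_real]
  have h2 : inner ℝ f (T (T f)) = ‖T f‖ ^ 2 := by
    rw [← HH_symm, real_inner_self_eq_norm_sq]
  rw [h2]
  have h3 : ‖T (T f)‖ ≤ ‖T f‖ := HH_norm hG hR h _
  have h4 : ‖T (T f)‖ ^ 2 ≤ ‖T f‖ ^ 2 := by gcongr
  nlinarith [sq_nonneg ‖T f‖]

theorem BB_fix {G : V → Finset V} {Δ : ℕ} (hG : GoodG G Δ) {lam R : ℝ} (hR : 0 < R)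
    (f : H V) : BB hG lam R f = f ↔ ∀ w, adjL G (f : V → ℝ) w = lam * (f : V → ℝ) w := by
  set T := HH hG lam R with hT
  have h1 : BB hG lam R f = f - T (T f) := by simp [BB, T]
  have h2 : T f = 0 ↔ ∀ w, adjL G (f : V → ℝ) w = lam * (f : V → ℝ) w := by
    have h3 : T f = R⁻¹ • (AH hG f - lam • f) := by simp [T, HH]
    rw [h3, smul_eq_zero_iff_right (inv_ne_zero hR.ne'), sub_eq_zero]
    constructor
    · intro h w
      have := congrArg (fun g : H V => (g : V → ℝ) w) h
      simp only [AH_coe, lp.coeFn_smul, Pi.smul_apply, smul_eq_mul] at this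
      exact this
    · intro h
      apply lp.ext
      ext w
      rw [AH_coe, lp.coeFn_smul]
      exact h w
  rw [h1, ← h2]
  constructor
  · intro h
    have h4 : T (T f) = 0 := by
      have := sub_eq_self.1 h
      exact this
    have h5 : ‖T f‖ ^ 2 = 0 := by
      rw [← real_inner_self_eq_norm_sq, HH_symm, h4, inner_zero_right]
    exact norm_eq_zero.1 (by simpa using h5)
  · intro h
    rw [h, map_zero, sub_zero]

/-- The averaging polynomials. -/
noncomputable def bpoly (lam R : ℝ) : Polynomial ℝ :=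
  1 - (Polynomial.C R⁻¹ * (Polynomial.X - Polynomial.C lam)) ^ 2

noncomputable def qpoly (lam R : ℝ) (n : ℕ) : Polynomial ℝ :=
  Polynomial.C (n : ℝ)⁻¹ * ∑ k ∈ Finset.range n, bpoly lam R ^ k

/-- Polynomial in the adjacency operator, matrix entries. -/
noncomputable def polE (G : V → Finset V) (p : Polynomial ℝ) (x y : V) : ℝ :=
  (Polynomial.aeval (adjL G) p) (Pi.single x 1) y

/-- The averages. -/
noncomputable def avg (lam R : ℝ) (G : V → Finset V) (n : ℕ) (x y : V) : ℝ :=
  polE G (qpoly lam R n) x y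

/-- The spectral projection kernel. -/
noncomputable def Kf (lam R : ℝ) (G : V → Finset V) (x y : V) : ℝ :=
  limsup (fun n => avg lam R G n x y) atTop

theorem aeval_coe {G : V → Finset V} {Δ : ℕ} (hG : GoodG G Δ) (p : Polynomial ℝ) (f : H V) :
    ((Polynomial.aeval (AH hG) p f : H V) : V → ℝ)
      = Polynomial.aeval (adjL G) p (f : V → ℝ) := by
  induction p using Polynomial.induction_on' generalizing f with
  | add p q hp hq =>
    simp only [map_add, add_apply, LinearMap.add_apply, lp.coeFn_add, hp, hq]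
  | monomial n a =>
    simp only [Polynomial.aeval_monomial]
    have h1 : ∀ (n : ℕ) (f : H V), (((AH hG ^ n) f : H V) : V → ℝ) = (adjL G ^ n) (f : V → ℝ) := by
      intro n
      induction n with
      | zero => intro f; rfl
      | succ n ih =>
        intro f
        rw [pow_succ, pow_succ]
        change (((AH hG ^ n) (AH hG f) : H V) : V → ℝ) = (adjL G ^ n) (adjL G (f : V → ℝ))
        rw [ih, AH_coe]
    rw [Algebra.algebraMap_eq_smul_one, Algebra.algebraMap_eq_smul_one]
    simp only [smul_mul_assoc, one_mul, smul_apply, LinearMap.smul_apply,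
      lp.coeFn_smul, h1]

theorem aeval_bpoly {G : V → Finset V} {Δ : ℕ} (hG : GoodG G Δ) (lam R : ℝ) :
    Polynomial.aeval (AH hG) (bpoly lam R) = BB hG lam R := by
  have h : Polynomial.aeval (AH hG) (Polynomial.C R⁻¹ * (Polynomial.X - Polynomial.C lam))
      = HH hG lam R := by
    simp only [map_mul, map_sub, Polynomial.aeval_X, Polynomial.aeval_C,
      Algebra.algebraMap_eq_smul_one, smul_mul_assoc, one_mul, HH]
  rw [bpoly, map_sub, map_one, map_pow, h, BB, pow_two]

theorem birk_eq {G : V → Finset V} {Δ : ℕ} (hG : GoodG G Δ) (lam R : ℝ) (n : ℕ) (f : H V) :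
    birkhoffAverage ℝ (BB hG lam R) _root_.id n f
      = Polynomial.aeval (AH hG) (qpoly lam R n) f := by
  rw [qpoly, map_mul, map_sum, Polynomial.aeval_C, Algebra.algebraMap_eq_smul_one,
    smul_mul_assoc, one_mul, smul_apply, sum_apply,
    birkhoffAverage, birkhoffSum]
  congr 1
  apply Finset.sum_congr rfl
  intro k _
  rw [map_pow, aeval_bpoly, id]
  have : ∀ (k : ℕ), (⇑(BB hG lam R))^[k] f = (BB hG lam R ^ k) f := by
    intro k
    induction k with
    | zero => rfl
    | succ k ih => rw [Function.iterate_succ_apply', ih, pow_succ']; rfl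
  exact this k

theorem avg_eq {G : V → Finset V} {Δ : ℕ} (hG : GoodG G Δ) (lam R : ℝ) (n : ℕ) (x y : V) :
    avg lam R G n x y
      = ((birkhoffAverage ℝ (BB hG lam R) _root_.id n (lp.single 2 x (1 : ℝ) : H V) : H V) :
          V → ℝ) y := by
  rw [birk_eq, aeval_coe, avg, polE, lp.coeFn_single]

/-- The projection vector. -/
noncomputable def projV {G : V → Finset V} {Δ : ℕ} (hG : GoodG G Δ) (lam R : ℝ) (x : V) : H V :=
  (((BB hG lam R).eqLocus (1 : H V →L[ℝ] H V)).orthogonalProjectionOnto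
    (lp.single 2 x (1 : ℝ) : H V) : H V)

theorem tendsto_birk {G : V → Finset V} {Δ : ℕ} (hG : GoodG G Δ) {lam R : ℝ} (hR : 0 < R)
    (h : Δ + |lam| ≤ R) (x : V) :
    Tendsto (fun n => birkhoffAverage ℝ (BB hG lam R) _root_.id n (lp.single 2 x (1 : ℝ) : H V))
      atTop (𝓝 (projV hG lam R x)) :=
  (BB hG lam R).tendsto_birkhoffAverage_orthogonalProjection (BB_norm hG hR h) _

theorem tendsto_avg0 {G : V → Finset V} {Δ : ℕ} (hG : GoodG G Δ) {lam R : ℝ} (hR : 0 < R)
    (h : Δ + |lam| ≤ R) (x y : V) :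
    Tendsto (fun n => avg lam R G n x y) atTop (𝓝 ((projV hG lam R x : V → ℝ) y)) := by
  have h1 := tendsto_birk hG hR h x
  have h2 : Continuous (fun f : H V => (f : V → ℝ) y) :=
    (lp.lipschitzWith_one_eval (E := fun _ : V => ℝ) 2 y).continuous
  have h3 := (h2.tendsto _).comp h1
  refine h3.congr ?_
  intro n
  simp only [Function.comp]
  rw [avg_eq hG]

theorem Kf_eq {G : V → Finset V} {Δ : ℕ} (hG : GoodG G Δ) {lam R : ℝ} (hR : 0 < R)
    (h : Δ + |lam| ≤ R) (x : V) : Kf lam R G x = (projV hG lam R x : V → ℝ) := by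
  ext y
  exact (tendsto_avg0 hG hR h x y).limsup_eq

theorem tendsto_avg {G : V → Finset V} {Δ : ℕ} (hG : GoodG G Δ) {lam R : ℝ} (hR : 0 < R)
    (h : Δ + |lam| ≤ R) (x y : V) :
    Tendsto (fun n => avg lam R G n x y) atTop (𝓝 (Kf lam R G x y)) := by
  rw [Kf_eq hG hR h]
  exact tendsto_avg0 hG hR h x y

theorem abs_avg_le {G : V → Finset V} {Δ : ℕ} (hG : GoodG G Δ) {lam R : ℝ} (hR : 0 < R)
    (h : Δ + |lam| ≤ R) (n : ℕ) (x y : V) : |avg lam R G n x y| ≤ 1 := by
  rw [avg_eq hG]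
  set v : H V := lp.single 2 x (1 : ℝ) with hv
  have hvn : ‖v‖ = 1 := by
    rw [hv, lp.norm_single (by norm_num)]
    simp
  have h1 : ‖birkhoffAverage ℝ (BB hG lam R) _root_.id n v‖ ≤ 1 := by
    rw [birkhoffAverage, birkhoffSum, norm_smul]
    have h2 : ‖∑ k ∈ Finset.range n, _root_.id ((BB hG lam R)^[k] v)‖ ≤ n := by
      calc _ ≤ ∑ k ∈ Finset.range n, ‖_root_.id ((BB hG lam R)^[k] v)‖ := norm_sum_le _ _
        _ ≤ ∑ k ∈ Finset.range n, (1 : ℝ) := by
            apply Finset.sum_le_sum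
            intro k hk
            clear hk
            induction k with
            | zero => simp [hvn]
            | succ k ih =>
              rw [Function.iterate_succ_apply']
              refine le_trans ?_ ih
              have := (BB hG lam R).le_of_opNorm_le (BB_norm hG hR h) ((BB hG lam R)^[k] v)
              simpa using this
        _ = n := by simp
    rw [norm_inv, Real.norm_natCast]
    rcases Nat.eq_zero_or_pos n with hn | hn
    · subst hn; simp
    · have hn' : (0 : ℝ) < n := by exact_mod_cast hn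
      calc _ ≤ (n : ℝ)⁻¹ * n := mul_le_mul_of_nonneg_left h2 (by positivity)
        _ = 1 := by field_simp
  refine le_trans ?_ h1
  exact lp.norm_apply_le_norm (E := fun _ : V => ℝ) (p := 2) (by norm_num) _ y

theorem Kf_isEig {G : V → Finset V} {Δ : ℕ} (hG : GoodG G Δ) {lam R : ℝ} (hR : 0 < R)
    (h : Δ + |lam| ≤ R) (x : V) : IsEig G lam (Kf lam R G x) := by
  rw [Kf_eq hG hR h]
  refine ⟨H_summable _, ?_⟩
  rw [← BB_fix hG hR (R := R)]
  have := (((BB hG lam R).eqLocus (1 : H V →L[ℝ] H V)).orthogonalProjectionOnto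
    (lp.single 2 x (1 : ℝ) : H V)).2
  exact this

theorem Kf_repro {G : V → Finset V} {Δ : ℕ} (hG : GoodG G Δ) {lam R : ℝ} (hR : 0 < R)
    (h : Δ + |lam| ≤ R) (x : V) {f : V → ℝ} (hf : IsEig G lam f) :
    ∑' y, Kf lam R G x y * f y = f x := by
  rw [Kf_eq hG hR h]
  set F : H V := ⟨f, (memlp_iff _).2 hf.1⟩ with hF
  have hFc : (F : V → ℝ) = f := rfl
  have hmem : F ∈ (BB hG lam R).eqLocus (1 : H V →L[ℝ] H V) := by
    change BB hG lam R F = F
    rw [BB_fix hG hR]
    exact hf.2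
  have h1 : inner ℝ (projV hG lam R x) F = inner ℝ (lp.single 2 x (1 : ℝ) : H V) F := by
    have := Submodule.inner_orthogonalProjectionOnto_eq_of_mem_right
      (K := (BB hG lam R).eqLocus (1 : H V →L[ℝ] H V)) ⟨F, hmem⟩ (lp.single 2 x (1 : ℝ) : H V)
    exact this
  rw [← hFc, ← H_inner, h1, lp.inner_single_left]
  simp

end Pool.Agent.U204.SA
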