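import Pool.Agent.U204.SABasic

set_option autoImplicit false
set_option linter.unusedSectionVars false
set_option linter.unusedVariables false
open Filter Topology

namespace Pool.Agent.U204.SA

abbrev L := List ℕ

/-- The forest on all lists of naturals coded by `τ`. -/
def treeG (τ : L → ℕ) (w : L) : Finset L :=
  (Finset.range (τ w)).image (fun a => w ++ [a]) ∪
    (if w ≠ [] ∧ w.getLastD 0 < τ w.dropLast then {w.dropLast} else ∅)

/-- Restriction to the branch `i`. -/
def sub {α : Type*} (i : ℕ) (f : L → α) : L → α := fun w => f (i :: w)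

theorem mem_treeG {τ : L → ℕ} {u w : L} :
    u ∈ treeG τ w ↔ (∃ a < τ w, u = w ++ [a]) ∨ (∃ a < τ u, w = u ++ [a]) := by
  unfold treeG
  rw [Finset.mem_union, Finset.mem_image]
  apply or_congr
  · constructor
    · rintro ⟨a, ha, rfl⟩; exact ⟨a, Finset.mem_range.1 ha, rfl⟩
    · rintro ⟨a, ha, rfl⟩; exact ⟨a, Finset.mem_range.2 ha, rfl⟩
  · constructor
    · intro h
      split_ifs at h with h1
      · rw [Finset.mem_singleton] at h
        subst h
        refine ⟨w.getLastD 0, h1.2, ?_⟩
        rcases List.eq_nil_or_concat w with h2 | ⟨v, a, h2⟩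
        · exact absurd h2 h1.1
        · subst h2; simp
      · simp at h
    · rintro ⟨a, ha, rfl⟩
      simp [ha]

theorem treeG_symm {τ : L → ℕ} {u w : L} (h : u ∈ treeG τ w) : w ∈ treeG τ u := by
  rw [mem_treeG] at *
  exact h.symm

theorem treeG_good {τ : L → ℕ} {D : ℕ} (h : ∀ w, τ w ≤ D) : GoodG (treeG τ) (D + 1) := by
  constructor
  · intro u w hu; exact treeG_symm hu
  · intro w
    unfold treeG
    refine (Finset.card_union_le _ _).trans ?_
    apply add_le_add
    · refine Finset.card_image_le.trans ?_
      rw [Finset.card_range]; exact h w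
    · split_ifs <;> simp

theorem adj_gen (τ : L → ℕ) (f : L → ℝ) (w : L) :
    adjL (treeG τ) f w = ∑ a ∈ Finset.range (τ w), f (w ++ [a])
      + (if w ≠ [] ∧ w.getLastD 0 < τ w.dropLast then f w.dropLast else 0) := by
  rw [adjL_apply, treeG, Finset.sum_union]
  · congr 1
    · rw [Finset.sum_image]
      intro a _ b _ hab
      simpa using hab
    · split_ifs <;> simp
  · rw [Finset.disjoint_left]
    intro u hu hu2
    rw [Finset.mem_image] at hu
    obtain ⟨a, _, rfl⟩ := hu
    split_ifs at hu2 with h1
    · rw [Finset.mem_singleton] at hu2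
      have := congrArg List.length hu2
      simp at this
      omega
    · simp at hu2

theorem adj_nil (τ : L → ℕ) (f : L → ℝ) :
    adjL (treeG τ) f [] = ∑ a ∈ Finset.range (τ []), f [a] := by
  rw [adj_gen]; simp

theorem adj_cons (τ : L → ℕ) (f : L → ℝ) (i : ℕ) (w : L) :
    adjL (treeG τ) f (i :: w) = adjL (treeG (sub i τ)) (sub i f) w
      + if w = [] ∧ i < τ [] then f [] else 0 := by
  rw [adj_gen, adj_gen]
  rcases List.eq_nil_or_concat' w with h | ⟨v, a, h⟩
  · subst h
    simp [sub]
  · subst h
    have h1 : (i :: (v ++ [a])).dropLast = i :: v := by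
      rw [← List.cons_append, List.dropLast_concat]
    have h2 : (i :: (v ++ [a])).getLastD 0 = a := by
      rw [← List.cons_append, List.getLastD_concat]
    rw [h1, h2]
    simp [sub]

/-- Being in the component of the root inside `{f ≠ 0}`. -/
def inC : (L → ℕ) → (L → ℝ) → L → Prop
  | _, f, [] => f [] ≠ 0
  | τ, f, i :: w => f [] ≠ 0 ∧ i < τ [] ∧ inC (sub i τ) (sub i f) w

theorem inC_snoc (τ : L → ℕ) (f : L → ℝ) (w : L) (a : ℕ) :
    inC τ f (w ++ [a]) ↔ inC τ f w ∧ a < τ w ∧ f (w ++ [a]) ≠ 0 := by
  induction w generalizing τ f with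
  | nil => simp [inC, sub]
  | cons i w ih =>
    simp only [List.cons_append, inC, ih, sub]
    tauto

theorem inC_ne {τ : L → ℕ} {f : L → ℝ} {w : L} (h : inC τ f w) : f w ≠ 0 := by
  rcases List.eq_nil_or_concat' w with h1 | ⟨v, a, h1⟩
  · subst h1; exact h
  · subst h1; exact ((inC_snoc τ f v a).1 h).2.2

theorem inC_nil {τ : L → ℕ} {f : L → ℝ} {w : L} (h : inC τ f w) : inC τ f [] := by
  cases w with
  | nil => exact h
  | cons i w => exact h.1

theorem inC_prefix {τ : L → ℕ} {f : L → ℝ} {p w : L} (hp : p <+: w) (h : inC τ f w) :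
    inC τ f p := by
  obtain ⟨s, rfl⟩ := hp
  induction s using List.reverseRecOn with
  | nil => simpa using h
  | append_singleton s a ih =>
    rw [← List.append_assoc, inC_snoc] at h
    exact ih h.1

theorem inC_finite (n : ℕ) (τ : L → ℕ) (f : L → ℝ) : {w | inC τ f w ∧ w.length ≤ n}.Finite := by
  induction n generalizing τ f with
  | zero =>
    apply (Set.finite_singleton ([] : L)).subset
    rintro w ⟨_, hw⟩
    simpa using hw
  | succ n ih =>
    have : {w | inC τ f w ∧ w.length ≤ n + 1} ⊆ {([] : L)} ∪
        ⋃ i ∈ Finset.range (τ []), (fun w => i :: w) '' {w | inC (sub i τ) (sub i f) w ∧ w.length ≤ n} := by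
      rintro w ⟨h1, h2⟩
      cases w with
      | nil => left; rfl
      | cons i w =>
        right
        rw [Set.mem_iUnion₂]
        exact ⟨i, Finset.mem_range.2 h1.2.1, w, ⟨h1.2.2, by simpa using h2⟩, rfl⟩
    apply Set.Finite.subset _ this
    apply (Set.finite_singleton _).union
    apply Set.Finite.biUnion (Finset.finite_toSet _)
    intro i _
    exact (ih _ _).image _

/-- Either there are many elements of small length or all lengths are small. -/
theorem inC_dich (n : ℕ) (τ : L → ℕ) (f : L → ℝ) :
    (n + 1 ≤ {w | inC τ f w ∧ w.length ≤ n}.ncard) ∨ ∀ w, inC τ f w → w.length < n := by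
  by_cases h : ∀ w, inC τ f w → w.length < n
  · right; exact h
  · left
    push Not at h
    obtain ⟨w, hw, hn⟩ := h
    have hsub : (fun k => w.take k) '' (Finset.range (n + 1) : Set ℕ)
        ⊆ {w | inC τ f w ∧ w.length ≤ n} := by
      rintro _ ⟨k, hk, rfl⟩
      have hk' := Finset.mem_range.1 (Finset.mem_coe.1 hk)
      refine ⟨inC_prefix (List.take_prefix k w) hw, ?_⟩
      simp
      left; omega
    have h1 := Set.ncard_le_ncard hsub (inC_finite n τ f)
    rw [Set.InjOn.ncard_image, Set.ncard_coe_finset, Finset.card_range] at h1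
    · exact h1
    · intro a ha b hb hab
      have ha' := Finset.mem_range.1 (Finset.mem_coe.1 ha)
      have hb' := Finset.mem_range.1 (Finset.mem_coe.1 hb)
      have := congrArg List.length hab
      simp at this
      omega

/-! ### Finite blocks give algebraic eigenvalues of bounded degree -/

/-- Eigenvalues of 0-1 matrices of size less than `n`. -/
def Fset (n : ℕ) : Set ℝ :=
  {x | ∃ m < n, ∃ M : Fin m → Fin m → Bool,
    (Matrix.charpoly (Matrix.of fun i j => if M i j then (1 : ℝ) else 0)).IsRoot x}

theorem Fset_finite (n : ℕ) : (Fset n).Finite := by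
  have : Fset n ⊆ ⋃ m ∈ Finset.range n, ⋃ M : Fin m → Fin m → Bool,
      {x | (Matrix.charpoly (Matrix.of fun i j => if M i j then (1 : ℝ) else 0)).IsRoot x} := by
    rintro x ⟨m, hm, M, h⟩
    simp only [Set.mem_iUnion]
    exact ⟨m, Finset.mem_range.2 hm, M, h⟩
  apply Set.Finite.subset _ this
  apply Set.Finite.biUnion (Finset.finite_toSet _)
  intro m _
  apply Set.finite_iUnion
  intro M
  exact Polynomial.finite_setOfPred_isRoot (Matrix.charpoly_monic _).ne_zero

theorem Fset_mem {lam : ℝ} {τ : L → ℕ} {f : L → ℝ} (h0 : f [] ≠ 0)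
    (hf : ∀ w, inC τ f w → adjL (treeG τ) f w = lam * f w)
    (hfin : {w | inC τ f w}.Finite) {n : ℕ} (hn : {w | inC τ f w}.ncard < n) : lam ∈ Fset n := by
  classical
  set C := {w | inC τ f w} with hC
  have : Fintype C := hfin.fintype
  set m := C.ncard with hm
  have hcard : Fintype.card C = m := by rw [hm, Set.ncard_eq_toFinset_card', Set.toFinset_card]
  let e : C ≃ Fin m := Fintype.equivFinOfCardEq hcard
  refine ⟨m, hn, fun i j => decide (((e.symm j : C) : L) ∈ treeG τ ((e.symm i : C) : L)), ?_⟩
  set M : Matrix (Fin m) (Fin m) ℝ := Matrix.of fun i j =>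
    if (decide (((e.symm j : C) : L) ∈ treeG τ ((e.symm i : C) : L))) = true then (1 : ℝ) else 0
    with hM
  let v : Fin m → ℝ := fun i => f (e.symm i : C)
  have hv : v ≠ 0 := by
    intro h
    have h1 : ([] : L) ∈ C := h0
    have := congrFun h (e ⟨[], h1⟩)
    simp [v] at this
    exact h0 this
  have hMv : M.mulVec v = lam • v := by
    ext i
    have h1 := hf _ (e.symm i).2
    rw [Pi.smul_apply, smul_eq_mul]
    change M.mulVec v i = lam * f (e.symm i : C)
    rw [← h1, Matrix.mulVec, dotProduct]
    have h2 : ∑ j, M i j * v j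
        = ∑ u : C, if (u : L) ∈ treeG τ ((e.symm i : C) : L) then f u else 0 := by
      rw [← Equiv.sum_comp e.symm]
      apply Finset.sum_congr rfl
      intro j _
      simp [hM, v]
    rw [h2, adjL_apply, ← Finset.sum_filter]
    have h3 : ∑ u ∈ treeG τ ((e.symm i : C) : L), f u
        = ∑ u ∈ (treeG τ ((e.symm i : C) : L)).filter (fun u => u ∈ C), f u := by
      symm
      apply Finset.sum_filter_of_ne
      intro u hu hne
      rw [mem_treeG] at hu
      have hw : inC τ f ((e.symm i : C) : L) := (e.symm i).2
      rcases hu with ⟨a, ha, rfl⟩ | ⟨a, ha, h4⟩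
      · exact (inC_snoc τ f _ a).2 ⟨hw, ha, hne⟩
      · rw [h4] at hw
        exact ((inC_snoc τ f _ a).1 hw).1
    rw [h3]
    apply Finset.sum_nbij (fun u : C => (u : L))
    · intro u hu
      rw [Finset.mem_filter] at hu ⊢
      exact ⟨hu.2, u.2⟩
    · intro u _ u' _ h; exact Subtype.ext h
    · intro u hu
      rw [Finset.mem_coe, Finset.mem_filter] at hu
      refine ⟨⟨u, hu.2⟩, ?_, rfl⟩
      rw [Finset.mem_coe, Finset.mem_filter]
      exact ⟨Finset.mem_univ _, hu.1⟩
    · intro u _; rfl
  rw [Polynomial.IsRoot.def, Matrix.eval_charpoly]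
  apply Matrix.exists_mulVec_eq_zero_iff.1
  refine ⟨v, hv, ?_⟩
  rw [Matrix.sub_mulVec]
  have : (Matrix.scalar (Fin m) lam).mulVec v = lam • v := by
    ext i; simp [Matrix.scalar_apply, Matrix.mulVec_diagonal]
  rw [this, hMv, sub_self]

/-! ### Defects, Wronskian -/

theorem defect {G : L → Finset L} {Δ : ℕ} {lam : ℝ} (hG : GoodG G Δ) {h f : L → ℝ}
    (hs : Summable fun w => h w ^ 2) {x y : L} {c d : ℝ}
    (hd : ∀ w, adjL G h w = lam * h w + (if w = x then c else 0) + (if w = y then d else 0))
    (hf : IsEig G lam f) : c * f x + d * f y = 0 := by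
  have h1 := adj_symm hG hs hf.1
  have e1 : ∀ w, adjL G h w * f w = lam * (h w * f w) + (if w = x then c * f w else 0)
      + (if w = y then d * f w else 0) := by
    intro w; rw [hd]; split_ifs <;> ring
  have e2 : ∀ w, h w * adjL G f w = lam * (h w * f w) := by
    intro w; rw [hf.2]; ring
  simp_rw [e1, e2] at h1
  have s0 : Summable fun w => lam * (h w * f w) := (summable_mul_of_sq hs hf.1).mul_left _
  have s1 : Summable fun w => if w = x then c * f w else 0 :=
    summable_of_ne_finset_zero (s := {x}) (fun b hb => by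
      rw [Finset.mem_singleton] at hb; simp [hb])
  have s2 : Summable fun w => if w = y then d * f w else 0 :=
    summable_of_ne_finset_zero (s := {y}) (fun b hb => by
      rw [Finset.mem_singleton] at hb; simp [hb])
  rw [(s0.add s1).tsum_add s2, s0.tsum_add s1] at h1
  rw [tsum_ite_eq, tsum_ite_eq] at h1
  linarith

/-- Descendants of `y`. -/
def Dset (y : L) : Set L := {w | y <+: w}

theorem Dset_edge {τ : L → ℕ} {y u w : L} (hu : u ∈ treeG τ w) (hy : u ∈ Dset y) (hw : w ∉ Dset y) :
    ∃ a < τ w, u = y ∧ y = w ++ [a] := by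
  rw [mem_treeG] at hu
  rcases hu with ⟨a, ha, rfl⟩ | ⟨a, ha, rfl⟩
  · refine ⟨a, ha, ?_⟩
    have h1 : y <+: w ++ [a] := hy
    rw [List.prefix_concat_iff] at h1
    rcases h1 with h1 | h1
    · exact ⟨h1.symm, h1⟩
    · exact absurd h1 hw
  · exfalso
    apply hw
    have h1 : y <+: u := hy
    exact h1.trans (List.prefix_append u [a])

theorem wronskian {τ : L → ℕ} {Δ : ℕ} {lam : ℝ} (hG : GoodG (treeG τ) Δ) {f g : L → ℝ}
    (hf : IsEig (treeG τ) lam f) (hg : IsEig (treeG τ) lam g) {x : L} {a : ℕ} (ha : a < τ x) :
    f x * g (x ++ [a]) = f (x ++ [a]) * g x := by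
  set y := x ++ [a] with hy
  have hxy : x ≠ y := by
    intro h
    have := congrArg List.length h
    simp [hy] at this
  have hx : x ∉ Dset y := by
    intro h
    have h1 : y <+: x := h
    have := h1.length_le
    simp [hy] at this
  have hyy : y ∈ Dset y := List.prefix_refl y
  have key := defect (G := treeG τ) (lam := lam) hG (h := cut (Dset y) f) (f := g)
    (cut_sq_summable hf.1 _) (x := x) (y := y) (c := f y) (d := - f x) (by
      intro w
      have h1 := hf.2 w
      rw [adjL_apply] at h1 ⊢
      by_cases hw : w ∈ Dset y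
      · have hwx : w ≠ x := by rintro rfl; exact hx hw
        have e1 : cut (Dset y) f w = f w := by simp [cut, hw]
        rw [e1, if_neg hwx, add_zero, ← h1]
        by_cases hwy : w = y
        · rw [hwy, if_pos rfl]
          have hxm : x ∈ treeG τ y := by
            rw [mem_treeG]; right; exact ⟨a, ha, hy⟩
          rw [← Finset.add_sum_erase _ _ hxm, ← Finset.add_sum_erase _ _ hxm]
          have e2 : cut (Dset y) f x = 0 := by simp [cut, hx]
          have e3 : ∑ u ∈ (treeG τ y).erase x, cut (Dset y) f u
              = ∑ u ∈ (treeG τ y).erase x, f u := by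
            apply Finset.sum_congr rfl
            intro u hu
            rw [Finset.mem_erase] at hu
            have : u ∈ Dset y := by
              by_contra hcon
              obtain ⟨b, hb, h3, h4⟩ := Dset_edge (treeG_symm hu.2) hyy hcon
              rw [hy] at h4
              have := List.append_inj_left' h4 rfl
              exact hu.1 this.symm
            simp [cut, this]
          rw [e2, e3]; ring
        · rw [if_neg hwy, add_zero]
          apply Finset.sum_congr rfl
          intro u hu
          have : u ∈ Dset y := by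
            by_contra hcon
            obtain ⟨b, hb, h3, h4⟩ := Dset_edge (treeG_symm hu) hw hcon
            exact hwy h3
          simp [cut, this]
      · have hwy : w ≠ y := by rintro rfl; exact hw hyy
        have e1 : cut (Dset y) f w = 0 := by simp [cut, hw]
        rw [e1, if_neg hwy, add_zero, mul_zero, zero_add]
        by_cases hwx : w = x
        · rw [hwx, if_pos rfl]
          have hym : y ∈ treeG τ x := by
            rw [mem_treeG]; left; exact ⟨a, ha, hy⟩
          rw [← Finset.add_sum_erase _ _ hym]
          have e2 : cut (Dset y) f y = f y := by simp [cut, hyy]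
          have e3 : ∑ u ∈ (treeG τ x).erase y, cut (Dset y) f u = 0 := by
            apply Finset.sum_eq_zero
            intro u hu
            rw [Finset.mem_erase] at hu
            have : u ∉ Dset y := by
              intro hcon
              obtain ⟨b, hb, h3, h4⟩ := Dset_edge hu.2 hcon hx
              exact hu.1 h3
            simp [cut, this]
          rw [e2, e3, add_zero]
        · rw [if_neg hwx]
          apply Finset.sum_eq_zero
          intro u hu
          have : u ∉ Dset y := by
            intro hcon
            obtain ⟨b, hb, h3, h4⟩ := Dset_edge hu hcon hw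
            rw [hy] at h4
            exact hwx (List.append_inj_left' h4 rfl).symm
          simp [cut, this]) hg
  linarith

/-- On the component of the root all eigenfunctions are proportional. -/
theorem prop_of_inC {τ : L → ℕ} {Δ : ℕ} {lam : ℝ} (hG : GoodG (treeG τ) Δ) {f g : L → ℝ}
    (hf : IsEig (treeG τ) lam f) (hg : IsEig (treeG τ) lam g) {w : L} (hw : inC τ f w) :
    g w * f [] = g [] * f w := by
  induction w using List.reverseRecOn with
  | nil => rfl
  | append_singleton w a ih =>
    obtain ⟨h1, h2, h3⟩ := (inC_snoc τ f w a).1 hw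
    have h4 := ih h1
    have h5 := wronskian hG hf hg h2
    have h6 := inC_ne h1
    apply mul_left_cancel₀ h6
    calc f w * (g (w ++ [a]) * f []) = (f w * g (w ++ [a])) * f [] := by ring
      _ = f (w ++ [a]) * (g w * f []) := by rw [h5]; ring
      _ = f (w ++ [a]) * (g [] * f w) := by rw [h4]
      _ = _ := by ring

end Pool.Agent.U204.SA
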