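import Pool.Agent.U204.SATree

set_option autoImplicit false
set_option linter.unusedSectionVars false
set_option linter.unusedVariables false
open Filter Topology

namespace Pool.Agent.U204.SA

variable {lam R : ℝ}

/-- Positivity of the root. -/
def Pos (lam R : ℝ) (τ : L → ℕ) : Prop := 0 < Kf lam R (treeG τ) [] []

theorem sub_sq_summable {f : L → ℝ} (hs : Summable fun w => f w ^ 2) (i : ℕ) :
    Summable fun w => sub i f w ^ 2 :=
  hs.comp_injective (i := fun w : L => i :: w) (List.cons_injective)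

theorem sub_eig {τ : L → ℕ} {f : L → ℝ} {i : ℕ} (hs : Summable fun w => f w ^ 2)
    (h : ∀ w, adjL (treeG τ) f (i :: w) = lam * f (i :: w)) (h0 : f [] = 0) :
    IsEig (treeG (sub i τ)) lam (sub i f) := by
  refine ⟨sub_sq_summable hs i, ?_⟩
  intro w
  have h1 := h w
  rw [adj_cons, h0] at h1
  simpa [sub] using h1

/-- Extension by zero from the branch `i`. -/
def ex (i : ℕ) (g : L → ℝ) : L → ℝ
  | [] => 0
  | j :: v => if j = i then g v else 0

theorem sub_ex (i j : ℕ) (g : L → ℝ) : sub j (ex i g) = if j = i then g else fun _ => 0 := by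
  ext w
  by_cases h : j = i <;> simp [sub, ex, h]

theorem ex_sq_summable {g : L → ℝ} (hs : Summable fun w => g w ^ 2) (i : ℕ) :
    Summable fun w => ex i g w ^ 2 := by
  have h := (List.cons_injective (a := i)).summable_iff (f := fun w => ex i g w ^ 2) (by
    intro w hw
    cases w with
    | nil => simp [ex]
    | cons j v =>
      by_cases hj : j = i
      · subst hj
        exact absurd ⟨v, rfl⟩ hw
      · simp [ex, hj])
  rw [← h]
  refine hs.congr ?_
  intro w
  simp [ex]

theorem adj_ex {τ : L → ℕ} {g : L → ℝ} {i : ℕ} (hg : IsEig (treeG (sub i τ)) lam g) (w : L) :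
    adjL (treeG τ) (ex i g) w = lam * ex i g w + if w = [] then (if i < τ [] then g [] else 0) else 0 := by
  cases w with
  | nil =>
    rw [adj_nil]
    simp only [ex, mul_zero, zero_add, if_true]
    rw [Finset.sum_ite_eq']
    simp [Finset.mem_range]
  | cons j v =>
    rw [adj_cons, sub_ex]
    by_cases hj : j = i
    · subst hj
      simp [ex, hg.2]
    · rw [if_neg hj]
      simp [ex, hj, adjL_apply]

theorem root_zero {τ : L → ℕ} {Δ : ℕ} (hG : GoodG (treeG τ) Δ) {i : ℕ} (hi : i < τ [])
    (hok : Ok (treeG (sub i τ)) Δ lam R) (hp : Pos lam R (sub i τ)) {f : L → ℝ}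
    (hf : IsEig (treeG τ) lam f) : f [] = 0 := by
  set g := Kf lam R (treeG (sub i τ)) [] with hg
  have hge : IsEig (treeG (sub i τ)) lam g := hok.isEig []
  have := defect (G := treeG τ) (lam := lam) hG (h := ex i g) (f := f) (ex_sq_summable hge.1 i)
    (x := []) (y := []) (c := g []) (d := 0) (by
      intro w
      rw [adj_ex hge, if_pos hi]
      simp) hf
  rw [zero_mul, add_zero] at this
  rcases mul_eq_zero.1 this with h | h
  · exact absurd h (ne_of_gt hp)
  · exact h

theorem child_pos {τ : L → ℕ} {Δ : ℕ} (hok : Ok (treeG τ) Δ lam R) {i j : ℕ} (hi : i < τ [])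
    (hj : j < τ []) (hij : i ≠ j)
    (hoki : Ok (treeG (sub i τ)) Δ lam R) (hpi : Pos lam R (sub i τ))
    (hokj : Ok (treeG (sub j τ)) Δ lam R) (hpj : Pos lam R (sub j τ)) :
    0 < Kf lam R (treeG τ) [i] [i] := by
  set gi := Kf lam R (treeG (sub i τ)) [] with hgi
  set gj := Kf lam R (treeG (sub j τ)) [] with hgj
  have hie := hoki.isEig []
  have hje := hokj.isEig []
  have hpi' : gi [] ≠ 0 := ne_of_gt hpi
  have hpj' : gj [] ≠ 0 := ne_of_gt hpj
  have hf : IsEig (treeG τ) lam (fun w => (gi [])⁻¹ * ex i gi w + (-(gj [])⁻¹) * ex j gj w) := by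
    refine ⟨summable_sq_lin (ex_sq_summable hie.1 i) (ex_sq_summable hje.1 j) _ _, ?_⟩
    intro w
    have h1 := adj_ex hie w
    have h2 := adj_ex hje w
    rw [adjL_apply] at h1 h2 ⊢
    rw [Finset.sum_add_distrib, ← Finset.mul_sum, ← Finset.mul_sum, h1, h2, if_pos hi, if_pos hj]
    by_cases hw : w = []
    · simp only [hw, if_true]
      field_simp
      ring
    · simp only [hw, if_false]
      ring
  refine hok.pos (x := [i]) hf ?_
  simp [ex, hij, hpi']

theorem emb_branch (τ : L → ℕ) (i : ℕ) :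
    Emb (treeG (sub i τ)) (delG (treeG τ) []) ⟨fun w => i :: w, List.cons_injective⟩ := by
  intro w
  ext u
  have h0 : ¬ (i :: w : L) = [] := by simp
  change u ∈ (if (i :: w : L) = [] then ∅ else (treeG τ (i :: w)).erase []) ↔ _
  rw [if_neg h0, Finset.mem_erase, mem_treeG, Finset.mem_map]
  constructor
  · rintro ⟨hu, h⟩
    rcases h with ⟨a, ha, rfl⟩ | ⟨a, ha, h⟩
    · refine ⟨w ++ [a], ?_, rfl⟩
      rw [mem_treeG]; left; exact ⟨a, ha, rfl⟩
    · cases u with
      | nil => exact absurd rfl hu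
      | cons j v =>
        rw [List.cons_append, List.cons.injEq] at h
        obtain ⟨rfl, rfl⟩ := h
        refine ⟨v, ?_, rfl⟩
        rw [mem_treeG]; right; exact ⟨a, ha, rfl⟩
  · rintro ⟨v, hv, rfl⟩
    change (i :: v : L) ≠ [] ∧ _
    refine ⟨by simp, ?_⟩
    rw [mem_treeG] at hv
    rcases hv with ⟨a, ha, rfl⟩ | ⟨a, ha, rfl⟩
    · left; exact ⟨a, ha, rfl⟩
    · right; exact ⟨a, ha, rfl⟩

theorem Kf_branch (τ : L → ℕ) (i : ℕ) (x y : L) :
    Kf lam R (delG (treeG τ) []) (i :: x) (i :: y) = Kf lam R (treeG (sub i τ)) x y :=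
  Kf_emb (emb_branch τ i) lam R x y

/-- Energies of branches. -/
theorem branch_energy {f : L → ℝ} (hs : Summable fun w => f w ^ 2) (s : Finset ℕ) :
    ∑ j ∈ s, ∑' w, sub j f w ^ 2 ≤ ∑' w, f w ^ 2 := by
  have h1 : ∀ j, ∑' w, sub j f w ^ 2 = ∑' w, ex j (sub j f) w ^ 2 := by
    intro j
    have h := (List.cons_injective (a := j)).tsum_eq (f := fun w => ex j (sub j f) w ^ 2) (by
      intro w hw
      cases w with
      | nil => simp [ex] at hw
      | cons i v =>
        by_cases hj : i = j
        · subst hj; exact ⟨v, rfl⟩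
        · simp [ex, hj] at hw)
    rw [← h]
    congr 1
    ext w
    simp [ex]
  simp_rw [h1]
  rw [← Summable.tsum_finsetSum (fun j _ => ex_sq_summable (sub_sq_summable hs j) j)]
  apply Summable.tsum_le_tsum _ _ hs
  · intro w
    cases w with
    | nil => simp [ex]; positivity
    | cons i v =>
      have : ∀ j ∈ s, ex j (sub j f) (i :: v) ^ 2 = if i = j then f (i :: v) ^ 2 else 0 := by
        intro j _
        by_cases hj : i = j
        · subst hj; simp [ex, sub]
        · simp [ex, hj]
      rw [Finset.sum_congr rfl this, Finset.sum_ite_eq]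
      split_ifs
      · exact le_rfl
      · positivity
  · exact summable_sum (fun j _ => ex_sq_summable (sub_sq_summable hs j) j)

/-- Share of the root. -/
theorem share_le {τ : L → ℕ} {Δ : ℕ} (hok : Ok (treeG τ) Δ lam R)
    (hoks : ∀ j, Ok (treeG (sub j τ)) Δ lam R) {i : ℕ} (hi : i < τ [])
    (hpi : Pos lam R (sub i τ)) (hp : 0 < Kf lam R (treeG τ) [i] [i]) :
    Kf lam R (treeG (sub i τ)) [] [] / ∑ j ∈ Finset.range (τ []), Kf lam R (treeG (sub j τ)) [] []
      ≤ 1 - Kf lam R (treeG τ) [i] [i] / Kf lam R (delG (treeG τ) []) [i] [i] := by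
  rw [Kf_branch]
  set f := Kf lam R (treeG τ) [i] with hf
  set m : ℕ → ℝ := fun j => Kf lam R (treeG (sub j τ)) [] [] with hm
  have hfe : IsEig (treeG τ) lam f := hok.isEig [i]
  have h0 : f [] = 0 := root_zero hok.good hi (hoks i) hpi hfe
  have hsub : ∀ j, IsEig (treeG (sub j τ)) lam (sub j f) := fun j =>
    sub_eig hfe.1 (fun w => hfe.2 _) h0
  have hcs : ∀ j, f [j] ^ 2 ≤ m j * ∑' w, sub j f w ^ 2 := fun j => (hoks j).CS [] (hsub j)
  have hm0 : ∀ j, 0 ≤ m j := fun j => (hoks j).nonneg []
  have hmi : 0 < m i := hpi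
  have hF0 : ∀ j, 0 ≤ ∑' w, sub j f w ^ 2 := fun j => tsum_nonneg fun w => sq_nonneg _
  have hmem : i ∈ Finset.range (τ []) := Finset.mem_range.2 hi
  have hsum : f [i] + ∑ j ∈ (Finset.range (τ [])).erase i, f [j] = 0 := by
    rw [Finset.add_sum_erase _ (fun j => f [j]) hmem]
    have := hfe.2 []
    rw [adj_nil, h0, mul_zero] at this
    exact this
  set S := ∑ j ∈ (Finset.range (τ [])).erase i, m j with hS
  set b := ∑ j ∈ (Finset.range (τ [])).erase i, ∑' w, sub j f w ^ 2 with hb
  set a := ∑' w, sub i f w ^ 2 with ha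
  have hS0 : 0 ≤ S := Finset.sum_nonneg fun j _ => hm0 j
  have hSsum : ∑ j ∈ Finset.range (τ []), m j = m i + S := (Finset.add_sum_erase _ _ hmem).symm
  have h2 : f [i] ^ 2 ≤ S * b := by
    have : f [i] = - ∑ j ∈ (Finset.range (τ [])).erase i, f [j] := by linarith
    rw [this, neg_sq]
    apply Finset.sum_sq_le_sum_mul_sum_of_sq_le_mul
    · intro j _; exact hm0 j
    · intro j _; exact hF0 j
    · intro j _; exact hcs j
  have h3 : f [i] ^ 2 ≤ m i * a := hcs i
  have h4 : a + b ≤ f [i] := by
    have h5 := branch_energy hfe.1 (Finset.range (τ []))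
    rw [← Finset.add_sum_erase _ _ hmem] at h5
    have h6 : f [i] = ∑' w, f w ^ 2 := hok.self [i]
    rw [h6]; exact h5
  change m i / ∑ j ∈ Finset.range (τ []), m j ≤ 1 - f [i] / m i
  rw [hSsum]
  have hM : 0 < f [i] := hp
  have h7 : f [i] ^ 2 * (m i + S) ≤ m i * S * f [i] := by
    have e1 : f [i] ^ 2 * m i ≤ S * b * m i := mul_le_mul_of_nonneg_right h2 hmi.le
    have e2 : f [i] ^ 2 * S ≤ m i * a * S := mul_le_mul_of_nonneg_right h3 hS0
    have e3 : m i * S * (a + b) ≤ m i * S * f [i] :=
      mul_le_mul_of_nonneg_left h4 (mul_nonneg hmi.le hS0)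
    nlinarith
  have h8 : f [i] * (m i + S) ≤ m i * S := by
    have : f [i] * (f [i] * (m i + S)) ≤ f [i] * (m i * S) := by nlinarith
    exact le_of_mul_le_mul_left this hM
  have hpos : 0 < m i + S := by linarith
  have h9 : f [i] / m i ≤ S / (m i + S) := by
    rw [div_le_div_iff₀ hmi hpos]; linarith
  have h10 : m i / (m i + S) = 1 - S / (m i + S) := by field_simp; ring
  rw [h10]; linarith

/-- Boundary shares are dominated by energies. -/
theorem bdry_share {τ : L → ℕ} {Δ : ℕ} (hok : Ok (treeG τ) Δ lam R)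
    {x : L} {a : ℕ} (ha : a < τ x) (hx : inC τ (Kf lam R (treeG τ) []) x)
    (hz : Kf lam R (treeG τ) (x ++ [a]) (x ++ [a]) = 0) :
    (1 - Kf lam R (treeG τ) x x / Kf lam R (delG (treeG τ) (x ++ [a])) x x)
      * Kf lam R (treeG τ) [] []
      ≤ ∑' w, cut (Dset (x ++ [a])) (Kf lam R (treeG τ) []) w ^ 2 := by
  set z := x ++ [a] with hzd
  set G' := delG (treeG τ) z with hG'
  set f := Kf lam R (treeG τ) [] with hf
  have hok' : Ok G' Δ lam R := hok.del z
  have hfe : IsEig (treeG τ) lam f := hok.isEig []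
  have hfz : f z = 0 := hok.zero hz hfe
  have hfe' : IsEig G' lam f := hfe.del hfz
  have hfx : f x ≠ 0 := inC_ne hx
  have hxz : x ∉ Dset z := by
    intro h
    have h1 : z <+: x := h
    have := h1.length_le
    simp [hzd] at this
  have hclosed : ∀ w, ∀ u ∈ G' w, (u ∈ (Dset z)ᶜ ↔ w ∈ (Dset z)ᶜ) := by
    intro w u hu
    have hzz : z ∈ Dset z := List.prefix_refl z
    by_cases hwz : w = z
    · rw [hG', delG, if_pos hwz] at hu
      simp at hu
    · rw [hG', delG, if_neg hwz, Finset.mem_erase] at hu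
      rw [Set.mem_compl_iff, Set.mem_compl_iff, not_iff_not]
      constructor
      · intro h1
        by_contra h2
        obtain ⟨b, hb, h3, h4⟩ := Dset_edge hu.2 h1 h2
        exact hu.1 h3
      · intro h1
        by_contra h2
        obtain ⟨b, hb, h3, h4⟩ := Dset_edge (treeG_symm hu.2) h1 h2
        exact hwz h3
  set k := Kf lam R G' x with hk
  have hke : IsEig G' lam k := hok'.isEig x
  have hm : 0 < k x := hok'.pos hfe' hfx
  -- the function orthogonal to f
  set U := (Dset z)ᶜ with hU
  have hxU : x ∈ U := hxz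
  have hg : IsEig (treeG τ) lam (cut U (fun w => k x * f w + (- f x) * k w)) := by
    apply IsEig.of_del (z := z)
    · exact (hfe'.lin hke _ _).cut hclosed
    · have : z ∉ U := by
        intro h; exact h (List.prefix_refl z)
      simp [cut, this]
    · rw [← Finset.add_sum_erase _ _ (mem_treeG.2 (Or.inr ⟨a, ha, hzd⟩) : x ∈ treeG τ z)]
      have e1 : cut U (fun w => k x * f w + (- f x) * k w) x = 0 := by
        simp [cut, hxU]; ring
      rw [e1, zero_add]
      apply Finset.sum_eq_zero
      intro u hu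
      rw [Finset.mem_erase, mem_treeG] at hu
      have : u ∉ U := by
        rcases hu.2 with ⟨b, hb, h1⟩ | ⟨b, hb, h1⟩
        · intro h
          apply h
          rw [h1]; exact List.prefix_append z [b]
        · exfalso
          apply hu.1
          rw [hzd] at h1
          exact (List.append_inj_left' h1 rfl).symm
      simp [cut, this]
  have hgx := prop_of_inC hok.good hfe hg hx
  have e1 : cut U (fun w => k x * f w + (- f x) * k w) x = 0 := by
    simp [cut, hxU]; ring
  rw [e1, zero_mul] at hgx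
  have hg0 : cut U (fun w => k x * f w + (- f x) * k w) [] = 0 := by
    rcases mul_eq_zero.1 hgx.symm with h | h
    · exact h
    · exact absurd h hfx
  have horth := hok.repro [] hg
  rw [hg0] at horth
  -- compute
  have hcf : IsEig G' lam (cut U f) := hfe'.cut hclosed
  have h1 : ∑' w, k w * cut U f w = f x := by
    have := hok'.repro x hcf
    rw [this]; simp [cut, hxU]
  have e2 : ∀ w, f w * cut U (fun w => k x * f w + (- f x) * k w) w
      = k x * cut U f w ^ 2 + (- f x) * (k w * cut U f w) := by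
    intro w
    by_cases hw : w ∈ U
    · simp [cut, hw]; ring
    · simp [cut, hw]
  simp_rw [← hf, e2] at horth
  rw [((cut_sq_summable hfe.1 U).mul_left _).tsum_add
    ((summable_mul_of_sq hke.1 (cut_sq_summable hfe.1 U)).mul_left _), tsum_mul_left,
    tsum_mul_left, h1] at horth
  -- energies
  have hadd := cut_sq_add hfe.1 U
  have hUc : Uᶜ = Dset z := compl_compl _
  rw [hUc] at hadd
  have hself : f [] = ∑' w, f w ^ 2 := hok.self []
  set au := ∑' w, cut U f w ^ 2 with hau
  -- M_x M_[] = f x ^2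
  have hMx : Kf lam R (treeG τ) x x * f [] = f x ^ 2 := by
    have h2 := prop_of_inC hok.good hfe (hok.isEig x) hx
    rw [h2, hok.symm x []]
    ring
  have h3 : (1 - Kf lam R (treeG τ) x x / k x) * f [] = f [] - f x ^ 2 / k x := by
    rw [← hMx]; ring
  rw [h3]
  have h4 : au = f x ^ 2 / k x := by
    field_simp
    nlinarith
  rw [← h4, hself, ← hadd]
  linarith

end Pool.Agent.U204.SA
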