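import Pool.Agent.U204.SATree2

set_option autoImplicit false
set_option linter.unusedSectionVars false
set_option linter.unusedVariables false
open Filter Topology

namespace Pool.Agent.U204.SA

variable {lam R : ℝ}

theorem ok_tree {D : ℕ} {τ : L → ℕ} (hRp : 0 < R) (hR : ((D + 1 : ℕ) : ℝ) + |lam| ≤ R)
    (hD : ∀ w, τ w ≤ D) : Ok (treeG τ) (D + 1) lam R :=
  ⟨treeG_good hD, hRp, hR⟩

/-- Some child of the root carries a positive planted tree. -/
def Zp (lam R : ℝ) (τ : L → ℕ) : Prop := ∃ j < τ [], Pos lam R (sub j τ)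

/-- The finite-depth recursive event. -/
def An (lam R : ℝ) : ℕ → (L → ℕ) → Prop
  | 0, _ => False
  | n + 1, τ => ∀ i < τ [], An lam R n (sub i τ) ∨ Zp lam R (sub i τ)

def Yp (lam R : ℝ) (τ : L → ℕ) : Prop := (∃ n, An lam R n τ) ∨ Zp lam R τ

def Wp (lam R : ℝ) : ℕ → (L → ℕ) → Prop
  | 0, τ => Yp lam R τ
  | n + 1, τ => (τ [] = 1 ∧ Wp lam R n (sub 0 τ)) ∨
      (2 ≤ τ [] ∧ Yp lam R (sub 0 τ) ∧ Yp lam R (sub 1 τ))

/-- If the eigenfunction vanishes at the child `i`, there is a positive grandchild. -/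
theorem Zp_of {D : ℕ} {τ : L → ℕ} (hRp : 0 < R) (hR : ((D + 1 : ℕ) : ℝ) + |lam| ≤ R)
    (hD : ∀ w, τ w ≤ D) {f : L → ℝ} (hs : Summable fun w => f w ^ 2)
    (he : ∀ i w, adjL (treeG τ) f (i :: w) = lam * f (i :: w)) (h0 : f [] ≠ 0)
    {i : ℕ} (hi : i < τ []) (hfi : f [i] = 0) : Zp lam R (sub i τ) := by
  have h1 := he i []
  rw [adj_cons, adj_nil, hfi, mul_zero, if_pos ⟨rfl, hi⟩] at h1
  have h2 : ∃ b ∈ Finset.range (sub i τ []), sub i f [b] ≠ 0 := by
    by_contra hcon
    push Not at hcon
    rw [Finset.sum_eq_zero hcon, zero_add] at h1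
    exact h0 h1
  obtain ⟨b, hb, hfb⟩ := h2
  refine ⟨b, Finset.mem_range.1 hb, ?_⟩
  have h3 : IsEig (treeG (sub b (sub i τ))) lam (sub b (sub i f)) := by
    apply sub_eig (sub_sq_summable hs i)
    · intro w
      have h4 := he i (b :: w)
      rw [adj_cons] at h4
      simpa [sub] using h4
    · exact hfi
  exact (ok_tree hRp hR (fun w => hD _)).pos h3 hfb

theorem eq_sub {τ : L → ℕ} {f : L → ℝ}
    (he : ∀ i w, adjL (treeG τ) f (i :: w) = lam * f (i :: w)) (i : ℕ) :
    ∀ j w, adjL (treeG (sub i τ)) (sub i f) (j :: w) = lam * sub i f (j :: w) := by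
  intro j w
  have h4 := he i (j :: w)
  rw [adj_cons] at h4
  simpa [sub] using h4

theorem An_of {D : ℕ} (hRp : 0 < R) (hR : ((D + 1 : ℕ) : ℝ) + |lam| ≤ R) (n : ℕ) :
    ∀ {τ : L → ℕ} (hD : ∀ w, τ w ≤ D) {f : L → ℝ} (hs : Summable fun w => f w ^ 2)
    (he : ∀ i w, adjL (treeG τ) f (i :: w) = lam * f (i :: w)) (h0 : f [] ≠ 0)
    (hn : ∀ w, inC τ f w → w.length < n), An lam R n τ := by
  induction n with
  | zero =>
    intro τ hD f hs he h0 hn
    exact absurd (hn [] h0) (by simp)
  | succ n ih =>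
    intro τ hD f hs he h0 hn i hi
    by_cases hfi : f [i] = 0
    · right; exact Zp_of hRp hR hD hs he h0 hi hfi
    · left
      refine ih (f := sub i f) (fun w => hD _) (sub_sq_summable hs i) (eq_sub he i) hfi ?_
      intro w hw
      have := hn (i :: w) ⟨h0, hi, hw⟩
      simpa using this

theorem Yp_child {n : ℕ} {τ : L → ℕ} (h : An lam R n τ) {i : ℕ} (hi : i < τ []) :
    Yp lam R (sub i τ) := by
  cases n with
  | zero => exact absurd h (by simp [An])
  | succ n =>
    rcases h i hi with h1 | h1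
    · left; exact ⟨n, h1⟩
    · right; exact h1

theorem fin_bound {S : Set L} (h : S.Finite) : ∃ n, ∀ w ∈ S, w.length < n := by
  obtain ⟨n, hn⟩ := (h.image List.length).bddAbove
  refine ⟨n + 1, fun w hw => ?_⟩
  exact Nat.lt_succ_of_le (hn ⟨w, hw, rfl⟩)

theorem Wp_of {D : ℕ} (hRp : 0 < R) (hR : ((D + 1 : ℕ) : ℝ) + |lam| ≤ R) (j : ℕ) :
    ∀ {τ : L → ℕ} (hD : ∀ w, τ w ≤ D) (h1 : ∀ w, 1 ≤ τ w) {f : L → ℝ}
    (hs : Summable fun w => f w ^ 2)
    (he : ∀ i w, adjL (treeG τ) f (i :: w) = lam * f (i :: w)) (h0 : f [] ≠ 0)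
    (hfin : {w | inC τ f w}.Finite) (hj : j ≤ {w | inC τ f w}.ncard), Wp lam R j τ := by
  induction j with
  | zero =>
    intro τ hD h1 f hs he h0 hfin hj
    obtain ⟨n, hn⟩ := fin_bound hfin
    left
    exact ⟨n, An_of hRp hR n hD hs he h0 hn⟩
  | succ j ih =>
    intro τ hD h1 f hs he h0 hfin hj
    obtain ⟨n, hn⟩ := fin_bound hfin
    have hA : An lam R n τ := An_of hRp hR n hD hs he h0 hn
    rcases Nat.lt_or_ge (τ []) 2 with h2 | h2
    · left
      have h3 : τ [] = 1 := le_antisymm (by omega) (h1 [])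
      refine ⟨h3, ?_⟩
      have h0' : 0 < τ [] := by omega
      by_cases hf0 : f [0] = 0
      · have hC : {w | inC τ f w} = {[]} := by
          ext w
          constructor
          · intro hw
            cases w with
            | nil => rfl
            | cons i w =>
              exfalso
              have h4 : inC τ f [i] := inC_prefix (by simp) hw
              have h5 := h4.2.1
              have h6 : i = 0 := by omega
              subst h6
              exact inC_ne h4 hf0
          · intro hw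
            rw [Set.mem_singleton_iff] at hw
            subst hw; exact h0
        rw [hC, Set.ncard_singleton] at hj
        have hj0 : j = 0 := by omega
        subst hj0
        exact Yp_child hA h0'
      · have hC : {w | inC τ f w}
            = insert [] ((fun w => 0 :: w) '' {w | inC (sub 0 τ) (sub 0 f) w}) := by
          ext w
          constructor
          · intro hw
            cases w with
            | nil => left; rfl
            | cons i w =>
              right
              have h4 : inC τ f [i] := inC_prefix (by simp) hw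
              have h5 := h4.2.1
              have h6 : i = 0 := by omega
              subst h6
              exact ⟨w, hw.2.2, rfl⟩
          · rintro (rfl | ⟨w, hw, rfl⟩)
            · exact h0
            · exact ⟨h0, h0', hw⟩
        have hfin' : {w | inC (sub 0 τ) (sub 0 f) w}.Finite := by
          have h5 : ((fun w => 0 :: w) '' {w | inC (sub 0 τ) (sub 0 f) w}).Finite :=
            hfin.subset (by rw [hC]; exact Set.subset_insert _ _)
          exact Set.Finite.of_finite_image h5 (List.cons_injective.injOn)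
        apply ih (τ := sub 0 τ) (f := sub 0 f) (fun w => hD _) (fun w => h1 _) (sub_sq_summable hs 0)
          (eq_sub he 0) hf0 hfin'
        rw [hC, Set.ncard_insert_of_notMem (by simp) (hfin'.image _),
          Set.ncard_image_of_injective _ List.cons_injective] at hj
        omega
    · right
      exact ⟨h2, Yp_child hA (by omega), Yp_child hA (by omega)⟩

/-- The block of the root has elements of every length. -/
def Inf (lam R : ℝ) (τ : L → ℕ) : Prop :=
  ∀ n : ℕ, ∃ w, inC τ (Kf lam R (treeG τ) []) w ∧ w.length = n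

theorem not_Inf {τ : L → ℕ} (h : ¬ Inf lam R τ) :
    ∃ n, ∀ w, inC τ (Kf lam R (treeG τ) []) w → w.length < n := by
  unfold Inf at h
  push Not at h
  obtain ⟨n, hn⟩ := h
  refine ⟨n, fun w hw => ?_⟩
  by_contra hcon
  exact hn (w.take n) (inC_prefix (List.take_prefix n w) hw) (by simp; omega)

theorem planted_Wp {D : ℕ} (hRp : 0 < R) (hR : ((D + 1 : ℕ) : ℝ) + |lam| ≤ R) {n0 : ℕ}
    (hF : lam ∉ Fset n0) {τ : L → ℕ} (hD : ∀ w, τ w ≤ D) (h1 : ∀ w, 1 ≤ τ w)
    (hp : Pos lam R τ) (hi : ¬ Inf lam R τ) : Wp lam R n0 τ := by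
  obtain ⟨n, hn⟩ := not_Inf hi
  have hok := ok_tree hRp hR hD
  have hfin : {w | inC τ (Kf lam R (treeG τ) []) w}.Finite := by
    apply (inC_finite n τ (Kf lam R (treeG τ) [])).subset
    intro w hw
    exact ⟨hw, (hn w hw).le⟩
  have h0 : Kf lam R (treeG τ) [] [] ≠ 0 := ne_of_gt hp
  refine Wp_of hRp hR n0 hD h1 (hok.isEig []).1 (fun i w => (hok.isEig []).2 _) h0 hfin ?_
  by_contra hcon
  push Not at hcon
  exact hF (Fset_mem h0 (fun w _ => (hok.isEig []).2 w) hfin hcon)

/-! ### Reachability and blocks -/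

theorem inC_of_reach {D : ℕ} {τ : L → ℕ} (hRp : 0 < R) (hR : ((D + 1 : ℕ) : ℝ) + |lam| ≤ R)
    (hD : ∀ w, τ w ≤ D) {n : ℕ} {x : L} (h : reach lam R (treeG τ) n x []) :
    inC τ (Kf lam R (treeG τ) []) x := by
  have hok := ok_tree hRp hR hD
  induction n generalizing x with
  | zero =>
    obtain ⟨h1, h2⟩ := h
    subst h1
    exact ne_of_gt h2
  | succ n ih =>
    rcases h with h | ⟨h1, u, hu, h2⟩
    · exact ih h
    · have h3 := ih h2
      rw [mem_treeG] at hu
      rcases hu with ⟨a, ha, rfl⟩ | ⟨a, ha, rfl⟩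
      · exact ((inC_snoc _ _ _ _).1 h3).1
      · rw [inC_snoc]
        refine ⟨h3, ha, ?_⟩
        intro h4
        have h5 := wronskian hok.good (hok.isEig []) (hok.isEig (u ++ [a])) ha
        rw [h4, zero_mul] at h5
        rcases mul_eq_zero.1 h5 with h6 | h6
        · exact inC_ne h3 h6
        · exact absurd h6 (ne_of_gt h1)

/-- Restriction to the descendants of `p`. -/
def subs {α : Type*} (p : L) (f : L → α) : L → α := fun w => f (p ++ w)

theorem sub_subs {α : Type*} (p : L) (i : ℕ) (f : L → α) : sub i (subs p f) = subs (p ++ [i]) f := by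
  ext w; simp [sub, subs]

theorem reach_of_inC {D : ℕ} {τ : L → ℕ} (hRp : 0 < R) (hR : ((D + 1 : ℕ) : ℝ) + |lam| ≤ R)
    (hD : ∀ w, τ w ≤ D) {f : L → ℝ} (hf : IsEig (treeG τ) lam f) {p w : L}
    (h : inC (subs p τ) (subs p f) w) : reach lam R (treeG τ) w.length p (p ++ w) := by
  have hok := ok_tree hRp hR hD
  induction w generalizing p with
  | nil =>
    have h1 : f p ≠ 0 := by simpa [inC, subs] using h
    simp only [List.append_nil, List.length_nil, reach, true_and]
    exact hok.pos hf h1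
  | cons i w ih =>
    obtain ⟨h1, h2, h3⟩ := h
    rw [sub_subs, sub_subs] at h3
    have h4 := ih h3
    rw [List.append_assoc, List.singleton_append] at h4
    right
    refine ⟨hok.pos hf (x := p) (by simpa [subs] using h1), p ++ [i], ?_, h4⟩
    rw [mem_treeG]
    left
    exact ⟨i, by simpa [subs] using h2, rfl⟩

/-- Two eigenfunctions nonvanishing at the root have the same root block. -/
theorem inC_congr {τ : L → ℕ} {Δ : ℕ} (hG : GoodG (treeG τ) Δ) {f g : L → ℝ}
    (hf : IsEig (treeG τ) lam f) (hg : IsEig (treeG τ) lam g) (hg0 : g [] ≠ 0) {w : L}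
    (h : inC τ f w) : inC τ g w := by
  induction w using List.reverseRecOn with
  | nil => exact hg0
  | append_singleton w a ih =>
    obtain ⟨h1, h2, h3⟩ := (inC_snoc τ f w a).1 h
    rw [inC_snoc]
    refine ⟨ih h1, h2, ?_⟩
    intro h4
    have h5 := prop_of_inC hG hf hg h
    rw [h4, zero_mul] at h5
    rcases mul_eq_zero.1 h5.symm with h6 | h6
    · exact hg0 h6
    · exact h3 h6

end Pool.Agent.U204.SA
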